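import Pool.Agent.LibNC38.C3a

set_option autoImplicit false

open Matrix MeasureTheory Topology Filter

namespace LibNC38

theorem dg_cont {n : ℕ} : Continuous fun x : PD n × PD n => dg x.1 x.2 := by
  obtain ⟨h0, h1, h2, h3⟩ := @dg_facts n
  rw [continuous_iff_continuousAt]
  rintro ⟨p, q⟩
  rw [ContinuousAt, Metric.tendsto_nhds]
  intro ε hε
  have e1 := (dg_nhds p).2 (ε / 2) (by positivity)
  have e2 := (dg_nhds q).2 (ε / 2) (by positivity)
  rw [nhds_prod_eq]
  filter_upwards [e1.prod_mk e2] with x hx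
  obtain ⟨ha, hb⟩ := hx
  rw [Real.dist_eq, abs_lt]
  have t1 := h3 x.1 p x.2
  have t2 := h3 p q x.2
  have t3 := h3 p x.1 q
  have t4 := h3 x.1 x.2 q
  have s1 := h2 x.1 p
  have s2 := h2 x.2 q
  constructor <;> linarith

/-- the positive semidefinite matrices form a closed set -/
private theorem c3_psd_closed {n : ℕ} :
    IsClosed {m : Matrix (Fin n) (Fin n) ℝ | m.PosSemidef} := by
  have h : {m : Matrix (Fin n) (Fin n) ℝ | m.PosSemidef} =
      {m | m.conjTranspose = m} ∩
        ⋂ x : Fin n →₀ ℝ, {m | 0 ≤ x.sum fun i xi => x.sum fun j xj => star xi * m i j * xj} := by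
    ext m
    simp only [Set.mem_inter_iff, Set.mem_iInter]
    exact Iff.rfl
  rw [h]
  refine IsClosed.inter (isClosed_eq (by fun_prop) continuous_id) (isClosed_iInter fun x => ?_)
  refine isClosed_le continuous_const ?_
  unfold Finsupp.sum
  refine continuous_finsetSum _ fun i _ => continuous_finsetSum _ fun j _ => ?_
  exact (continuous_const.mul (continuous_id.matrix_elem i j)).mul continuous_const

/-- a subset of the space with bounded entries is contained in a compact set (for D2): the closed
set of `q` with entries bounded by `B` is compact, same reason. -/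
theorem entries_cpt {n : ℕ} (B : ℝ) : IsCompact {q : PD n | ∀ i j, |q.1 i j| ≤ B} := by
  rw [Topology.IsEmbedding.subtypeVal.isCompact_iff]
  have h : (Subtype.val '' {q : PD n | ∀ i j, |q.1 i j| ≤ B} : Set (Matrix (Fin n) (Fin n) ℝ)) =
      (Set.univ.pi fun _ : Fin n => Set.univ.pi fun _ : Fin n => Set.Icc (-B) B) ∩
        ({m : Matrix (Fin n) (Fin n) ℝ | m.PosSemidef} ∩ {m : Matrix (Fin n) (Fin n) ℝ | m.det = 1}) := by
    ext m
    constructor
    · rintro ⟨q, hq, rfl⟩
      exact ⟨fun i _ j _ => abs_le.1 (hq i j), q.2.1.posSemidef, q.2.2⟩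
    · rintro ⟨h1, h2, h3⟩
      have h3' : m.det = 1 := h3
      have h4 : m.PosDef := by
        rw [Matrix.PosSemidef.posDef_iff_isUnit h2, Matrix.isUnit_iff_isUnit_det, h3']
        exact isUnit_one
      exact ⟨⟨m, h4, h3⟩, fun i j => abs_le.2 (h1 i (Set.mem_univ i) j (Set.mem_univ j)), rfl⟩
  rw [h]
  refine IsCompact.inter_right ?_ ?_
  · exact isCompact_univ_pi fun _ => isCompact_univ_pi fun _ => isCompact_Icc
  · exact c3_psd_closed.inter (isClosed_eq (Continuous.matrix_det continuous_id) continuous_const)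

private theorem c3_entry {n : ℕ} (k : SL n) (z : V0 n) (hk : k.1 * k.1ᵀ = 1) (i j : Fin n) :
    |(act k (sg z)).1 i j| ≤ n * Real.exp (2 * ‖z‖) := by
  have hk1 : ∀ i l, |k.1 i l| ≤ 1 := by
    intro i l
    have h1 : ∑ l, k.1 i l * k.1 i l = 1 := by
      have := congrFun (congrFun hk i) i
      rw [Matrix.mul_apply] at this
      simpa [Matrix.transpose_apply] using this
    have h2 : k.1 i l * k.1 i l ≤ ∑ l, k.1 i l * k.1 i l :=
      Finset.single_le_sum (fun l _ => mul_self_nonneg (k.1 i l)) (Finset.mem_univ l)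
    rw [h1] at h2
    exact abs_le_one_iff_mul_self_le_one.2 h2
  have hz : ∀ l, z.1 l ≤ ‖z‖ := by
    intro l
    have h1 := PiLp.norm_apply_le z.1 l
    exact (le_abs_self _).trans h1
  have hsg : (sg z).1 = Matrix.diagonal fun i => Real.exp (2 * z.1 i) := flat_facts.1 z
  have he : (act k (sg z)).1 i j = ∑ l, k.1 i l * Real.exp (2 * z.1 l) * k.1 j l := by
    have h1 : (act k (sg z)).1 = k.1 * (Matrix.diagonal fun i => Real.exp (2 * z.1 i)) * k.1ᵀ := by
      rw [← hsg]
      rfl
    rw [h1, Matrix.mul_apply]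
    refine Finset.sum_congr rfl fun l _ => ?_
    rw [Matrix.mul_diagonal, Matrix.transpose_apply]
  rw [he]
  calc |∑ l, k.1 i l * Real.exp (2 * z.1 l) * k.1 j l|
      ≤ ∑ l, |k.1 i l * Real.exp (2 * z.1 l) * k.1 j l| := Finset.abs_sum_le_sum_abs _ _
    _ ≤ ∑ _l : Fin n, Real.exp (2 * ‖z‖) := by
        refine Finset.sum_le_sum fun l _ => ?_
        rw [abs_mul, abs_mul, abs_of_pos (Real.exp_pos _)]
        have h1 := hk1 i l
        have h2 := hk1 j l
        have h3 : Real.exp (2 * z.1 l) ≤ Real.exp (2 * ‖z‖) := by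
          apply Real.exp_le_exp.2
          linarith [hz l]
        calc |k.1 i l| * Real.exp (2 * z.1 l) * |k.1 j l|
            ≤ 1 * Real.exp (2 * ‖z‖) * 1 := by gcongr
          _ = Real.exp (2 * ‖z‖) := by ring
    _ = n * Real.exp (2 * ‖z‖) := by
        rw [Finset.sum_const, Finset.card_univ, Fintype.card_fin, nsmul_eq_mul]

private theorem c3_sg0 {n : ℕ} : sg (0 : V0 n) = o n := by
  apply Subtype.ext
  rw [flat_facts.1]
  have h : (fun i : Fin n => Real.exp (2 * (0 : V0 n).1 i)) = fun _ => 1 := by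
    funext i
    simp
  rw [h, Matrix.diagonal_one]
  rfl

private theorem c3_o {n : ℕ} (k : SL n) (hk : k.1 * k.1ᵀ = 1) : act k (o n) = o n := by
  apply Subtype.ext
  change k.1 * 1 * k.1ᵀ = 1
  rw [mul_one, hk]

/-- Row C3c. Closed balls are compact: `dg (o n) q ≤ R` bounds the entries of `q` (the eigenvalues
`exp (2 z i)` are at most `exp R`), the set is closed in the space of matrices: a limit `q` of
positive definite matrices of determinant one is positive semidefinite of determinant one, hence
positive definite; and `dg (o n)` is continuous by C3b. For the general centre use the triangle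
inequality (`{q | dg p q ≤ R}` is a closed subset of a ball around `o n`). -/
theorem dg_ball {n : ℕ} (p : PD n) (R : ℝ) : IsCompact {q : PD n | dg p q ≤ R} := by
  obtain ⟨h0, h1, h2, h3⟩ := @dg_facts n
  have hcl : IsClosed {q : PD n | dg p q ≤ R} :=
    isClosed_le (dg_cont.comp (continuous_const.prodMk continuous_id)) continuous_const
  refine (entries_cpt (n := n) (n * Real.exp (dg (o n) p + R))).of_isClosed_subset hcl ?_
  intro q hq i j
  obtain ⟨k, z, hk, rfl⟩ := polar q
  have h5 : dg (o n) (act k (sg z)) = 2 * ‖z‖ := by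
    have h6 := dg_flat k 0 z
    rw [c3_sg0, c3_o k hk, zero_sub, norm_neg] at h6
    exact h6
  have h7 : 2 * ‖z‖ ≤ dg (o n) p + R := by
    rw [← h5]
    exact (h3 (o n) p _).trans (by linarith [show dg p (act k (sg z)) ≤ R from hq])
  calc |(act k (sg z)).1 i j| ≤ n * Real.exp (2 * ‖z‖) := c3_entry k z hk i j
    _ ≤ n * Real.exp (dg (o n) p + R) := by gcongr

end LibNC38
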