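import Pool.Agent.LibNC38.C2

set_option autoImplicit false

open Matrix MeasureTheory Topology Filter

namespace LibNC38

/-- Row C3a. `q = k · e^(2z)` with `k` orthogonal: the Frobenius norm of `q - 1` is that of
`e^(2z) - 1`. -/
theorem frob {n : ℕ} (k : SL n) (z : V0 n) (hk : k.1 * k.1ᵀ = 1) :
    ∑ i, ∑ j, ((act k (sg z)).1 i j - (1 : Matrix (Fin n) (Fin n) ℝ) i j) ^ 2 =
      ∑ i, (Real.exp (2 * z.1 i) - 1) ^ 2 := by
  have hk' : k.1ᵀ * k.1 = 1 := mul_eq_one_comm.1 hk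
  have hM : (act k (sg z)).1 - 1 =
      k.1 * Matrix.diagonal (fun i => Real.exp (2 * z.1 i) - 1) * k.1ᵀ := by
    have h1 : (act k (sg z)).1 = k.1 * Matrix.diagonal (fun i => Real.exp (2 * z.1 i)) * k.1ᵀ := by
      change k.1 * (sg z).1 * k.1ᵀ = _
      rw [flat_facts.1 z]
    have h2 : Matrix.diagonal (fun i => Real.exp (2 * z.1 i) - 1) =
        Matrix.diagonal (fun i => Real.exp (2 * z.1 i)) - (1 : Matrix (Fin n) (Fin n) ℝ) := by
      rw [← Matrix.diagonal_one, Matrix.diagonal_sub]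
    rw [h1, h2, mul_sub, sub_mul, mul_one, hk]
  have htr : ∑ i, ∑ j, ((act k (sg z)).1 i j - (1 : Matrix (Fin n) (Fin n) ℝ) i j) ^ 2 =
      Matrix.trace (((act k (sg z)).1 - 1) * ((act k (sg z)).1 - 1)ᵀ) := by
    unfold Matrix.trace
    refine Finset.sum_congr rfl fun i _ => ?_
    rw [Matrix.diag_apply, Matrix.mul_apply]
    refine Finset.sum_congr rfl fun j _ => ?_
    rw [Matrix.transpose_apply, Matrix.sub_apply, sq]
  rw [htr, hM]
  have h3 : k.1 * Matrix.diagonal (fun i => Real.exp (2 * z.1 i) - 1) * k.1ᵀ *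
      (k.1 * Matrix.diagonal (fun i => Real.exp (2 * z.1 i) - 1) * k.1ᵀ)ᵀ =
      k.1 * (Matrix.diagonal (fun i => (Real.exp (2 * z.1 i) - 1) ^ 2) * k.1ᵀ) := by
    rw [Matrix.transpose_mul, Matrix.transpose_mul, Matrix.transpose_transpose,
      Matrix.diagonal_transpose]
    calc k.1 * Matrix.diagonal (fun i => Real.exp (2 * z.1 i) - 1) * k.1ᵀ *
          (k.1 * (Matrix.diagonal (fun i => Real.exp (2 * z.1 i) - 1) * k.1ᵀ))
        = k.1 * (Matrix.diagonal (fun i => Real.exp (2 * z.1 i) - 1) * (k.1ᵀ * k.1) *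
          Matrix.diagonal (fun i => Real.exp (2 * z.1 i) - 1) * k.1ᵀ) := by
          simp only [mul_assoc]
      _ = _ := by
          rw [hk', mul_one, Matrix.diagonal_mul_diagonal]
          congr 3
          funext i
          rw [sq]
  rw [h3, Matrix.trace_mul_comm, mul_assoc, hk', mul_one, Matrix.trace_diagonal]

private noncomputable def c3F {n : ℕ} (q : PD n) : ℝ :=
  ∑ i, ∑ j, (q.1 i j - (1 : Matrix (Fin n) (Fin n) ℝ) i j) ^ 2

private lemma c3_cont {n : ℕ} : Continuous (c3F : PD n → ℝ) := by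
  unfold c3F
  refine continuous_finset_sum _ fun i _ => continuous_finset_sum _ fun j _ => ?_
  exact ((continuous_subtype_val.matrix_elem i j).sub continuous_const).pow 2

private lemma c3_o {n : ℕ} : c3F (o n) = 0 := by
  unfold c3F o
  simp

private lemma c3_normsq {n : ℕ} (z : V0 n) : ‖z‖ ^ 2 = ∑ i, (z.1 i) ^ 2 := by
  change ‖(z : EuclideanSpace ℝ (Fin n))‖ ^ 2 = _
  rw [EuclideanSpace.norm_sq_eq]
  refine Finset.sum_congr rfl fun i _ => ?_
  rw [Real.norm_eq_abs, sq_abs]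

private lemma c3_pt {n : ℕ} (q : PD n) :
    ∃ z : V0 n, dg (o n) q = 2 * ‖z‖ ∧ c3F q = ∑ i, (Real.exp (2 * z.1 i) - 1) ^ 2 := by
  obtain ⟨k, z, hk, rfl⟩ := polar q
  refine ⟨z, ?_, frob k z hk⟩
  have h0 : act k (sg (0 : V0 n)) = o n := by
    rw [flat_facts.2.2.2.2.2.2.2.2.2.2.1]
    apply Subtype.ext
    change k.1 * 1 * k.1ᵀ = 1
    rw [mul_one, hk]
  have h1 := dg_flat k (0 : V0 n) z
  rw [h0, zero_sub, norm_neg] at h1
  exact h1

private lemma c3_small {n : ℕ} (z : V0 n) (h : 2 * ‖z‖ ≤ 1) :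
    ∑ i, (Real.exp (2 * z.1 i) - 1) ^ 2 ≤ 16 * ‖z‖ ^ 2 := by
  rw [c3_normsq, Finset.mul_sum]
  refine Finset.sum_le_sum fun i _ => ?_
  have h1 : |z.1 i| ≤ ‖z‖ := by
    have h2 : (z.1 i) ^ 2 ≤ ‖z‖ ^ 2 := by
      rw [c3_normsq]
      exact Finset.single_le_sum (f := fun i => (z.1 i) ^ 2) (fun j _ => sq_nonneg _) (Finset.mem_univ i)
    exact abs_le_of_sq_le_sq h2 (norm_nonneg z)
  have h3 : |2 * z.1 i| ≤ 1 := by
    rw [abs_mul, abs_two]
    linarith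
  have h4 := Real.abs_exp_sub_one_le h3
  have h5 : |Real.exp (2 * z.1 i) - 1| ^ 2 ≤ (2 * |2 * z.1 i|) ^ 2 :=
    pow_le_pow_left₀ (abs_nonneg _) h4 2
  rw [sq_abs, mul_pow, sq_abs] at h5
  nlinarith [h5]

private lemma c3_big {n : ℕ} (z : V0 n) (h : ∑ i, (Real.exp (2 * z.1 i) - 1) ^ 2 ≤ 1 / 4) :
    ‖z‖ ^ 2 ≤ ∑ i, (Real.exp (2 * z.1 i) - 1) ^ 2 := by
  rw [c3_normsq]
  refine Finset.sum_le_sum fun i _ => ?_
  have h1 : (Real.exp (2 * z.1 i) - 1) ^ 2 ≤ 1 / 4 :=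
    (Finset.single_le_sum (f := fun i => (Real.exp (2 * z.1 i) - 1) ^ 2)
      (fun j _ => sq_nonneg _) (Finset.mem_univ i)).trans h
  obtain ⟨a, ha⟩ : ∃ a, a = Real.exp (2 * z.1 i) := ⟨_, rfl⟩
  have ha0 : 0 < a := by rw [ha]; exact Real.exp_pos _
  have hl : 2 * z.1 i = Real.log a := by rw [ha, Real.log_exp]
  rw [← ha] at h1 ⊢
  have h2 : 1 / 2 ≤ a := by nlinarith [h1]
  have h3 := Real.log_le_sub_one_of_pos ha0
  have h4 := Real.one_sub_inv_le_log_of_pos ha0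
  rw [← hl] at h3 h4
  have h5 : 1 - a⁻¹ = (a - 1) / a := by field_simp
  rw [h5] at h4
  rcases le_total 1 a with h6 | h6
  · have h7 : 0 ≤ (a - 1) / a := div_nonneg (by linarith) ha0.le
    nlinarith [h3, h4, h7]
  · have h7 : -(2 * (1 - a)) ≤ (a - 1) / a := by
      rw [le_div_iff₀ ha0]
      nlinarith [h2, h6]
    nlinarith [h3, h4, h7]

private lemma c3_base1 {n : ℕ} (U : Set (PD n)) (hU : U ∈ 𝓝 (o n)) :
    ∃ ε > 0, ∀ q, dg (o n) q < ε → q ∈ U := by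
  rw [nhds_subtype_eq_comap, Filter.mem_comap] at hU
  obtain ⟨V, hV, hVU⟩ := hU
  have hV' : V ∈ @nhds (Fin n → Fin n → ℝ) _ ((o n).1) := hV
  obtain ⟨δ, hδ, hball⟩ := Metric.mem_nhds_iff.1 hV'
  refine ⟨min 1 (δ / 4), lt_min one_pos (by linarith), fun q hq => ?_⟩
  apply hVU
  apply hball
  obtain ⟨z, hz, hF⟩ := c3_pt q
  rw [hz] at hq
  have h1 : 2 * ‖z‖ < 1 := hq.trans_le (min_le_left _ _)
  have h2 : 2 * ‖z‖ < δ / 4 := hq.trans_le (min_le_right _ _)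
  have h3 := c3_small z h1.le
  rw [← hF] at h3
  have h4 : c3F q < δ ^ 2 := by
    have h5 : 0 ≤ ‖z‖ := norm_nonneg z
    nlinarith [h3, h2, h5, hδ]
  have hent : ∀ i j, |q.1 i j - (o n).1 i j| < δ := by
    intro i j
    refine abs_lt_of_sq_lt_sq ?_ hδ.le
    refine lt_of_le_of_lt ?_ h4
    have h6 : (q.1 i j - (1 : Matrix (Fin n) (Fin n) ℝ) i j) ^ 2 ≤
        ∑ j, (q.1 i j - (1 : Matrix (Fin n) (Fin n) ℝ) i j) ^ 2 :=
      Finset.single_le_sum (f := fun j => (q.1 i j - (1 : Matrix (Fin n) (Fin n) ℝ) i j) ^ 2)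
        (fun j _ => sq_nonneg _) (Finset.mem_univ j)
    have h7 : ∑ j, (q.1 i j - (1 : Matrix (Fin n) (Fin n) ℝ) i j) ^ 2 ≤ c3F q :=
      Finset.single_le_sum (f := fun i => ∑ j, (q.1 i j - (1 : Matrix (Fin n) (Fin n) ℝ) i j) ^ 2)
        (fun i _ => Finset.sum_nonneg fun j _ => sq_nonneg _) (Finset.mem_univ i)
    exact h6.trans h7
  change @dist (Fin n → Fin n → ℝ) _ q.1 (o n).1 < δ
  rw [dist_pi_lt_iff hδ]
  intro i
  rw [dist_pi_lt_iff hδ]
  intro j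
  rw [Real.dist_eq]
  exact hent i j

private lemma c3_base2 {n : ℕ} (ε : ℝ) (hε : 0 < ε) : ∀ᶠ q in 𝓝 (o n), dg (o n) q < ε := by
  have h1 : Tendsto (c3F : PD n → ℝ) (𝓝 (o n)) (𝓝 0) := by
    have h2 := (c3_cont (n := n)).tendsto (o n)
    rwa [c3_o] at h2
  have h2 : (0 : ℝ) < min (1 / 4) (ε ^ 2 / 4) := lt_min (by norm_num) (by positivity)
  filter_upwards [h1.eventually (gt_mem_nhds h2)] with q hq
  obtain ⟨z, hz, hF⟩ := c3_pt q
  rw [hF] at hq
  have h3 := c3_big z (hq.le.trans (min_le_left _ _))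
  have h4 : ‖z‖ ^ 2 < ε ^ 2 / 4 := h3.trans_lt (hq.trans_le (min_le_right _ _))
  rw [hz]
  have h5 : ‖z‖ < ε / 2 := by
    refine lt_of_pow_lt_pow_left₀ 2 (by linarith) ?_
    rw [div_pow]
    linarith
  linarith

/-- Row C3b. The topology of `dg` is the topology of matrices. By invariance (dg_act, the action
is by homeomorphisms, B1) it suffices to look at `p = o n`; by `polar` `q = k · e^(2z)`,
`dg (o n) q = 2 ‖z‖` (dg_flat, `act k (sg 0) = act k (o n) = o n` because `k` is orthogonal) and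
`frob` compares `‖z‖` with the distance of the matrices `q`, `1`. -/
theorem dg_nhds {n : ℕ} (p : PD n) :
    (∀ U ∈ 𝓝 p, ∃ ε > 0, ∀ q, dg p q < ε → q ∈ U) ∧
    (∀ ε > 0, ∀ᶠ q in 𝓝 p, dg p q < ε) := by
  obtain ⟨t, -, -, rfl⟩ := chol p
  obtain ⟨a1, a2, a3⟩ := act_facts (n := n)
  have hc : ∀ g : SL n, Continuous (fun x : PD n => act g x) := fun g =>
    a3.comp (Continuous.prodMk continuous_const continuous_id)
  have hinv : ∀ x : PD n, act t⁻¹ (act t x) = x := by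
    intro x
    rw [← a2, inv_mul_cancel, a1]
  have hinv' : ∀ x : PD n, act t (act t⁻¹ x) = x := by
    intro x
    rw [← a2, mul_inv_cancel, a1]
  have hd : ∀ q : PD n, dg (act t (o n)) q = dg (o n) (act t⁻¹ q) := by
    intro q
    rw [← dg_act t (o n) (act t⁻¹ q), hinv']
  constructor
  · intro U hU
    obtain ⟨ε, hε, h1⟩ := c3_base1 ((fun x : PD n => act t x) ⁻¹' U)
      ((hc t).continuousAt.preimage_mem_nhds hU)
    refine ⟨ε, hε, fun q hq => ?_⟩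
    rw [hd] at hq
    have h2 := h1 _ hq
    change act t (act t⁻¹ q) ∈ U at h2
    rwa [hinv'] at h2
  · intro ε hε
    have h1 : Tendsto (fun x : PD n => act t⁻¹ x) (𝓝 (act t (o n))) (𝓝 (o n)) := by
      have h2 := (hc t⁻¹).tendsto (act t (o n))
      rwa [hinv] at h2
    filter_upwards [h1.eventually (c3_base2 ε hε)] with q hq
    rw [hd]
    exact hq

end LibNC38
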