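import Pool.Agent.LibNC38.Defs

set_option autoImplicit false

open Matrix MeasureTheory

namespace LibNC38

/-- Row B1. The action is an action, by homeomorphisms, jointly continuous. -/
theorem act_facts {n : ℕ} :
    (∀ p : PD n, act 1 p = p) ∧
    (∀ (g h : SL n) (p : PD n), act (g * h) p = act g (act h p)) ∧
    (Continuous fun x : SL n × PD n => act x.1 x.2) := by
  refine ⟨?_, ?_, ?_⟩
  · intro p
    apply Subtype.ext
    show (1 : SL n).1 * p.1 * (1 : SL n).1ᵀ = p.1
    have h : (1 : SL n).1 = 1 := rfl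
    rw [h, Matrix.transpose_one, one_mul, mul_one]
  · intro g h p
    apply Subtype.ext
    show (g * h).1 * p.1 * (g * h).1ᵀ = g.1 * (h.1 * p.1 * h.1ᵀ) * g.1ᵀ
    have h1 : (g * h).1 = g.1 * h.1 := rfl
    rw [h1, Matrix.transpose_mul]
    simp only [Matrix.mul_assoc]
  · refine Continuous.subtype_mk ?_ _
    have h1 : Continuous fun x : SL n × PD n => x.1.1 := continuous_subtype_val.comp continuous_fst
    have h2 : Continuous fun x : SL n × PD n => x.2.1 := continuous_subtype_val.comp continuous_snd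
    exact (h1.matrix_mul h2).matrix_mul h1.matrix_transpose

private theorem B1_diag_eq {n : ℕ} {g : SL n} (hg : IsDiag g) :
    g.1 = Matrix.diagonal fun i => g.1 i i := by
  ext i j
  by_cases h : i = j
  · subst h
    rw [Matrix.diagonal_apply_eq]
  · rw [Matrix.diagonal_apply_ne _ h]
    exact hg i j h

private theorem B1_prod {n : ℕ} {g : SL n} (hg : IsDiag g) : ∏ i, g.1 i i = 1 := by
  have h1 := g.2
  rw [B1_diag_eq hg, Matrix.det_diagonal] at h1
  exact h1

private theorem B1_ne {n : ℕ} {g : SL n} (hg : IsDiag g) (i : Fin n) : g.1 i i ≠ 0 := by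
  intro h
  have h1 := B1_prod hg
  have h2 : ∏ i, g.1 i i = 0 := Finset.prod_eq_zero (f := fun i => g.1 i i) (Finset.mem_univ i) h
  rw [h2] at h1
  exact zero_ne_one h1

private theorem B1_sg {n : ℕ} (y : V0 n) :
    (sg y).1 = Matrix.diagonal fun i => Real.exp (2 * y.1 i) := by
  show (Matrix.diagonal fun i => Real.exp (y.1 i)) * (1 : Matrix (Fin n) (Fin n) ℝ) *
    (Matrix.diagonal fun i => Real.exp (y.1 i))ᵀ = _
  rw [mul_one, Matrix.diagonal_transpose, Matrix.diagonal_mul_diagonal]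
  congr 1
  ext i
  rw [← Real.exp_add]
  congr 1
  ring

private theorem B1_mul {n : ℕ} {g h : SL n} (hg : IsDiag g) (hh : IsDiag h) :
    (g * h).1 = Matrix.diagonal fun i => g.1 i i * h.1 i i := by
  have h1 : (g * h).1 = g.1 * h.1 := rfl
  rw [h1]
  conv_lhs => rw [B1_diag_eq hg, B1_diag_eq hh]
  rw [Matrix.diagonal_mul_diagonal]

private theorem B1_inv {n : ℕ} {g : SL n} (hg : IsDiag g) :
    (g⁻¹ : SL n).1 = Matrix.diagonal fun i => (g.1 i i)⁻¹ := by
  have h1 : g.1 * (g⁻¹ : SL n).1 = 1 := by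
    have h2 : (g * g⁻¹ : SL n).1 = g.1 * (g⁻¹ : SL n).1 := rfl
    rw [← h2, mul_inv_cancel]
    rfl
  have h3 : (Matrix.diagonal fun i => (g.1 i i)⁻¹) * g.1 = 1 := by
    conv_lhs => rw [B1_diag_eq hg]
    rw [Matrix.diagonal_mul_diagonal]
    rw [← Matrix.diagonal_one]
    congr 1
    ext i
    simp only [Matrix.diagonal_apply_eq]
    exact inv_mul_cancel₀ (B1_ne hg i)
  calc (g⁻¹ : SL n).1 = ((Matrix.diagonal fun i => (g.1 i i)⁻¹) * g.1) * (g⁻¹ : SL n).1 := by
        rw [h3, one_mul]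
    _ = (Matrix.diagonal fun i => (g.1 i i)⁻¹) * (g.1 * (g⁻¹ : SL n).1) := by
        rw [Matrix.mul_assoc]
    _ = _ := by rw [h1, mul_one]

/-- Row B1. Diagonal matrices and the flat. (`IsLog g w`: `g` has entries `± e^(w i)` on the
diagonal, the signs square to `1`.) -/
theorem flat_facts {n : ℕ} :
    (∀ y : V0 n, (sg y).1 = Matrix.diagonal fun i => Real.exp (2 * y.1 i)) ∧
    (∀ y z : V0 n, dgm (y + z) = dgm y * dgm z) ∧
    (∀ y : V0 n, IsLog (dgm y) y) ∧
    (∀ (g : SL n) (w y : V0 n), IsLog g w → act g (sg y) = sg (y + w)) ∧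
    (∀ g : SL n, IsDiag g → ∃ w, IsLog g w) ∧
    (∀ (g h : SL n) (w z : V0 n), IsLog g w → IsLog h z → IsLog (g * h) (w + z)) ∧
    (∀ (g : SL n) (w : V0 n), IsLog g w → IsLog g⁻¹ (-w)) ∧
    (∀ g h : SL n, IsDiag g → IsDiag h → g * h = h * g) ∧
    (Continuous (sg : V0 n → PD n)) ∧ (Continuous (dgm : V0 n → SL n)) ∧
    sg (0 : V0 n) = o n ∧ dgm (0 : V0 n) = 1 := by
  have hcd : Continuous (dgm : V0 n → SL n) := by
    refine Continuous.subtype_mk ?_ _
    refine Continuous.matrix_diagonal ?_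
    refine continuous_pi fun i => ?_
    have h1 : Continuous fun y : V0 n => y.1 i := by
      have h2 : Continuous fun y : V0 n => y.1 := continuous_subtype_val
      exact (EuclideanSpace.proj (𝕜 := ℝ) i).continuous.comp h2
    exact Real.continuous_exp.comp h1
  refine ⟨B1_sg, ?_, ?_, ?_, ?_, ?_, ?_, ?_, ?_, hcd, ?_, ?_⟩
  · intro y z
    apply Subtype.ext
    show (Matrix.diagonal fun i => Real.exp ((y + z).1 i)) =
      (Matrix.diagonal fun i => Real.exp (y.1 i)) * (Matrix.diagonal fun i => Real.exp (z.1 i))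
    rw [Matrix.diagonal_mul_diagonal]
    congr 1
    ext i
    rw [← Real.exp_add]
    rfl
  · intro y
    refine ⟨fun i j hij => Matrix.diagonal_apply_ne _ hij, fun i => ?_⟩
    show y.1 i = Real.log |(Matrix.diagonal fun i => Real.exp (y.1 i)) i i|
    rw [Matrix.diagonal_apply_eq, abs_of_pos (Real.exp_pos _), Real.log_exp]
  · intro g w y hg
    apply Subtype.ext
    show g.1 * (sg y).1 * g.1ᵀ = (sg (y + w)).1
    rw [B1_sg, B1_sg]
    conv_lhs => rw [B1_diag_eq hg.1]
    rw [Matrix.diagonal_transpose, Matrix.diagonal_mul_diagonal, Matrix.diagonal_mul_diagonal]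
    congr 1
    ext i
    have h1 : (y + w).1 i = y.1 i + w.1 i := rfl
    have h2 := hg.2 i
    have h3 : 0 < |g.1 i i| := abs_pos.2 (B1_ne hg.1 i)
    have h4 : Real.exp (w.1 i) = |g.1 i i| := by rw [h2, Real.exp_log h3]
    have h5 : Real.exp (2 * (y.1 i + w.1 i)) = Real.exp (2 * y.1 i) * (Real.exp (w.1 i) * Real.exp (w.1 i)) := by
      rw [← Real.exp_add, ← Real.exp_add]
      congr 1
      ring
    rw [h1, h5, h4, abs_mul_abs_self]
    ring
  · intro g hg
    refine ⟨⟨WithLp.toLp 2 fun i => Real.log |g.1 i i|, ?_⟩, hg, fun i => rfl⟩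
    show ∑ i, Real.log |g.1 i i| = 0
    rw [← Real.log_prod (fun i _ => abs_ne_zero.2 (B1_ne hg i)), ← Finset.abs_prod, B1_prod hg,
      abs_one, Real.log_one]
  · intro g h w z hg hh
    have h1 := B1_mul hg.1 hh.1
    refine ⟨?_, ?_⟩
    · intro i j hij
      rw [h1]
      exact Matrix.diagonal_apply_ne _ hij
    · intro i
      show w.1 i + z.1 i = Real.log |(g * h).1 i i|
      rw [h1, Matrix.diagonal_apply_eq, abs_mul, Real.log_mul (abs_ne_zero.2 (B1_ne hg.1 i))
        (abs_ne_zero.2 (B1_ne hh.1 i)), hg.2 i, hh.2 i]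
  · intro g w hg
    have h1 := B1_inv hg.1
    refine ⟨?_, ?_⟩
    · intro i j hij
      rw [h1]
      exact Matrix.diagonal_apply_ne _ hij
    · intro i
      show -(w.1 i) = Real.log |(g⁻¹ : SL n).1 i i|
      rw [h1, Matrix.diagonal_apply_eq, abs_inv, Real.log_inv, hg.2 i]
  · intro g h hg hh
    apply Subtype.ext
    rw [B1_mul hg hh, B1_mul hh hg]
    congr 1
    ext i
    ring
  · have h1 : Continuous fun y : V0 n => act (dgm y) (o n) :=
      (act_facts (n := n)).2.2.comp (hcd.prodMk continuous_const)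
    exact h1
  · apply Subtype.ext
    rw [B1_sg]
    show (Matrix.diagonal fun i => Real.exp (2 * (0 : V0 n).1 i)) = 1
    rw [← Matrix.diagonal_one]
    congr 1
    ext i
    have h1 : (0 : V0 n).1 i = 0 := rfl
    rw [h1, mul_zero, Real.exp_zero]
  · apply Subtype.ext
    show (Matrix.diagonal fun i => Real.exp ((0 : V0 n).1 i)) = 1
    rw [← Matrix.diagonal_one]
    congr 1
    ext i
    have h1 : (0 : V0 n).1 i = 0 := rfl
    rw [h1, Real.exp_zero]

end LibNC38
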