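import Pool.Agent.LibNC38.Defs

set_option autoImplicit false

open Matrix MeasureTheory

namespace LibNC38

/-- Row B3 (Cholesky). For instance from Mathlib's `LDL` decomposition
(`LDL.lower_conj_diag`, `LDL.lowerInv_triangular`): `x = L D Lᵀ` with `L` lower triangular and
invertible, `D` diagonal with positive entries; `t = L D^(1/2) ε` with a diagonal sign matrix `ε`
making the diagonal positive; `det t = 1` because `det t > 0` and `(det t)² = det x = 1`. (Or by
induction on `n`, or by QR of the square root.) -/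
theorem chol {n : ℕ} (x : PD n) :
    ∃ t : SL n, Lower t ∧ (∀ i, 0 < t.1 i i) ∧ x = act t (o n) := by
  obtain ⟨S, hS, hdet⟩ := x
  -- the unit lower triangular factor and the diagonal
  set A : Matrix (Fin n) (Fin n) ℝ := LDL.lowerInv hS with hA
  have hAtri : A.BlockTriangular OrderDual.toDual := by
    intro i j hij
    exact LDL.lowerInv_triangular hS (OrderDual.toDual_lt_toDual.1 hij)
  have hAinv : Invertible A := LDL.invertibleLowerInv hS
  have hAdet : IsUnit A.det := (Matrix.isUnit_iff_isUnit_det A).1 (isUnit_of_invertible A)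
  have hLtri : (A⁻¹).BlockTriangular OrderDual.toDual :=
    Matrix.blockTriangular_inv_of_blockTriangular hAtri
  have hD : A * S * Aᵀ = Matrix.diagonal (LDL.diagEntries hS) := by
    have h := LDL.diag_eq_lowerInv_conj hS
    rw [Matrix.conjTranspose_eq_transpose_of_trivial] at h
    exact h.symm
  have hDpos : ∀ i, 0 < LDL.diagEntries hS i := by
    have h := hS.mul_mul_conjTranspose_same (B := A)
      (Matrix.vecMul_injective_of_isUnit ((Matrix.isUnit_iff_isUnit_det _).2 hAdet))
    rw [Matrix.conjTranspose_eq_transpose_of_trivial, hD] at h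
    exact fun i => (Matrix.posDef_diagonal_iff.1 h) i
  have hLdet : (A⁻¹).det ≠ 0 := by
    rw [Matrix.det_nonsing_inv]
    exact (IsUnit.ringInverse hAdet).ne_zero
  have hLdiag : ∀ i, (A⁻¹) i i ≠ 0 := by
    rw [Matrix.det_of_isLowerTriangular _ hLtri] at hLdet
    intro i hi
    exact hLdet (Finset.prod_eq_zero (Finset.mem_univ i) hi)
  set e : Fin n → ℝ := fun i => √ (LDL.diagEntries hS i) * SignType.sign ((A⁻¹) i i) with he
  set T : Matrix (Fin n) (Fin n) ℝ := A⁻¹ * Matrix.diagonal e with hT
  have hee : ∀ i, e i * e i = LDL.diagEntries hS i := by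
    intro i
    have h1 := Real.mul_self_sqrt (hDpos i).le
    have h2 : ((SignType.sign ((A⁻¹) i i) : SignType) : ℝ) * ((SignType.sign ((A⁻¹) i i) : SignType) : ℝ) = 1 := by
      rcases lt_or_gt_of_ne (hLdiag i) with h | h
      · rw [sign_neg h]; norm_num
      · rw [sign_pos h]; norm_num
    calc e i * e i = (√ (LDL.diagEntries hS i) * √ (LDL.diagEntries hS i)) *
          (((SignType.sign ((A⁻¹) i i) : SignType) : ℝ) * ((SignType.sign ((A⁻¹) i i) : SignType) : ℝ)) := by
          simp only [he]; ring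
      _ = _ := by rw [h1, h2, mul_one]
  have hTS : T * Tᵀ = S := by
    rw [hT, Matrix.transpose_mul, Matrix.diagonal_transpose]
    have h1 : A⁻¹ * Matrix.diagonal e * (Matrix.diagonal e * (A⁻¹)ᵀ)
        = A⁻¹ * (Matrix.diagonal e * Matrix.diagonal e) * (A⁻¹)ᵀ := by
      simp only [Matrix.mul_assoc]
    rw [h1, Matrix.diagonal_mul_diagonal]
    have h2 : (fun i => e i * e i) = LDL.diagEntries hS := funext hee
    rw [h2, ← hD, Matrix.transpose_nonsing_inv]
    have hAT : IsUnit (Aᵀ).det := by rw [Matrix.det_transpose]; exact hAdet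
    calc A⁻¹ * (A * S * Aᵀ) * (Aᵀ)⁻¹ = (A⁻¹ * A) * S * (Aᵀ * (Aᵀ)⁻¹) := by
          simp only [Matrix.mul_assoc]
      _ = S := by rw [Matrix.nonsing_inv_mul _ hAdet, Matrix.mul_nonsing_inv _ hAT, one_mul, mul_one]
  have hTentry : ∀ i j, T i j = (A⁻¹) i j * e j := by
    intro i j
    rw [hT, Matrix.mul_diagonal]
  have hTtri : ∀ i j, i < j → T i j = 0 := by
    intro i j hij
    rw [hTentry, hLtri (OrderDual.toDual_lt_toDual.2 hij), zero_mul]
  have hTpos : ∀ i, 0 < T i i := by
    intro i
    rw [hTentry]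
    have h1 : (A⁻¹) i i * e i = √ (LDL.diagEntries hS i) *
        ((A⁻¹) i i * ((SignType.sign ((A⁻¹) i i) : SignType) : ℝ)) := by
      simp only [he]; ring
    rw [h1, self_mul_sign]
    exact mul_pos (Real.sqrt_pos.2 (hDpos i)) (abs_pos.2 (hLdiag i))
  have hTbt : T.BlockTriangular OrderDual.toDual := by
    intro i j hij
    exact hTtri i j (OrderDual.toDual_lt_toDual.1 hij)
  have hTdetpos : 0 < T.det := by
    rw [Matrix.det_of_isLowerTriangular _ hTbt]
    exact Finset.prod_pos fun i _ => hTpos i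
  have hTdet : T.det = 1 := by
    have h1 : T.det * T.det = 1 := by
      have h2 := congrArg Matrix.det hTS
      rw [Matrix.det_mul, Matrix.det_transpose, hdet] at h2
      exact h2
    nlinarith
  refine ⟨⟨T, hTdet⟩, hTtri, hTpos, ?_⟩
  apply Subtype.ext
  change S = T * 1 * Tᵀ
  rw [Matrix.mul_one, hTS]

end LibNC38
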