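import Pool.Agent.LibNC38.B1

set_option autoImplicit false

open Matrix MeasureTheory Topology Filter

namespace LibNC38

/-- A discrete subgroup meets a compact set in a finite set. -/
theorem disc_finite_aux {G : Type*} [Group G] [TopologicalSpace G] [IsTopologicalGroup G]
    (Γ : Subgroup G) (hd : ∃ U ∈ 𝓝 (1 : G), ∀ γ ∈ Γ, γ ∈ U → γ = 1) (K : Set G)
    (hK : IsCompact K) : {γ : G | γ ∈ Γ ∧ γ ∈ K}.Finite := by
  obtain ⟨U, hU, hU1⟩ := hd
  have hcont : Tendsto (fun p : G × G => p.1⁻¹ * p.2) (𝓝 ((1 : G), (1 : G))) (𝓝 1) := by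
    have hc : Continuous fun p : G × G => p.1⁻¹ * p.2 := by fun_prop
    have := hc.tendsto ((1 : G), (1 : G))
    simpa using this
  have hpre := hcont hU
  rw [nhds_prod_eq] at hpre
  obtain ⟨V, hV, hVU⟩ : ∃ V ∈ 𝓝 (1 : G), ∀ a ∈ V, ∀ b ∈ V, a⁻¹ * b ∈ U := by
    obtain ⟨V1, h1, V2, h2, h3⟩ := Filter.mem_prod_iff.1 hpre
    refine ⟨V1 ∩ V2, Filter.inter_mem h1 h2, fun a ha b hb => ?_⟩
    exact h3 (Set.mk_mem_prod ha.1 hb.2)
  have hnh : ∀ x ∈ K, {y : G | x⁻¹ * y ∈ V} ∈ 𝓝 x := by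
    intro x _
    have hc : Continuous fun y : G => x⁻¹ * y := by fun_prop
    have h1 := hc.tendsto x
    simp only [inv_mul_cancel] at h1
    exact h1 hV
  obtain ⟨t, _, ht⟩ := hK.elim_nhds_subcover (fun x => {y : G | x⁻¹ * y ∈ V}) hnh
  have hfin : (⋃ x ∈ t, {γ : G | γ ∈ Γ ∧ x⁻¹ * γ ∈ V}).Finite := by
    refine Set.Finite.biUnion t.finite_toSet fun x _ => Set.Subsingleton.finite ?_
    intro a ha b hb
    have h1 : a⁻¹ * b ∈ U := by
      have := hVU _ ha.2 _ hb.2
      have e : (x⁻¹ * a)⁻¹ * (x⁻¹ * b) = a⁻¹ * b := by group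
      rwa [e] at this
    have h2 := hU1 _ (Γ.mul_mem (Γ.inv_mem ha.1) hb.1) h1
    exact inv_mul_eq_one.1 h2
  refine hfin.subset ?_
  rintro γ ⟨hγ, hγK⟩
  have := ht hγK
  simp only [Set.mem_iUnion] at this ⊢
  obtain ⟨x, hx, hx2⟩ := this
  exact ⟨x, hx, hγ, hx2⟩

/-- A discrete subgroup meets a compact set in a finite set. -/
theorem disc_finite {n : ℕ} (Γ : Subgroup (SL n)) (hd : Disc Γ) (K : Set (SL n))
    (hK : IsCompact K) : {γ : SL n | γ ∈ Γ ∧ γ ∈ K}.Finite :=
  disc_finite_aux Γ hd K hK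

/-- Elements of `SL n` with bounded entries form a compact set. -/
theorem bounded_compact {n : ℕ} (C : ℝ) : IsCompact {g : SL n | ∀ i j, |g.1 i j| ≤ C} := by
  have h1 : IsCompact {A : Matrix (Fin n) (Fin n) ℝ | ∀ i j, |A i j| ≤ C} := by
    have h2 : IsCompact (Set.pi Set.univ fun _ : Fin n => Set.pi Set.univ fun _ : Fin n =>
        Set.Icc (-C) C) :=
      isCompact_univ_pi fun _ => isCompact_univ_pi fun _ => isCompact_Icc
    have e : {A : Matrix (Fin n) (Fin n) ℝ | ∀ i j, |A i j| ≤ C} =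
        (Set.pi Set.univ fun _ : Fin n => Set.pi Set.univ fun _ : Fin n => Set.Icc (-C) C) := by
      apply Set.ext
      intro A
      constructor
      · intro h i _ j _
        exact abs_le.1 (h i j)
      · intro h i j
        exact abs_le.2 (h i trivial j trivial)
    rw [e]
    exact h2
  exact Matrix.SpecialLinearGroup.isClosedEmbedding_val.isCompact_preimage h1

/-- The vector of logarithms is determined by the matrix. -/
theorem isLog_unique {n : ℕ} {g : SL n} {w z : V0 n} (hw : IsLog g w) (hz : IsLog g z) : w = z := by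
  apply Subtype.ext
  apply PiLp.ext
  intro i
  rw [hw.2 i, hz.2 i]

theorem abs_le_norm {n : ℕ} (w : V0 n) (i : Fin n) : |w.1 i| ≤ ‖w‖ := by
  have h := PiLp.norm_apply_le (p := 2) w.1 i
  rwa [Real.norm_eq_abs] at h

/-- Row G6a, discreteness: finitely many diagonal elements of `Γ` with bounded logarithm (bounded
entries, closed set of matrices of determinant one: compact in `SL n`; discrete subgroup). -/
theorem log_disc {n : ℕ} (Γ : Subgroup (SL n)) (hd : Disc Γ) (R : ℝ) :
    {w : V0 n | ‖w‖ ≤ R ∧ ∃ γ ∈ Γ, IsLog γ w}.Finite := by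
  classical
  have hfin := disc_finite Γ hd _ (bounded_compact (n := n) (Real.exp R))
  refine (hfin.image fun γ => if h : ∃ w, IsLog γ w then h.choose else 0).subset ?_
  rintro w ⟨hw, γ, hγ, hl⟩
  refine ⟨γ, ⟨hγ, ?_⟩, ?_⟩
  · intro i j
    by_cases hij : i = j
    · subst hij
      by_cases h0 : γ.1 i i = 0
      · rw [h0, abs_zero]
        exact (Real.exp_pos _).le
      · have h1 := hl.2 i
        have h2 : Real.log |γ.1 i i| ≤ R := by
          rw [← h1]
          exact (le_abs_self _).trans ((abs_le_norm w i).trans hw)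
        exact (Real.log_le_iff_le_exp (abs_pos.2 h0)).1 h2
    · rw [hl.1 i j hij, abs_zero]
      exact (Real.exp_pos _).le
  · have h : ∃ w, IsLog γ w := ⟨w, hl⟩
    simp only [h, dite_true]
    exact isLog_unique h.choose_spec hl

end LibNC38
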