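import Pool.Agent.LibNC38.B1
import Pool.Agent.LibNC38.G6a

set_option autoImplicit false

open Matrix MeasureTheory Topology Filter

namespace LibNC38

/-- A matrix commuting with a regular diagonal matrix is diagonal. -/
theorem diag_of_commute {n : ℕ} {α γ : SL n} (hα : IsDiag α) (hr : Reg α)
    (h : γ * α = α * γ) : IsDiag γ := by
  intro i j hij
  have h1 := congrArg (fun g : SL n => g.1 i j) h

  have h2 : (γ * α).1 i j = γ.1 i j * α.1 j j := by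
    have e : (γ * α).1 = γ.1 * α.1 := rfl
    rw [e, Matrix.mul_apply]
    refine Finset.sum_eq_single j (fun k _ hk => ?_) (fun hk => (hk (Finset.mem_univ _)).elim)
    rw [hα k j hk, mul_zero]
  have h3 : (α * γ).1 i j = α.1 i i * γ.1 i j := by
    have e : (α * γ).1 = α.1 * γ.1 := rfl
    rw [e, Matrix.mul_apply]
    refine Finset.sum_eq_single i (fun k _ hk => ?_) (fun hk => (hk (Finset.mem_univ _)).elim)
    rw [hα i k (Ne.symm hk), zero_mul]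
  have h1 : γ.1 i j * α.1 j j = α.1 i i * γ.1 i j := h2.symm.trans (h1.trans h3)
  by_contra hne
  have h4 : α.1 j j = α.1 i i := by
    have : γ.1 i j * (α.1 j j - α.1 i i) = 0 := by linear_combination h1
    rcases mul_eq_zero.1 this with h5 | h5
    · exact (hne h5).elim
    · linarith
  exact hr i j hij (by rw [h4])

theorem norm_le_of_abs_le {n : ℕ} (z : V0 n) (B : ℝ) (h : ∀ i, |z.1 i| ≤ B) :
    ‖z‖ ≤ √ (∑ _i : Fin n, B ^ 2) := by
  have e : ‖z‖ = ‖z.1‖ := rfl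
  rw [e, EuclideanSpace.norm_eq]
  apply Real.sqrt_le_sqrt
  refine Finset.sum_le_sum fun i _ => ?_
  rw [Real.norm_eq_abs]
  exact pow_le_pow_left₀ (abs_nonneg _) (h i) 2

/-- Row G6 (Selberg's lemma). `Γ` discrete and cocompact, `α ∈ Γ` diagonal and regular: the
logarithms of the diagonal elements of `Γ` are cocompact in `V0 n`. `Q` compact with
`∀ g, ∃ γ ∈ Γ, γ g ∈ Q`. `F = {f ∈ Γ | ∃ q ∈ Q, f = q α q⁻¹}` is finite (discrete in the compact
set `{q α q⁻¹}`). For `g = dgm y` (commutes with `α`): `γ g = q ∈ Q`, `γ α γ⁻¹ = q α q⁻¹ ∈ F`. For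
every `f ∈ F` of the form `γ' α γ'⁻¹`, `γ' ∈ Γ`, choose such a `γ' = γ_f`. Then `γ_f⁻¹ γ` commutes
with `α`, so it is diagonal (distinct entries), and `γ_f⁻¹ γ dgm y = γ_f⁻¹ q` lies in the compact set
`⋃ f, γ_f⁻¹ Q`, on which the logarithms of the absolute values of the diagonal entries (for
diagonal elements) are bounded: `IsLog (γ_f⁻¹ γ) w` and `IsLog (γ_f⁻¹ γ dgm y) (w + y)`. -/
theorem selberg {n : ℕ} (Γ : Subgroup (SL n)) (hd : Disc Γ) (hc : Coc Γ) (α : SL n)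
    (hα : IsDiag α) (hr : Reg α) (hαΓ : α ∈ Γ) :
    ∃ R : ℝ, ∀ v : V0 n, ∃ γ ∈ Γ, ∃ w, IsLog γ w ∧ ‖v + w‖ ≤ R := by
  classical
  obtain ⟨Q, hQ, hQ1⟩ := hc
  have hcj : Continuous fun q : SL n => q * α * q⁻¹ :=
    (continuous_id.mul continuous_const).mul continuous_inv
  have hKc : IsCompact ((fun q : SL n => q * α * q⁻¹) '' Q) := hQ.image hcj
  have hF := disc_finite Γ hd _ hKc
  obtain ⟨-, -, hlog, -, hdiag, hmul, hinv, hcomm, -⟩ := flat_facts (n := n)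
  -- choice of conjugators
  let c : SL n → SL n := fun f => if h : ∃ γ ∈ Γ, f = γ * α * γ⁻¹ then h.choose else 1
  have hcs : ∀ γ ∈ Γ, c (γ * α * γ⁻¹) ∈ Γ ∧
      γ * α * γ⁻¹ = c (γ * α * γ⁻¹) * α * (c (γ * α * γ⁻¹))⁻¹ := by
    intro γ hγ
    have h : ∃ γ' ∈ Γ, γ * α * γ⁻¹ = γ' * α * γ'⁻¹ := ⟨γ, hγ, rfl⟩
    have e : c (γ * α * γ⁻¹) = h.choose := by
      simp only [c, h, dite_true]
    rw [e]
    exact h.choose_spec
  have hCc : IsCompact (⋃ f ∈ {γ : SL n | γ ∈ Γ ∧ γ ∈ (fun q : SL n => q * α * q⁻¹) '' Q},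
      (fun q : SL n => (c f)⁻¹ * q) '' Q) :=
    hF.isCompact_biUnion fun f _ => hQ.image (continuous_const.mul continuous_id)
  have hent : ∀ i j : Fin n, Continuous fun g : SL n => g.1 i j := by
    intro i j
    exact (continuous_apply j).comp ((continuous_apply i).comp continuous_subtype_val)
  have hb : Continuous fun g : SL n => ∑ i : Fin n, (|g.1 i i| + |(g⁻¹).1 i i|) := by
    refine continuous_finsetSum _ fun i _ => ?_
    exact ((hent i i).abs).add (((hent i i).comp continuous_inv).abs)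
  obtain ⟨B, hB⟩ := hCc.exists_bound_of_continuousOn hb.continuousOn
  refine ⟨√ (∑ _i : Fin n, B ^ 2), fun v => ?_⟩
  obtain ⟨γ, hγ, hγQ⟩ := hQ1 (dgm v)
  have hvα : dgm v * α = α * dgm v := hcomm _ _ (hlog v).1 hα
  have hconj : γ * α * γ⁻¹ = (γ * dgm v) * α * (γ * dgm v)⁻¹ := by
    rw [_root_.mul_inv_rev, mul_assoc γ (dgm v) α, hvα]
    group
  obtain ⟨hc1, hc2⟩ := hcs γ hγ
  set δ := c (γ * α * γ⁻¹) with hδ
  have hcm : δ⁻¹ * γ * α = α * (δ⁻¹ * γ) := by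
    have : γ * α = δ * α * δ⁻¹ * γ := by
      rw [← hc2]; group
    calc δ⁻¹ * γ * α = δ⁻¹ * (γ * α) := by group
      _ = δ⁻¹ * (δ * α * δ⁻¹ * γ) := by rw [this]
      _ = α * (δ⁻¹ * γ) := by group
  have hdg : IsDiag (δ⁻¹ * γ) := diag_of_commute hα hr hcm
  obtain ⟨w, hw⟩ := hdiag _ hdg
  refine ⟨δ⁻¹ * γ, Γ.mul_mem (Γ.inv_mem hc1) hγ, w, hw, ?_⟩
  have hl := hmul _ _ _ _ hw (hlog v)
  have hmem : δ⁻¹ * γ * dgm v ∈
      (⋃ f ∈ {γ : SL n | γ ∈ Γ ∧ γ ∈ (fun q : SL n => q * α * q⁻¹) '' Q},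
        (fun q : SL n => (c f)⁻¹ * q) '' Q) := by
    simp only [Set.mem_iUnion]
    refine ⟨γ * α * γ⁻¹, ⟨Γ.mul_mem (Γ.mul_mem hγ hαΓ) (Γ.inv_mem hγ), ?_⟩, ?_⟩
    · exact ⟨γ * dgm v, hγQ, hconj.symm⟩
    · exact ⟨γ * dgm v, hγQ, (mul_assoc _ _ _).symm⟩
  have hbd := hB _ hmem
  rw [Real.norm_eq_abs] at hbd
  have hbd' := (le_abs_self _).trans hbd
  have hl2 := hinv _ _ hl
  rw [add_comm v w]
  refine norm_le_of_abs_le _ B fun i => ?_
  have hs : |(δ⁻¹ * γ * dgm v).1 i i| + |((δ⁻¹ * γ * dgm v)⁻¹).1 i i| ≤ B :=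
    (Finset.single_le_sum (f := fun i : Fin n =>
      |(δ⁻¹ * γ * dgm v).1 i i| + |((δ⁻¹ * γ * dgm v)⁻¹).1 i i|)
      (fun j _ => add_nonneg (abs_nonneg _) (abs_nonneg _)) (Finset.mem_univ i)).trans hbd'
  have h1 : (w + v).1 i ≤ |(δ⁻¹ * γ * dgm v).1 i i| := by
    rw [hl.2 i]
    exact Real.log_le_self (abs_nonneg _)
  have h2 : -(w + v).1 i ≤ |((δ⁻¹ * γ * dgm v)⁻¹).1 i i| := by
    have h3 := hl2.2 i
    have e : (-(w + v)).1 i = -(w + v).1 i := rfl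
    rw [← e, h3]
    exact Real.log_le_self (abs_nonneg _)
  rw [abs_le]
  constructor
  · linarith [abs_nonneg ((δ⁻¹ * γ * dgm v).1 i i)]
  · linarith [abs_nonneg (((δ⁻¹ * γ * dgm v)⁻¹).1 i i)]

end LibNC38
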