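import Pool.Agent.LibNC38.B1

set_option autoImplicit false

open Matrix MeasureTheory Topology Filter

namespace LibNC38

private noncomputable def sumL (n : ℕ) : EuclideanSpace ℝ (Fin n) →ₗ[ℝ] ℝ where
  toFun y := ∑ i, y i
  map_add' a b := by simp [Finset.sum_add_distrib]
  map_smul' c a := by simp [Finset.mul_sum]

private theorem finrank_V0 {n : ℕ} (hn : 1 ≤ n) : Module.finrank ℝ (V0 n) = n - 1 := by
  have h1 : LinearMap.ker (sumL n) = sz n := by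
    ext y
    rfl
  have h2 : LinearMap.range (sumL n) = ⊤ := by
    rw [LinearMap.range_eq_top]
    intro c
    refine ⟨EuclideanSpace.single (⟨0, hn⟩ : Fin n) c, ?_⟩
    change ∑ i, (EuclideanSpace.single (⟨0, hn⟩ : Fin n) c) i = c
    simp
  have h3 := LinearMap.finrank_range_add_finrank_ker (sumL n)
  rw [h2, h1, finrank_top, Module.finrank_self, finrank_euclideanSpace, Fintype.card_fin] at h3
  change Module.finrank ℝ (sz n) = n - 1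
  omega

private def lg {n : ℕ} (Γ : Subgroup (SL n)) : Submodule ℤ (V0 n) :=
  AddSubgroup.toIntSubmodule
    { carrier := {w | ∃ γ ∈ Γ, IsLog γ w}
      add_mem' := by
        rintro a b ⟨γ, h1, h2⟩ ⟨δ, h3, h4⟩
        exact ⟨γ * δ, Γ.mul_mem h1 h3, flat_facts.2.2.2.2.2.1 γ δ a b h2 h4⟩
      zero_mem' := by
        refine ⟨1, Γ.one_mem, ?_⟩
        have h := (flat_facts (n := n)).2.2.1 0
        rwa [(flat_facts (n := n)).2.2.2.2.2.2.2.2.2.2.2] at h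
      neg_mem' := by
        rintro a ⟨γ, h1, h2⟩
        exact ⟨γ⁻¹, Γ.inv_mem h1, flat_facts.2.2.2.2.2.2.1 γ a h2⟩ }

private theorem mem_lg {n : ℕ} (Γ : Subgroup (SL n)) (w : V0 n) : w ∈ lg Γ ↔ ∃ γ ∈ Γ, IsLog γ w := Iff.rfl

private theorem lg_disc {n : ℕ} (Γ : Subgroup (SL n))
    (hfin : ∀ R : ℝ, {w : V0 n | ‖w‖ ≤ R ∧ ∃ γ ∈ Γ, IsLog γ w}.Finite) : DiscreteTopology (lg Γ) := by
  have hopen : IsOpen ({0} : Set (lg Γ)) := by
    have hsub : {w : V0 n | ‖w‖ ≤ 1 ∧ w ∈ lg Γ ∧ w ≠ 0} ⊆ {w : V0 n | ‖w‖ ≤ 1 ∧ ∃ γ ∈ Γ, IsLog γ w} :=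
      fun w hw => ⟨hw.1, hw.2.1⟩
    have hf := (hfin 1).subset hsub
    have hcl : IsClosed {w : V0 n | ‖w‖ ≤ 1 ∧ w ∈ lg Γ ∧ w ≠ 0} := hf.isClosed
    have h0 : (0 : V0 n) ∈ {w : V0 n | ‖w‖ ≤ 1 ∧ w ∈ lg Γ ∧ w ≠ 0}ᶜ := fun h => h.2.2 rfl
    have hU : IsOpen ({w : V0 n | ‖w‖ ≤ 1 ∧ w ∈ lg Γ ∧ w ≠ 0}ᶜ ∩ Metric.ball (0 : V0 n) 1) :=
      hcl.isOpen_compl.inter Metric.isOpen_ball
    have e : ({0} : Set (lg Γ)) = (fun x : lg Γ => (x : V0 n)) ⁻¹'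
        ({w : V0 n | ‖w‖ ≤ 1 ∧ w ∈ lg Γ ∧ w ≠ 0}ᶜ ∩ Metric.ball (0 : V0 n) 1) := by
      ext x
      constructor
      · intro hx
        rw [Set.mem_singleton_iff] at hx
        subst hx
        exact ⟨h0, Metric.mem_ball_self one_pos⟩
      · rintro ⟨h1, h2⟩
        by_contra hx
        refine h1 ⟨?_, x.2, fun h => hx ?_⟩
        · have := mem_ball_zero_iff.1 h2
          exact this.le
        · rw [Set.mem_singleton_iff]
          exact Subtype.ext h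
    rw [e]
    exact hU.preimage continuous_subtype_val
  exact discreteTopology_of_isOpen_singleton_zero hopen

private theorem lg_span {n : ℕ} (Γ : Subgroup (SL n)) (R : ℝ)
    (hR : ∀ v : V0 n, ∃ γ ∈ Γ, ∃ w, IsLog γ w ∧ ‖v + w‖ ≤ R) :
    Submodule.span ℝ (lg Γ : Set (V0 n)) = ⊤ := by
  rw [← Submodule.orthogonal_eq_bot_iff, Submodule.eq_bot_iff]
  intro u hu
  by_contra hu0
  have hpos : 0 < ‖u‖ := norm_pos_iff.2 hu0
  set t : ℝ := (|R| + 1) / ‖u‖ with ht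
  obtain ⟨γ, hγ, w, hw, hle⟩ := hR (t • u)
  have hwS : w ∈ Submodule.span ℝ (lg Γ : Set (V0 n)) := Submodule.subset_span ⟨γ, hγ, hw⟩
  have hin : inner ℝ (t • u) w = 0 := by
    have h1 : inner ℝ u w = 0 := Submodule.inner_left_of_mem_orthogonal hwS hu
    rw [Submodule.coe_inner] at h1 ⊢
    rw [Submodule.coe_smul, real_inner_smul_left, h1, mul_zero]
  have h1 : ‖t • u + w‖ * ‖t • u + w‖ = ‖t • u‖ * ‖t • u‖ + ‖w‖ * ‖w‖ :=
    norm_add_sq_eq_norm_sq_add_norm_sq_of_inner_eq_zero _ _ hin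
  have h2 : ‖t • u‖ = |R| + 1 := by
    rw [norm_smul, Real.norm_eq_abs, ht, abs_div, abs_norm, div_mul_cancel₀ _ hpos.ne',
      abs_of_nonneg (by positivity)]
  have h3 : R ≤ |R| := le_abs_self R
  have h4 : 0 ≤ ‖t • u + w‖ := norm_nonneg _
  have h5 : 0 ≤ ‖w‖ * ‖w‖ := by positivity
  rw [h2] at h1
  nlinarith [abs_nonneg R]

/-- Row G7 (a basis of the lattice of logarithms). `L = {w | ∃ γ ∈ Γ, IsLog γ w}` is an additive
subgroup of `V0 n` (B1), discrete (`hfin`) and cocompact (`hR`), so it spans `V0 n` over `ℝ`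
(`IsZLattice`; if the span were a proper subspace the distance to it would be unbounded) and has a
`ℤ`-basis which is an `ℝ`-basis (`Module.Basis.ofZLatticeBasis` and friends). The dimension of
`V0 n` is `n - 1`. -/
theorem lat_basis {n : ℕ} (hn : 1 ≤ n) (Γ : Subgroup (SL n))
    (hfin : ∀ R : ℝ, {w : V0 n | ‖w‖ ≤ R ∧ ∃ γ ∈ Γ, IsLog γ w}.Finite) (R : ℝ)
    (hR : ∀ v : V0 n, ∃ γ ∈ Γ, ∃ w, IsLog γ w ∧ ‖v + w‖ ≤ R) :
    ∃ e : (Fin (n - 1) → ℝ) ≃L[ℝ] V0 n, ∀ w : V0 n, (∃ γ ∈ Γ, IsLog γ w) ↔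
      ∃ k : Fin (n - 1) → ℤ, w = e fun i => (k i : ℝ) := by
  have := lg_disc Γ hfin
  have : IsZLattice ℝ (lg Γ) := ⟨lg_span Γ R hR⟩
  have : Module.Free ℤ (lg Γ) := ZLattice.module_free ℝ (lg Γ)
  have : Module.Finite ℤ (lg Γ) := ZLattice.module_finite ℝ (lg Γ)
  have hr : Module.finrank ℤ (lg Γ) = n - 1 := by
    rw [ZLattice.rank ℝ (lg Γ), finrank_V0 hn]
  let b₀ : Module.Basis (Fin (n - 1)) ℤ (lg Γ) := Module.finBasisOfFinrankEq ℤ (lg Γ) hr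
  let B : Module.Basis (Fin (n - 1)) ℝ (V0 n) := b₀.ofZLatticeBasis ℝ (lg Γ)
  refine ⟨B.equivFunL.symm, fun w => ?_⟩
  rw [← mem_lg, ← b₀.ofZLatticeBasis_span ℝ (L := lg Γ), Submodule.mem_span_range_iff_exists_fun]
  refine exists_congr fun k => ?_
  have e : B.equivFunL.symm (fun i => (k i : ℝ)) = ∑ i, (k i : ℝ) • B i := B.equivFun_symm_apply _
  rw [e, eq_comm]
  have e2 : ∑ i, k i • (b₀.ofZLatticeBasis ℝ (lg Γ)) i = ∑ i, (k i : ℝ) • B i :=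
    Finset.sum_congr rfl fun i _ => (Int.cast_smul_eq_zsmul ℝ (k i) (B i)).symm
  rw [e2]

end LibNC38
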