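import Mathlib

set_option autoImplicit false

open MeasureTheory Topology Filter Complex

namespace LibNC38

/-- Fourier coefficient of a `ℤ^r`-periodic function -/
noncomputable def fc {r : ℕ} (f : (Fin r → ℝ) → ℝ) (k : Fin r → ℤ) : ℂ :=
  ∫ x in Set.Icc (0 : Fin r → ℝ) 1, (f x : ℂ) * Complex.exp (-(2 * Real.pi * (∑ i, (k i : ℝ) * x i) : ℝ) * I)

/-- continuous and periodic under the integer vectors -/
def Per {r : ℕ} (f : (Fin r → ℝ) → ℝ) : Prop :=
  Continuous f ∧ ∀ (x : Fin r → ℝ) (k : Fin r → ℤ), f (x + fun i => (k i : ℝ)) = f x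

/-- Row H1 (uniqueness of Fourier coefficients). Lift to `UnitAddTorus (Fin r)` and use
`mFourierCoeff`, `hasSum_mFourier_series_L2` or the density of trigonometric polynomials
(`UnitAddTorus.span_mFourier_closure_eq_top`), or prove it directly: the span of the exponentials
is dense in the continuous periodic functions, so `∫ |f|² = 0`. -/
theorem four_zero {r : ℕ} (f : (Fin r → ℝ) → ℝ) (hf : Per f) (h : ∀ k, fc f k = 0) :
    ∀ x, f x = 0 := by
  have hq : IsOpenQuotientMap (Pi.map (fun (_ : Fin r) (x : ℝ) => (x : UnitAddCircle))) :=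
    IsOpenQuotientMap.piMap (fun _ => QuotientAddGroup.isOpenQuotientMap_mk)
  let g : UnitAddTorus (Fin r) → ℂ := fun t => (f (Function.surjInv hq.surjective t) : ℂ)
  have hg : ∀ x : Fin r → ℝ, g (fun i => (x i : UnitAddCircle)) = f x := by
    intro x
    have h1 : Pi.map (fun (_ : Fin r) (x : ℝ) => (x : UnitAddCircle))
        (Function.surjInv hq.surjective (fun i => (x i : UnitAddCircle))) = fun i => (x i : UnitAddCircle) :=
      Function.surjInv_eq hq.surjective _
    set y := Function.surjInv hq.surjective (fun i => (x i : UnitAddCircle)) with hy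
    have h2 : ∀ i, ∃ n : ℤ, y i = x i + n := by
      intro i
      have h3 : ((y i : ℝ) : UnitAddCircle) = (x i : UnitAddCircle) := congrFun h1 i
      have h4 : ((y i - x i : ℝ) : UnitAddCircle) = 0 := by
        rw [AddCircle.coe_sub, h3, sub_self]
      obtain ⟨n, hn⟩ := (AddCircle.coe_eq_zero_iff (1 : ℝ)).1 h4
      refine ⟨n, ?_⟩
      rw [zsmul_eq_mul, mul_one] at hn
      linarith
    choose n hn using h2
    have h5 : y = x + fun i => (n i : ℝ) := by
      ext i
      rw [hn i]
      rfl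
    show ((f y : ℝ) : ℂ) = f x
    rw [h5, hf.2]
  have hgc : Continuous g := by
    rw [hq.isQuotientMap.continuous_iff]
    have h1 : g ∘ Pi.map (fun (_ : Fin r) (x : ℝ) => (x : UnitAddCircle)) = fun x => ((f x : ℝ) : ℂ) := by
      ext x
      exact hg x
    rw [h1]
    exact Complex.continuous_ofReal.comp hf.1
  let G : C(UnitAddTorus (Fin r), ℂ) := ⟨g, hgc⟩
  have hG0 : UnitAddTorus.mFourierCoeff (G : UnitAddTorus (Fin r) → ℂ) = 0 := by
    ext k
    rw [UnitAddTorus.mFourierCoeff_eq_integral _ k 0, Pi.zero_apply]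
    rw [← h k]
    unfold fc
    have hset : (Set.univ.pi fun i : Fin r => Set.Ioc ((0 : Fin r → ℝ) i) ((1 : Fin r → ℝ) i)) =
        {x : Fin r → ℝ | ∀ i, x i ∈ Set.Ioc ((0 : Fin r → ℝ) i) ((0 : Fin r → ℝ) i + 1)} := by
      ext x
      simp
    have hae : {x : Fin r → ℝ | ∀ i, x i ∈ Set.Ioc ((0 : Fin r → ℝ) i) ((0 : Fin r → ℝ) i + 1)} =ᵐ[volume]
        Set.Icc (0 : Fin r → ℝ) 1 := by
      rw [← hset]
      exact Measure.univ_pi_Ioc_ae_eq_Icc
    rw [setIntegral_congr_set hae]
    refine setIntegral_congr_fun measurableSet_Icc (fun x _ => ?_)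
    have h1 : (G : UnitAddTorus (Fin r) → ℂ) (fun i => (x i : UnitAddCircle)) = f x := hg x
    have h2 : UnitAddTorus.mFourier (-k) (fun i => (x i : UnitAddCircle)) =
        Complex.exp (-(2 * Real.pi * (∑ i, (k i : ℝ) * x i) : ℝ) * I) := by
      show ∏ i : Fin r, fourier ((-k) i) ((x i : ℝ) : UnitAddCircle) = _
      simp only [Pi.neg_apply, fourier_coe_apply]
      rw [← Complex.exp_sum]
      congr 1
      push_cast
      rw [Finset.mul_sum, ← Finset.sum_neg_distrib, Finset.sum_mul]
      refine Finset.sum_congr rfl (fun i _ => ?_)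
      ring
    show UnitAddTorus.mFourier (-k) (fun i => (x i : UnitAddCircle)) •
      (G : UnitAddTorus (Fin r) → ℂ) (fun i => (x i : UnitAddCircle)) = _
    rw [h1, h2, smul_eq_mul, mul_comm]
  have hs : Summable (UnitAddTorus.mFourierCoeff (G : UnitAddTorus (Fin r) → ℂ)) := by
    rw [hG0]
    exact summable_zero
  intro x
  have h1 := UnitAddTorus.hasSum_mFourier_series_apply_of_summable hs (fun i => (x i : UnitAddCircle))
  rw [hG0] at h1
  simp only [Pi.zero_apply, zero_smul] at h1
  have h2 := h1.unique hasSum_zero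
  have h3 : ((f x : ℝ) : ℂ) = 0 := by
    rw [← hg x]
    exact h2
  exact_mod_cast h3

end LibNC38
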