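import Pool.Agent.LibNC38.Defs

set_option autoImplicit false

open Matrix MeasureTheory Topology Filter

namespace LibNC38

/-- Row G1a. Topology of `SL n`: a locally compact, second countable Hausdorff group (closed subset
of the space of matrices), and a discrete subgroup is countable. (A discrete subset of a second
countable space is countable; the neighbourhood `U` of `1` gives neighbourhoods of all
`γ ∈ Γ`.) -/
theorem SL_top {n : ℕ} : T2Space (SL n) ∧ LocallyCompactSpace (SL n) ∧
    SecondCountableTopology (SL n) ∧ IsTopologicalGroup (SL n) ∧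
    ∀ Γ : Subgroup (SL n), Disc Γ → (Γ : Set (SL n)).Countable := by
  have hce : IsClosedEmbedding ((↑) : SL n → Matrix (Fin n) (Fin n) ℝ) :=
    Matrix.SpecialLinearGroup.isClosedEmbedding_val
  haveI hT : T2Space (SL n) := hce.isEmbedding.t2Space
  haveI hlc : LocallyCompactSpace (Matrix (Fin n) (Fin n) ℝ) :=
    inferInstanceAs (LocallyCompactSpace (Fin n → Fin n → ℝ))
  haveI hsc0 : SecondCountableTopology (Matrix (Fin n) (Fin n) ℝ) :=
    inferInstanceAs (SecondCountableTopology (Fin n → Fin n → ℝ))
  haveI hL : LocallyCompactSpace (SL n) := hce.locallyCompactSpace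
  haveI hS : SecondCountableTopology (SL n) := hce.isEmbedding.secondCountableTopology
  refine ⟨hT, hL, hS, inferInstance, ?_⟩
  intro Γ hΓ
  obtain ⟨U, hU, hUΓ⟩ := hΓ
  have hmem : ((↑) : Γ → SL n) ⁻¹' U ∈ nhds (1 : Γ) :=
    continuous_subtype_val.continuousAt.preimage_mem_nhds (by simpa using hU)
  have hone : ({1} : Set Γ) ∈ nhds (1 : Γ) := by
    refine Filter.mem_of_superset hmem ?_
    intro x hx
    have h1 : (x : SL n) = 1 := hUΓ x.1 x.2 hx
    exact Set.mem_singleton_iff.2 (Subtype.ext h1)
  have hopen : IsOpen ({1} : Set Γ) := by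
    rw [isOpen_iff_mem_nhds]
    intro x hx
    rw [Set.mem_singleton_iff.1 hx]
    exact hone
  haveI hd : DiscreteTopology Γ := discreteTopology_of_isOpen_singleton_one hopen
  have hc : Countable Γ := TopologicalSpace.separableSpace_iff_countable.1 inferInstance
  exact Set.countable_coe_iff.1 hc

end LibNC38
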