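import Pool.Agent.LibNC38.J2

set_option autoImplicit false

open Matrix MeasureTheory Topology Filter

namespace LibNC38

/-- the diagonal matrix with entries `t` at `i`, `t⁻¹` at `j` is a product of transvections -/
theorem diag_two {n : ℕ} (i j : Fin n) (h : i ≠ j) (t : ℝ) (ht : t ≠ 0) :
    Matrix.transvection i j t * (Matrix.transvection j i (-t⁻¹) * (Matrix.transvection i j t *
      (Matrix.transvection i j (-1) * (Matrix.transvection j i 1 *
        (Matrix.transvection i j (-1) * (1 : Matrix (Fin n) (Fin n) ℝ)))))) =
      Matrix.diagonal (fun a => if a = i then t else if a = j then t⁻¹ else 1) := by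
  have h' : j ≠ i := h.symm
  ext a b
  by_cases ha : a = i
  · subst ha
    simp only [Matrix.transvection_mul_apply_same, Matrix.transvection_mul_apply_of_ne _ _ _ _ h,
      Matrix.transvection_mul_apply_of_ne _ _ _ _ h', Matrix.diagonal_apply, Matrix.one_apply]
    by_cases hb : a = b
    · subst hb
      simp only [h', if_true, if_false]
      field_simp
      ring
    · by_cases hb2 : j = b
      · simp only [hb, hb2, if_true, if_false]
        field_simp
        ring
      · simp only [hb, hb2, if_false]
        ring
  · by_cases ha2 : a = j
    · subst ha2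
      simp only [Matrix.transvection_mul_apply_same, Matrix.transvection_mul_apply_of_ne _ _ _ _ h,
        Matrix.transvection_mul_apply_of_ne _ _ _ _ h', Matrix.diagonal_apply, Matrix.one_apply, ha,
        if_false, if_true]
      by_cases hb : a = b
      · subst hb
        simp only [h, if_true, if_false]
        field_simp
        ring
      · by_cases hb2 : i = b
        · simp only [hb, hb2, if_true, if_false]
          field_simp
          ring
        · simp only [hb, hb2, if_false]
          ring
    · simp only [Matrix.transvection_mul_apply_of_ne _ _ _ _ ha, Matrix.transvection_mul_apply_of_ne _ _ _ _ ha2,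
        Matrix.diagonal_apply, Matrix.one_apply, ha, ha2, if_false]

/-- Row J3. `SL n` is generated by transvections. From
`Matrix.Pivot.exists_list_transvec_mul_diagonal_mul_list_transvec` a matrix of determinant one is a
product of transvections, a diagonal matrix `D` of determinant one, and transvections; `D` is a
product of matrices with entries `t, 1/t` at two places, and
`diag (t, 1/t) = U(t) L(-1/t) U(t) · (U(1) L(-1) U(1))⁻¹` with transvections `U, L`. State: the
subgroup generated by the transvections is everything. -/
theorem gen_tv {n : ℕ} :
    Subgroup.closure {g : SL n | ∃ (i j : Fin n) (h : i ≠ j) (c : ℝ), g = tv i j h c} = ⊤ := by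
  classical
  set S := Subgroup.closure {g : SL n | ∃ (i j : Fin n) (h : i ≠ j) (c : ℝ), g = tv i j h c} with hS
  have htv : ∀ (i j : Fin n) (h : i ≠ j) (c : ℝ), tv i j h c ∈ S := fun i j h c =>
    Subgroup.subset_closure ⟨i, j, h, c, rfl⟩
  -- two entries
  have htwo : ∀ (i j : Fin n) (h : i ≠ j) (t : ℝ) (ht : t ≠ 0) (g : SL n),
      g.1 = Matrix.diagonal (fun a => if a = i then t else if a = j then t⁻¹ else 1) → g ∈ S := by
    intro i j h t ht g hg
    have e : g = tv i j h t * (tv j i h.symm (-t⁻¹) * (tv i j h t *
        (tv i j h (-1) * (tv j i h.symm 1 * tv i j h (-1))))) := by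
      apply Subtype.ext
      rw [hg, ← diag_two i j h t ht, Matrix.mul_one]
      rfl
    rw [e]
    exact S.mul_mem (htv _ _ _ _) (S.mul_mem (htv _ _ _ _) (S.mul_mem (htv _ _ _ _)
      (S.mul_mem (htv _ _ _ _) (S.mul_mem (htv _ _ _ _) (htv _ _ _ _)))))
  -- diagonal matrices
  have hdiag : ∀ (i0 : Fin n) (s : Finset (Fin n)), i0 ∉ s → ∀ (D : Fin n → ℝ) (g : SL n),
      g.1 = Matrix.diagonal D → (∀ i, i ∉ s → i ≠ i0 → D i = 1) → g ∈ S := by
    intro i0 s
    induction s using Finset.induction_on with
    | empty =>
      intro _ D g hg hD
      have hdet : ∏ i, D i = 1 := by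
        have := g.2
        rw [hg, Matrix.det_diagonal] at this
        exact this
      have hD0 : D i0 = 1 := by
        rw [Finset.prod_eq_single i0 (fun b _ hb => hD b (Finset.notMem_empty b) hb)
          (fun hb => absurd (Finset.mem_univ i0) hb)] at hdet
        exact hdet
      have hD1 : D = fun _ => 1 := by
        funext i
        by_cases hi : i = i0
        · rw [hi, hD0]
        · exact hD i (Finset.notMem_empty i) hi
      have hg1 : g = 1 := by
        apply Subtype.ext
        rw [hg, hD1]
        exact Matrix.diagonal_one
      rw [hg1]
      exact S.one_mem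
    | insert a s ha ih =>
      intro h0 D g hg hD
      have ha0 : a ≠ i0 := fun h => h0 (h ▸ Finset.mem_insert_self a s)
      have hi0s : i0 ∉ s := fun h => h0 (Finset.mem_insert_of_mem h)
      have hdet : ∏ i, D i = 1 := by
        have := g.2
        rw [hg, Matrix.det_diagonal] at this
        exact this
      have hDa : D a ≠ 0 := by
        intro h
        rw [Finset.prod_eq_zero (Finset.mem_univ a) h] at hdet
        exact zero_ne_one hdet
      -- the factor with two entries
      have hEdet : (Matrix.diagonal (fun b : Fin n => if b = a then D a else if b = i0 then (D a)⁻¹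
          else 1)).det = 1 := by
        rw [← diag_two a i0 ha0 (D a) hDa]
        simp [Matrix.det_mul, Matrix.det_transvection_of_ne _ _ ha0,
          Matrix.det_transvection_of_ne _ _ ha0.symm]
      set E : SL n := ⟨_, hEdet⟩ with hE
      have hEm : E ∈ S := htwo a i0 ha0 (D a) hDa E rfl
      have hgE : (g * E⁻¹) ∈ S := by
        have hinv : (g * E⁻¹) * E = g := by group
        -- the diagonal of the quotient
        refine ih hi0s (fun b => if b = a then 1 else if b = i0 then D i0 * D a else D b) (g * E⁻¹)
          ?_ ?_
        · have h1 : (Matrix.diagonal (fun b => if b = a then 1 else if b = i0 then D i0 * D a else D b))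
              * E.1 = g.1 := by
            rw [hE, hg]
            show Matrix.diagonal _ * Matrix.diagonal _ = Matrix.diagonal D
            rw [Matrix.diagonal_mul_diagonal]
            congr 1
            funext b
            by_cases hb : b = a
            · subst hb
              simp
            · by_cases hb0 : b = i0
              · subst hb0
                simp only [hb, if_false, if_true]
                field_simp
              · simp only [hb, hb0, if_false, mul_one]
          have h2 : E.1 * E⁻¹.1 = 1 := by
            have := congrArg Subtype.val (mul_inv_cancel E)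
            exact this
          calc (g * E⁻¹).1 = g.1 * E⁻¹.1 := rfl
            _ = (Matrix.diagonal (fun b => if b = a then 1 else if b = i0 then D i0 * D a else D b)
                * E.1) * E⁻¹.1 := by rw [h1]
            _ = _ := by rw [Matrix.mul_assoc, h2, Matrix.mul_one]
        · intro b hbs hb0
          show (if b = a then 1 else if b = i0 then D i0 * D a else D b) = 1
          by_cases hb : b = a
          · simp [hb]
          · simp only [hb, hb0, if_false]
            exact hD b (fun h => by
              rcases Finset.mem_insert.1 h with h | h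
              · exact hb h
              · exact hbs h) hb0
      have h3 : g = (g * E⁻¹) * E := by group
      rw [h3]
      exact S.mul_mem hgE hEm
  -- all matrices
  rw [eq_top_iff]
  intro M _
  have hP := Matrix.diagonal_transvection_induction
    (fun A : Matrix (Fin n) (Fin n) ℝ => ∃ h : A.det = 1, (⟨A, h⟩ : SL n) ∈ S) M.1 ?_ ?_ ?_
  · obtain ⟨h, hM⟩ := hP
    exact hM
  · intro D hD
    have h1 : (Matrix.diagonal D).det = 1 := by rw [hD]; exact M.2
    refine ⟨h1, ?_⟩
    by_cases hn : Nonempty (Fin n)
    · obtain ⟨i0⟩ := hn
      refine hdiag i0 (Finset.univ.erase i0) (Finset.notMem_erase _ _) D _ rfl ?_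
      intro i hi hi0
      exact absurd (Finset.mem_erase.2 ⟨hi0, Finset.mem_univ i⟩) hi
    · have h2 : (1 : SL n) = ⟨Matrix.diagonal D, h1⟩ := by
        apply Subtype.ext
        ext i j
        exact absurd ⟨i⟩ hn
      exact h2 ▸ S.one_mem
  · intro t
    exact ⟨t.det, htv t.i t.j t.hij t.c⟩
  · rintro A B ⟨hA, hA'⟩ ⟨hB, hB'⟩
    refine ⟨by rw [Matrix.det_mul, hA, hB, one_mul], ?_⟩
    exact S.mul_mem hA' hB'

end LibNC38
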