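import Pool.Agent.LibNC38.C2

set_option autoImplicit false

open Matrix MeasureTheory

namespace LibNC38

/-- Row D1. The entries of `b` are controlled by the distance of `o` and `b · o = b bᵀ`:
`b bᵀ = k e^(2z) kᵀ` (polar), `dg (o n) (act b (o n)) = 2 ‖z‖`, so
`(b i j)² ≤ trace (b bᵀ) = ∑ exp (2 z i) ≤ n exp C`. -/
theorem entries_bd {n : ℕ} (b : SL n) (C : ℝ) (h : dg (o n) (act b (o n)) ≤ C) (i j : Fin n) :
    (b.1 i j) ^ 2 ≤ n * Real.exp C := by
  obtain ⟨k, z, hk, hq⟩ := polar (act b (o n))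
  have hk' : k.1ᵀ * k.1 = 1 := mul_eq_one_comm.mp hk
  have hd : dg (o n) (act b (o n)) = 2 * ‖z‖ := by
    have h0 : act k (sg (0 : V0 n)) = o n := by
      apply Subtype.ext
      have h1 : (dgm (0 : V0 n)).1 = 1 := by
        simp [dgm]
      simp only [sg, act, o, h1, Matrix.transpose_one, mul_one]
      exact hk
    have h2 := dg_flat k 0 z
    rw [h0, ← hq, zero_sub, norm_neg] at h2
    exact h2
  have hz : 2 * ‖z‖ ≤ C := hd ▸ h
  have hbb : b.1 * b.1ᵀ = k.1 * (sg z).1 * k.1ᵀ := by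
    have h3 := congrArg Subtype.val hq
    simpa only [act, o, mul_one] using h3
  have htr : Matrix.trace (b.1 * b.1ᵀ) = ∑ l, Real.exp (2 * z.1 l) := by
    rw [hbb, Matrix.trace_mul_comm, ← Matrix.mul_assoc, hk', one_mul]
    simp only [sg, act, o, mul_one, dgm, Matrix.diagonal_transpose, Matrix.diagonal_mul_diagonal,
      Matrix.trace_diagonal]
    refine Finset.sum_congr rfl fun l _ => ?_
    rw [← Real.exp_add]
    congr 1
    ring
  have hle : ∀ l, Real.exp (2 * z.1 l) ≤ Real.exp C := by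
    intro l
    apply Real.exp_le_exp.2
    have h4 : |z.1 l| ≤ ‖z‖ := by
      have h5 := EuclideanSpace.norm_eq z.1
      have h6 : ‖z‖ = ‖z.1‖ := rfl
      rw [h6, h5]
      apply Real.le_sqrt_of_sq_le
      have h7 : |z.1 l| ^ 2 = ‖z.1 l‖ ^ 2 := by rw [Real.norm_eq_abs]
      rw [h7]
      exact Finset.single_le_sum (f := fun i => ‖z.1 i‖ ^ 2) (fun i _ => sq_nonneg _)
        (Finset.mem_univ l)
    have h8 := le_abs_self (z.1 l)
    linarith
  have hsum : ∑ l, Real.exp (2 * z.1 l) ≤ n * Real.exp C := by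
    calc ∑ l, Real.exp (2 * z.1 l) ≤ ∑ _l : Fin n, Real.exp C :=
          Finset.sum_le_sum fun l _ => hle l
      _ = n * Real.exp C := by simp
  have htr2 : Matrix.trace (b.1 * b.1ᵀ) = ∑ a, ∑ c, (b.1 a c) ^ 2 := by
    simp only [Matrix.trace, Matrix.diag, Matrix.mul_apply, Matrix.transpose_apply]
    refine Finset.sum_congr rfl fun a _ => Finset.sum_congr rfl fun c _ => ?_
    ring
  have h9 : (b.1 i j) ^ 2 ≤ ∑ a, ∑ c, (b.1 a c) ^ 2 := by
    calc (b.1 i j) ^ 2 ≤ ∑ c, (b.1 i c) ^ 2 :=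
          Finset.single_le_sum (f := fun c => (b.1 i c) ^ 2) (fun c _ => sq_nonneg _)
            (Finset.mem_univ j)
      _ ≤ ∑ a, ∑ c, (b.1 a c) ^ 2 :=
          Finset.single_le_sum (f := fun a => ∑ c, (b.1 a c) ^ 2)
            (fun a _ => Finset.sum_nonneg fun c _ => sq_nonneg _) (Finset.mem_univ i)
  rw [← htr2, htr] at h9
  exact h9.trans hsum

end LibNC38
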