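import Pool.Agent.LibNC38.C3
import Pool.Agent.LibNC38.D1

set_option autoImplicit false

open Matrix MeasureTheory

namespace LibNC38

/-- the equation `t β = α t` in entries -/
private theorem d2_ent {n : ℕ} (t β α : SL n) (hd : IsDiag α) (hc : t * β = α * t) (i j : Fin n) :
    ∑ k, t.1 i k * β.1 k j = α.1 i i * t.1 i j := by
  have h1 : (t * β).1 i j = (α * t).1 i j := by rw [hc]
  have h2 : (t * β).1 i j = ∑ k, t.1 i k * β.1 k j := Matrix.mul_apply
  have h3 : (α * t).1 i j = ∑ k, α.1 i k * t.1 k j := Matrix.mul_apply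
  rw [← h2, h1, h3]
  refine Finset.sum_eq_single i ?_ (by simp)
  intro k _ hk
  rw [hd i k hk.symm, zero_mul]

private theorem d2_low {n : ℕ} (t β α : SL n) (ht : Lower t) (hp : ∀ i, 0 < t.1 i i)
    (hd : IsDiag α) (hc : t * β = α * t) (i j : Fin n) (hij : i < j) : β.1 i j = 0 := by
  have key : ∀ N : ℕ, ∀ i j : Fin n, (i : ℕ) = N → i < j → β.1 i j = 0 := by
    intro N
    induction N using Nat.strong_induction_on with
    | _ N ih =>
      intro i j hi hij
      have h1 := d2_ent t β α hd hc i j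
      rw [ht i j hij, mul_zero, Finset.sum_eq_single i ?_ (by simp)] at h1
      · exact (mul_eq_zero.1 h1).resolve_left (hp i).ne'
      · intro k _ hk
        rcases lt_or_gt_of_ne hk with hk | hk
        · rw [ih k (by rw [← hi]; exact hk) k j rfl (hk.trans hij), mul_zero]
        · rw [ht i k hk, zero_mul]
  exact key i i j rfl hij

private theorem d2_diag {n : ℕ} (t β α : SL n) (ht : Lower t) (hp : ∀ i, 0 < t.1 i i)
    (hd : IsDiag α) (hc : t * β = α * t) (i : Fin n) : β.1 i i = α.1 i i := by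
  have h1 := d2_ent t β α hd hc i i
  rw [Finset.sum_eq_single i ?_ (by simp)] at h1
  · rw [mul_comm] at h1
    exact mul_right_cancel₀ (hp i).ne' h1
  · intro k _ hk
    rcases lt_or_gt_of_ne hk with hk | hk
    · rw [d2_low t β α ht hp hd hc k i hk, mul_zero]
    · rw [ht i k hk, zero_mul]

private theorem d2_rec {n : ℕ} (t β α : SL n) (ht : Lower t) (hp : ∀ i, 0 < t.1 i i)
    (hd : IsDiag α) (hc : t * β = α * t) (E A B : ℝ) (hE : ∀ i, t.1 i i ≤ E) (hA : 0 ≤ A)
    (hB : 0 ≤ B) (hr : ∀ i j, i ≠ j → α.1 i i ≠ α.1 j j)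
    (hAα : ∀ i j, i ≠ j → |α.1 i i - α.1 j j|⁻¹ ≤ A) (hβ : ∀ i j, |β.1 i j| ≤ B) (d : ℕ)
    (i j : Fin n) (hij : (i : ℕ) ≤ j + d) : |t.1 i j| ≤ E * (1 + A * (n * B)) ^ d := by
  have hE0 : 0 < E := (hp i).trans_le (hE i)
  have hq : (1 : ℝ) ≤ 1 + A * (n * B) := by
    have : 0 ≤ A * (n * B) := by positivity
    linarith
  induction d generalizing i j with
  | zero =>
    rw [pow_zero, mul_one]
    rcases lt_or_eq_of_le hij with h | h
    · rw [ht i j (by rw [Fin.lt_def]; omega), abs_zero]
      exact hE0.le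
    · have : i = j := Fin.ext (by omega)
      subst this
      rw [abs_of_pos (hp i)]
      exact hE i
  | succ d ih =>
    set T := E * (1 + A * (n * B)) ^ d with hT
    have hT0 : 0 ≤ T := by positivity
    have hTs : E * (1 + A * (n * B)) ^ (d + 1) = T * (1 + A * (n * B)) := by
      rw [hT, pow_succ]; ring
    rw [hTs]
    by_cases hle : (i : ℕ) ≤ j + d
    · exact (ih i j hle).trans (le_mul_of_one_le_right hT0 hq)
    · have hne : i ≠ j := by
        rintro rfl
        omega
      have hji : j < i := by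
        rw [Fin.lt_def]; omega
      have h1 := d2_ent t β α hd hc i j
      rw [← Finset.add_sum_erase _ _ (Finset.mem_univ j), d2_diag t β α ht hp hd hc j] at h1
      have h2 : (α.1 i i - α.1 j j) * t.1 i j = ∑ k ∈ Finset.univ.erase j, t.1 i k * β.1 k j := by
        linarith
      have h3 : |∑ k ∈ Finset.univ.erase j, t.1 i k * β.1 k j| ≤ n * (T * B) := by
        refine (Finset.abs_sum_le_sum_abs _ _).trans ?_
        have h4 : ∀ k ∈ Finset.univ.erase j, |t.1 i k * β.1 k j| ≤ T * B := by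
          intro k hk
          have hkj : k ≠ j := (Finset.mem_erase.1 hk).1
          rcases lt_or_gt_of_ne hkj with hk | hk
          · rw [d2_low t β α ht hp hd hc k j hk, mul_zero, abs_zero]
            positivity
          · rw [abs_mul]
            refine mul_le_mul (ih i k ?_) (hβ k j) (abs_nonneg _) hT0
            have : (j : ℕ) < k := hk
            omega
        refine (Finset.sum_le_card_nsmul _ _ _ h4).trans ?_
        rw [nsmul_eq_mul]
        refine mul_le_mul_of_nonneg_right ?_ (by positivity)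
        have : (Finset.univ.erase j).card ≤ n := by
          refine (Finset.card_le_univ _).trans ?_
          simp
        exact_mod_cast this
      have hα : α.1 i i - α.1 j j ≠ 0 := sub_ne_zero.2 (hr i j hne)
      have h5 : t.1 i j = (α.1 i i - α.1 j j)⁻¹ * ∑ k ∈ Finset.univ.erase j, t.1 i k * β.1 k j := by
        rw [← h2, inv_mul_cancel_left₀ hα]
      rw [h5, abs_mul, abs_inv]
      refine (mul_le_mul (hAα i j hne) h3 (abs_nonneg _) hA).trans ?_
      have : A * (n * (T * B)) = T * (A * (n * B)) := by ring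
      rw [this]
      nlinarith

private theorem d2_bd {n : ℕ} (α : SL n) (hd : IsDiag α) (hr : Reg α) (C : ℝ) :
    ∃ B : ℝ, ∀ x : PD n, ‖Pr x‖ ≤ C → dg x (act α x) ≤ C → ∀ i j, |x.1 i j| ≤ B := by
  obtain ⟨-, hPt, -, hPs, -⟩ := @Pr_facts n
  obtain ⟨-, -, -, -, -, -, -, -, -, -, hs0, -⟩ := @flat_facts n
  obtain ⟨-, hmul, -⟩ := @act_facts n
  have hr' : ∀ i j, i ≠ j → α.1 i i ≠ α.1 j j := by
    intro i j hij h
    exact hr i j hij (by rw [h])
  set A : ℝ := ∑ i, ∑ j, |α.1 i i - α.1 j j|⁻¹ with hA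
  have hA0 : 0 ≤ A := by positivity
  have hAα : ∀ i j, i ≠ j → |α.1 i i - α.1 j j|⁻¹ ≤ A := by
    intro i j _
    have h1 : |α.1 i i - α.1 j j|⁻¹ ≤ ∑ j, |α.1 i i - α.1 j j|⁻¹ :=
      Finset.single_le_sum (f := fun j => |α.1 i i - α.1 j j|⁻¹) (fun _ _ => by positivity)
        (Finset.mem_univ j)
    refine h1.trans ?_
    exact Finset.single_le_sum (f := fun i => ∑ j, |α.1 i i - α.1 j j|⁻¹)
      (fun _ _ => by positivity) (Finset.mem_univ i)
  set B : ℝ := √ (n * Real.exp C) with hB
  have hB0 : 0 ≤ B := Real.sqrt_nonneg _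
  set T : ℝ := Real.exp C * (1 + A * (n * B)) ^ n with hT
  have hT0 : 0 ≤ T := by positivity
  refine ⟨n * (T * T), fun x hx1 hx2 => ?_⟩
  obtain ⟨t, ht, hp, hxt⟩ := chol x
  have hdiag : ∀ i, t.1 i i ≤ Real.exp C := by
    intro i
    have h1 := hPt t ht (o n) i
    rw [← hxt, ← hs0, hPs] at h1
    have h2 : |(Pr x).1 i| ≤ ‖Pr x‖ := by
      have := PiLp.norm_apply_le (Pr x).1 i
      exact this
    have h3 : Real.log |t.1 i i| ≤ C := by
      have h4 : (Pr x).1 i = Real.log |t.1 i i| := by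
        rw [h1]
        simp
      rw [← h4]
      exact (le_abs_self _).trans (h2.trans hx1)
    rw [abs_of_pos (hp i)] at h3
    exact (Real.log_le_iff_le_exp (hp i)).1 h3
  have hc : t * (t⁻¹ * α * t) = α * t := by group
  have hβ : ∀ i j, |(t⁻¹ * α * t).1 i j| ≤ B := by
    intro i j
    have h1 : dg (o n) (act (t⁻¹ * α * t) (o n)) ≤ C := by
      rw [← dg_act t, ← hmul, hc, hmul, ← hxt]
      exact hx2
    exact Real.abs_le_sqrt (entries_bd _ C h1 i j)
  have htT : ∀ i j, |t.1 i j| ≤ T := by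
    intro i j
    refine d2_rec t _ α ht hp hd hc (Real.exp C) A B hdiag hA0 hB0 hr' hAα hβ n i j ?_
    have := i.2
    omega
  intro i j
  have h1 : x.1 i j = ∑ k, t.1 i k * t.1 j k := by
    rw [hxt]
    change (t.1 * (1 : Matrix (Fin n) (Fin n) ℝ) * t.1ᵀ) i j = _
    rw [Matrix.mul_one, Matrix.mul_apply]
    rfl
  rw [h1]
  refine (Finset.abs_sum_le_sum_abs _ _).trans ?_
  have h2 : ∀ k ∈ (Finset.univ : Finset (Fin n)), |t.1 i k * t.1 j k| ≤ T * T := by
    intro k _
    rw [abs_mul]
    exact mul_le_mul (htT i k) (htT j k) (abs_nonneg _) hT0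
  refine (Finset.sum_le_card_nsmul _ _ _ h2).trans (le_of_eq ?_)
  simp

/-- Row D2. Compactness. The set is closed (`Pr_facts`, `act_facts`, `dg_cont`), so it is enough to
bound the entries of its points (`entries_cpt`). `x = act t (o n)`, `t` lower triangular with
positive diagonal (B3), `log (t i i) = (Pr x) i` (B2), so the diagonal entries are at most `exp C`.
`β = t⁻¹ α t` is lower triangular with diagonal entries `α i i`, and
`dg (o n) (act β (o n)) = dg x (act α x) ≤ C` (dg_act), so its entries are bounded (D1). From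
`t β = α t`: `(α i i - α j j) t i j = ∑ k, j < k ≤ i, t i k * β k j`. By (strong) induction on
`i - j` the entries of `t` are bounded by a constant depending on `n, C, α`. -/
theorem cpt0 {n : ℕ} (α : SL n) (hd : IsDiag α) (hr : Reg α) (C : ℝ) :
    IsCompact {x : PD n | ‖Pr x‖ ≤ C ∧ dg x (act α x) ≤ C} := by
  obtain ⟨B, hB⟩ := d2_bd α hd hr C
  obtain ⟨-, -, hPc, -, -⟩ := @Pr_facts n
  obtain ⟨-, -, hac⟩ := @act_facts n
  have hα : Continuous fun x : PD n => act α x := hac.comp (continuous_const.prodMk continuous_id)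
  refine IsCompact.of_isClosed_subset (entries_cpt B) ?_ ?_
  · refine (isClosed_le (continuous_norm.comp hPc) continuous_const).inter ?_
    exact isClosed_le (dg_cont.comp (continuous_id.prodMk hα)) continuous_const
  · rintro x ⟨h1, h2⟩
    exact hB x h1 h2

end LibNC38
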