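import Pool.Agent.LibNC38.D4a
import Pool.Agent.LibNC38.D2

set_option autoImplicit false

open Matrix MeasureTheory

namespace LibNC38

/-- Row D4b. Points of almost minimal displacement are close to the flat. By contradiction:
`x k` with `dg (x k) (act α (x k)) ≤ 2 ‖z‖ + 1 / (k + 1)` and `ε < dg (x k) (sg (Pr (x k)))`.
Replace `x k` by `y k = act (dgm (-Pr (x k))) (x k)`: `Pr (y k) = 0`, the displacement is the same
(diagonal matrices commute, B1), `dg (y k) (o n) > ε` (dg_act, B1). The `y k` lie in a compact set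
(D2), a limit point `y` has `Pr y = 0`, displacement `≤ 2 ‖z‖` (dg_cont), so `y = o n` by `eq_o`,
contradiction. -/
theorem near_flat {n : ℕ} (α : SL n) (z : V0 n) (hz : IsLog α z) (hr : Reg α) (ε : ℝ)
    (hε : 0 < ε) :
    ∃ η > 0, ∀ x : PD n, dg x (act α x) ≤ 2 * ‖z‖ + η → dg x (sg (Pr x)) ≤ ε := by
  obtain ⟨-, hmul, hcont⟩ := @act_facts n
  obtain ⟨-, -, hlogd, hflat, -, -, -, hcomm, -, -, hs0, -⟩ := @flat_facts n
  obtain ⟨-, -, hPc, -, hPl⟩ := @Pr_facts n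
  obtain ⟨-, hd0, -, -⟩ := @dg_facts n
  have hact : Continuous fun x : PD n => act α x :=
    hcont.comp (continuous_const.prodMk continuous_id)
  have hD : Continuous fun x : PD n => dg x (act α x) :=
    dg_cont.comp (continuous_id.prodMk hact)
  have hE : Continuous fun x : PD n => dg x (o n) :=
    dg_cont.comp (continuous_id.prodMk continuous_const)
  have hK : IsCompact ({x : PD n | ‖Pr x‖ ≤ 2 * ‖z‖ + 1 ∧ dg x (act α x) ≤ 2 * ‖z‖ + 1} ∩
      {x : PD n | Pr x = 0 ∧ ε ≤ dg x (o n)}) :=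
    (cpt0 α hz.1 hr (2 * ‖z‖ + 1)).inter_right
      ((isClosed_eq hPc continuous_const).inter (isClosed_le continuous_const hE))
  have hred : ∀ x : PD n, ∀ η : ℝ, η ≤ 1 → dg x (act α x) ≤ 2 * ‖z‖ + η →
      ε < dg x (sg (Pr x)) →
      ∃ y ∈ ({x : PD n | ‖Pr x‖ ≤ 2 * ‖z‖ + 1 ∧ dg x (act α x) ≤ 2 * ‖z‖ + 1} ∩
        {x : PD n | Pr x = 0 ∧ ε ≤ dg x (o n)}), dg y (act α y) ≤ 2 * ‖z‖ + η := by
    intro x η hη h1 h2
    have hl : IsLog (dgm (-Pr x)) (-Pr x) := hlogd _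
    have e1 : act α (act (dgm (-Pr x)) x) = act (dgm (-Pr x)) (act α x) := by
      rw [← hmul, ← hmul, hcomm _ _ hz.1 hl.1]
    have e2 : dg (act (dgm (-Pr x)) x) (act α (act (dgm (-Pr x)) x)) = dg x (act α x) := by
      rw [e1, dg_act]
    have e3 : Pr (act (dgm (-Pr x)) x) = 0 := by
      rw [hPl _ _ hl, add_neg_cancel]
    have e4 : dg (act (dgm (-Pr x)) x) (o n) = dg x (sg (Pr x)) := by
      have h := hflat _ _ (Pr x) hl
      rw [add_neg_cancel, hs0] at h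
      rw [← h, dg_act]
    have hz0 : 0 ≤ ‖z‖ := norm_nonneg z
    refine ⟨act (dgm (-Pr x)) x, ⟨⟨?_, ?_⟩, e3, ?_⟩, ?_⟩
    · rw [e3, norm_zero]; linarith
    · rw [e2]; linarith
    · rw [e4]; exact h2.le
    · rw [e2]; exact h1
  rcases ({x : PD n | ‖Pr x‖ ≤ 2 * ‖z‖ + 1 ∧ dg x (act α x) ≤ 2 * ‖z‖ + 1} ∩
      {x : PD n | Pr x = 0 ∧ ε ≤ dg x (o n)}).eq_empty_or_nonempty with he | hne
  · refine ⟨1, one_pos, fun x hx => ?_⟩
    by_contra hc
    obtain ⟨y, hy, -⟩ := hred x 1 le_rfl hx (not_le.1 hc)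
    rw [he] at hy
    exact hy
  · obtain ⟨y0, hy0, hmin⟩ := hK.exists_isMinOn hne hD.continuousOn
    have hm : 2 * ‖z‖ < dg y0 (act α y0) := by
      by_contra hc
      have h := eq_o α z hz hr y0 hy0.2.1 (not_lt.1 hc)
      have h2 : ε ≤ dg y0 (o n) := hy0.2.2
      rw [h, hd0] at h2
      exact absurd hε (not_lt.2 h2)
    refine ⟨min 1 ((dg y0 (act α y0) - 2 * ‖z‖) / 2),
      lt_min one_pos (by linarith), fun x hx => ?_⟩
    by_contra hc
    obtain ⟨y, hy, hy2⟩ := hred x _ (min_le_left _ _) hx (not_le.1 hc)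
    have h1 : dg y0 (act α y0) ≤ dg y (act α y) := hmin hy
    have h2 : min 1 ((dg y0 (act α y0) - 2 * ‖z‖) / 2) ≤ (dg y0 (act α y0) - 2 * ‖z‖) / 2 :=
      min_le_right _ _
    linarith

end LibNC38
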