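import Pool.Agent.LibNC38.G3

set_option autoImplicit false

open Matrix MeasureTheory Topology Filter

namespace LibNC38

private theorem g4_det {n : ℕ} (δ : ℝ) (hδ : 0 < δ) : ∃ η > 0,
    ∀ u : Matrix (Fin n) (Fin n) ℝ, (∀ i j, |u i j - (1 : Matrix (Fin n) (Fin n) ℝ) i j| ≤ η) →
      |u.det - 1| ≤ δ := by
  have hc : Continuous fun u : Fin n → Fin n → ℝ => (Matrix.of u).det :=
    Continuous.matrix_det continuous_id
  let e : Fin n → Fin n → ℝ := fun i j => (1 : Matrix (Fin n) (Fin n) ℝ) i j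
  obtain ⟨r, hr, h⟩ := Metric.continuous_iff.1 hc e δ hδ
  refine ⟨r / 2, by positivity, fun u hu => ?_⟩
  let v : Fin n → Fin n → ℝ := fun i j => u i j
  have h2 : dist v e < r := by
    refine lt_of_le_of_lt ?_ (half_lt_self hr)
    rw [dist_pi_le_iff (by positivity)]
    intro i
    rw [dist_pi_le_iff (by positivity)]
    intro j
    rw [Real.dist_eq]
    exact hu i j
  have h3 := h v h2
  have h4 : (Matrix.of e).det = 1 := Matrix.det_one
  rw [h4, Real.dist_eq] at h3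
  exact h3.le

private theorem g4_nhds {n : ℕ} (ω : ℝ) (hω : 0 < ω) :
    {w : SL n | ∀ i j, |(w⁻¹).1 i j - (1 : Matrix (Fin n) (Fin n) ℝ) i j| ≤ ω} ∈ 𝓝 (1 : SL n) := by
  have hc : ∀ i j : Fin n, Continuous fun w : SL n => (w⁻¹).1 i j := by
    intro i j
    have h1 : Continuous fun w : SL n => (w⁻¹ : SL n) := continuous_inv
    have h2 : Continuous fun w : SL n => (w.1 : Matrix (Fin n) (Fin n) ℝ) := continuous_subtype_val
    exact (h2.comp h1).matrix_elem i j
  have h : ∀ i j : Fin n, ∀ᶠ w : SL n in 𝓝 1,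
      |(w⁻¹).1 i j - (1 : Matrix (Fin n) (Fin n) ℝ) i j| < ω := by
    intro i j
    have h2 : Filter.Tendsto (fun w : SL n => |(w⁻¹).1 i j - (1 : Matrix (Fin n) (Fin n) ℝ) i j|)
        (𝓝 1) (𝓝 |((1 : SL n)⁻¹).1 i j - (1 : Matrix (Fin n) (Fin n) ℝ) i j|) :=
      (((hc i j).sub continuous_const).abs).tendsto 1
    have h3 : |((1 : SL n)⁻¹).1 i j - (1 : Matrix (Fin n) (Fin n) ℝ) i j| = 0 := by
      rw [inv_one]
      have h4 : (1 : SL n).1 = (1 : Matrix (Fin n) (Fin n) ℝ) := rfl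
      rw [h4, sub_self, abs_zero]
    rw [h3] at h2
    exact h2.eventually (gt_mem_nhds hω)
  have h5 : ∀ᶠ w : SL n in 𝓝 1, ∀ i j,
      |(w⁻¹).1 i j - (1 : Matrix (Fin n) (Fin n) ℝ) i j| < ω :=
    Filter.eventually_all.2 fun i => Filter.eventually_all.2 fun j => h i j
  exact h5.mono fun w hw i j => (hw i j).le

/-- Row G4 (closing lemma). `w D` with `w` near `1` and `D = diag d` with large gaps. Apply G3 to
`E = w⁻¹ - 1` (small, because inversion is continuous) and every `i`: the matrix `u0` with columns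
`x^(i)` is near `1`, `D u0 = w⁻¹ u0 diag μ`, i.e. `w D u0 = u0 diag μ`; the `μ i ∈ [d i/2, 2 d i]`
are distinct if `κ < 1/4`. `det u0` is near `1`, in particular positive; multiply the first column
by `1 / det u0` to get `u ∈ SL n`, still near `1` (`n = 0` trivial). -/
theorem closing {n : ℕ} (ε : ℝ) (hε : 0 < ε) : ∃ W ∈ 𝓝 (1 : SL n), ∃ κ > 0,
    ∀ w ∈ W, ∀ d : Fin n → ℝ, (∀ i, 0 < d i) → (∀ i j, i < j → d j ≤ κ * d i) →
      ∃ (u : SL n) (μ : Fin n → ℝ), (∀ i j, |u.1 i j - (1 : Matrix (Fin n) (Fin n) ℝ) i j| ≤ ε) ∧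
        (∀ i, 0 < μ i) ∧ (∀ i j, i ≠ j → μ i ≠ μ j) ∧
        w.1 * Matrix.diagonal d * u.1 = u.1 * Matrix.diagonal μ := by
  rcases n with _ | n
  · refine ⟨Set.univ, Filter.univ_mem, 1, one_pos, fun w _ d _ _ =>
      ⟨1, fun _ => 1, fun i => i.elim0, fun i => i.elim0, fun i => i.elim0, ?_⟩⟩
    ext i
    exact i.elim0
  obtain ⟨η, hη, hdet⟩ := g4_det (n := n + 1) (min (1 / 2) (ε / 4)) (by positivity)
  obtain ⟨ω, hω, κ, hκ, hE⟩ := eigv (n := n + 1) (min η (ε / 4)) (by positivity)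
  refine ⟨_, g4_nhds ω hω, min κ (1 / 8), by positivity, fun w hw d hd hdd => ?_⟩
  have hdd1 : ∀ i j, i < j → d j ≤ κ * d i := fun i j hij =>
    (hdd i j hij).trans (mul_le_mul_of_nonneg_right (min_le_left _ _) (hd i).le)
  have hdd2 : ∀ i j, i < j → d j ≤ 1 / 8 * d i := fun i j hij =>
    (hdd i j hij).trans (mul_le_mul_of_nonneg_right (min_le_right _ _) (hd i).le)
  choose x μ hx1 hx2 hμ1 hμ2 hx3 using hE ((w⁻¹).1 - 1) (fun i j => hw i j) d hd hdd1
  have hμ0 : ∀ i, 0 < μ i := fun i => lt_of_lt_of_le (half_pos (hd i)) (hμ1 i)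
  have hlt : ∀ i j, i < j → μ j < μ i := by
    intro i j hij
    have h1 := hμ2 j
    have h2 := hμ1 i
    have h3 := hdd2 i j hij
    have h4 := hd i
    linarith
  have hne : ∀ i j, i ≠ j → μ i ≠ μ j := by
    intro i j hij
    rcases lt_or_gt_of_ne hij with h | h
    · exact (hlt i j h).ne'
    · exact (hlt j i h).ne
  let u0 : Matrix (Fin (n + 1)) (Fin (n + 1)) ℝ := Matrix.of fun j i => x i j
  have hu0 : ∀ j i, |u0 j i - (1 : Matrix (Fin (n + 1)) (Fin (n + 1)) ℝ) j i| ≤ min η (ε / 4) := by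
    intro j i
    by_cases h : j = i
    · subst h
      have h1 : u0 j j = 1 := hx1 j
      rw [h1, Matrix.one_apply_eq, sub_self, abs_zero]
      positivity
    · have h1 : u0 j i = x i j := rfl
      rw [h1, Matrix.one_apply_ne h, sub_zero]
      exact hx2 i j h
  have hd0 := hdet u0 fun j i => (hu0 j i).trans (min_le_left _ _)
  have hd1 : |u0.det - 1| ≤ 1 / 2 := hd0.trans (min_le_left _ _)
  have hd2 : |u0.det - 1| ≤ ε / 4 := hd0.trans (min_le_right _ _)
  have hdpos : 1 / 2 ≤ u0.det := by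
    have := (abs_le.1 hd1).1
    linarith
  have hdne : u0.det ≠ 0 := by linarith
  have hcol : Matrix.diagonal d * u0 = (w⁻¹).1 * u0 * Matrix.diagonal μ := by
    ext j i
    rw [Matrix.diagonal_mul, Matrix.mul_diagonal]
    have h1 := hx3 i j
    have h2 : ((w⁻¹).1 * u0) j i = x i j + (((w⁻¹).1 - 1) *ᵥ x i) j := by
      rw [Matrix.sub_mulVec, Matrix.one_mulVec]
      have h3 : ((w⁻¹).1 * u0) j i = ((w⁻¹).1 *ᵥ x i) j := rfl
      rw [h3, Pi.sub_apply]
      ring
    have h3 : u0 j i = x i j := rfl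
    rw [h2, h3, h1]
    ring
  have hww : w.1 * (w⁻¹).1 = 1 := by
    have h1 : (w * w⁻¹).1 = (1 : SL (n + 1)).1 := by rw [mul_inv_cancel]
    exact h1
  have hmain : w.1 * Matrix.diagonal d * u0 = u0 * Matrix.diagonal μ := by
    rw [Matrix.mul_assoc, hcol, ← Matrix.mul_assoc, ← Matrix.mul_assoc, hww, Matrix.one_mul]
  let s : Fin (n + 1) → ℝ := fun i => if i = 0 then (u0.det)⁻¹ else 1
  have hs : ∏ i, s i = (u0.det)⁻¹ := by
    have h1 := Finset.prod_ite_eq' (Finset.univ : Finset (Fin (n + 1))) (0 : Fin (n + 1))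
      (fun _ => (u0.det)⁻¹)
    rw [if_pos (Finset.mem_univ _)] at h1
    exact h1
  have hdetu : (u0 * Matrix.diagonal s).det = 1 := by
    rw [Matrix.det_mul, Matrix.det_diagonal, hs, mul_inv_cancel₀ hdne]
  refine ⟨⟨u0 * Matrix.diagonal s, hdetu⟩, μ, ?_, hμ0, hne, ?_⟩
  · intro j i
    have h1 : (u0 * Matrix.diagonal s) j i = u0 j i * s i := Matrix.mul_diagonal _ _ _ _
    show |(u0 * Matrix.diagonal s) j i - _| ≤ ε
    rw [h1]
    have h2 : |u0 j i - (1 : Matrix (Fin (n + 1)) (Fin (n + 1)) ℝ) j i| ≤ ε / 4 :=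
      (hu0 j i).trans (min_le_right _ _)
    have h1abs : |(1 : Matrix (Fin (n + 1)) (Fin (n + 1)) ℝ) j i| ≤ 1 := by
      rw [Matrix.one_apply]
      split_ifs <;> simp
    by_cases hi : i = 0
    · have h3 : s i = (u0.det)⁻¹ := if_pos hi
      rw [h3]
      have hdp : 0 < u0.det := by linarith
      have hinv : (u0.det)⁻¹ ≤ 2 := by
        rw [inv_le_comm₀ hdp (by norm_num)]
        linarith
      have hinv0 : 0 < (u0.det)⁻¹ := inv_pos.2 hdp
      have h4 : u0 j i * (u0.det)⁻¹ - (1 : Matrix (Fin (n + 1)) (Fin (n + 1)) ℝ) j i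
          = (u0 j i - (1 : Matrix (Fin (n + 1)) (Fin (n + 1)) ℝ) j i) * (u0.det)⁻¹ -
            (1 : Matrix (Fin (n + 1)) (Fin (n + 1)) ℝ) j i * ((u0.det - 1) * (u0.det)⁻¹) := by
        field_simp
        ring
      rw [h4]
      refine (abs_sub _ _).trans ?_
      rw [abs_mul, abs_mul, abs_mul, abs_of_pos hinv0]
      have h5 : |u0 j i - (1 : Matrix (Fin (n + 1)) (Fin (n + 1)) ℝ) j i| * (u0.det)⁻¹ ≤
          ε / 4 * 2 := mul_le_mul h2 hinv hinv0.le (by positivity)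
      have h6 : |u0.det - 1| * (u0.det)⁻¹ ≤ ε / 4 * 2 :=
        mul_le_mul hd2 hinv hinv0.le (by positivity)
      have h7 : |(1 : Matrix (Fin (n + 1)) (Fin (n + 1)) ℝ) j i| *
          (|u0.det - 1| * (u0.det)⁻¹) ≤ 1 * (ε / 4 * 2) :=
        mul_le_mul h1abs h6 (by positivity) one_pos.le
      linarith
    · have h3 : s i = 1 := if_neg hi
      rw [h3, mul_one]
      linarith
  · show w.1 * Matrix.diagonal d * (u0 * Matrix.diagonal s) =
      (u0 * Matrix.diagonal s) * Matrix.diagonal μ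
    rw [← Matrix.mul_assoc, hmain, Matrix.mul_assoc, Matrix.mul_assoc, Matrix.diagonal_mul_diagonal,
      Matrix.diagonal_mul_diagonal]
    congr 2
    ext i
    ring

end LibNC38
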