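import Pool.Agent.LibNC38.G2
import Pool.Agent.LibNC38.G4
import Pool.Agent.LibNC38.B1

set_option autoImplicit false

open Matrix MeasureTheory Topology Filter

namespace LibNC38

/-- entrywise neighbourhoods of the identity -/
private theorem g5_nhds {n : ℕ} (N : Set (SL n)) (hN : N ∈ 𝓝 (1 : SL n)) :
    ∃ ε > 0, ∀ u : SL n, (∀ i j, |u.1 i j - (1 : Matrix (Fin n) (Fin n) ℝ) i j| ≤ ε) → u ∈ N := by
  have h1 : N ∈ Filter.comap (Subtype.val : SL n → Matrix (Fin n) (Fin n) ℝ)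
      (𝓝 (1 : Matrix (Fin n) (Fin n) ℝ)) := by
    have h2 : 𝓝 (1 : SL n) = Filter.comap (Subtype.val : SL n → Matrix (Fin n) (Fin n) ℝ)
        (𝓝 ((1 : SL n).1)) := nhds_subtype_eq_comap
    rw [h2] at hN
    exact hN
  obtain ⟨M, hM, hMN⟩ := h1
  have hcont : Continuous fun f : Fin n → Fin n → ℝ => (Matrix.of f : Matrix (Fin n) (Fin n) ℝ) :=
    continuous_matrix fun i j => (continuous_apply j).comp (continuous_apply i)
  have hM' := hcont.continuousAt (x := fun i j => (1 : Matrix (Fin n) (Fin n) ℝ) i j) |>.preimage_mem_nhds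
    (t := M) hM
  obtain ⟨δ, hδ, hball⟩ := Metric.mem_nhds_iff.1 hM'
  refine ⟨δ / 2, by positivity, fun u hu => hMN ?_⟩
  have h3 : dist (fun i j => u.1 i j) (fun i j => (1 : Matrix (Fin n) (Fin n) ℝ) i j) ≤ δ / 2 := by
    rw [dist_pi_le_iff (by positivity)]
    intro i
    rw [dist_pi_le_iff (by positivity)]
    intro j
    rw [Real.dist_eq]
    exact hu i j
  exact hball (Metric.mem_ball.2 (lt_of_le_of_lt h3 (by linarith)))

/-- the vector `(n - 1)/2 - i` -/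
private noncomputable def g5_y (n : ℕ) : V0 n :=
  ⟨WithLp.toLp 2 fun i : Fin n => ((n : ℝ) - 1) / 2 - (i : ℕ), by
    show ∑ i : Fin n, (((n : ℝ) - 1) / 2 - ((i : ℕ) : ℝ)) = 0
    rw [Finset.sum_sub_distrib, Finset.sum_const, Finset.card_univ, Fintype.card_fin, nsmul_eq_mul,
      Fin.sum_univ_eq_sum_range (fun i => (i : ℝ)) n]
    have h1 : (∑ i ∈ Finset.range n, (i : ℝ)) * 2 = (n : ℝ) * ((n : ℝ) - 1) := by
      induction n with
      | zero => simp
      | succ k ih =>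
        rw [Finset.sum_range_succ, add_mul, ih]
        push_cast
        ring
    linarith⟩

private theorem g5_y_apply (n : ℕ) (i : Fin n) : (g5_y n).1 i = ((n : ℝ) - 1) / 2 - (i : ℕ) := rfl

/-- Row G5 (density of closed flats). -/
theorem dens {n : ℕ} (Γ : Subgroup (SL n)) (hd : Disc Γ) (hc : Coc Γ) (g0 : SL n)
    (U : Set (SL n)) (hU : U ∈ 𝓝 g0) :
    ∃ h ∈ U, ∃ α : SL n, IsDiag α ∧ Reg α ∧ h * α * h⁻¹ ∈ Γ := by
  -- neighbourhoods
  have h1 : Tendsto (fun x : SL n × SL n => g0 * x.1 * x.2) (𝓝 (1, 1)) (𝓝 g0) := by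
    have hcont : Continuous fun x : SL n × SL n => g0 * x.1 * x.2 := by fun_prop
    have := hcont.tendsto (1, 1)
    simpa using this
  have h2 := h1 hU
  rw [Filter.mem_map, nhds_prod_eq, Filter.mem_prod_iff] at h2
  obtain ⟨N1, hN1, N2, hN2, hsub⟩ := h2
  obtain ⟨ε, hε, hεN⟩ := g5_nhds N2 hN2
  obtain ⟨W, hW, κ, hκ, hclose⟩ := closing (n := n) ε hε
  have h3 : Tendsto (fun x : SL n × SL n => x.1⁻¹ * x.2) (𝓝 (1, 1)) (𝓝 (1 : SL n)) := by
    have hcont : Continuous fun x : SL n × SL n => x.1⁻¹ * x.2 := by fun_prop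
    have := hcont.tendsto (1, 1)
    simpa using this
  have h4 := h3 hW
  rw [Filter.mem_map, nhds_prod_eq, Filter.mem_prod_iff] at h4
  obtain ⟨V1, hV1, V2, hV2, hVsub⟩ := h4
  -- the exponent
  obtain ⟨m0, hm0⟩ : ∃ m0 : ℕ, Real.exp (-(m0 : ℝ)) ≤ κ := by
    obtain ⟨m0, h5⟩ := exists_nat_ge (-Real.log κ)
    refine ⟨m0, ?_⟩
    rw [← Real.le_log_iff_exp_le hκ]
    linarith
  obtain ⟨m, hm, v, hv, v', hv', γ, hγ, heq⟩ := recur Γ hd hc (dgm (g5_y n)) g0 (N1 ∩ (V1 ∩ V2))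
    (Filter.inter_mem hN1 (Filter.inter_mem hV1 hV2)) m0
  obtain ⟨hv1, hv2⟩ := (Set.mem_inter_iff _ _ _).1 hv
  obtain ⟨hv3, -⟩ := (Set.mem_inter_iff _ _ _).1 hv2
  obtain ⟨-, hv2'⟩ := (Set.mem_inter_iff _ _ _).1 hv'
  obtain ⟨-, hv3'⟩ := (Set.mem_inter_iff _ _ _).1 hv2'
  have hw := Set.mem_preimage.1 (hVsub (Set.mk_mem_prod hv3 hv3'))
  have hpow : ((dgm (g5_y n)) ^ m).1 =
      Matrix.diagonal fun i => Real.exp ((g5_y n).1 i) ^ m := by
    rw [Matrix.SpecialLinearGroup.coe_pow]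
    show (Matrix.diagonal fun i => Real.exp ((g5_y n).1 i)) ^ m = _
    rw [Matrix.diagonal_pow]
    rfl
  obtain ⟨u, μ, hu1, hμ, hμne, hconj⟩ := hclose (v⁻¹ * v') hw
    (fun i => Real.exp ((g5_y n).1 i) ^ m) (fun i => by positivity) (fun i j hij => by
      have h5 : (g5_y n).1 j ≤ (g5_y n).1 i - 1 := by
        rw [g5_y_apply, g5_y_apply]
        have h6 : ((i : ℕ) : ℝ) + 1 ≤ ((j : ℕ) : ℝ) := by exact_mod_cast hij
        linarith
      have h7 : Real.exp ((g5_y n).1 j) ^ m ≤ Real.exp ((g5_y n).1 i - 1) ^ m :=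
        pow_le_pow_left₀ (Real.exp_pos _).le (Real.exp_le_exp.2 h5) m
      have h8 : Real.exp ((g5_y n).1 i - 1) ^ m =
          Real.exp (-(m : ℝ)) * Real.exp ((g5_y n).1 i) ^ m := by
        rw [sub_eq_add_neg, add_comm, Real.exp_add, mul_pow, ← Real.exp_nat_mul]
        congr 2
        ring
      have h9 : Real.exp (-(m : ℝ)) ≤ κ := by
        refine le_trans (Real.exp_le_exp.2 ?_) hm0
        have : (m0 : ℝ) ≤ (m : ℝ) := by exact_mod_cast hm
        linarith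
      rw [h8] at h7
      exact h7.trans (mul_le_mul_of_nonneg_right h9 (by positivity)))
  have hconj' : ((v⁻¹ * v') * (dgm (g5_y n)) ^ m * u).1 = u.1 * Matrix.diagonal μ := by
    rw [← hconj, ← hpow, Matrix.SpecialLinearGroup.coe_mul, Matrix.SpecialLinearGroup.coe_mul]
  have hα : (u⁻¹ * ((v⁻¹ * v') * (dgm (g5_y n)) ^ m * u)).1 = Matrix.diagonal μ := by
    have h6 : (u⁻¹).1 * u.1 = 1 := by
      rw [← Matrix.SpecialLinearGroup.coe_mul, inv_mul_cancel, Matrix.SpecialLinearGroup.coe_one]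
    rw [Matrix.SpecialLinearGroup.coe_mul, hconj', ← Matrix.mul_assoc, h6, Matrix.one_mul]
  refine ⟨g0 * v * u, ?_, u⁻¹ * ((v⁻¹ * v') * (dgm (g5_y n)) ^ m * u), ?_, ?_, ?_⟩
  · exact Set.mem_preimage.1 (hsub (Set.mk_mem_prod hv1 (hεN u hu1)))
  · intro i j hij
    rw [hα, Matrix.diagonal_apply_ne _ hij]
  · intro i j hij
    rw [hα, Matrix.diagonal_apply_eq, Matrix.diagonal_apply_eq, abs_of_pos (hμ i),
      abs_of_pos (hμ j)]
    exact hμne i j hij
  · have h5 : g0 * v * u * (u⁻¹ * ((v⁻¹ * v') * (dgm (g5_y n)) ^ m * u)) * (g0 * v * u)⁻¹ = γ := by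
      have h6 : γ = g0 * v' * (dgm (g5_y n)) ^ m * (g0 * v)⁻¹ := by
        rw [← heq]
        group
      rw [h6]
      group
    rw [h5]
    exact hγ

end LibNC38
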