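import Pool.Agent.LibNC38.B5

set_option autoImplicit false

open Matrix MeasureTheory

namespace LibNC38

/-- Row B6. `Pr` is `1/2`-Lipschitz. Induction on the chain; segment: `Pr_deriv` (B5) and
`image_norm_le_of_norm_deriv_right_le_deriv_boundary'` (or the mean value inequality) with
`B t = ∫ s in 0..t, spd (c s) (v s)`, whose derivative is `spd (c t) (v t)` by continuity (A2). -/
theorem Pr_lip {n : ℕ} (p q : PD n) (l : ℝ) (h : Conn (fun _ => 1) p q l) :
    2 * ‖Pr q - Pr p‖ ≤ l := by
  induction h with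
  | seg c v h =>
    obtain ⟨-, -, -, -, hφ⟩ := curve_facts c v h
    choose w hw hw2 using Pr_deriv c v h
    have hφ1 : Continuous fun s => (1 : ℝ) * spd (c s) (v s) := continuous_const.mul hφ
    have hB : ∀ t, HasDerivAt (fun t => (∫ s in (0 : ℝ)..t, (1 : ℝ) * spd (c s) (v s)) / 2)
        ((1 : ℝ) * spd (c t) (v t) / 2) t := fun t =>
      (intervalIntegral.integral_hasDerivAt_right (hφ1.intervalIntegrable _ _)
        (hφ1.stronglyMeasurableAtFilter _ _) hφ1.continuousAt).div_const 2
    have hf : ∀ t, HasDerivAt (fun s => Pr (c s) - Pr (c 0)) (w t) t := fun t =>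
      (hw t).sub_const _
    have key := image_norm_le_of_norm_deriv_right_le_deriv_boundary (a := 0) (b := 1)
      (f := fun s => Pr (c s) - Pr (c 0)) (f' := w)
      (fun t _ => (hf t).continuousAt.continuousWithinAt)
      (fun t _ => (hf t).hasDerivWithinAt)
      (B := fun t => (∫ s in (0 : ℝ)..t, (1 : ℝ) * spd (c s) (v s)) / 2)
      (B' := fun t => (1 : ℝ) * spd (c t) (v t) / 2) (by simp) hB
      (fun t _ => by
        have := hw2 t
        linarith)
    have h1 := key (Set.right_mem_Icc.2 zero_le_one)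
    have h2 : len (fun _ => 1) c v = ∫ s in (0 : ℝ)..1, (1 : ℝ) * spd (c s) (v s) := rfl
    rw [h2]
    have h3 : ‖Pr (c 1) - Pr (c 0)‖ ≤ (∫ s in (0 : ℝ)..1, (1 : ℝ) * spd (c s) (v s)) / 2 := h1
    linarith
  | @trans p q r a b _ _ h1 h2 =>
    have h3 : Pr r - Pr p = (Pr q - Pr p) + (Pr r - Pr q) := by abel
    have h4 : ‖Pr r - Pr p‖ ≤ ‖Pr q - Pr p‖ + ‖Pr r - Pr q‖ := by
      rw [h3]
      exact norm_add_le _ _
    linarith

end LibNC38
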