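import Pool.Agent.LibNC38.C1
import Pool.Agent.LibNC38.B6

set_option autoImplicit false

open Matrix MeasureTheory

namespace LibNC38

theorem dg_act {n : ℕ} (g : SL n) (p q : PD n) : dg (act g p) (act g q) = dg p q :=
  dr_act (fun _ => 1) (fun _ => 1) 1 1 gd_one g (fun _ => rfl) p q

theorem Pr_lip_dg {n : ℕ} (p q : PD n) : 2 * ‖Pr q - Pr p‖ ≤ dg p q := by
  obtain ⟨-, -, -, -, -, -, h6⟩ := dr_facts (fun _ : PD n => (1 : ℝ)) 1 1 gd_one
  refine le_of_forall_pos_le_add fun ε hε => ?_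
  obtain ⟨l, hl, hc⟩ := h6 p q ε hε
  exact (Pr_lip p q l hc).trans hl.le

/-- Row C2. The distance of the symmetric metric on flats: upper bound by B8 (`conn_straight`
with `ρ = 1`), lower bound by B6 at `g = 1` and invariance (C1 `dr_act`). The Lipschitz property of
`Pr` for `dg` from B6. -/
theorem dg_flat {n : ℕ} (g : SL n) (y z : V0 n) :
    dg (act g (sg y)) (act g (sg z)) = 2 * ‖y - z‖ := by
  obtain ⟨-, -, -, -, -, h5, -⟩ := dr_facts (fun _ : PD n => (1 : ℝ)) 1 1 gd_one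
  obtain ⟨-, -, -, hPs, -⟩ := @Pr_facts n
  refine le_antisymm ?_ ?_
  · have h1 := conn_straight (fun _ => 1) g y (z - y)
    have h2 := h5 _ _ _ h1
    rw [add_sub_cancel] at h2
    refine h2.trans (le_of_eq ?_)
    rw [norm_sub_rev z y]
    simp
  · rw [dg_act]
    have h1 := Pr_lip_dg (sg y) (sg z)
    rw [hPs, hPs, norm_sub_rev] at h1
    exact h1

/-- Row C2: comparison of `dr ρ` with `dg` (A3 monotonicity), length of a straight segment of a
flat (B8), triangle inequality etc. for `dg`. -/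
theorem dr_comp {n : ℕ} (ρ : PD n → ℝ) (c1 c2 : ℝ) (h : Gd ρ c1 c2) :
    (∀ p q, c1 * dg p q ≤ dr ρ p q) ∧ (∀ p q, dr ρ p q ≤ c2 * dg p q) ∧
    (∀ y z : V0 n, dr ρ (sg y) (sg (y + z)) ≤
      2 * ‖z‖ * ∫ s in (0 : ℝ)..1, ρ (sg (y + s • z))) := by
  have h0 : ∀ x, 0 ≤ ρ x := fun x => h.pos.le.trans (h.lo x)
  have hc2 : 0 < c2 := h.pos.trans_le ((h.lo (o n)).trans (h.hi (o n)))
  obtain ⟨-, -, -, -, -, r5, r6⟩ := dr_facts ρ c1 c2 h
  obtain ⟨-, -, -, -, -, g5, g6⟩ := dr_facts (fun _ : PD n => (1 : ℝ)) 1 1 gd_one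
  refine ⟨fun p q => ?_, fun p q => ?_, fun y z => ?_⟩
  · refine le_of_forall_pos_le_add fun ε hε => ?_
    obtain ⟨l, hl, hc⟩ := r6 p q ε hε
    obtain ⟨-, -, -, -, -, m⟩ := conn_facts ρ h.cont h0
    obtain ⟨l', hl', hc'⟩ := m (fun _ => c1 * (1 : ℝ)) continuous_const
      (fun x => by rw [mul_one]; exact h.lo x) p q l hc
    have hgd : Gd (fun _ : PD n => c1 * (1 : ℝ)) c1 c1 :=
      ⟨continuous_const, h.pos, fun _ => by rw [mul_one], fun _ => by rw [mul_one]⟩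
    obtain ⟨-, -, -, -, -, k5, -⟩ := dr_facts (fun _ : PD n => c1 * (1 : ℝ)) c1 c1 hgd
    have h1 := k5 p q l' hc'
    have h2 := dr_smul (fun _ : PD n => (1 : ℝ)) 1 1 gd_one c1 h.pos p q
    unfold dg
    rw [← h2]
    exact h1.trans (hl'.trans hl.le)
  · have key : ∀ ε : ℝ, 0 < ε → dr ρ p q ≤ c2 * (dg p q + ε) := by
      intro ε hε
      obtain ⟨l, hl, hc⟩ := g6 p q ε hε
      obtain ⟨-, -, -, -, s, -⟩ := conn_facts (fun _ : PD n => (1 : ℝ)) continuous_const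
        (fun _ => zero_le_one)
      have hc1 := s c2 p q l hc
      obtain ⟨-, -, -, -, -, m⟩ := conn_facts (fun _ : PD n => c2 * (1 : ℝ)) continuous_const
        (fun _ => by rw [mul_one]; exact hc2.le)
      obtain ⟨l', hl', hc'⟩ := m ρ h.cont (fun x => by rw [mul_one]; exact h.hi x) p q (c2 * l) hc1
      refine (r5 p q l' hc').trans (hl'.trans ?_)
      exact mul_le_mul_of_nonneg_left hl.le hc2.le
    refine le_of_forall_pos_le_add fun ε hε => ?_
    have h1 := key (ε / c2) (by positivity)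
    refine h1.trans (le_of_eq ?_)
    field_simp
  · have h1 := conn_straight ρ 1 y z
    obtain ⟨a1, -, -⟩ := @act_facts n
    simp only [a1] at h1
    exact r5 _ _ _ h1

theorem dg_facts {n : ℕ} :
    (∀ p q : PD n, 0 ≤ dg p q) ∧ (∀ p : PD n, dg p p = 0) ∧ (∀ p q : PD n, dg p q = dg q p) ∧
    (∀ p q r : PD n, dg p r ≤ dg p q + dg q r) := by
  obtain ⟨-, h1, h2, h3, h4, -⟩ := dr_facts (fun _ : PD n => (1 : ℝ)) 1 1 gd_one
  exact ⟨h1, h2, h3, h4⟩

end LibNC38
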