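import Pool.Agent.LibNC38.Defs

set_option autoImplicit false

open Matrix MeasureTheory

namespace LibNC38

/-- Row A2. A `C¹` curve is continuous, its velocity is symmetric (derivative of symmetric
matrices), its image under the group is a `C¹` curve, an affine change of the parameter gives a
`C¹` curve, and the speed is continuous (the inverse of a matrix is continuous where the
determinant is `1`: for instance `p⁻¹ = adjugate p`, entries polynomials in the entries of `p`). -/
theorem curve_facts {n : ℕ} (c : ℝ → PD n) (v : ℝ → Matrix (Fin n) (Fin n) ℝ) (h : IsC1 c v) :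
    Continuous c ∧ (∀ s, (v s)ᵀ = v s) ∧
    (∀ g : SL n, IsC1 (fun s => act g (c s)) (fun s => g.1 * v s * g.1ᵀ)) ∧
    (∀ a b : ℝ, IsC1 (fun s => c (a + b * s)) (fun s => b • v (a + b * s))) ∧
    Continuous fun s => spd (c s) (v s) := by
  have hc : Continuous fun s => (c s).1 :=
    continuous_matrix fun i j =>
      continuous_iff_continuousAt.2 fun s => (h.der s i j).continuousAt
  have hv : Continuous v := continuous_matrix h.cont
  refine ⟨continuous_induced_rng.2 hc, fun s => ?_, fun g => ⟨fun s i j => ?_, fun i j => ?_⟩,
    fun a b => ⟨fun s i j => ?_, fun i j => ?_⟩, ?_⟩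
  · ext i j
    rw [Matrix.transpose_apply]
    have e : (fun s => (c s).1 j i) = fun s => (c s).1 i j := by
      funext s
      have h1 := (c s).2.1.isHermitian.apply i j
      rwa [star_trivial] at h1
    have h1 := h.der s j i
    rw [e] at h1
    exact h1.unique (h.der s i j)
  · simp only [act, Matrix.mul_apply]
    exact HasDerivAt.fun_sum fun k _ => HasDerivAt.mul_const
      (HasDerivAt.fun_sum fun l _ => HasDerivAt.const_mul _ (h.der s l k)) _
  · simp only [Matrix.mul_apply]
    exact continuous_finsetSum _ fun k _ => (continuous_finsetSum _ fun l _ =>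
      continuous_const.mul (h.cont l k)).mul continuous_const
  · have h1 : HasDerivAt (fun s : ℝ => a + b * s) b s := by
      have h3 := ((hasDerivAt_id s).const_mul b).const_add a
      rwa [mul_one] at h3
    have h2 := (h.der (a + b * s) i j).comp s h1
    rw [Matrix.smul_apply, smul_eq_mul, mul_comm]
    exact h2
  · simp only [Matrix.smul_apply, smul_eq_mul]
    exact continuous_const.mul
      ((h.cont i j).comp (continuous_const.add (continuous_const.mul continuous_id)))
  · have e : ∀ s, (c s).1⁻¹ = (c s).1.adjugate := fun s => by
      rw [Matrix.inv_def, (c s).2.2, Ring.inverse_one, one_smul]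
    unfold spd
    simp only [e]
    have hm : Continuous fun s => (c s).1.adjugate * v s := hc.matrix_adjugate.matrix_mul hv
    exact (hm.matrix_mul hm).matrix_trace.sqrt

end LibNC38
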