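import Pool.Agent.LibNC38.Defs

set_option autoImplicit false

open Matrix MeasureTheory

namespace LibNC38

private theorem B2_pos {n : ℕ} (p : PD n) (i : ℕ) : 0 < mnr p.1 i := by
  unfold mnr
  split_ifs with h
  · have h1 := p.2.1.submatrix (e := Fin.castLE h) (Fin.castLE_injective h)
    exact h1.det_pos
  · exact one_pos

private theorem B2_blk {n : ℕ} (t : SL n) (ht : Lower t) (x : Matrix (Fin n) (Fin n) ℝ) (i : ℕ)
    (h : i ≤ n) : (t.1 * x * t.1ᵀ).submatrix (Fin.castLE h) (Fin.castLE h) =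
      (t.1.submatrix (Fin.castLE h) (Fin.castLE h)) * (x.submatrix (Fin.castLE h) (Fin.castLE h)) *
        (t.1.submatrix (Fin.castLE h) (Fin.castLE h))ᵀ := by
  ext a b
  have hz : ∀ (a : Fin i) (k : Fin n), k ∉ Set.range (Fin.castLE h) →
      t.1 (Fin.castLE h a) k = 0 := by
    intro a k hk
    apply ht
    rw [Fin.lt_def]
    by_contra hlt
    push Not at hlt
    apply hk
    refine ⟨⟨k, ?_⟩, Fin.ext rfl⟩
    have := a.2
    simp only [Fin.val_castLE] at hlt
    omega
  simp only [Matrix.submatrix_apply, Matrix.mul_apply, Matrix.transpose_apply]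
  symm
  refine Fintype.sum_of_injective (Fin.castLE h) (Fin.castLE_injective h) _ _ ?_ ?_
  · intro k hk
    rw [hz b k hk, mul_zero]
  · intro k
    congr 1
    refine Fintype.sum_of_injective (Fin.castLE h) (Fin.castLE_injective h) _ _ ?_ ?_
    · intro l hl
      rw [hz a l hl, zero_mul]
    · intro l
      rfl

private theorem B2_mnr {n : ℕ} (t : SL n) (ht : Lower t) (x : PD n) (i : ℕ) (h : i ≤ n) :
    mnr (act t x).1 i = (∏ j : Fin i, t.1 (Fin.castLE h j) (Fin.castLE h j)) ^ 2 * mnr x.1 i := by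
  have h1 : (act t x).1 = t.1 * x.1 * t.1ᵀ := rfl
  have h2 : (t.1.submatrix (Fin.castLE h) (Fin.castLE h)).det =
      ∏ j : Fin i, t.1 (Fin.castLE h j) (Fin.castLE h j) := by
    rw [Matrix.det_of_lowerTriangular]
    · rfl
    · intro a b hab
      exact ht _ _ (by simpa using hab)
  simp only [mnr, h, dite_true, h1]
  rw [B2_blk t ht x.1 i h, Matrix.det_mul, Matrix.det_mul, Matrix.det_transpose, h2]
  ring

private theorem B2_diag_ne {n : ℕ} (t : SL n) (ht : Lower t) (i : Fin n) : t.1 i i ≠ 0 := by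
  have h : t.1.det = ∏ j, t.1 j j := by
    rw [Matrix.det_of_lowerTriangular]
    intro a b hab
    exact ht _ _ (by simpa using hab)
  intro h0
  have h1 : t.1.det = 1 := t.2
  have h2 : ∏ j, t.1 j j = 0 := Finset.prod_eq_zero (Finset.mem_univ i) h0
  rw [h, h2] at h1
  exact zero_ne_one h1

private theorem B2_low {n : ℕ} (t : SL n) (ht : Lower t) (x : PD n) (i : Fin n) :
    (Pr (act t x)).1 i = (Pr x).1 i + Real.log |t.1 i i| := by
  have hi1 : (i : ℕ) + 1 ≤ n := i.2
  have hi : (i : ℕ) ≤ n := i.2.le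
  have e1 := B2_mnr t ht x (i + 1) hi1
  have e2 := B2_mnr t ht x i hi
  have hP : (∏ j : Fin ((i : ℕ) + 1), t.1 (Fin.castLE hi1 j) (Fin.castLE hi1 j)) =
      (∏ j : Fin (i : ℕ), t.1 (Fin.castLE hi j) (Fin.castLE hi j)) * t.1 i i := by
    rw [Fin.prod_univ_castSucc]
    congr 1
  have hne : (∏ j : Fin (i : ℕ), t.1 (Fin.castLE hi j) (Fin.castLE hi j)) ≠ 0 :=
    Finset.prod_ne_zero_iff.2 fun j _ => B2_diag_ne t ht _
  set P := ∏ j : Fin (i : ℕ), t.1 (Fin.castLE hi j) (Fin.castLE hi j) with hPdef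
  have hd := B2_diag_ne t ht i
  have g1 : Real.log (mnr (act t x).1 (i + 1)) =
      2 * Real.log P + 2 * Real.log |t.1 i i| + Real.log (mnr x.1 (i + 1)) := by
    rw [e1, hP, Real.log_mul (pow_ne_zero _ (mul_ne_zero hne hd)) (B2_pos x _).ne', Real.log_pow,
      Real.log_mul hne hd, Real.log_abs]
    push_cast; ring
  have g2 : Real.log (mnr (act t x).1 i) = 2 * Real.log P + Real.log (mnr x.1 i) := by
    rw [e2, Real.log_mul (pow_ne_zero _ hne) (B2_pos x _).ne', Real.log_pow]
    push_cast; ring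
  show Pc (act t x) i = Pc x i + Real.log |t.1 i i|
  unfold Pc
  rw [g1, g2]
  ring

private theorem B2_cont {n : ℕ} : Continuous (Pr : PD n → V0 n) := by
  have hm : ∀ i : ℕ, Continuous fun p : PD n => Real.log (mnr p.1 i) := by
    intro i
    refine Continuous.log ?_ fun p => (B2_pos p i).ne'
    unfold mnr
    split_ifs with h
    · exact (continuous_subtype_val.matrix_submatrix _ _).matrix_det
    · exact continuous_const
  refine Continuous.subtype_mk ?_ _
  refine (PiLp.continuous_toLp 2 (fun _ : Fin n => ℝ)).comp (continuous_pi fun i => ?_)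
  exact ((hm _).sub (hm _)).div_const 2

private theorem B2_log {n : ℕ} (g : SL n) (w : V0 n) (h : IsLog g w) (x : PD n) :
    Pr (act g x) = Pr x + w := by
  apply Subtype.ext
  ext i
  have h1 := B2_low g (fun a b hab => h.1 a b hab.ne) x i
  rw [h1, ← h.2 i]
  rfl

/-- Row B2. The projection `Pr`. (1) leading minors of positive definite matrices are positive and
(2) for lower triangular `t` the leading block of `t x tᵀ` is the product of the leading blocks:
`mnr (t x tᵀ) i = (∏ j < i, t j j)² * mnr x i` (the block of a triangular matrix is triangular,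
its determinant is the product of the diagonal). (3) continuity: polynomials and `log` of positive
functions. (4), (5) are special cases of (2): `sg y = act (dgm y) (o n)`, `Pr (o n) = 0`. -/
theorem Pr_facts {n : ℕ} :
    (∀ (p : PD n) (i : ℕ), 0 < mnr p.1 i) ∧
    (∀ (t : SL n), Lower t → ∀ (x : PD n) (i : Fin n),
      (Pr (act t x)).1 i = (Pr x).1 i + Real.log |t.1 i i|) ∧
    (Continuous (Pr : PD n → V0 n)) ∧
    (∀ y : V0 n, Pr (sg y) = y) ∧
    (∀ (g : SL n) (w : V0 n), IsLog g w → ∀ x, Pr (act g x) = Pr x + w) := by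
  refine ⟨B2_pos, B2_low, B2_cont, fun y => ?_, B2_log⟩
  have hl : IsLog (dgm y) y := by
    refine ⟨fun i j hij => Matrix.diagonal_apply_ne _ hij, fun i => ?_⟩
    have : (dgm y).1 i i = Real.exp (y.1 i) := Matrix.diagonal_apply_eq _ _
    rw [this, abs_of_pos (Real.exp_pos _), Real.log_exp]
  have h0 : Pr (o n) = 0 := by
    apply Subtype.ext
    ext i
    show Pc (o n) i = 0
    have h1 : ∀ j : ℕ, mnr (o n).1 j = 1 := by
      intro j
      have h2 : (o n).1 = 1 := rfl
      rw [h2]
      unfold mnr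
      split_ifs with h
      · rw [Matrix.submatrix_one _ (Fin.castLE_injective h), Matrix.det_one]
      · rfl
    simp [Pc, h1]
  rw [sg, B2_log _ _ hl, h0, zero_add]

end LibNC38
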