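import Pool.Agent.LibNC38.Defs

set_option autoImplicit false

open Matrix MeasureTheory

namespace LibNC38

private theorem B4_perm {m : ℕ} {σ : Equiv.Perm (Fin m)} (hσ : σ ≠ 1) (i : Fin m) : ∃ j, j ≠ i ∧ σ j ≠ j := by
  by_contra hcon
  push Not at hcon
  apply hσ
  ext j
  by_cases hj : j = i
  · subst hj
    by_contra h
    have h1 : σ j ≠ j := fun h2 => h (congrArg Fin.val h2)
    have h2 := hcon (σ j) h1
    exact h1 (σ.injective h2)
  · exact congrArg Fin.val (hcon j hj)

private theorem B4_det {m : ℕ} (A : ℝ → Matrix (Fin m) (Fin m) ℝ) (w : Matrix (Fin m) (Fin m) ℝ) (t : ℝ)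
    (h1 : A t = 1) (hA : ∀ i j, HasDerivAt (fun s => A s i j) (w i j) t) :
    HasDerivAt (fun s => (A s).det) (∑ j, w j j) t := by
  have h2 : ∀ σ : Equiv.Perm (Fin m), HasDerivAt (fun s => ∏ i, A s (σ i) i)
      (∑ i, (∏ j ∈ Finset.univ.erase i, A t (σ j) j) • w (σ i) i) t := by
    intro σ
    exact HasDerivAt.fun_finsetProd fun i _ => hA (σ i) i
  have h3 : HasDerivAt (fun s => ∑ σ : Equiv.Perm (Fin m), ((Equiv.Perm.sign σ : ℤ) : ℝ) * ∏ i, A s (σ i) i)
      (∑ σ : Equiv.Perm (Fin m), ((Equiv.Perm.sign σ : ℤ) : ℝ) *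
        ∑ i, (∏ j ∈ Finset.univ.erase i, A t (σ j) j) • w (σ i) i) t := by
    exact HasDerivAt.fun_sum fun σ _ => (h2 σ).const_mul _
  have h4 : (∑ σ : Equiv.Perm (Fin m), ((Equiv.Perm.sign σ : ℤ) : ℝ) *
        ∑ i, (∏ j ∈ Finset.univ.erase i, A t (σ j) j) • w (σ i) i) = ∑ j, w j j := by
    rw [Finset.sum_eq_single 1]
    · rw [Equiv.Perm.sign_one, Units.val_one, Int.cast_one, one_mul]
      refine Finset.sum_congr rfl fun i _ => ?_
      rw [Finset.prod_eq_one, one_smul]
      · rfl
      · intro j _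
        rw [h1]
        exact Matrix.one_apply_eq j
    · intro σ _ hσ
      rw [Finset.sum_eq_zero, mul_zero]
      intro i _
      obtain ⟨j, hj, hj2⟩ := B4_perm hσ i
      rw [Finset.prod_eq_zero (Finset.mem_erase.2 ⟨hj, Finset.mem_univ j⟩), zero_smul]
      rw [h1]
      exact Matrix.one_apply_ne hj2
    · intro h
      exact absurd (Finset.mem_univ _) h
  rw [h4] at h3
  have h5 : (fun s => (A s).det) =
      fun s => ∑ σ : Equiv.Perm (Fin m), ((Equiv.Perm.sign σ : ℤ) : ℝ) * ∏ i, A s (σ i) i := by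
    funext s
    exact Matrix.det_apply' (A s)
  rw [h5]
  exact h3

/-- Row B4. The derivative at the identity matrix of a leading minor is the sum of the first
diagonal entries (derivative of the determinant of a matrix with differentiable entries at a
parameter where the matrix is `1`: `Matrix.det_apply`, only the identity permutation contributes;
a permutation `≠ 1` moves at least two indices, so each term of the product rule has a zero
factor). -/
theorem mnr_deriv {n : ℕ} (M : ℝ → Matrix (Fin n) (Fin n) ℝ) (v : Matrix (Fin n) (Fin n) ℝ) (t : ℝ)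
    (h1 : M t = 1) (hM : ∀ i j, HasDerivAt (fun s => M s i j) (v i j) t) (i : ℕ) (hi : i ≤ n) :
    HasDerivAt (fun s => mnr (M s) i) (∑ j : Fin n, if (j : ℕ) < i then v j j else 0) t := by
  have h2 : (fun s => mnr (M s) i) = fun s => ((M s).submatrix (Fin.castLE hi) (Fin.castLE hi)).det := by
    funext s
    unfold mnr
    rw [dif_pos hi]
  rw [h2]
  have h3 : (∑ j : Fin n, if (j : ℕ) < i then v j j else 0) = ∑ j : Fin i, v (Fin.castLE hi j) (Fin.castLE hi j) := by
    rw [← Finset.sum_filter]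
    symm
    refine Finset.sum_nbij (Fin.castLE hi) ?_ ?_ ?_ ?_
    · intro j _
      rw [Finset.mem_filter]
      exact ⟨Finset.mem_univ _, j.2⟩
    · intro a _ b _ hab
      exact Fin.castLE_injective hi hab
    · intro j hj
      rw [Finset.coe_filter] at hj
      exact ⟨⟨j, hj.2⟩, Finset.mem_coe.2 (Finset.mem_univ _), rfl⟩
    · intro j _
      rfl
  rw [h3]
  refine B4_det (fun s => (M s).submatrix (Fin.castLE hi) (Fin.castLE hi))
    (v.submatrix (Fin.castLE hi) (Fin.castLE hi)) t ?_ ?_
  · show (M t).submatrix (Fin.castLE hi) (Fin.castLE hi) = 1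
    rw [h1]
    exact Matrix.submatrix_one _ (Fin.castLE_injective hi)
  · intro a b
    exact hM (Fin.castLE hi a) (Fin.castLE hi b)

end LibNC38
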