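import Pool.Agent.LibNC38.A1
import Pool.Agent.LibNC38.A2
import Pool.Agent.LibNC38.B1
import Pool.Agent.LibNC38.B2
import Pool.Agent.LibNC38.B3
import Pool.Agent.LibNC38.B4

set_option autoImplicit false

open Matrix MeasureTheory

namespace LibNC38

/-- Row B5, first part: derivative of `Pr` along a curve through the base point. From B4:
`Pc = (log mnr (i+1) - log mnr i) / 2` and `mnr 1 i = 1`. -/
theorem Pr_deriv_o {n : ℕ} (c : ℝ → PD n) (v : ℝ → Matrix (Fin n) (Fin n) ℝ) (h : IsC1 c v)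
    (t : ℝ) (ht : c t = o n) (i : Fin n) :
    HasDerivAt (fun s => (Pr (c s)).1 i) (v t i i / 2) t := by
  have h1 : (c t).1 = 1 := by rw [ht]; rfl
  have hk : ∀ k : ℕ, k ≤ n → HasDerivAt (fun s => Real.log (mnr (c s).1 k))
      (∑ j : Fin n, if (j : ℕ) < k then v t j j else 0) t := by
    intro k hk
    have h2 := mnr_deriv (fun s => (c s).1) (v t) t h1 (fun i j => h.der t i j) k hk
    have h3 : mnr (c t).1 k = 1 := by
      rw [h1]
      simp only [mnr, hk, dite_true]
      rw [Matrix.submatrix_one _ (Fin.castLE_injective hk), Matrix.det_one]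
    have h4 := h2.log (by simp only [h3]; norm_num)
    simpa only [h3, div_one] using h4
  have h5 := ((hk (i + 1) i.2).sub (hk i i.2.le)).div_const 2
  have h6 : ((∑ j : Fin n, if (j : ℕ) < (i : ℕ) + 1 then v t j j else 0) -
      (∑ j : Fin n, if (j : ℕ) < (i : ℕ) then v t j j else 0)) = v t i i := by
    rw [← Finset.sum_sub_distrib, Finset.sum_eq_single i]
    · simp
    · intro j _ hj
      have hj' : (j : ℕ) ≠ (i : ℕ) := fun h => hj (Fin.ext h)
      by_cases h7 : (j : ℕ) < (i : ℕ)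
      · rw [if_pos (by omega), if_pos h7, sub_self]
      · rw [if_neg (by omega), if_neg h7, sub_self]
    · simp
  rw [h6] at h5
  exact h5

private theorem lower_inv {n : ℕ} (g : SL n) (hg : Lower g) : Lower g⁻¹ := by
  have hdet : IsUnit g.1.det := by rw [g.2]; exact isUnit_one
  have hinv : Invertible g.1 := Matrix.invertibleOfIsUnitDet g.1 hdet
  have hbt : g.1.BlockTriangular OrderDual.toDual := by
    intro i j hij
    exact hg i j (OrderDual.toDual_lt_toDual.1 hij)
  have h2 := Matrix.blockTriangular_inv_of_blockTriangular hbt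
  have h3 : (g⁻¹).1 = (g.1)⁻¹ := by
    have h4 : g.1 * (g⁻¹).1 = 1 := by
      have h5 := congrArg Subtype.val (mul_inv_cancel g)
      exact h5
    exact (Matrix.inv_eq_right_inv h4).symm
  intro i j hij
  rw [h3]
  exact h2 (OrderDual.toDual_lt_toDual.2 hij)

/-- Row B5, second part. By B3 `c t = act g₀ (o n)` with `g₀` lower triangular, `g = g₀⁻¹` is lower
triangular, `act g (c s)` is a curve through the base point at time `t` with velocity
`g v gᵀ` (A2), `Pr (act g x) = Pr x + const` (B2), so the derivative is `w i = (g v gᵀ) i i / 2`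
and `4 ‖w‖² = ∑ (g v gᵀ) i i ^ 2 ≤ ∑ i j (g v gᵀ) i j ^ 2 = spd (c t) (v t) ^ 2` (A1). -/
theorem Pr_deriv {n : ℕ} (c : ℝ → PD n) (v : ℝ → Matrix (Fin n) (Fin n) ℝ) (h : IsC1 c v)
    (t : ℝ) : ∃ w : V0 n, HasDerivAt (fun s => Pr (c s)) w t ∧ 2 * ‖w‖ ≤ spd (c t) (v t) := by
  obtain ⟨g0, hg0, -, hct⟩ := chol (c t)
  obtain ⟨-, hsym, hact, -, -⟩ := curve_facts c v h
  set g : SL n := g0⁻¹ with hg
  have hgl : Lower g := lower_inv g0 hg0
  have hC := hact g
  have hat : act g (c t) = o n := by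
    rw [hct, ← (act_facts (n := n)).2.1, hg, inv_mul_cancel, (act_facts (n := n)).1]
  set u : ℝ → Matrix (Fin n) (Fin n) ℝ := fun s => g.1 * v s * g.1ᵀ with hu
  have hd : ∀ i, HasDerivAt (fun s => (Pr (c s)).1 i) (u t i i / 2) t := by
    intro i
    have h1 := Pr_deriv_o (fun s => act g (c s)) u hC t hat i
    have h2 : (fun s => (Pr (c s)).1 i) = fun s => (Pr (act g (c s))).1 i - Real.log |g.1 i i| := by
      funext s
      rw [(Pr_facts (n := n)).2.1 g hgl (c s) i]
      ring
    rw [h2]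
    exact h1.sub_const _
  have hsum : ∑ i, u t i i / 2 = 0 := by
    have h1 : HasDerivAt (fun s => ∑ i, (Pr (c s)).1 i) (∑ i, u t i i / 2) t :=
      HasDerivAt.fun_sum fun i _ => hd i
    have h2 : (fun s => ∑ i, (Pr (c s)).1 i) = fun _ => (0 : ℝ) := by
      funext s
      exact sum_V0 _
    rw [h2] at h1
    exact h1.unique (hasDerivAt_const t 0)
  let w : V0 n := ⟨WithLp.toLp 2 (fun i => u t i i / 2), hsum⟩
  refine ⟨w, ?_, ?_⟩
  · have h1 : HasDerivAt (fun s => ((Pr (c s)).1 : EuclideanSpace ℝ (Fin n))) w.1 t := by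
      have h2 := hasDerivAt_pi.2 hd
      exact (PiLp.continuousLinearEquiv 2 ℝ (fun _ : Fin n => ℝ)).symm.toContinuousLinearMap.hasFDerivAt.comp_hasDerivAt t h2
    have h3 := (sz n).orthogonalProjectionOnto.hasFDerivAt.comp_hasDerivAt t h1
    have h4 : (fun s => Pr (c s)) =
        (sz n).orthogonalProjectionOnto ∘ (fun s => ((Pr (c s)).1 : EuclideanSpace ℝ (Fin n))) := by
      funext s
      exact ((sz n).orthogonalProjectionOnto_mem_subspace_eq_self (Pr (c s))).symm
    rw [h4]
    have h5 : (sz n).orthogonalProjectionOnto w.1 = w :=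
      (sz n).orthogonalProjectionOnto_mem_subspace_eq_self w
    rw [← h5]
    exact h3
  · have hsymu : (u t)ᵀ = u t := by
      simp only [hu, Matrix.transpose_mul, Matrix.transpose_transpose, hsym t, Matrix.mul_assoc]
    have h1 : spd (c t) (v t) = √ (∑ i, ∑ j, u t i j ^ 2) := by
      rw [← (spd_facts (n := n)).1 g (c t) (v t), hat]
      exact (spd_facts (n := n)).2.1 (u t) hsymu
    rw [h1]
    have h2 : ‖w‖ = √ (∑ i, (u t i i / 2) ^ 2) := by
      change ‖w.1‖ = _
      rw [EuclideanSpace.norm_eq]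
      congr 1
      refine Finset.sum_congr rfl fun i _ => ?_
      rw [Real.norm_eq_abs, sq_abs]
    rw [h2]
    have h3 : (2 : ℝ) * √ (∑ i, (u t i i / 2) ^ 2) = √ (∑ i, u t i i ^ 2) := by
      have h4 : ∑ i, u t i i ^ 2 = 2 ^ 2 * ∑ i, (u t i i / 2) ^ 2 := by
        rw [Finset.mul_sum]
        refine Finset.sum_congr rfl fun i _ => ?_
        ring
      rw [h4, Real.sqrt_mul (by positivity), Real.sqrt_sq (by norm_num)]
    rw [h3]
    apply Real.sqrt_le_sqrt
    refine Finset.sum_le_sum fun i _ => ?_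
    exact Finset.single_le_sum (f := fun j => u t i j ^ 2) (fun j _ => sq_nonneg _) (Finset.mem_univ i)

end LibNC38
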