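import Pool.Agent.LibNC38.B1

set_option autoImplicit false

open Matrix MeasureTheory Topology Filter

namespace LibNC38

/-- Row J1. A continuous left `Γ`-invariant function on `SL n`, `Γ` cocompact, is bounded and
uniformly continuous in the sense below (compactness of `Q`: for every `q ∈ Q` the function
`(x, u) ↦ F (x u)` is continuous at `(q, 1)`; tube lemma / finite subcover). -/
theorem unif {n : ℕ} (Γ : Subgroup (SL n)) (hc : Coc Γ) (F : SL n → ℝ) (hF : Continuous F)
    (hinv : ∀ γ ∈ Γ, ∀ g, F (γ * g) = F g) :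
    (∃ B, ∀ g, |F g| ≤ B) ∧ ∀ ε > 0, ∃ U ∈ 𝓝 (1 : SL n), ∀ g, ∀ u ∈ U, |F (g * u) - F g| ≤ ε := by
  obtain ⟨Q, hQ, hcov⟩ := hc
  constructor
  · obtain ⟨B, hB⟩ := (hQ.image hF).isBounded.subset_closedBall (0 : ℝ)
    refine ⟨B, fun g => ?_⟩
    obtain ⟨γ, hγ, hq⟩ := hcov g
    have h1 : F (γ * g) ∈ Metric.closedBall (0 : ℝ) B := hB ⟨_, hq, rfl⟩
    rw [hinv γ hγ, mem_closedBall_zero_iff, Real.norm_eq_abs] at h1
    exact h1
  · intro ε hε
    have key : ∀ᶠ u in 𝓝 (1 : SL n), ∀ q ∈ Q, |F (q * u) - F q| < ε := by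
      have hcont : Continuous fun z : SL n × SL n => |F (z.1 * z.2) - F z.1| :=
        ((hF.comp (continuous_fst.mul continuous_snd)).sub (hF.comp continuous_fst)).abs
      refine hQ.eventually_forall_of_forall_eventually (x₀ := (1 : SL n)) fun q _ => ?_
      have h2 : (fun z : SL n × SL n => |F (z.1 * z.2) - F z.1|) (q, 1) < ε := by
        simpa using hε
      have h3 := hcont.continuousAt.eventually_lt (continuousAt_const (y := ε)) h2
      have h4 : Tendsto (fun z : SL n × SL n => (z.2, z.1)) (𝓝 (1, q)) (𝓝 (q, 1)) :=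
        (continuous_snd.prodMk continuous_fst).continuousAt
      exact h4.eventually h3
    obtain ⟨U, hU, hUe⟩ := key.exists_mem
    refine ⟨U, hU, fun g u hu => ?_⟩
    obtain ⟨γ, hγ, hq⟩ := hcov g
    have h1 := hUe u hu _ hq
    rw [mul_assoc, hinv γ hγ, hinv γ hγ] at h1
    exact h1.le

end LibNC38
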