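import Pool.Agent.LibNC38.Defs

set_option autoImplicit false

open Matrix MeasureTheory

namespace LibNC38

/-- Row A1. Elementary facts on the norm `spd`. (1) `g v gᵀ`: cyclicity of the trace,
`(g p gᵀ)⁻¹ g v gᵀ = (gᵀ)⁻¹ p⁻¹ v gᵀ`. (2) at the base point `p⁻¹ = 1`. (3) homogeneity. (4) a square root. -/
theorem spd_facts {n : ℕ} :
    (∀ (g : SL n) (p : PD n) (v : Matrix (Fin n) (Fin n) ℝ),
      spd (act g p) (g.1 * v * g.1ᵀ) = spd p v) ∧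
    (∀ v : Matrix (Fin n) (Fin n) ℝ, vᵀ = v → spd (o n) v = √ (∑ i, ∑ j, v i j ^ 2)) ∧
    (∀ (p : PD n) (v : Matrix (Fin n) (Fin n) ℝ) (r : ℝ), spd p (r • v) = |r| * spd p v) ∧
    (∀ (p : PD n) (v : Matrix (Fin n) (Fin n) ℝ), 0 ≤ spd p v) := by
  refine ⟨?_, ?_, ?_, ?_⟩
  · intro g p v
    have hg : IsUnit g.1.det := by rw [g.2]; exact isUnit_one
    have hgt : IsUnit g.1ᵀ.det := by rw [Matrix.det_transpose]; exact hg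
    have h1 : (act g p).1⁻¹ * (g.1 * v * g.1ᵀ) = g.1ᵀ⁻¹ * (p.1⁻¹ * v) * g.1ᵀ := by
      change (g.1 * p.1 * g.1ᵀ)⁻¹ * (g.1 * v * g.1ᵀ) = _
      rw [Matrix.mul_inv_rev, Matrix.mul_inv_rev]
      calc g.1ᵀ⁻¹ * (p.1⁻¹ * g.1⁻¹) * (g.1 * v * g.1ᵀ)
          = g.1ᵀ⁻¹ * p.1⁻¹ * (g.1⁻¹ * g.1) * v * g.1ᵀ := by simp only [Matrix.mul_assoc]
        _ = g.1ᵀ⁻¹ * (p.1⁻¹ * v) * g.1ᵀ := by
            rw [Matrix.nonsing_inv_mul _ hg, Matrix.mul_one]; simp only [Matrix.mul_assoc]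
    unfold spd
    rw [h1]
    congr 1
    calc Matrix.trace (g.1ᵀ⁻¹ * (p.1⁻¹ * v) * g.1ᵀ * (g.1ᵀ⁻¹ * (p.1⁻¹ * v) * g.1ᵀ))
        = Matrix.trace (g.1ᵀ⁻¹ * ((p.1⁻¹ * v) * (g.1ᵀ * g.1ᵀ⁻¹) * (p.1⁻¹ * v) * g.1ᵀ)) := by
          simp only [Matrix.mul_assoc]
      _ = Matrix.trace (((p.1⁻¹ * v) * (g.1ᵀ * g.1ᵀ⁻¹) * (p.1⁻¹ * v) * g.1ᵀ) * g.1ᵀ⁻¹) :=
          Matrix.trace_mul_comm _ _
      _ = Matrix.trace ((p.1⁻¹ * v) * (g.1ᵀ * g.1ᵀ⁻¹) * (p.1⁻¹ * v) * (g.1ᵀ * g.1ᵀ⁻¹)) := by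
          simp only [Matrix.mul_assoc]
      _ = Matrix.trace (p.1⁻¹ * v * (p.1⁻¹ * v)) := by
          rw [Matrix.mul_nonsing_inv _ hgt, Matrix.mul_one, Matrix.mul_one]
  · intro v hv
    unfold spd
    congr 1
    change Matrix.trace ((1 : Matrix (Fin n) (Fin n) ℝ)⁻¹ * v * ((1 : Matrix (Fin n) (Fin n) ℝ)⁻¹ * v)) = _
    rw [inv_one, Matrix.one_mul]
    simp only [Matrix.trace, Matrix.diag_apply, Matrix.mul_apply]
    refine Finset.sum_congr rfl fun i _ => Finset.sum_congr rfl fun j _ => ?_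
    have h1 : v j i = v i j := by
      conv_rhs => rw [← hv]
      rfl
    rw [h1, sq]
  · intro p v r
    unfold spd
    rw [Matrix.mul_smul, Matrix.smul_mul, Matrix.mul_smul, Matrix.trace_smul, Matrix.trace_smul,
      smul_eq_mul, smul_eq_mul, ← mul_assoc, Real.sqrt_mul (mul_self_nonneg r), Real.sqrt_mul_self_eq_abs]
  · intro p v
    exact Real.sqrt_nonneg _

end LibNC38
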