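import Pool.Agent.LibNC38.K5
import Pool.Agent.LibNC38.G5

set_option autoImplicit false

open Matrix MeasureTheory Topology Filter

namespace LibNC38

/-- Row K6a. For `n ≥ 3` and `i ≠ j` there is `w ≠ 0` in `V0 n` with `w i = w j`
(`e_i + e_j - 2 e_k`). -/
theorem exists_w {n : ℕ} (hn : 3 ≤ n) (i j : Fin n) (hij : i ≠ j) :
    ∃ w : V0 n, w ≠ 0 ∧ w.1 i = w.1 j := by
  classical
  obtain ⟨k, hk⟩ : ∃ k : Fin n, k ∉ ({i, j} : Finset (Fin n)) := by
    by_contra hcon
    have h1 : ∀ k : Fin n, k ∈ ({i, j} : Finset (Fin n)) := fun k => by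
      by_contra hk
      exact hcon ⟨k, hk⟩
    have h2 : (Finset.univ : Finset (Fin n)).card ≤ ({i, j} : Finset (Fin n)).card :=
      Finset.card_le_card fun k _ => h1 k
    have h3 : ({i, j} : Finset (Fin n)).card ≤ 2 := Finset.card_le_two
    rw [Finset.card_univ, Fintype.card_fin] at h2
    omega
  have hki : k ≠ i := fun h => hk (by rw [h]; simp)
  have hkj : k ≠ j := fun h => hk (by rw [h]; simp)
  let w : V0 n := ⟨WithLp.toLp 2 (fun x => (if x = i then (1 : ℝ) else 0) +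
    (if x = j then (1 : ℝ) else 0) - (if x = k then (2 : ℝ) else 0)), by
      change ∑ x, _ = (0 : ℝ)
      simp only [Finset.sum_sub_distrib, Finset.sum_add_distrib, Finset.sum_ite_eq',
        Finset.mem_univ, if_true]
      norm_num⟩
  have hwv : ∀ x, w.1 x = (if x = i then (1 : ℝ) else 0) +
    (if x = j then (1 : ℝ) else 0) - (if x = k then (2 : ℝ) else 0) := fun x => rfl
  refine ⟨w, ?_, ?_⟩
  · intro h0
    have h1 := hwv k
    rw [h0, if_neg hki, if_neg hkj, if_pos rfl] at h1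
    have h2 : ((0 : V0 n).1 k : ℝ) = 0 := rfl
    rw [h2] at h1
    norm_num at h1
  · rw [hwv, hwv, if_pos rfl, if_neg hij, if_neg (fun h => hki h.symm), if_neg (fun h => hij h.symm),
      if_pos rfl, if_neg (fun h => hkj h.symm)]
    norm_num

/-- Row K6b. The limit function of a blow up sequence is constant: `Φ g = φ' (act g (o n))`,
`gdl L Φ` is continuous and vanishes on a dense set (G5 + K5b, `L = List.ofFn w` over an
enumeration of the pairs `i ≠ j`), so it is zero; J4b: `Φ` is constant; every point is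
`act g (o n)` (B3). -/
theorem blow_const {n : ℕ} (hn : 3 ≤ n) (Γ : Subgroup (SL n)) (hd : Disc Γ) (hc : Coc Γ) (C : ℝ)
    (φ : ℕ → PD n → ℝ) (φ' : PD n → ℝ) (δ : ℕ → ℝ) (hB : Blow Γ C φ φ' δ) (p q : PD n) :
    φ' p = φ' q := by
  classical
  obtain ⟨ha1, ha2, ha3⟩ := act_facts (n := n)
  obtain ⟨-, hφc, -, -, -, hφi, -, -⟩ := blow_facts Γ C φ φ' δ hB
  let Φ : SL n → ℝ := fun g => φ' (act g (o n))
  have hΦc : Continuous Φ := hφc.comp (ha3.comp (continuous_id.prodMk continuous_const))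
  have hΦi : ∀ γ ∈ Γ, ∀ g, Φ (γ * g) = Φ g := by
    intro γ hγ g
    change φ' (act (γ * g) (o n)) = φ' (act g (o n))
    rw [ha2, hφi γ hγ]
  -- the pairs
  let S := {x : Fin n × Fin n // x.1 ≠ x.2}
  let m := Fintype.card S
  let ε : Fin m ≃ S := (Fintype.equivFin S).symm
  have hex : ∀ j : Fin m, ∃ w : V0 n, w ≠ 0 ∧ w.1 (ε j).1.1 = w.1 (ε j).1.2 :=
    fun j => exists_w hn _ _ (ε j).2
  choose w hw0 hw using hex
  have hm : 0 < m := by
    apply Fintype.card_pos_iff.2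
    exact ⟨⟨(⟨0, by omega⟩, ⟨1, by omega⟩), by
      intro h
      exact absurd (congrArg Fin.val h) (by norm_num)⟩⟩
  have hall : ∀ i i' : Fin n, i ≠ i' → ∃ j, ((ε j).1.1 = i ∧ (ε j).1.2 = i') ∨
      ((ε j).1.1 = i' ∧ (ε j).1.2 = i) := by
    intro i i' hii
    refine ⟨ε.symm ⟨(i, i'), hii⟩, Or.inl ?_⟩
    rw [Equiv.apply_symm_apply]
    exact ⟨rfl, rfl⟩
  have hcont : ∀ L : List (V0 n), Continuous (gdl L Φ) := by
    intro L
    induction L with
    | nil => exact hΦc
    | cons v L ih =>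
      have h1 : gdl (v :: L) Φ = fun g => gdl L Φ (g * dgm v) - gdl L Φ g := rfl
      rw [h1]
      exact (ih.comp (continuous_mul_const _)).sub ih
  have hzero : ∀ g, gdl (List.ofFn w) Φ g = 0 := by
    intro g0
    have hcl : IsClosed {g | gdl (List.ofFn w) Φ g = 0} :=
      isClosed_eq (hcont _) continuous_const
    have hmem : g0 ∈ closure {g | gdl (List.ofFn w) Φ g = 0} := by
      rw [mem_closure_iff_nhds]
      intro U hU
      obtain ⟨h, hhU, α, hα, hr, hαΓ⟩ := dens Γ hd hc g0 U hU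
      exact ⟨h, hhU, gdl_zero_at (by omega) Γ hd hc C φ φ' δ hB h α hα hr hαΓ hm
        (fun j => (ε j).1.1) (fun j => (ε j).1.2) (fun j => (ε j).2) hall w hw⟩
    rw [hcl.closure_eq] at hmem
    exact hmem
  have hL : ∀ v ∈ List.ofFn w, v ≠ 0 := by
    intro v hv
    obtain ⟨j, rfl⟩ := (List.mem_ofFn' w v).1 hv
    exact hw0 j
  have hconst := peel Γ hc Φ hΦc hΦi (List.ofFn w) hL 0 hzero
  obtain ⟨t, -, -, ht⟩ := chol p
  obtain ⟨u, -, -, hu⟩ := chol q
  have h1 : φ' p = Φ t := by rw [ht]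
  have h2 : φ' q = Φ u := by rw [hu]
  rw [h1, h2, hconst t, hconst u]

end LibNC38
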