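import Pool.Agent.LibNC38.A1
import Pool.Agent.LibNC38.A2

set_option autoImplicit false

open Matrix MeasureTheory

namespace LibNC38

private theorem conn_refl {n : ℕ} (ρ : PD n → ℝ) (p : PD n) : Conn ρ p p 0 := by
  have h : IsC1 (fun _ : ℝ => p) (fun _ => (0 : Matrix (Fin n) (Fin n) ℝ)) := by
    refine ⟨fun s i j => ?_, fun i j => ?_⟩
    · simpa using hasDerivAt_const s (p.1 i j)
    · exact continuous_const
  have h1 := Conn.seg (ρ := ρ) (fun _ : ℝ => p) (fun _ => (0 : Matrix (Fin n) (Fin n) ℝ)) h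
  have h2 : len ρ (fun _ : ℝ => p) (fun _ => (0 : Matrix (Fin n) (Fin n) ℝ)) = 0 := by
    unfold len
    have h3 : spd p (0 : Matrix (Fin n) (Fin n) ℝ) = 0 := by
      unfold spd
      simp
    simp [h3]
  rw [h2] at h1
  exact h1

private theorem conn_symm {n : ℕ} (ρ : PD n → ℝ) {p q : PD n} {l : ℝ} (h : Conn ρ p q l) :
    Conn ρ q p l := by
  induction h with
  | seg c v h =>
    have h1 := (curve_facts c v h).2.2.2.1 1 (-1)
    have h2 := Conn.seg (ρ := ρ) _ _ h1
    have h3 : len ρ (fun s => c (1 + -1 * s)) (fun s => (-1 : ℝ) • v (1 + -1 * s)) = len ρ c v := by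
      unfold len
      have h4 : ∀ s : ℝ, ρ (c (1 + -1 * s)) * spd (c (1 + -1 * s)) ((-1 : ℝ) • v (1 + -1 * s)) =
          (fun t => ρ (c t) * spd (c t) (v t)) (1 - s) := by
        intro s
        have h5 : (1 : ℝ) + -1 * s = 1 - s := by ring
        simp only [h5]
        rw [spd_facts.2.2.1]
        simp
      simp only [h4]
      rw [intervalIntegral.integral_comp_sub_left (fun t => ρ (c t) * spd (c t) (v t)) 1]
      norm_num
    rw [h3] at h2
    have h6 : (1 : ℝ) + -1 * 0 = 1 := by norm_num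
    have h7 : (1 : ℝ) + -1 * 1 = 0 := by norm_num
    simp only [h6, h7] at h2
    exact h2
  | trans _ _ ih1 ih2 =>
    rw [add_comm]
    exact Conn.trans ih2 ih1

private theorem conn_nonneg {n : ℕ} (ρ : PD n → ℝ) (h0 : ∀ x, 0 ≤ ρ x) {p q : PD n} {l : ℝ}
    (h : Conn ρ p q l) : 0 ≤ l := by
  induction h with
  | seg c v h =>
    unfold len
    exact intervalIntegral.integral_nonneg zero_le_one
      fun s _ => mul_nonneg (h0 _) (spd_facts.2.2.2 _ _)
  | trans _ _ ih1 ih2 => exact add_nonneg ih1 ih2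

private theorem conn_act {n : ℕ} (ρ : PD n → ℝ) (g : SL n) (ρ' : PD n → ℝ)
    (hg : ∀ x, ρ' (act g x) = ρ x) {p q : PD n} {l : ℝ} (h : Conn ρ p q l) :
    Conn ρ' (act g p) (act g q) l := by
  induction h with
  | seg c v h =>
    have h1 := (curve_facts c v h).2.2.1 g
    have h2 := Conn.seg (ρ := ρ') _ _ h1
    have h3 : len ρ' (fun s => act g (c s)) (fun s => g.1 * v s * g.1ᵀ) = len ρ c v := by
      unfold len
      simp only [hg, spd_facts.1]
    rw [h3] at h2
    exact h2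
  | trans _ _ ih1 ih2 => exact Conn.trans ih1 ih2

private theorem conn_mul {n : ℕ} (ρ : PD n → ℝ) (r : ℝ) {p q : PD n} {l : ℝ} (h : Conn ρ p q l) :
    Conn (fun x => r * ρ x) p q (r * l) := by
  induction h with
  | seg c v h =>
    have h2 := Conn.seg (ρ := fun x => r * ρ x) c v h
    have h3 : len (fun x => r * ρ x) c v = r * len ρ c v := by
      unfold len
      rw [← intervalIntegral.integral_const_mul]
      simp only [mul_assoc]
    rw [h3] at h2
    exact h2
  | trans _ _ ih1 ih2 =>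
    rw [mul_add]
    exact Conn.trans ih1 ih2

private theorem conn_mono {n : ℕ} (ρ : PD n → ℝ) (hρ : Continuous ρ) (ρ' : PD n → ℝ)
    (hρ' : Continuous ρ') (hle : ∀ x, ρ' x ≤ ρ x) {p q : PD n} {l : ℝ} (h : Conn ρ p q l) :
    ∃ l' ≤ l, Conn ρ' p q l' := by
  induction h with
  | seg c v h =>
    refine ⟨len ρ' c v, ?_, Conn.seg c v h⟩
    obtain ⟨hc, -, -, -, hs⟩ := curve_facts c v h
    unfold len
    apply intervalIntegral.integral_mono_on zero_le_one
    · exact ((hρ'.comp hc).mul hs).intervalIntegrable _ _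
    · exact ((hρ.comp hc).mul hs).intervalIntegrable _ _
    · intro s _
      exact mul_le_mul_of_nonneg_right (hle _) (spd_facts.2.2.2 _ _)
  | trans _ _ ih1 ih2 =>
    obtain ⟨a, ha, h1⟩ := ih1
    obtain ⟨b, hb, h2⟩ := ih2
    exact ⟨a + b, add_le_add ha hb, Conn.trans h1 h2⟩

/-- Row A3. Facts on `Conn` by induction on the chain: constant curve, reversed curve
`c (1 + (-1) * s)` (substitution in the integral, `spd` homogeneous), nonnegative lengths, image
under the group, multiples of the conformal factor, monotonicity in the conformal factor. -/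
theorem conn_facts {n : ℕ} (ρ : PD n → ℝ) (hρ : Continuous ρ) (h0 : ∀ x, 0 ≤ ρ x) :
    (∀ p, Conn ρ p p 0) ∧
    (∀ p q l, Conn ρ p q l → Conn ρ q p l) ∧
    (∀ p q l, Conn ρ p q l → 0 ≤ l) ∧
    (∀ (g : SL n) (ρ' : PD n → ℝ), (∀ x, ρ' (act g x) = ρ x) →
      ∀ p q l, Conn ρ p q l → Conn ρ' (act g p) (act g q) l) ∧
    (∀ r : ℝ, ∀ p q l, Conn ρ p q l → Conn (fun x => r * ρ x) p q (r * l)) ∧
    (∀ ρ' : PD n → ℝ, Continuous ρ' → (∀ x, ρ' x ≤ ρ x) →
      ∀ p q l, Conn ρ p q l → ∃ l' ≤ l, Conn ρ' p q l') :=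
  ⟨conn_refl ρ, fun _ _ _ h => conn_symm ρ h, fun _ _ _ h => conn_nonneg ρ h0 h,
    fun g ρ' hg _ _ _ h => conn_act ρ g ρ' hg h, fun r _ _ _ h => conn_mul ρ r h,
    fun ρ' hρ' hle _ _ _ h => conn_mono ρ hρ ρ' hρ' hle h⟩

end LibNC38
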