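import Pool.Agent.LibNC38.A1
import Pool.Agent.LibNC38.A2
import Pool.Agent.LibNC38.A3

set_option autoImplicit false

open Matrix MeasureTheory

namespace LibNC38

/-- Row A4. A chain can be cut at every length. Induction on the chain. Segment: the function
`t ↦ ∫ s in 0..t, ρ (c s) * spd (c s) (v s)` is continuous (A2), so it takes the value `s` at some
`t ∈ [0,1]`; use the curves `c (0 + t * s)` and `c (t + (1 - t) * s)` (A2, substitution,
`spd` homogeneous by A1). Chain `trans`: `s ≤ a` or `s ≥ a`. -/
theorem conn_cut {n : ℕ} (ρ : PD n → ℝ) (hρ : Continuous ρ) (h0 : ∀ x, 0 ≤ ρ x) (p q : PD n)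
    (l : ℝ) (h : Conn ρ p q l) (s : ℝ) (hs0 : 0 ≤ s) (hsl : s ≤ l) :
    ∃ m, Conn ρ p m s ∧ Conn ρ m q (l - s) := by
  induction h generalizing s with
  | seg c v hc =>
    obtain ⟨hcc, _, _, haff, hspd⟩ := curve_facts c v hc
    obtain ⟨_, _, hhom, _⟩ := spd_facts (n := n)
    have hg : Continuous fun s => ρ (c s) * spd (c s) (v s) := (hρ.comp hcc).mul hspd
    have hint : ∀ a b : ℝ, IntervalIntegrable (fun s => ρ (c s) * spd (c s) (v s)) volume a b :=
      fun a b => hg.intervalIntegrable a b
    have hφ : Continuous fun t : ℝ => ∫ s in (0 : ℝ)..t, ρ (c s) * spd (c s) (v s) :=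
      intervalIntegral.continuous_primitive hint 0
    have hivt := intermediate_value_Icc (zero_le_one' ℝ) hφ.continuousOn
    have hmem : s ∈ Set.Icc (∫ s in (0 : ℝ)..0, ρ (c s) * spd (c s) (v s))
        (∫ s in (0 : ℝ)..1, ρ (c s) * spd (c s) (v s)) := by
      rw [intervalIntegral.integral_same]
      exact ⟨hs0, hsl⟩
    obtain ⟨t, ht, hts⟩ := hivt hmem
    simp only at hts
    refine ⟨c t, ?_, ?_⟩
    · have h1 := Conn.seg (ρ := ρ) _ _ (haff 0 t)
      have e0 : c (0 + t * 0) = c 0 := by simp
      have e1 : c (0 + t * 1) = c t := by simp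
      have e2 : len ρ (fun s => c (0 + t * s)) (fun s => t • v (0 + t * s)) = s := by
        unfold len
        have h2 : ∀ x : ℝ, ρ (c (0 + t * x)) * spd (c (0 + t * x)) (t • v (0 + t * x)) =
            t * (ρ (c (0 + t * x)) * spd (c (0 + t * x)) (v (0 + t * x))) := by
          intro x
          rw [hhom, abs_of_nonneg ht.1]
          ring
        simp only [h2]
        rw [intervalIntegral.integral_const_mul, ← smul_eq_mul,
          intervalIntegral.smul_integral_comp_add_mul
            (fun s => ρ (c s) * spd (c s) (v s)) t 0]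
        simp only [mul_zero, add_zero, mul_one, zero_add]
        exact hts
      rw [e0, e1, e2] at h1
      exact h1
    · have h1 := Conn.seg (ρ := ρ) _ _ (haff t (1 - t))
      have e0 : c (t + (1 - t) * 0) = c t := by simp
      have e1 : c (t + (1 - t) * 1) = c 1 := by simp
      have e2 : len ρ (fun s => c (t + (1 - t) * s)) (fun s => (1 - t) • v (t + (1 - t) * s)) =
          len ρ c v - s := by
        unfold len
        have h2 : ∀ x : ℝ, ρ (c (t + (1 - t) * x)) *
            spd (c (t + (1 - t) * x)) ((1 - t) • v (t + (1 - t) * x)) =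
            (1 - t) * (ρ (c (t + (1 - t) * x)) * spd (c (t + (1 - t) * x)) (v (t + (1 - t) * x))) := by
          intro x
          rw [hhom, abs_of_nonneg (by linarith [ht.2])]
          ring
        simp only [h2]
        rw [intervalIntegral.integral_const_mul, ← smul_eq_mul,
          intervalIntegral.smul_integral_comp_add_mul
            (fun s => ρ (c s) * spd (c s) (v s)) (1 - t) t]
        have h3 : t + (1 - t) * 0 = t := by ring
        have h4 : t + (1 - t) * 1 = 1 := by ring
        rw [h3, h4, ← hts]
        exact (intervalIntegral.integral_interval_sub_left (hint 0 1) (hint 0 t)).symm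
      rw [e0, e1, e2] at h1
      exact h1
  | @trans p q r a b h1 h2 ih1 ih2 =>
    rcases le_total s a with h3 | h3
    · obtain ⟨m, hm1, hm2⟩ := ih1 s hs0 h3
      refine ⟨m, hm1, ?_⟩
      have h4 := Conn.trans hm2 h2
      have h5 : a - s + b = a + b - s := by ring
      rwa [h5] at h4
    · obtain ⟨m, hm1, hm2⟩ := ih2 (s - a) (by linarith) (by linarith)
      refine ⟨m, ?_, ?_⟩
      · have h4 := Conn.trans h1 hm1
        have h5 : a + (s - a) = s := by ring
        rwa [h5] at h4
      · have h5 : b - (s - a) = a + b - s := by ring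
        rwa [h5] at hm2

end LibNC38
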