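import Pool.Agent.LibNC38.B1
import Pool.Agent.LibNC38.B3

set_option autoImplicit false

open Matrix MeasureTheory

namespace LibNC38

private theorem diag_sg {n : ℕ} (z : V0 n) :
    (sg z).1 = Matrix.diagonal fun i => Real.exp (2 * z.1 i) := flat_facts.1 z

private theorem sign_prod {n : ℕ} (U : Matrix (Fin n) (Fin n) ℝ) :
    (∏ i : Fin n, (if i.val = 0 then U.det else 1)) = U.det := by
  cases n with
  | zero => simp [Matrix.det_fin_zero]
  | succ m =>
    rw [Fin.prod_univ_succ]
    simp

/-- Row B7a. Spectral theorem: every point is `k · e^(2z)` with `k` orthogonal of determinant one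
(`Matrix.IsHermitian.spectral_theorem`, eigenvalues `exp (2 z i)` positive with product one;
change the sign of one column of the orthogonal matrix if its determinant is `-1`). -/
theorem polar {n : ℕ} (q : PD n) :
    ∃ (k : SL n) (z : V0 n), k.1 * k.1ᵀ = 1 ∧ q = act k (sg z) := by
  classical
  have hq : q.1.IsHermitian := q.2.1.1
  set lam : Fin n → ℝ := hq.eigenvalues with hlam
  have hpos : ∀ i, 0 < lam i := fun i => q.2.1.eigenvalues_pos i
  set U : Matrix (Fin n) (Fin n) ℝ := (hq.eigenvectorUnitary : Matrix (Fin n) (Fin n) ℝ) with hU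
  have hst : star U = Uᵀ := by
    rw [Matrix.star_eq_conjTranspose, Matrix.conjTranspose_eq_transpose_of_trivial]
  have hUU : U * Uᵀ = 1 := by
    rw [← hst]; exact Unitary.coe_mul_star_self hq.eigenvectorUnitary
  have hspec : q.1 = U * Matrix.diagonal lam * Uᵀ := by
    have h := hq.spectral_theorem
    rw [Unitary.conjStarAlgAut_apply] at h
    rw [← hst]
    exact h
  have hdU : U.det * U.det = 1 := by
    have := congrArg Matrix.det hUU
    rwa [Matrix.det_mul, Matrix.det_transpose, Matrix.det_one] at this
  set e : Fin n → ℝ := fun i => if i.val = 0 then U.det else 1 with he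
  have hee : ∀ i, e i * e i = 1 := by
    intro i
    simp only [he]
    split_ifs
    · exact hdU
    · norm_num
  have hde : (U * Matrix.diagonal e).det = 1 := by
    rw [Matrix.det_mul, Matrix.det_diagonal, sign_prod U, hdU]
  have hdet : ∏ i, lam i = 1 := by
    have h := hq.det_eq_prod_eigenvalues
    rw [q.2.2] at h
    exact h.symm
  have hsum : ∑ i, Real.log (lam i) / 2 = 0 := by
    rw [← Finset.sum_div, ← Real.log_prod (fun i _ => (hpos i).ne'), hdet, Real.log_one, zero_div]
  refine ⟨⟨U * Matrix.diagonal e, hde⟩, ⟨WithLp.toLp 2 fun i => Real.log (lam i) / 2, hsum⟩, ?_, ?_⟩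
  · change U * Matrix.diagonal e * (U * Matrix.diagonal e)ᵀ = 1
    rw [Matrix.transpose_mul, Matrix.diagonal_transpose, Matrix.mul_assoc,
      ← Matrix.mul_assoc (Matrix.diagonal e), Matrix.diagonal_mul_diagonal]
    have : (fun i => e i * e i) = fun _ => (1 : ℝ) := funext hee
    rw [this, Matrix.diagonal_one, Matrix.one_mul, hUU]
  · apply Subtype.ext
    rw [hspec]
    unfold act
    simp only
    rw [diag_sg]
    change U * Matrix.diagonal lam * Uᵀ = U * Matrix.diagonal e *
      (Matrix.diagonal fun i => Real.exp (2 * (Real.log (lam i) / 2))) * (U * Matrix.diagonal e)ᵀ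
    have h1 : (fun i => Real.exp (2 * (Real.log (lam i) / 2))) = lam := by
      funext i
      rw [mul_div_cancel₀ _ (two_ne_zero), Real.exp_log (hpos i)]
    rw [h1, Matrix.transpose_mul, Matrix.diagonal_transpose]
    have h2 : U * Matrix.diagonal e * Matrix.diagonal lam * (Matrix.diagonal e * Uᵀ)
        = U * (Matrix.diagonal e * Matrix.diagonal lam * Matrix.diagonal e) * Uᵀ := by
      simp only [Matrix.mul_assoc]
    rw [h2, Matrix.diagonal_mul_diagonal, Matrix.diagonal_mul_diagonal]
    have h3 : (fun i => e i * lam i * e i) = lam := by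
      funext i
      rw [mul_right_comm, hee, one_mul]
    rw [h3]

/-- Row B7b. Two points are in position `g · o`, `g · e^(2z)`: `p = act h (o n)` by B3,
`act h⁻¹ q = act k (sg z)` by `polar`, `g = h * k`. -/
theorem two_pts {n : ℕ} (p q : PD n) :
    ∃ (g : SL n) (z : V0 n), p = act g (o n) ∧ q = act g (sg z) := by
  obtain ⟨h, -, -, hp⟩ := chol p
  obtain ⟨k, z, hk, hq⟩ := polar (act h⁻¹ q)
  refine ⟨h * k, z, ?_, ?_⟩
  · rw [act_facts.2.1]
    have hko : act k (o n) = o n := by
      apply Subtype.ext
      change k.1 * 1 * k.1ᵀ = 1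
      rw [Matrix.mul_one, hk]
    rw [hko, ← hp]
  · rw [act_facts.2.1, ← hq, ← act_facts.2.1, mul_inv_cancel, act_facts.1]

end LibNC38
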