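import Pool.Agent.LibNC38.A1
import Pool.Agent.LibNC38.A2
import Pool.Agent.LibNC38.B1

set_option autoImplicit false

open Matrix MeasureTheory

namespace LibNC38

private theorem B8_coord {n : ℕ} (y z : V0 n) (s : ℝ) (i : Fin n) :
    (y + s • z).1 i = y.1 i + s * z.1 i := rfl

private theorem B8_c1 {n : ℕ} (y z : V0 n) :
    IsC1 (fun s : ℝ => sg (y + s • z))
      (fun s => Matrix.diagonal fun i => 2 * z.1 i * Real.exp (2 * (y.1 i + s * z.1 i))) := by
  obtain ⟨h1, -⟩ := flat_facts (n := n)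
  constructor
  · intro s i j
    have e : (fun s : ℝ => (sg (y + s • z)).1 i j) =
        fun s => (Matrix.diagonal (fun i => Real.exp (2 * (y.1 i + s * z.1 i)))) i j := by
      funext s
      rw [h1]
      simp only [B8_coord]
    rw [e]
    by_cases hij : i = j
    · subst hij
      simp only [Matrix.diagonal_apply_eq]
      have h2 : HasDerivAt (fun s : ℝ => 2 * (y.1 i + s * z.1 i)) (2 * (1 * z.1 i)) s :=
        (((hasDerivAt_id s).mul_const (z.1 i)).const_add (y.1 i)).const_mul 2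
      have h3 := h2.exp
      convert h3 using 1
      ring
    · simp only [Matrix.diagonal_apply_ne _ hij]
      exact hasDerivAt_const s 0
  · intro i j
    by_cases hij : i = j
    · subst hij
      simp only [Matrix.diagonal_apply_eq]
      fun_prop
    · simp only [Matrix.diagonal_apply_ne _ hij]
      exact continuous_const

private theorem B8_spd {n : ℕ} (y z : V0 n) (s : ℝ) :
    spd (sg (y + s • z)) (Matrix.diagonal fun i => 2 * z.1 i * Real.exp (2 * (y.1 i + s * z.1 i))) =
      2 * ‖z‖ := by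
  obtain ⟨h1, -⟩ := flat_facts (n := n)
  have e1 : ((sg (y + s • z)).1)⁻¹ = Matrix.diagonal fun i => Real.exp (-(2 * (y.1 i + s * z.1 i))) := by
    refine Matrix.inv_eq_right_inv ?_
    rw [h1, Matrix.diagonal_mul_diagonal, ← Matrix.diagonal_one]
    congr 1
    funext i
    rw [B8_coord, ← Real.exp_add, add_neg_cancel, Real.exp_zero]
  have e2 : ((sg (y + s • z)).1)⁻¹ * (Matrix.diagonal fun i => 2 * z.1 i * Real.exp (2 * (y.1 i + s * z.1 i))) =
      Matrix.diagonal fun i => 2 * z.1 i := by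
    rw [e1, Matrix.diagonal_mul_diagonal]
    congr 1
    funext i
    have : Real.exp (-(2 * (y.1 i + s * z.1 i))) * Real.exp (2 * (y.1 i + s * z.1 i)) = 1 := by
      rw [← Real.exp_add, neg_add_cancel, Real.exp_zero]
    calc Real.exp (-(2 * (y.1 i + s * z.1 i))) * (2 * z.1 i * Real.exp (2 * (y.1 i + s * z.1 i)))
        = 2 * z.1 i * (Real.exp (-(2 * (y.1 i + s * z.1 i))) * Real.exp (2 * (y.1 i + s * z.1 i))) := by ring
      _ = 2 * z.1 i := by rw [this, mul_one]
  have e3 : ‖z‖ ^ 2 = ∑ i, z.1 i ^ 2 := by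
    have h2 : ‖z‖ = ‖z.1‖ := rfl
    rw [h2, EuclideanSpace.norm_sq_eq]
    simp only [Real.norm_eq_abs, sq_abs]
  unfold spd
  rw [e2, Matrix.diagonal_mul_diagonal, Matrix.trace_diagonal]
  have e4 : (∑ i, 2 * z.1 i * (2 * z.1 i)) = (2 * ‖z‖) ^ 2 := by
    rw [mul_pow, e3, Finset.mul_sum]
    refine Finset.sum_congr rfl fun i _ => ?_
    ring
  rw [e4, Real.sqrt_sq (by positivity)]

/-- Row B8. The straight line in a flat is a curve of constant speed `2 ‖z‖`: its velocity is
`g · diag(2 z i exp(2 (y i + s z i))) · gᵀ`, and `p⁻¹ v` is conjugate to `diag (2 z i)`. -/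
theorem straight {n : ℕ} (g : SL n) (y z : V0 n) :
    ∃ v : ℝ → Matrix (Fin n) (Fin n) ℝ, IsC1 (fun s : ℝ => act g (sg (y + s • z))) v ∧
      ∀ s, spd (act g (sg (y + s • z))) (v s) = 2 * ‖z‖ := by
  obtain ⟨-, -, h3, -, -⟩ := curve_facts _ _ (B8_c1 y z)
  obtain ⟨h4, -⟩ := spd_facts (n := n)
  refine ⟨_, h3 g, fun s => ?_⟩
  rw [h4, B8_spd]

/-- Row B8, consequence. -/
theorem conn_straight {n : ℕ} (ρ : PD n → ℝ) (g : SL n) (y z : V0 n) :
    Conn ρ (act g (sg y)) (act g (sg (y + z)))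
      (2 * ‖z‖ * ∫ s in (0 : ℝ)..1, ρ (act g (sg (y + s • z)))) := by
  obtain ⟨v, hv, hs⟩ := straight g y z
  have h := Conn.seg (ρ := ρ) _ _ hv
  have e : len ρ (fun s : ℝ => act g (sg (y + s • z))) v =
      2 * ‖z‖ * ∫ s in (0 : ℝ)..1, ρ (act g (sg (y + s • z))) := by
    unfold len
    rw [← intervalIntegral.integral_const_mul]
    refine intervalIntegral.integral_congr fun s _ => ?_
    change ρ (act g (sg (y + s • z))) * spd (act g (sg (y + s • z))) (v s) = _
    rw [hs s, mul_comm]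
  simp only [zero_smul, add_zero, one_smul] at h
  rw [e] at h
  exact h

end LibNC38
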