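import Pool.Agent.LibNC38.Defs

set_option autoImplicit false

open Matrix MeasureTheory

namespace LibNC38

/-- an admissible conformal factor with bounds `0 < c1 ≤ ρ ≤ c2` -/
structure Gd {n : ℕ} (ρ : PD n → ℝ) (c1 c2 : ℝ) : Prop where
  cont : Continuous ρ
  pos : 0 < c1
  lo : ∀ x, c1 ≤ ρ x
  hi : ∀ x, ρ x ≤ c2

theorem gd_one {n : ℕ} : Gd (fun _ : PD n => (1 : ℝ)) 1 1 :=
  ⟨continuous_const, one_pos, fun _ => le_refl _, fun _ => le_refl _⟩

end LibNC38
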