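import Pool.Agent.LibNC38.C0
import Pool.Agent.LibNC38.A3
import Pool.Agent.LibNC38.B7
import Pool.Agent.LibNC38.B8

set_option autoImplicit false

open Matrix MeasureTheory

namespace LibNC38

private theorem c1_nonneg {n : ℕ} (ρ : PD n → ℝ) (c1 c2 : ℝ) (h : Gd ρ c1 c2) (x : PD n) :
    0 ≤ ρ x := le_trans h.pos.le (h.lo x)

private theorem c1_ex {n : ℕ} (ρ : PD n → ℝ) (p q : PD n) : ∃ l, Conn ρ p q l := by
  obtain ⟨g, z, hp, hq⟩ := two_pts p q
  have h1 := conn_straight ρ g 0 z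
  have h0 : sg (0 : V0 n) = o n := flat_facts.2.2.2.2.2.2.2.2.2.2.1
  rw [zero_add, h0, ← hp, ← hq] at h1
  exact ⟨_, h1⟩

private theorem c1_bdd {n : ℕ} (ρ : PD n → ℝ) (hc : Continuous ρ) (h0 : ∀ x, 0 ≤ ρ x)
    (p q : PD n) : BddBelow {l | Conn ρ p q l} :=
  ⟨0, fun l hl => (conn_facts ρ hc h0).2.2.1 p q l hl⟩

private theorem c1_le {n : ℕ} (ρ : PD n → ℝ) (hc : Continuous ρ) (h0 : ∀ x, 0 ≤ ρ x)
    (p q : PD n) (l : ℝ) (hl : Conn ρ p q l) : dr ρ p q ≤ l :=
  csInf_le (c1_bdd ρ hc h0 p q) hl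

private theorem c1_nonempty {n : ℕ} (ρ : PD n → ℝ) (p q : PD n) :
    Set.Nonempty {l | Conn ρ p q l} := by
  obtain ⟨l, hl⟩ := c1_ex ρ p q
  exact ⟨l, hl⟩

private theorem c1_near {n : ℕ} (ρ : PD n → ℝ) (p q : PD n) (ε : ℝ) (hε : 0 < ε) :
    ∃ l, l < dr ρ p q + ε ∧ Conn ρ p q l := by
  obtain ⟨l, hl, hlt⟩ := exists_lt_of_csInf_lt (c1_nonempty ρ p q)
    (show sInf {l | Conn ρ p q l} < dr ρ p q + ε by
      have : sInf {l | Conn ρ p q l} = dr ρ p q := rfl
      rw [this]; linarith)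
  exact ⟨l, hlt, hl⟩

private theorem c1_act_cont {n : ℕ} (k : SL n) : Continuous fun x : PD n => act k x := by
  have h1 : Continuous fun x : SL n × PD n => act x.1 x.2 := act_facts.2.2
  have h2 : Continuous fun x : PD n => ((k, x) : SL n × PD n) := by fun_prop
  have h3 : Continuous ((fun x : SL n × PD n => act x.1 x.2) ∘
    fun x : PD n => ((k, x) : SL n × PD n)) := Continuous.comp h1 h2
  have h4 : ((fun x : SL n × PD n => act x.1 x.2) ∘ fun x : PD n => ((k, x) : SL n × PD n)) =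
    fun x : PD n => act k x := rfl
  rw [h4] at h3
  exact h3

/-- Row C1. Basic facts on the distance `dr ρ` (an infimum of a nonempty set, B7b + B8, of
nonnegative numbers, A3). The action statement is an equality: use `g` and `g⁻¹`. -/
theorem dr_facts {n : ℕ} (ρ : PD n → ℝ) (c1 c2 : ℝ) (h : Gd ρ c1 c2) :
    (∀ p q, ∃ l, Conn ρ p q l) ∧
    (∀ p q, 0 ≤ dr ρ p q) ∧ (∀ p, dr ρ p p = 0) ∧ (∀ p q, dr ρ p q = dr ρ q p) ∧
    (∀ p q r, dr ρ p r ≤ dr ρ p q + dr ρ q r) ∧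
    (∀ p q l, Conn ρ p q l → dr ρ p q ≤ l) ∧
    (∀ p q ε, 0 < ε → ∃ l, l < dr ρ p q + ε ∧ Conn ρ p q l) := by
  have hn := c1_nonneg ρ c1 c2 h
  have hf := conn_facts ρ h.cont hn
  have hnn : ∀ p q, 0 ≤ dr ρ p q := fun p q =>
    le_csInf (c1_nonempty ρ p q) (fun l hl => hf.2.2.1 p q l hl)
  have hle := c1_le ρ h.cont hn
  refine ⟨c1_ex ρ, hnn, ?_, ?_, ?_, hle, c1_near ρ⟩
  · intro p
    exact le_antisymm (hle p p 0 (hf.1 p)) (hnn p p)
  · intro p q
    have e : {l | Conn ρ p q l} = {l | Conn ρ q p l} := by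
      ext l
      exact ⟨fun hl => hf.2.1 p q l hl, fun hl => hf.2.1 q p l hl⟩
    unfold dr
    rw [e]
  · intro p q r
    refine le_of_forall_pos_lt_add fun ε hε => ?_
    obtain ⟨a, ha, hca⟩ := c1_near ρ p q (ε / 2) (by linarith)
    obtain ⟨b, hb, hcb⟩ := c1_near ρ q r (ε / 2) (by linarith)
    have := hle p r (a + b) (Conn.trans hca hcb)
    linarith

/-- Row C1, action of the group and multiples of the conformal factor. -/
theorem dr_act {n : ℕ} (ρ ρ' : PD n → ℝ) (c1 c2 : ℝ) (h : Gd ρ c1 c2) (g : SL n)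
    (hg : ∀ x, ρ' (act g x) = ρ x) (p q : PD n) : dr ρ' (act g p) (act g q) = dr ρ p q := by
  have hn := c1_nonneg ρ c1 c2 h
  have hf := conn_facts ρ h.cont hn
  have hinv : ∀ x : PD n, act g (act g⁻¹ x) = x := by
    intro x
    rw [← act_facts.2.1, mul_inv_cancel, act_facts.1]
  have hinv' : ∀ x : PD n, act g⁻¹ (act g x) = x := by
    intro x
    rw [← act_facts.2.1, inv_mul_cancel, act_facts.1]
  have hρ' : ∀ x, ρ' x = ρ (act g⁻¹ x) := by
    intro x
    rw [← hg (act g⁻¹ x), hinv x]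
  have hc' : Continuous ρ' := by
    have e : ρ' = fun x => ρ (act g⁻¹ x) := funext hρ'
    rw [e]
    exact h.cont.comp (c1_act_cont g⁻¹)
  have hn' : ∀ x, 0 ≤ ρ' x := by
    intro x
    rw [hρ' x]
    exact hn _
  have hf' := conn_facts ρ' hc' hn'
  have e : {l | Conn ρ' (act g p) (act g q) l} = {l | Conn ρ p q l} := by
    ext l
    constructor
    · intro hl
      have h1 := hf'.2.2.2.1 g⁻¹ ρ (fun x => (hρ' x).symm) (act g p) (act g q) l hl
      rw [hinv' p, hinv' q] at h1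
      exact h1
    · intro hl
      exact hf.2.2.2.1 g ρ' hg p q l hl
  unfold dr
  rw [e]

theorem dr_smul {n : ℕ} (ρ : PD n → ℝ) (c1 c2 : ℝ) (h : Gd ρ c1 c2) (r : ℝ) (hr : 0 < r)
    (p q : PD n) : dr (fun x => r * ρ x) p q = r * dr ρ p q := by
  have hn := c1_nonneg ρ c1 c2 h
  have hf := conn_facts ρ h.cont hn
  have hc' : Continuous fun x => r * ρ x := continuous_const.mul h.cont
  have hn' : ∀ x, 0 ≤ r * ρ x := fun x => mul_nonneg hr.le (hn x)
  have hf' := conn_facts (fun x => r * ρ x) hc' hn'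
  have hback : ∀ l, Conn (fun x => r * ρ x) p q l → Conn ρ p q (r⁻¹ * l) := by
    intro l hl
    have h1 := hf'.2.2.2.2.1 r⁻¹ p q l hl
    have e : (fun x => r⁻¹ * (r * ρ x)) = ρ := by
      funext x
      rw [← mul_assoc, inv_mul_cancel₀ hr.ne', one_mul]
    rw [e] at h1
    exact h1
  apply le_antisymm
  · refine le_of_forall_pos_lt_add fun ε hε => ?_
    obtain ⟨a, ha, hca⟩ := c1_near ρ p q (ε / (2 * r)) (by positivity)
    have h2 := c1_le (fun x => r * ρ x) hc' hn' p q (r * a) (hf.2.2.2.2.1 r p q a hca)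
    have h3 : r * a < r * (dr ρ p q + ε / (2 * r)) := mul_lt_mul_of_pos_left ha hr
    have h4 : r * (dr ρ p q + ε / (2 * r)) = r * dr ρ p q + ε / 2 := by
      field_simp
    rw [h4] at h3
    linarith
  · refine le_csInf (c1_nonempty (fun x => r * ρ x) p q) fun l hl => ?_
    have h1 := c1_le ρ h.cont hn p q (r⁻¹ * l) (hback l hl)
    have h2 : r * dr ρ p q ≤ r * (r⁻¹ * l) := mul_le_mul_of_nonneg_left h1 hr.le
    rw [← mul_assoc, mul_inv_cancel₀ hr.ne', one_mul] at h2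
    exact h2

end LibNC38
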