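import Pool.Agent.LibNC38.C3
import Pool.Agent.LibNC38.A4

set_option autoImplicit false

open Matrix MeasureTheory Topology Filter

namespace LibNC38

/-- the distance of two points of a curve is at most the length of the curve between them -/
private theorem c4_sub {n : ℕ} (c : ℝ → PD n) (v : ℝ → Matrix (Fin n) (Fin n) ℝ) (h : IsC1 c v)
    (a b : ℝ) (hab : a ≤ b) : dg (c a) (c b) ≤ ∫ s in a..b, spd (c s) (v s) := by
  obtain ⟨-, -, -, -, -, g5, -⟩ := dr_facts (fun _ : PD n => (1 : ℝ)) 1 1 gd_one
  obtain ⟨-, -, -, haff, -⟩ := curve_facts c v h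
  obtain ⟨-, -, hhom, -⟩ := @spd_facts n
  have h1 := g5 _ _ _ (Conn.seg _ _ (haff a (b - a)))
  have e0 : a + (b - a) * 0 = a := by ring
  have e1 : a + (b - a) * 1 = b := by ring
  simp only [e0, e1] at h1
  refine h1.trans (le_of_eq ?_)
  unfold len
  simp only [hhom, one_mul, abs_of_nonneg (sub_nonneg.2 hab)]
  rw [intervalIntegral.integral_const_mul]
  have h2 := intervalIntegral.smul_integral_comp_add_mul (a := (0 : ℝ)) (b := 1)
    (fun s => spd (c s) (v s)) (b - a) a
  rw [smul_eq_mul, e0, e1] at h2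
  exact h2

private theorem c4_seg {n : ℕ} (ρ : PD n → ℝ) (hρ : Continuous ρ) (h0 : ∀ x, 0 ≤ ρ x)
    (p : PD n) (R m : ℝ) (hm : 0 ≤ m) (hR : ∀ x, dg p x ≤ R → m ≤ ρ x)
    (c : ℝ → PD n) (v : ℝ → Matrix (Fin n) (Fin n) ℝ) (h : IsC1 c v) :
    m * (min R (dg p (c 1)) - min R (dg p (c 0))) ≤ len ρ c v := by
  obtain ⟨hcc, -, -, -, hsp⟩ := curve_facts c v h
  obtain ⟨-, -, -, hnn⟩ := @spd_facts n
  obtain ⟨g0, g1, g2, g3⟩ := @dg_facts n
  have hf : Continuous fun s => ρ (c s) * spd (c s) (v s) := (hρ.comp hcc).mul hsp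
  have hu : Continuous fun s => dg p (c s) := dg_cont.comp (continuous_const.prodMk hcc)
  have hI : Continuous fun t => ∫ s in (0 : ℝ)..t, ρ (c s) * spd (c s) (v s) :=
    intervalIntegral.continuous_primitive (fun a b => hf.intervalIntegrable a b) 0
  have hF : Continuous fun t => m * min R (dg p (c t)) -
      ∫ s in (0 : ℝ)..t, ρ (c s) * spd (c s) (v s) :=
    (continuous_const.mul (continuous_const.min hu)).sub hI
  have hcl : IsClosed {t : ℝ | m * min R (dg p (c t)) -
      (∫ s in (0 : ℝ)..t, ρ (c s) * spd (c s) (v s)) ≤ m * min R (dg p (c 0))} :=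
    isClosed_le hF continuous_const
  have hsub : Set.Icc (0 : ℝ) 1 ⊆ {t : ℝ | m * min R (dg p (c t)) -
      (∫ s in (0 : ℝ)..t, ρ (c s) * spd (c s) (v s)) ≤ m * min R (dg p (c 0))} := by
    refine IsClosed.Icc_subset_of_forall_exists_gt (hcl.inter isClosed_Icc) ?_ ?_
    · simp
    · rintro t ⟨ht, -, -⟩ y hy
      have hy' : t < y := hy
      have hstep : ∃ t', t < t' ∧ t' ≤ y ∧ m * (min R (dg p (c t')) - min R (dg p (c t))) ≤
          ∫ s in t..t', ρ (c s) * spd (c s) (v s) := by
        rcases lt_or_ge (dg p (c t)) R with hlt | hge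
        · have h1 : ∀ᶠ s in 𝓝 t, dg p (c s) < R := hu.continuousAt.eventually_lt continuousAt_const hlt
          obtain ⟨δ, hδ, h2⟩ := Metric.eventually_nhds_iff.1 h1
          refine ⟨min y (t + δ / 2), lt_min hy' (by linarith), min_le_left _ _, ?_⟩
          set t' := min y (t + δ / 2) with ht'
          have htt : t < t' := lt_min hy' (by linarith)
          have htd : t' ≤ t + δ / 2 := min_le_right _ _
          have h3 : ∀ s ∈ Set.Icc t t', dg p (c s) < R := by
            rintro s ⟨hs1, hs2⟩
            refine h2 ?_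
            rw [Real.dist_eq, abs_lt]
            constructor <;> linarith
          have h4 := h3 t' ⟨htt.le, le_refl _⟩
          rw [min_eq_right h4.le, min_eq_right hlt.le]
          have h5 := g3 p (c t) (c t')
          have h6 := c4_sub c v h t t' htt.le
          have h7 : m * (∫ s in t..t', spd (c s) (v s)) ≤
              ∫ s in t..t', ρ (c s) * spd (c s) (v s) := by
            rw [← intervalIntegral.integral_const_mul]
            refine intervalIntegral.integral_mono_on htt.le
              ((continuous_const.mul hsp).intervalIntegrable _ _) (hf.intervalIntegrable _ _) ?_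
            intro s hs
            exact mul_le_mul_of_nonneg_right (hR _ (h3 s hs).le) (hnn _ _)
          refine le_trans ?_ h7
          exact mul_le_mul_of_nonneg_left (by linarith) hm
        · refine ⟨y, hy', le_refl _, ?_⟩
          rw [min_eq_left hge]
          have h1 : m * (min R (dg p (c y)) - R) ≤ 0 :=
            mul_nonpos_of_nonneg_of_nonpos hm (by linarith [min_le_left R (dg p (c y))])
          refine h1.trans ?_
          refine intervalIntegral.integral_nonneg hy'.le fun s _ => ?_
          exact mul_nonneg (h0 _) (hnn _ _)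
      obtain ⟨t', h1, h2, h3⟩ := hstep
      refine ⟨t', ?_, h1, h2⟩
      have ht2 : m * min R (dg p (c t)) -
        (∫ s in (0 : ℝ)..t, ρ (c s) * spd (c s) (v s)) ≤ m * min R (dg p (c 0)) := ht
      change m * min R (dg p (c t')) -
        (∫ s in (0 : ℝ)..t', ρ (c s) * spd (c s) (v s)) ≤ m * min R (dg p (c 0))
      have h4 := intervalIntegral.integral_add_adjacent_intervals
        (hf.intervalIntegrable (μ := volume) 0 t) (hf.intervalIntegrable (μ := volume) t t')
      rw [← h4]
      rw [mul_sub] at h3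
      linarith
  have hone : m * min R (dg p (c 1)) -
      (∫ s in (0 : ℝ)..1, ρ (c s) * spd (c s) (v s)) ≤ m * min R (dg p (c 0)) :=
    hsub ⟨zero_le_one, le_refl _⟩
  unfold len
  rw [mul_sub]
  linarith

/-- Row C4 (L). Local lower bound. Put `u x = min R (dg p x)` and show for every chain
`Conn ρ a b l`: `m * (u b - u a) ≤ l`, by induction on the chain (A3 for the bounds). Segment `c`
on `[0,1]`: the function `F t = m * u (c t) - ∫ s in 0..t, ρ (c s) * spd (c s) (v s)` is
continuous (dg_cont, A2) and for every `t < 1` there are arbitrarily small (even all small)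
`t' > t` with `F t' ≤ F t`: if `dg p (c t) < R` then `c` stays in the ball near `t` and
`u (c t') - u (c t) ≤ dg (c t) (c t') ≤ ∫ s in t..t', spd` (the subcurve, A2 and dr_facts) and
`m ≤ ρ` there; if `dg p (c t) ≥ R` then `u (c t') ≤ R = u (c t)`. So `F 1 ≤ F 0`
(`IsClosed.Icc_subset_of_forall_exists_gt` for the closed set `{t | F t ≤ F 0}` needs the
statement for all `t' ` near `t`, which holds). Then take a chain from `p` to `q`. -/
theorem loc_low {n : ℕ} (ρ : PD n → ℝ) (c1 c2 : ℝ) (h : Gd ρ c1 c2) (p q : PD n) (R m : ℝ)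
    (hm : 0 ≤ m) (hR : ∀ x, dg p x ≤ R → m ≤ ρ x) (hq : dg p q ≤ R) :
    m * dg p q ≤ dr ρ p q := by
  obtain ⟨-, -, -, -, -, -, d5⟩ := dr_facts ρ c1 c2 h
  obtain ⟨g0, g1, g2, g3⟩ := @dg_facts n
  have h0 : ∀ x, 0 ≤ ρ x := fun x => h.pos.le.trans (h.lo x)
  have key : ∀ a b l, Conn ρ a b l → m * (min R (dg p b) - min R (dg p a)) ≤ l := by
    intro a b l hc
    induction hc with
    | seg c v hcv => exact c4_seg ρ h.cont h0 p R m hm hR c v hcv
    | trans _ _ ih1 ih2 => linarith
  refine le_of_forall_pos_le_add fun ε hε => ?_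
  obtain ⟨l, hl, hc⟩ := d5 p q ε hε
  have h1 := key p q l hc
  have hR0 : 0 ≤ R := (g0 p q).trans hq
  rw [min_eq_right hq, g1, min_eq_right hR0, sub_zero] at h1
  exact h1.trans hl.le

end LibNC38
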