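import Mathlib

set_option autoImplicit false

open Topology Filter

namespace LibNC38

private theorem c5_mid {Y : Type*} [MetricSpace Y] [ProperSpace Y]
    (h : ∀ x y : Y, ∀ ε : ℝ, 0 < ε → ∃ m, dist x m ≤ dist x y / 2 + ε ∧ dist m y ≤ dist x y / 2 + ε)
    (x y : Y) : ∃ m, dist x m = dist x y / 2 ∧ dist m y = dist x y / 2 := by
  have hK : IsCompact (Metric.closedBall x (dist x y / 2 + 1)) := isCompact_closedBall _ _
  have hne : (Metric.closedBall x (dist x y / 2 + 1)).Nonempty :=
    ⟨x, Metric.mem_closedBall_self (by positivity)⟩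
  have hf : ContinuousOn (fun m => max (dist x m) (dist m y))
      (Metric.closedBall x (dist x y / 2 + 1)) := by fun_prop
  obtain ⟨m, -, hm⟩ := hK.exists_isMinOn hne hf
  have key : max (dist x m) (dist m y) ≤ dist x y / 2 := by
    refine le_of_forall_pos_le_add fun ε hε => ?_
    obtain ⟨q, hq1, hq2⟩ := h x y (min ε 1) (lt_min hε one_pos)
    have hq : q ∈ Metric.closedBall x (dist x y / 2 + 1) := by
      rw [Metric.mem_closedBall, dist_comm]
      exact hq1.trans (by linarith [min_le_right ε 1])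
    have h1 := hm hq
    have h2 : max (dist x m) (dist m y) ≤ max (dist x q) (dist q y) := h1
    refine h2.trans (max_le ?_ ?_)
    · exact hq1.trans (by linarith [min_le_left ε 1])
    · exact hq2.trans (by linarith [min_le_left ε 1])
  have h1 := (le_max_left _ _).trans key
  have h2 := (le_max_right _ _).trans key
  have h3 := dist_triangle x m y
  exact ⟨m, by linarith, by linarith⟩

private theorem c5_chain {Y : Type*} [MetricSpace Y] [ProperSpace Y]
    (h : ∀ x y : Y, ∃ m, dist x m = dist x y / 2 ∧ dist m y = dist x y / 2)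
    (x y : Y) (k : ℕ) :
    ∃ f : ℕ → Y, f 0 = x ∧ f (2 ^ k) = y ∧
      ∀ j < 2 ^ k, dist (f j) (f (j + 1)) ≤ dist x y / 2 ^ k := by
  choose M hM1 hM2 using h
  induction k with
  | zero =>
    refine ⟨fun j => if j = 0 then x else y, by simp, by simp, fun j hj => ?_⟩
    have : j = 0 := by simpa using hj
    subst this
    simp
  | succ k ih =>
    obtain ⟨f, f0, f1, f2⟩ := ih
    refine ⟨fun j => if j % 2 = 0 then f (j / 2) else M (f (j / 2)) (f (j / 2 + 1)), ?_, ?_, ?_⟩
    · simpa using f0
    · have e1 : 2 ^ (k + 1) % 2 = 0 := by rw [pow_succ]; simp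
      have e2 : 2 ^ (k + 1) / 2 = 2 ^ k := by rw [pow_succ]; simp
      simp only [e1, e2, if_true]
      exact f1
    · intro j hj
      have hj2 : j / 2 < 2 ^ k := by
        rw [pow_succ] at hj
        omega
      have h2 := f2 (j / 2) hj2
      have e3 : dist x y / 2 ^ (k + 1) = dist x y / 2 ^ k / 2 := by
        rw [pow_succ]; field_simp
      rw [e3]
      rcases Nat.mod_two_eq_zero_or_one j with e | e
      · have e4 : (j + 1) % 2 ≠ 0 := by omega
        have e5 : (j + 1) / 2 = j / 2 := by omega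
        simp only [e, if_true, e4, if_false, e5]
        rw [hM1]
        linarith
      · have e4 : (j + 1) % 2 = 0 := by omega
        have e5 : (j + 1) / 2 = j / 2 + 1 := by omega
        have e6 : ¬ (j % 2 = 0) := by omega
        simp only [e6, if_false, e4, if_true, e5]
        rw [hM2]
        linarith

private theorem c5_iso {Y : Type*} [MetricSpace Y] (x y : Y) (N : ℕ) (hN : 0 < N) (f : ℕ → Y)
    (f0 : f 0 = x) (f1 : f N = y) (f2 : ∀ j < N, dist (f j) (f (j + 1)) ≤ dist x y / N)
    (i j : ℕ) (hi : i ≤ N) (hj : j ≤ N) :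
    dist (f i) (f j) = |(i : ℝ) / N - (j : ℝ) / N| * dist x y := by
  have hN' : (0 : ℝ) < N := Nat.cast_pos.2 hN
  have up : ∀ a b : ℕ, a + b ≤ N → dist (f a) (f (a + b)) ≤ b * (dist x y / N) := by
    intro a b
    induction b with
    | zero => intro _; simp
    | succ b ih =>
      intro hb
      have h1 := ih (by omega)
      have h2 := f2 (a + b) (by omega)
      have h3 := dist_triangle (f a) (f (a + b)) (f (a + b + 1))
      rw [← add_assoc]
      push_cast
      linarith
  have main : ∀ a b : ℕ, a ≤ b → b ≤ N → dist (f a) (f b) = ((b : ℝ) / N - (a : ℝ) / N) * dist x y := by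
    intro a b hab hb
    have h1 := up 0 a (by omega)
    have h2 := up a (b - a) (by omega)
    have h3 := up b (N - b) (by omega)
    rw [zero_add, f0] at h1
    rw [Nat.add_sub_cancel' hab] at h2
    rw [Nat.add_sub_cancel' hb, f1] at h3
    rw [Nat.cast_sub hab] at h2
    rw [Nat.cast_sub hb] at h3
    have h4 := dist_triangle4 x (f a) (f b) y
    have e1 : ((b : ℝ) / N - (a : ℝ) / N) * dist x y = ((b : ℝ) - a) * (dist x y / N) := by
      field_simp
    have e2 : (N : ℝ) * (dist x y / N) = dist x y := by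
      field_simp
    rw [e1]
    refine le_antisymm h2 ?_
    nlinarith
  rcases le_total i j with hij | hij
  · rw [main i j hij hj, abs_sub_comm, abs_of_nonneg]
    have : (i : ℝ) ≤ j := by exact_mod_cast hij
    rw [sub_nonneg]
    gcongr
  · rw [dist_comm, main j i hij hi, abs_of_nonneg]
    have : (j : ℝ) ≤ i := by exact_mod_cast hij
    rw [sub_nonneg]
    gcongr

/-- Row C5. A proper metric space with approximate midpoints is geodesic. (1) exact midpoints:
points `m k` with `dist x (m k), dist (m k) y ≤ dist x y / 2 + 1 / (k + 1)` lie in a compact ball;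
a limit point is a midpoint. (2) choose a midpoint map, define the geodesic on dyadic numbers
(recursion), it is an isometry up to the factor `dist x y`, extend by completeness to `[0, 1]`
(`DenseInducing.extend`, or: for every `u` a Cauchy sequence `f (⌊2^k u⌋ / 2^k)`), rescale. -/
theorem geod_of_mid {Y : Type*} [MetricSpace Y] [ProperSpace Y]
    (h : ∀ x y : Y, ∀ ε : ℝ, 0 < ε → ∃ m, dist x m ≤ dist x y / 2 + ε ∧ dist m y ≤ dist x y / 2 + ε)
    (x y : Y) :
    ∃ c : ℝ → Y, c 0 = x ∧ c (dist x y) = y ∧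
      ∀ u ∈ Set.Icc 0 (dist x y), ∀ v ∈ Set.Icc 0 (dist x y), dist (c u) (c v) = |u - v| := by
  rcases (dist_nonneg : 0 ≤ dist x y).eq_or_lt with h0 | hD
  · have hxy : x = y := dist_eq_zero.1 h0.symm
    refine ⟨fun _ => x, rfl, hxy, ?_⟩
    rintro u ⟨hu1, hu2⟩ v ⟨hv1, hv2⟩
    rw [← h0] at hu2 hv2
    rw [le_antisymm hu2 hu1, le_antisymm hv2 hv1]
    simp
  · have hmid := c5_mid h
    choose f f0 f1 f2 using c5_chain hmid x y
    set D := dist x y with hDdef
    let a : ℕ → ℝ → ℕ := fun k u => ⌊(u / D) * 2 ^ k⌋₊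
    have ha : ∀ k : ℕ, ∀ u ∈ Set.Icc 0 D, a k u ≤ 2 ^ k := by
      rintro k u ⟨hu1, hu2⟩
      have h1 : u / D ≤ 1 := (div_le_one hD).2 hu2
      have h2 : (u / D) * 2 ^ k ≤ ((2 ^ k : ℕ) : ℝ) := by
        push_cast
        have : (0 : ℝ) < 2 ^ k := by positivity
        nlinarith
      exact (Nat.floor_le_floor h2).trans (by rw [Nat.floor_natCast])
    have hiso : ∀ k : ℕ, ∀ u ∈ Set.Icc 0 D, ∀ v ∈ Set.Icc 0 D,
        dist (f k (a k u)) (f k (a k v)) =
          |(a k u : ℝ) / ((2 ^ k : ℕ) : ℝ) - (a k v : ℝ) / ((2 ^ k : ℕ) : ℝ)| * D := by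
      intro k u hu v hv
      refine c5_iso x y (2 ^ k) (by positivity) (f k) (f0 k) (f1 k) ?_ _ _ (ha k u hu) (ha k v hv)
      intro j hj
      have := f2 k j hj
      push_cast
      exact this
    have hlim : ∀ u ∈ Set.Icc 0 D, Tendsto (fun k : ℕ => (a k u : ℝ) / ((2 ^ k : ℕ) : ℝ)) atTop
        (𝓝 (u / D)) := by
      rintro u ⟨hu1, -⟩
      have h1 := tendsto_nat_floor_mul_div_atTop (R := ℝ) (a := u / D) (by positivity)
      have h2 : Tendsto (fun k : ℕ => (2 : ℝ) ^ k) atTop atTop :=
        tendsto_pow_atTop_atTop_of_one_lt (by norm_num)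
      have h3 := h1.comp h2
      refine h3.congr fun k => ?_
      simp [a]
    have h0mem : (0 : ℝ) ∈ Set.Icc 0 D := ⟨le_refl _, hD.le⟩
    have a0 : ∀ k, a k 0 = 0 := by intro k; simp [a]
    have aD : ∀ k, a k D = 2 ^ k := by
      intro k
      have : (D / D) * 2 ^ k = ((2 ^ k : ℕ) : ℝ) := by
        rw [div_self hD.ne', one_mul]; push_cast; rfl
      simp only [a]
      rw [this, Nat.floor_natCast]
    have hex : ∀ u : ℝ, ∃ l : Y, u ∈ Set.Icc 0 D →
        Tendsto (fun k => f k (a k u)) (hyperfilter ℕ : Filter ℕ) (𝓝 l) := by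
      intro u
      by_cases hu : u ∈ Set.Icc 0 D
      · have hK : IsCompact (Metric.closedBall x D) := isCompact_closedBall _ _
        have hmem : ∀ k, f k (a k u) ∈ Metric.closedBall x D := by
          intro k
          rw [Metric.mem_closedBall]
          have h1 := hiso k u hu 0 h0mem
          rw [a0, f0] at h1
          rw [h1]
          have h2 : (a k u : ℝ) / ((2 ^ k : ℕ) : ℝ) ≤ 1 := by
            rw [div_le_one (by positivity)]
            exact_mod_cast ha k u hu
          have h3 : (0 : ℝ) ≤ (a k u : ℝ) / ((2 ^ k : ℕ) : ℝ) := by positivity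
          rw [Nat.cast_zero, zero_div, sub_zero, abs_of_nonneg h3]
          nlinarith
        obtain ⟨l, -, hl⟩ := hK.ultrafilter_le_nhds ((hyperfilter ℕ).map fun k => f k (a k u))
          (by
            rw [Ultrafilter.coe_map]
            refine Filter.le_principal_iff.2 ?_
            rw [Filter.mem_map]
            refine Filter.univ_mem' ?_
            intro k
            exact hmem k)
        exact ⟨l, fun _ => hl⟩
      · exact ⟨x, fun h => absurd h hu⟩
    choose c hc using hex
    have hDmem : D ∈ Set.Icc 0 D := ⟨hD.le, le_refl _⟩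
    refine ⟨c, ?_, ?_, ?_⟩
    · have h1 := hc 0 h0mem
      refine tendsto_nhds_unique h1 ?_
      refine tendsto_const_nhds.congr fun k => ?_
      rw [a0, f0]
    · have h1 := hc D hDmem
      refine tendsto_nhds_unique h1 ?_
      refine tendsto_const_nhds.congr fun k => ?_
      rw [aD, f1]
    · intro u hu v hv
      have h1 := (hc u hu).dist (hc v hv)
      have h2 : Tendsto (fun k : ℕ => |(a k u : ℝ) / ((2 ^ k : ℕ) : ℝ) -
          (a k v : ℝ) / ((2 ^ k : ℕ) : ℝ)| * D) atTop (𝓝 (|u / D - v / D| * D)) :=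
        (((hlim u hu).sub (hlim v hv)).abs).mul_const D
      have h3 := h2.mono_left (Nat.hyperfilter_le_atTop)
      have h4 : Tendsto (fun k : ℕ => |(a k u : ℝ) / ((2 ^ k : ℕ) : ℝ) -
          (a k v : ℝ) / ((2 ^ k : ℕ) : ℝ)| * D) (hyperfilter ℕ : Filter ℕ)
          (𝓝 (dist (c u) (c v))) := by
        refine h1.congr fun k => ?_
        exact hiso k u hu v hv
      have h5 := tendsto_nhds_unique h4 h3
      rw [h5, ← sub_div, abs_div, abs_of_pos hD]
      field_simp

end LibNC38
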