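import Pool.Agent.LibNC38.C2
import Pool.Agent.LibNC38.B5

set_option autoImplicit false

open Matrix MeasureTheory

namespace LibNC38

private lemma D3_inner {n : ℕ} (a b : V0 n) : inner ℝ a b = ∑ i, a.1 i * b.1 i := by
  rw [Submodule.coe_inner, PiLp.inner_apply]
  refine Finset.sum_congr rfl fun i _ => ?_
  simp [mul_comm]

private lemma D3_norm {n : ℕ} (a : V0 n) : ‖a‖ ^ 2 = ∑ i, a.1 i ^ 2 := by
  rw [← real_inner_self_eq_norm_sq, D3_inner]
  exact Finset.sum_congr rfl fun i _ => (sq _).symm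

/-- Row D3a. Equality in the Lipschitz estimate for `Pr` from the base point. `q = k · e^(2z)`,
`k` orthogonal (polar), `dg (o n) q = 2 ‖z‖` (dg_flat with `g = k`), so `‖z‖ ≤ ‖Pr q‖`, hence
equality (Pr_lip_dg). The points `x s = act k (sg (s • z))`, `0 ≤ s ≤ 1`, satisfy
`dg (o n) (x s) = 2 s ‖z‖`, `dg (x s) q = 2 (1 - s) ‖z‖`, so `‖Pr (x s)‖ ≤ s ‖z‖`,
`‖Pr q - Pr (x s)‖ ≤ (1 - s) ‖z‖`, `‖Pr q‖ = ‖z‖`; by strict convexity of the euclidean norm
`Pr (x s) = s • Pr q`. The derivative at `s = 0` (Pr_deriv_o, B8: the velocity is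
`k (2 z) kᵀ =: W`; it is enough to have the right derivative) gives `W i i / 2 = (Pr q) i`, and
`∑ i j, (W i j)² = 4 ‖z‖² = 4 ‖Pr q‖² = ∑ i, (W i i)²`, so `W` is diagonal, `W = 2 Pr q`, and
`q = k e^(2z) kᵀ = exp W = diag (exp (2 (Pr q) i)) = sg (Pr q)` (for instance: `k` commutes the
diagonal matrices `k * diag (2 z) = W * k`, so `k * diag (exp (2 z)) = diag (exp (W i i)) * k`
entrywise: `k i j ≠ 0 → W i i = 2 z j`). -/
theorem eq_flat {n : ℕ} (q : PD n) (h : dg (o n) q ≤ 2 * ‖Pr q‖) : q = sg (Pr q) := by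
  obtain ⟨k, z, hk, hq⟩ := polar q
  obtain ⟨f1, -, -, -, -, -, -, -, -, -, f11, -⟩ := @flat_facts n
  obtain ⟨-, -, -, p4, -⟩ := @Pr_facts n
  obtain ⟨-, a2, -, -⟩ := @spd_facts n
  have ho : act k (o n) = o n := Subtype.ext (by simp [act, o, hk])
  have ho' : act k (sg 0) = o n := by rw [f11, ho]
  have hd : dg (o n) q = 2 * ‖z‖ := by
    have e := dg_flat k 0 z
    rw [ho', ← hq, zero_sub, norm_neg] at e
    exact e
  have P0 : Pr (o n) = 0 := by rw [← f11]; exact p4 0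
  set u := Pr q with hu
  have h1 : ‖z‖ ≤ ‖u‖ := by linarith
  have h2 : ‖u‖ ≤ ‖z‖ := by
    have e := Pr_lip_dg (o n) q
    rw [P0, sub_zero, hd, ← hu] at e
    linarith
  have hzu : ‖z‖ = ‖u‖ := le_antisymm h1 h2
  obtain ⟨v, hv, hs⟩ := straight k 0 z
  have hc0 : act k (sg (0 + (0 : ℝ) • z)) = o n := by rw [zero_smul, add_zero, ho']
  have key : ∀ s : ℝ, 0 ≤ s → s ≤ 1 →
      s * ‖u‖ ^ 2 ≤ ∑ i, (Pr (act k (sg (0 + s • z)))).1 i * u.1 i := by
    intro s hs0 hs1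
    have e1 := Pr_lip_dg (act k (sg (0 + s • z))) q
    have e2 : dg (act k (sg (0 + s • z))) q = 2 * ((1 - s) * ‖z‖) := by
      have e3 := dg_flat k (0 + s • z) z
      rw [← hq] at e3
      rw [e3]
      have e4 : 0 + s • z - z = -((1 - s) • z) := by
        rw [zero_add, sub_smul, one_smul]; abel
      rw [e4, norm_neg, norm_smul, Real.norm_eq_abs, abs_of_nonneg (by linarith)]
    rw [e2, ← hu] at e1
    set p := Pr (act k (sg (0 + s • z))) with hp
    have e5 : inner ℝ (u - p) u ≤ ‖u - p‖ * ‖u‖ := real_inner_le_norm _ _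
    have e6 : inner ℝ (u - p) u = ‖u‖ ^ 2 - inner ℝ p u := by
      rw [inner_sub_left, real_inner_self_eq_norm_sq]
    rw [← D3_inner]
    have e7 : ‖u - p‖ * ‖u‖ ≤ (1 - s) * ‖u‖ * ‖u‖ := by
      apply mul_le_mul_of_nonneg_right _ (norm_nonneg _)
      rw [← hzu]; linarith
    nlinarith
  have hder : HasDerivAt (fun s : ℝ => ∑ i, (Pr (act k (sg (0 + s • z)))).1 i * u.1 i)
      (∑ i, v 0 i i / 2 * u.1 i) 0 := by
    have := HasDerivAt.fun_sum (u := (Finset.univ : Finset (Fin n)))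
      (A := fun i (s : ℝ) => (Pr (act k (sg (0 + s • z)))).1 i * u.1 i)
      (A' := fun i => v 0 i i / 2 * u.1 i) (x := (0 : ℝ))
      (fun i _ => (Pr_deriv_o _ v hv 0 hc0 i).mul_const (u.1 i))
    exact this
  have hg0 : ∑ i, (Pr (act k (sg (0 + (0 : ℝ) • z)))).1 i * u.1 i = 0 := by
    rw [hc0, P0]; simp
  have hge : ‖u‖ ^ 2 ≤ ∑ i, v 0 i i / 2 * u.1 i := by
    have ht := hder.tendsto_slope_zero_right
    refine ge_of_tendsto ht ?_
    have : ∀ᶠ t : ℝ in nhdsWithin 0 (Set.Ioi 0), 0 < t ∧ t ≤ 1 := by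
      filter_upwards [Ioc_mem_nhdsGT (show (0 : ℝ) < 1 from one_pos)] with t ht
      exact ht
    filter_upwards [this] with t ht
    rw [hg0, sub_zero, zero_add t, smul_eq_mul]
    have := key t ht.1.le ht.2
    rw [inv_mul_eq_div, le_div_iff₀ ht.1]
    linarith
  have hsym : (v 0)ᵀ = v 0 := (curve_facts _ v hv).2.1 0
  have hW : ∑ i, ∑ j, v 0 i j ^ 2 = 4 * ‖u‖ ^ 2 := by
    have e := hs 0
    rw [hc0, a2 _ hsym] at e
    have hnn : 0 ≤ ∑ i, ∑ j, v 0 i j ^ 2 :=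
      Finset.sum_nonneg fun i _ => Finset.sum_nonneg fun j _ => sq_nonneg _
    rw [← Real.sq_sqrt hnn, e, hzu]; ring
  have hdiag : ∑ i, v 0 i i ^ 2 ≤ ∑ i, ∑ j, v 0 i j ^ 2 :=
    Finset.sum_le_sum fun i _ =>
      Finset.single_le_sum (f := fun j => v 0 i j ^ 2) (fun j _ => sq_nonneg _) (Finset.mem_univ i)
  have hun : ‖u‖ ^ 2 = ∑ i, u.1 i ^ 2 := D3_norm u
  have hsq : ∑ i, (v 0 i i / 2 - u.1 i) ^ 2 ≤ 0 := by
    have e : ∑ i, (v 0 i i / 2 - u.1 i) ^ 2 =
        (∑ i, v 0 i i ^ 2) / 4 - 2 * (∑ i, v 0 i i / 2 * u.1 i) + ∑ i, u.1 i ^ 2 := by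
      rw [Finset.sum_div, Finset.mul_sum, ← Finset.sum_sub_distrib, ← Finset.sum_add_distrib]
      exact Finset.sum_congr rfl fun i _ => by ring
    rw [e, ← hun]
    linarith
  have hw : ∀ i, v 0 i i = 2 * u.1 i := by
    intro i
    have e := (Finset.sum_eq_zero_iff_of_nonneg (fun i _ => sq_nonneg (v 0 i i / 2 - u.1 i))).1
      (le_antisymm hsq (Finset.sum_nonneg fun i _ => sq_nonneg _)) i (Finset.mem_univ i)
    have e' := pow_eq_zero_iff (two_ne_zero) |>.1 e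
    linarith
  have hoff : ∀ i j, i ≠ j → v 0 i j = 0 := by
    intro i j hij
    have e1 : ∑ i, v 0 i i ^ 2 = 4 * ‖u‖ ^ 2 := by
      rw [hun, Finset.mul_sum]
      exact Finset.sum_congr rfl fun i _ => by rw [hw i]; ring
    have e2 : ∑ i, (∑ j, v 0 i j ^ 2 - v 0 i i ^ 2) = 0 := by
      rw [Finset.sum_sub_distrib, hW, e1, sub_self]
    have e3 : ∀ i, 0 ≤ ∑ j, v 0 i j ^ 2 - v 0 i i ^ 2 := fun i => sub_nonneg.2
      (Finset.single_le_sum (f := fun j => v 0 i j ^ 2) (fun j _ => sq_nonneg _) (Finset.mem_univ i))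
    have e4 := (Finset.sum_eq_zero_iff_of_nonneg (fun i _ => e3 i)).1 e2 i (Finset.mem_univ i)
    have e5 : v 0 i i ^ 2 + v 0 i j ^ 2 ≤ ∑ j, v 0 i j ^ 2 := by
      rw [← Finset.sum_pair (f := fun j => v 0 i j ^ 2) hij]
      exact Finset.sum_le_sum_of_subset_of_nonneg (Finset.subset_univ _) fun _ _ _ => sq_nonneg _
    have e6 : v 0 i j ^ 2 ≤ 0 := by linarith
    exact pow_eq_zero_iff (two_ne_zero) |>.1 (le_antisymm e6 (sq_nonneg _))
  -- the velocity
  have hent : ∀ (s : ℝ) (i j : Fin n), (act k (sg (0 + s • z))).1 i j =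
      ∑ l, k.1 i l * Real.exp (2 * (s * z.1 l)) * k.1 j l := by
    intro s i j
    show (k.1 * (sg (0 + s • z)).1 * k.1ᵀ : Matrix (Fin n) (Fin n) ℝ) i j = _
    rw [f1, Matrix.mul_apply]
    refine Finset.sum_congr rfl fun l _ => ?_
    rw [Matrix.mul_diagonal, Matrix.transpose_apply]
    simp
  have hvel : ∀ i j, v 0 i j = ∑ l, k.1 i l * (2 * z.1 l) * k.1 j l := by
    intro i j
    have d1 := hv.der 0 i j
    have d2 : HasDerivAt (fun s : ℝ => (act k (sg (0 + s • z))).1 i j)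
        (∑ l, k.1 i l * (2 * z.1 l) * k.1 j l) 0 := by
      have e : (fun s : ℝ => (act k (sg (0 + s • z))).1 i j) =
          fun s : ℝ => ∑ l, k.1 i l * Real.exp (2 * (s * z.1 l)) * k.1 j l := by
        funext s; exact hent s i j
      rw [e]
      refine HasDerivAt.fun_sum fun l _ => ?_
      have e1 : HasDerivAt (fun s : ℝ => 2 * (s * z.1 l)) (2 * (1 * z.1 l)) 0 :=
        ((hasDerivAt_id (0 : ℝ)).mul_const (z.1 l)).const_mul 2
      have e2 := (e1.exp.const_mul (k.1 i l)).mul_const (k.1 j l)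
      simpa using e2
    exact d1.unique d2
  have hvk : v 0 = k.1 * Matrix.diagonal (fun l => 2 * z.1 l) * k.1ᵀ := by
    ext i j
    rw [hvel, Matrix.mul_apply]
    refine Finset.sum_congr rfl fun l _ => ?_
    rw [Matrix.mul_diagonal, Matrix.transpose_apply]
  have hk' : k.1ᵀ * k.1 = 1 := mul_eq_one_comm.1 hk
  have hcomm : v 0 * k.1 = k.1 * Matrix.diagonal (fun l => 2 * z.1 l) := by
    rw [hvk, Matrix.mul_assoc, hk', Matrix.mul_one]
  have hent2 : ∀ i j, 2 * u.1 i * k.1 i j = k.1 i j * (2 * z.1 j) := by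
    intro i j
    have e := congrFun (congrFun hcomm i) j
    rw [Matrix.mul_diagonal, Matrix.mul_apply, Finset.sum_eq_single i] at e
    · rw [hw i] at e; exact e
    · intro l _ hl
      rw [hoff i l (Ne.symm hl), zero_mul]
    · intro hi; exact absurd (Finset.mem_univ i) hi
  have hexp : k.1 * Matrix.diagonal (fun l => Real.exp (2 * z.1 l)) =
      Matrix.diagonal (fun i => Real.exp (2 * u.1 i)) * k.1 := by
    ext i j
    rw [Matrix.mul_diagonal, Matrix.diagonal_mul]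
    by_cases hij : k.1 i j = 0
    · rw [hij]; ring
    · have e : 2 * u.1 i = 2 * z.1 j := by
        have := hent2 i j
        have e' : k.1 i j * (2 * u.1 i) = k.1 i j * (2 * z.1 j) := by linarith
        exact mul_left_cancel₀ hij e'
      rw [e]; ring
  apply Subtype.ext
  rw [f1, hq]
  show k.1 * (sg z).1 * k.1ᵀ = _
  rw [f1, hexp, Matrix.mul_assoc, hk, Matrix.mul_one]

end LibNC38
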