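import Pool.Agent.LibNC38.D3
import Pool.Agent.LibNC38.B1
import Pool.Agent.LibNC38.B2
import Pool.Agent.LibNC38.B3

set_option autoImplicit false

open Matrix MeasureTheory

namespace LibNC38

private theorem d4a_low_iff {n : ℕ} (g : SL n) :
    Lower g ↔ Matrix.BlockTriangular g.1 (OrderDual.toDual : Fin n → (Fin n)ᵒᵈ) :=
  ⟨fun h i j hij => h i j hij, fun h i j hij => h hij⟩

private theorem d4a_low_mul {n : ℕ} (g h : SL n) (hg : Lower g) (hh : Lower h) :
    Lower (g * h) := by
  rw [d4a_low_iff] at *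
  exact hg.mul hh

private theorem d4a_low_inv {n : ℕ} (g : SL n) (hg : Lower g) : Lower g⁻¹ := by
  rw [d4a_low_iff] at *
  have hdet : IsUnit g.1.det := by rw [g.2]; exact isUnit_one
  haveI : Invertible g.1 := Matrix.invertibleOfIsUnitDet g.1 hdet
  have h2 := Matrix.blockTriangular_inv_of_blockTriangular hg
  have h3 : (g⁻¹ : SL n).1 = (g.1)⁻¹ := by
    symm
    apply Matrix.inv_eq_left_inv
    have h4 : ((g⁻¹ * g : SL n)).1 = 1 := by rw [inv_mul_cancel]; rfl
    exact h4
  rw [h3]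
  exact h2

private theorem d4a_diag_mul {n : ℕ} (A B : Matrix (Fin n) (Fin n) ℝ)
    (hA : ∀ i j, i < j → A i j = 0) (hB : ∀ i j, i < j → B i j = 0) (i : Fin n) :
    (A * B) i i = A i i * B i i := by
  rw [Matrix.mul_apply, Finset.sum_eq_single i]
  · intro k _ hk
    rcases lt_or_gt_of_ne hk with h | h
    · rw [hB k i h, mul_zero]
    · rw [hA i k h, zero_mul]
  · intro h
    exact absurd (Finset.mem_univ i) h

private theorem d4a_left {n : ℕ} (A B : Matrix (Fin n) (Fin n) ℝ)
    (hA : ∀ i j, i ≠ j → A i j = 0) (i j : Fin n) :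
    (A * B) i j = A i i * B i j := by
  rw [Matrix.mul_apply, Finset.sum_eq_single i]
  · intro k _ hk
    rw [hA i k hk.symm, zero_mul]
  · intro h
    exact absurd (Finset.mem_univ i) h

private theorem d4a_right {n : ℕ} (A B : Matrix (Fin n) (Fin n) ℝ)
    (hB : ∀ i j, i ≠ j → B i j = 0) (i j : Fin n) :
    (A * B) i j = A i j * B j j := by
  rw [Matrix.mul_apply, Finset.sum_eq_single j]
  · intro k _ hk
    rw [hB k j hk, mul_zero]
  · intro h
    exact absurd (Finset.mem_univ j) h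

/-- Row D4. Points of minimal displacement with `Pr x = 0`. `x = act t (o n)`, `t` lower triangular
with positive diagonal (B3); `Pr x = 0` means that the diagonal entries of `t` are `1` (B2).
`β = t⁻¹ α t` is lower triangular with the same diagonal as `α`; `q = act β (o n)` has
`Pr q = z` (B2) and `dg (o n) q = dg x (act α x) ≤ 2 ‖z‖` (dg_act), so `q = sg z` (eq_flat), i.e.
`β βᵀ` is diagonal. Then `β = (β βᵀ) (β⁻¹)ᵀ` is lower and upper triangular, so diagonal, `β = α`,
`α t = t α`, `(α i i - α j j) t i j = 0`, so `t = 1` and `x = o n`. -/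
theorem eq_o {n : ℕ} (α : SL n) (z : V0 n) (hz : IsLog α z) (hr : Reg α) (x : PD n)
    (h0 : Pr x = 0) (h : dg x (act α x) ≤ 2 * ‖z‖) : x = o n := by
  obtain ⟨a1, a2, -⟩ := act_facts (n := n)
  obtain ⟨f1, -, -, -, -, -, -, -, -, -, f11, -⟩ := flat_facts (n := n)
  obtain ⟨-, p2, -, p4, -⟩ := Pr_facts (n := n)
  obtain ⟨t, ht, htp, hx⟩ := chol x
  have hPo : Pr (o n) = 0 := by rw [← f11, p4]
  have hPo' : ∀ i, (Pr (o n)).1 i = 0 := by intro i; rw [hPo]; rfl
  -- the diagonal of `t`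
  have ht1 : ∀ i, t.1 i i = 1 := by
    intro i
    have h1 := p2 t ht (o n) i
    rw [← hx, h0, hPo', zero_add, abs_of_pos (htp i)] at h1
    have h2 : Real.log (t.1 i i) = 0 := h1.symm
    exact Real.eq_one_of_pos_of_log_eq_zero (htp i) h2
  -- `α` is lower triangular
  have hαd : ∀ i j, i ≠ j → α.1 i j = 0 := hz.1
  have hαl : Lower α := fun i j hij => hαd i j hij.ne
  obtain ⟨β, hβ⟩ : ∃ β : SL n, β = t⁻¹ * α * t := ⟨_, rfl⟩
  have hβl : Lower β := by
    rw [hβ]
    exact d4a_low_mul _ _ (d4a_low_mul _ _ (d4a_low_inv t ht) hαl) ht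
  have hcomm : t * β = α * t := by rw [hβ]; group
  have hcommM : t.1 * β.1 = α.1 * t.1 := by
    have h1 : (t * β).1 = (α * t).1 := by rw [hcomm]
    exact h1
  have hβd : ∀ i, β.1 i i = α.1 i i := by
    intro i
    have h1 : (t.1 * β.1) i i = (α.1 * t.1) i i := by rw [hcommM]
    rw [d4a_diag_mul _ _ ht hβl, d4a_diag_mul _ _ hαl ht, ht1] at h1
    linarith
  -- the point `q`
  have hPq : Pr (act β (o n)) = z := by
    apply Subtype.ext
    ext i
    rw [p2 β hβl (o n) i, hPo', zero_add, hβd i]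
    exact (hz.2 i).symm
  have hdq : dg (o n) (act β (o n)) ≤ 2 * ‖Pr (act β (o n))‖ := by
    rw [hPq]
    have h1 : dg (o n) (act β (o n)) = dg x (act α x) := by
      rw [← dg_act t (o n) (act β (o n)), ← a2, hcomm, a2, ← hx]
    rw [h1]
    exact h
  have hq := eq_flat (act β (o n)) hdq
  rw [hPq] at hq
  -- `β βᵀ` is diagonal
  have hbb : β.1 * β.1ᵀ = Matrix.diagonal fun i => Real.exp (2 * z.1 i) := by
    rw [← f1 z, ← hq]
    simp [act, o]
  have hinv := d4a_low_inv β hβl
  have hβi : β.1 = (Matrix.diagonal fun i => Real.exp (2 * z.1 i)) * ((β⁻¹ : SL n).1)ᵀ := by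
    rw [← hbb, Matrix.mul_assoc, ← Matrix.transpose_mul]
    have h1 : ((β⁻¹ * β : SL n)).1 = 1 := by rw [inv_mul_cancel]; rfl
    have h2 : (β⁻¹ : SL n).1 * β.1 = 1 := h1
    rw [h2, Matrix.transpose_one, Matrix.mul_one]
  have hβ0 : ∀ i j, i ≠ j → β.1 i j = 0 := by
    intro i j hij
    rcases lt_or_gt_of_ne hij with h1 | h1
    · exact hβl i j h1
    · rw [hβi, Matrix.diagonal_mul, Matrix.transpose_apply, hinv j i h1, mul_zero]
  have hβα : β.1 = α.1 := by
    ext i j
    by_cases hij : i = j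
    · subst hij; exact hβd i
    · rw [hβ0 i j hij, hαd i j hij]
  -- `t = 1`
  have ht0 : ∀ i j, i ≠ j → t.1 i j = 0 := by
    intro i j hij
    have h1 : (t.1 * β.1) i j = (α.1 * t.1) i j := by rw [hcommM]
    rw [hβα, d4a_right _ _ hαd, d4a_left _ _ hαd] at h1
    have h2 : (α.1 i i - α.1 j j) * t.1 i j = 0 := by linarith
    rcases mul_eq_zero.1 h2 with h3 | h3
    · exact absurd (by rw [sub_eq_zero.1 h3]) (hr i j hij)
    · exact h3
  have htt : t = 1 := by
    apply Subtype.ext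
    ext i j
    by_cases hij : i = j
    · subst hij
      rw [ht1 i]
      simp
    · rw [ht0 i j hij]
      simp [hij]
  rw [hx, htt, a1]

end LibNC38
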