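import Mathlib

set_option autoImplicit false

open Matrix MeasureTheory

namespace LibNC38

/-- positive definite matrices of determinant one: the symmetric space `SL_n(ℝ) / SO(n)` -/
abbrev PD (n : ℕ) : Type := {p : Matrix (Fin n) (Fin n) ℝ // p.PosDef ∧ p.det = 1}

/-- the group `SL_n(ℝ)` -/
abbrev SL (n : ℕ) : Type := Matrix.SpecialLinearGroup (Fin n) ℝ

theorem act_mem {n : ℕ} (g : SL n) (p : PD n) :
    (g.1 * p.1 * g.1ᵀ).PosDef ∧ (g.1 * p.1 * g.1ᵀ).det = 1 := by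
  constructor
  · have h := p.2.1.mul_mul_conjTranspose_same (B := g.1)
      (Matrix.vecMul_injective_of_isUnit ((Matrix.isUnit_iff_isUnit_det _).2 (by simp [g.2])))
    simpa [Matrix.conjTranspose_eq_transpose_of_trivial] using h
  · rw [Matrix.det_mul, Matrix.det_mul, Matrix.det_transpose, g.2, p.2.2]; norm_num

/-- the action `g · p = g p gᵀ` -/
def act {n : ℕ} (g : SL n) (p : PD n) : PD n := ⟨g.1 * p.1 * g.1ᵀ, act_mem g p⟩

/-- the base point -/
def o (n : ℕ) : PD n := ⟨1, Matrix.PosDef.one, Matrix.det_one⟩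

/-- `v` is the derivative of the curve `c` and is continuous (entrywise) -/
structure IsC1 {n : ℕ} (c : ℝ → PD n) (v : ℝ → Matrix (Fin n) (Fin n) ℝ) : Prop where
  der : ∀ s i j, HasDerivAt (fun s => (c s).1 i j) (v s i j) s
  cont : ∀ i j, Continuous fun s => v s i j

/-- the Riemannian norm `√ tr ((p⁻¹ v)²)` of a tangent vector `v` at `p` -/
noncomputable def spd {n : ℕ} (p : PD n) (v : Matrix (Fin n) (Fin n) ℝ) : ℝ :=
  √ (Matrix.trace (p.1⁻¹ * v * (p.1⁻¹ * v)))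

/-- length of the curve `c` on `[0, 1]` for the metric `ρ² g` -/
noncomputable def len {n : ℕ} (ρ : PD n → ℝ) (c : ℝ → PD n) (v : ℝ → Matrix (Fin n) (Fin n) ℝ) : ℝ :=
  ∫ s in (0 : ℝ)..1, ρ (c s) * spd (c s) (v s)

/-- `p` and `q` are joined by a piecewise `C¹` curve of `ρ`-length `l` -/
inductive Conn {n : ℕ} (ρ : PD n → ℝ) : PD n → PD n → ℝ → Prop
  | seg (c : ℝ → PD n) (v : ℝ → Matrix (Fin n) (Fin n) ℝ) (h : IsC1 c v) :
      Conn ρ (c 0) (c 1) (len ρ c v)
  | trans {p q r : PD n} {a b : ℝ} : Conn ρ p q a → Conn ρ q r b → Conn ρ p r (a + b)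

/-- the distance of the metric `ρ² g` -/
noncomputable def dr {n : ℕ} (ρ : PD n → ℝ) (p q : PD n) : ℝ := sInf {l | Conn ρ p q l}

/-- the distance of the symmetric metric `g` -/
noncomputable def dg {n : ℕ} (p q : PD n) : ℝ := dr (fun _ => 1) p q

/-- `c` is a geodesic on `[0, L]` parametrized by arc length: locally distance realizing -/
def IsGeod {Y : Type*} (d : Y → Y → ℝ) (L : ℝ) (c : ℝ → Y) : Prop :=
  ∀ t ∈ Set.Icc 0 L, ∃ ε > 0, ∀ u ∈ Set.Icc 0 L, ∀ v ∈ Set.Icc 0 L,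
    |u - t| < ε → |v - t| < ε → d (c u) (c v) = |u - v|

/-- any two distinct points are joined by at most one geodesic of positive length -/
def NoConj {Y : Type*} (d : Y → Y → ℝ) : Prop :=
  ∀ (L L' : ℝ) (c c' : ℝ → Y), 0 < L → 0 < L' → IsGeod d L c → IsGeod d L' c' →
    c 0 = c' 0 → c L = c' L' → c 0 ≠ c L → L = L' ∧ ∀ t ∈ Set.Icc 0 L, c t = c' t

/-- vectors with sum zero -/
def sz (n : ℕ) : Submodule ℝ (EuclideanSpace ℝ (Fin n)) where
  carrier := {y | ∑ i, y i = 0}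
  add_mem' := by
    intro a b ha hb
    simp only [Set.mem_ofPred_eq, PiLp.add_apply, Finset.sum_add_distrib] at *
    rw [ha, hb, add_zero]
  zero_mem' := by simp
  smul_mem' := by
    intro c a ha
    simp only [Set.mem_ofPred_eq, PiLp.smul_apply, smul_eq_mul, ← Finset.mul_sum] at *
    rw [ha, mul_zero]

/-- the Cartan subspace: vectors with sum zero, euclidean norm -/
abbrev V0 (n : ℕ) : Type := ↥(sz n)

theorem sum_V0 {n : ℕ} (y : V0 n) : ∑ i, y.1 i = 0 := y.2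

/-- the diagonal matrix `e^y` -/
noncomputable def dgm {n : ℕ} (y : V0 n) : SL n :=
  ⟨Matrix.diagonal fun i => Real.exp (y.1 i), by
    rw [Matrix.det_diagonal, ← Real.exp_sum, sum_V0, Real.exp_zero]⟩

/-- the flat: `σ y = e^{2 y}` -/
noncomputable def sg {n : ℕ} (y : V0 n) : PD n := act (dgm y) (o n)

/-- leading principal minor of size `i` (for `i ≤ n`) -/
noncomputable def mnr {n : ℕ} (p : Matrix (Fin n) (Fin n) ℝ) (i : ℕ) : ℝ :=
  if h : i ≤ n then (p.submatrix (Fin.castLE h) (Fin.castLE h)).det else 1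

/-- coordinates of the projection to the flat -/
noncomputable def Pc {n : ℕ} (p : PD n) (i : Fin n) : ℝ :=
  (Real.log (mnr p.1 (i + 1)) - Real.log (mnr p.1 i)) / 2

theorem mnr_zero {n : ℕ} (p : Matrix (Fin n) (Fin n) ℝ) : mnr p 0 = 1 := by
  simp [mnr]

theorem mnr_self {n : ℕ} (p : Matrix (Fin n) (Fin n) ℝ) : mnr p n = p.det := by
  simp only [mnr, le_refl, dite_true]
  congr 1

theorem Pc_sum {n : ℕ} (p : PD n) : ∑ i, Pc p i = 0 := by
  have h1 : ∑ i : Fin n, Pc p i = ∑ i ∈ Finset.range n,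
      (Real.log (mnr p.1 (i + 1)) / 2 - Real.log (mnr p.1 i) / 2) := by
    rw [← Fin.sum_univ_eq_sum_range (fun i => Real.log (mnr p.1 (i + 1)) / 2 - Real.log (mnr p.1 i) / 2)]
    refine Finset.sum_congr rfl fun i _ => ?_
    unfold Pc; ring
  rw [h1, Finset.sum_range_sub (fun i => Real.log (mnr p.1 i) / 2), mnr_self, mnr_zero, p.2.2]
  simp

/-- the projection `P` to the flat along the lower unipotent group -/
noncomputable def Pr {n : ℕ} (p : PD n) : V0 n :=
  ⟨WithLp.toLp 2 (Pc p), Pc_sum p⟩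

/-- lower triangular -/
def Lower {n : ℕ} (g : SL n) : Prop := ∀ i j, i < j → g.1 i j = 0

/-- diagonal -/
def IsDiag {n : ℕ} (g : SL n) : Prop := ∀ i j, i ≠ j → g.1 i j = 0

/-- the absolute values of the diagonal entries are distinct -/
def Reg {n : ℕ} (g : SL n) : Prop := ∀ i j, i ≠ j → |g.1 i i| ≠ |g.1 j j|

/-- `g` is diagonal and `z` is the vector of the logarithms of the absolute values of its entries -/
def IsLog {n : ℕ} (g : SL n) (z : V0 n) : Prop :=
  IsDiag g ∧ ∀ i, z.1 i = Real.log |g.1 i i|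

/-- discrete subgroup -/
def Disc {n : ℕ} (Γ : Subgroup (SL n)) : Prop :=
  ∃ U ∈ nhds (1 : SL n), ∀ γ ∈ Γ, γ ∈ U → γ = 1

/-- cocompact subgroup -/
def Coc {n : ℕ} (Γ : Subgroup (SL n)) : Prop :=
  ∃ Q : Set (SL n), IsCompact Q ∧ ∀ g : SL n, ∃ γ ∈ Γ, γ * g ∈ Q

end LibNC38
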