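import Mathlib
import Pool.Agent.B1d060.PM

set_option autoImplicit false

open Topology Filter

namespace LibNC38

/-- Row E1a. A continuous map of `ℝ^ι` at bounded distance from the identity takes the value `0`,
from the cubical Poincaré-Miranda lemma `Pool.Agent.B1d060.PM.poincare_miranda`: box
`[-(R+1), R+1]^ι` subdivided into `N` steps, grid points `x w i = -(R+1) + 2 (R+1) w i / N`,
`g i w = decide (0 < F (x w) i)` (false if `w i = 0`, true if `w i = N`, because
`|F x i - x i| ≤ R`). For every `N` a small cube such that every coordinate of `F` changes sign on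
its grid points; `N → ∞`, compactness and continuity. -/
theorem zero_bdd {ι : Type} [Fintype ι] (F : (ι → ℝ) → (ι → ℝ)) (hF : Continuous F)
    (R : ℝ) (h : ∀ x i, |F x i - x i| ≤ R) : ∃ x, F x = 0 := by
  classical
  by_contra hne
  push Not at hne
  set B : ℝ := |R| + 1 with hB
  have hB1 : 1 ≤ B := by rw [hB]; linarith [abs_nonneg R]
  set K : Set (ι → ℝ) := Set.Icc (fun _ => -B) (fun _ => B) with hK
  have hKc : IsCompact K := isCompact_Icc
  have hKmem : ∀ x : ι → ℝ, x ∈ K ↔ ∀ i, -B ≤ x i ∧ x i ≤ B := by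
    intro x
    rw [hK, Set.mem_Icc, Pi.le_def, Pi.le_def]
    exact ⟨fun h i => ⟨h.1 i, h.2 i⟩, fun h => ⟨fun i => (h i).1, fun i => (h i).2⟩⟩
  have hKn : K.Nonempty := ⟨fun _ => 0, (hKmem _).2 fun i => ⟨by linarith, by linarith⟩⟩
  obtain ⟨x0, hx0, hmin⟩ := hKc.exists_isMinOn hKn (continuous_norm.comp hF).continuousOn
  have hm : 0 < ‖F x0‖ := norm_pos_iff.2 (hne x0)
  set m : ℝ := ‖F x0‖ with hmdef
  have hmin' : ∀ x ∈ K, m ≤ ‖F x‖ := fun x hx => hmin hx
  have huc := hKc.uniformContinuousOn_of_continuous hF.continuousOn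
  rw [Metric.uniformContinuousOn_iff] at huc
  obtain ⟨δ, hδ, hu⟩ := huc (m / 2) (by linarith)
  obtain ⟨N, hN⟩ := exists_nat_gt (2 * B / δ)
  have hNpos : (0 : ℝ) < N := lt_of_le_of_lt (by positivity) hN
  have hNδ : 2 * B / N < δ := by
    rw [div_lt_iff₀ hNpos]
    rw [div_lt_iff₀ hδ] at hN
    linarith [mul_comm (N : ℝ) δ]
  -- grid points
  set p : (ι → ℕ) → (ι → ℝ) := fun w i => -B + 2 * B * (w i) / N with hp
  have hpK : ∀ w : ι → ℕ, (∀ i, w i ≤ N) → p w ∈ K := by
    intro w hw
    rw [hKmem]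
    intro i
    have h1 : (0 : ℝ) ≤ 2 * B * (w i) / N := by positivity
    have h2 : 2 * B * (w i) / N ≤ 2 * B := by
      rw [div_le_iff₀ hNpos]
      have : (w i : ℝ) ≤ N := by exact_mod_cast hw i
      nlinarith
    simp only [hp]
    exact ⟨by linarith, by linarith⟩
  obtain ⟨w, hw, hc⟩ := Pool.Agent.B1d060.PM.poincare_miranda N (fun i w => decide (0 < F (p w) i))
    (by
      intro i w hw
      rw [decide_eq_false_iff_not, not_lt]
      have h1 := (abs_le.1 (h (p w) i)).2
      have h2 : p w i = -B := by simp [hp, hw]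
      have h3 : R ≤ |R| := le_abs_self R
      rw [h2] at h1
      rw [hB] at h1
      linarith)
    (by
      intro i w hw
      rw [decide_eq_true_iff]
      have h1 := (abs_le.1 (h (p w) i)).1
      have h2 : p w i = B := by
        simp only [hp, hw]
        field_simp
        ring
      have h3 : R ≤ |R| := le_abs_self R
      rw [h2] at h1
      rw [hB] at h1
      linarith)
  have hwK : p w ∈ K := hpK w fun i => (hw i).le
  have hnear : ∀ u : ι → ℕ, Pool.Agent.B1d060.PM.InCube w u → p u ∈ K ∧ dist (p w) (p u) < δ := by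
    intro u hu
    have hu1 : ∀ i, u i ≤ N := by
      intro i
      rcases hu i with h | h
      · rw [h]; exact (hw i).le
      · rw [h]; exact hw i
    refine ⟨hpK u hu1, ?_⟩
    refine lt_of_le_of_lt ?_ hNδ
    rw [dist_pi_le_iff (by positivity)]
    intro i
    rw [Real.dist_eq]
    simp only [hp]
    rcases hu i with h | h
    · rw [h, sub_self, abs_zero]
      positivity
    · rw [h]
      have : -B + 2 * B * (w i : ℝ) / N - (-B + 2 * B * ((w i + 1 : ℕ) : ℝ) / N) = -(2 * B / N) := by
        push_cast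
        ring
      rw [this, abs_neg, abs_of_nonneg (by positivity)]
  have hle : ‖F (p w)‖ ≤ m / 2 := by
    rw [pi_norm_le_iff_of_nonneg (by linarith)]
    intro a
    obtain ⟨u, v, hu1, hv1, hu2, hv2⟩ := hc a
    rw [decide_eq_false_iff_not, not_lt] at hu2
    rw [decide_eq_true_iff] at hv2
    obtain ⟨huK, hud⟩ := hnear u hu1
    obtain ⟨hvK, hvd⟩ := hnear v hv1
    have e1 := lt_of_le_of_lt (dist_le_pi_dist (F (p w)) (F (p u)) a) (hu _ hwK _ huK hud)
    have e2 := lt_of_le_of_lt (dist_le_pi_dist (F (p w)) (F (p v)) a) (hu _ hwK _ hvK hvd)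
    rw [Real.dist_eq, abs_lt] at e1 e2
    rw [Real.norm_eq_abs, abs_le]
    exact ⟨by linarith [e2.1], by linarith [e1.2]⟩
  have := hmin' _ hwK
  linarith

/-- Row E1b. Hence it is surjective, for every finite dimensional normed space (choose a linear
isomorphism with `Fin d → ℝ`, translate the value). -/
theorem surj_bdd {V : Type*} [NormedAddCommGroup V] [NormedSpace ℝ V] [FiniteDimensional ℝ V]
    (F : V → V) (hF : Continuous F) (R : ℝ) (h : ∀ x, ‖F x - x‖ ≤ R) :
    Function.Surjective F := by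
  intro y
  have e : V ≃L[ℝ] (Fin (Module.finrank ℝ V) → ℝ) := ContinuousLinearEquiv.ofFinrankEq (by simp)
  obtain ⟨z, hz⟩ := zero_bdd (fun z => e (F (e.symm z)) - e y)
    ((e.continuous.comp (hF.comp e.symm.continuous)).sub continuous_const)
    (‖(e : V →L[ℝ] (Fin (Module.finrank ℝ V) → ℝ))‖ * R + ‖e y‖) (by
      intro z i
      have h1 : (e (F (e.symm z)) - e y) i - z i = (e (F (e.symm z) - e.symm z) - e y) i := by
        rw [map_sub, e.apply_symm_apply]
        simp only [Pi.sub_apply]
        ring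
      rw [h1]
      refine (norm_le_pi_norm (e (F (e.symm z) - e.symm z) - e y) i).trans ?_
      refine (norm_sub_le _ _).trans ?_
      have h2 := (e : V →L[ℝ] (Fin (Module.finrank ℝ V) → ℝ)).le_opNorm (F (e.symm z) - e.symm z)
      have h3 := mul_le_mul_of_nonneg_left (h (e.symm z)) (norm_nonneg (e : V →L[ℝ] (Fin (Module.finrank ℝ V) → ℝ)))
      have h4 : ‖e (F (e.symm z) - e.symm z)‖ ≤ ‖(e : V →L[ℝ] (Fin (Module.finrank ℝ V) → ℝ))‖ * R := h2.trans h3
      linarith)
  refine ⟨e.symm z, ?_⟩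
  have : e (F (e.symm z)) = e y := sub_eq_zero.1 hz
  exact e.injective this

end LibNC38
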