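import Pool.Agent.LibNC38.E2a

set_option autoImplicit false

open Topology Filter

namespace LibNC38

/-- Row E2. The midpoint map of a continuous map without fixed points is continuous in a proper
geodesic space without conjugate points: if `x k → x` the midpoints `Φ (x k)` stay in a compact
ball, every limit point is a midpoint of `x, α x`, hence equal to `Φ x` (E2a). -/
theorem mid_cont {Y : Type*} [MetricSpace Y] [ProperSpace Y] (hg : Geo Y)
    (hnc : NoConj (fun x y : Y => dist x y)) (α Φ : Y → Y) (hα : Continuous α)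
    (hne : ∀ x, x ≠ α x) (hΦ : ∀ x, IsMid x (α x) (Φ x)) : Continuous Φ := by
  rw [continuous_iff_ultrafilter]
  intro x g hgx
  have hid : Tendsto (fun y : Y => y) (g : Filter Y) (𝓝 x) := hgx
  have hα' : Tendsto α (g : Filter Y) (𝓝 (α x)) := (hα.tendsto x).mono_left hgx
  have hlim : Tendsto (fun y => dist y (α y) / 2) (g : Filter Y) (𝓝 (dist x (α x) / 2)) :=
    (hid.dist hα').div_const 2
  have hsum : Tendsto (fun y => dist y (α y) / 2 + dist y x) (g : Filter Y)
      (𝓝 (dist x (α x) / 2 + dist x x)) := hlim.add (hid.dist tendsto_const_nhds)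
  have hb : ∀ᶠ y in (g : Filter Y), Φ y ∈ Metric.closedBall x (dist x (α x) / 2 + 1) := by
    have h1 : ∀ᶠ y in (g : Filter Y), dist y (α y) / 2 + dist y x < dist x (α x) / 2 + 1 :=
      hsum.eventually (gt_mem_nhds (by simp))
    filter_upwards [h1] with y hy
    rw [Metric.mem_closedBall]
    have h2 := (hΦ y).1
    have h3 : dist (Φ y) x ≤ dist (Φ y) y + dist y x := dist_triangle _ _ _
    rw [dist_comm (Φ y) y] at h3
    linarith
  obtain ⟨m, -, hm⟩ := (isCompact_closedBall x (dist x (α x) / 2 + 1)).ultrafilter_le_nhds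
    (g.map Φ) (by rw [le_principal_iff]; exact hb)
  have hΦm : Tendsto Φ (g : Filter Y) (𝓝 m) := hm
  have h1 : dist x m = dist x (α x) / 2 := by
    refine tendsto_nhds_unique (hid.dist hΦm) (hlim.congr fun y => ?_)
    exact ((hΦ y).1).symm
  have h2 : dist m (α x) = dist x (α x) / 2 := by
    refine tendsto_nhds_unique (hΦm.dist hα') (hlim.congr fun y => ?_)
    exact ((hΦ y).2).symm
  have h3 : m = Φ x := (mid_facts hg hnc x (α x) (hne x)).unique ⟨h1, h2⟩ (hΦ x)
  rw [← h3]
  exact hΦm

end LibNC38
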