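import Pool.Agent.LibNC38.Defs

set_option autoImplicit false

open Topology Filter

namespace LibNC38

/-- every two points are joined by a minimizing geodesic -/
def Geo (Y : Type*) [MetricSpace Y] : Prop :=
  ∀ x y : Y, ∃ c : ℝ → Y, c 0 = x ∧ c (dist x y) = y ∧
    ∀ u ∈ Set.Icc 0 (dist x y), ∀ v ∈ Set.Icc 0 (dist x y), dist (c u) (c v) = |u - v|

/-- `m` is a midpoint of `x` and `y` -/
def IsMid {Y : Type*} [MetricSpace Y] (x y m : Y) : Prop :=
  dist x m = dist x y / 2 ∧ dist m y = dist x y / 2

private theorem e2a_conc {Y : Type*} [MetricSpace Y] (hg : Geo Y) (x y m : Y) (hm : IsMid x y m) :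
    ∃ c : ℝ → Y, c 0 = x ∧ c (dist x y) = y ∧ c (dist x y / 2) = m ∧
      ∀ u ∈ Set.Icc 0 (dist x y), ∀ v ∈ Set.Icc 0 (dist x y), dist (c u) (c v) = |u - v| := by
  obtain ⟨hm1, hm2⟩ := hm
  obtain ⟨a, ha0, ha1, ha⟩ := hg x m
  obtain ⟨b, hb0, hb1, hb⟩ := hg m y
  rw [hm1] at ha1 ha
  rw [hm2] at hb1 hb
  have hD : 0 ≤ dist x y := dist_nonneg
  set D := dist x y with hDdef
  have key : ∀ u ∈ Set.Icc 0 D, ∀ v ∈ Set.Icc 0 D, u ≤ v →
      dist ((fun t => if t ≤ D / 2 then a t else b (t - D / 2)) u)
        ((fun t => if t ≤ D / 2 then a t else b (t - D / 2)) v) = |u - v| := by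
    intro u hu v hv huv
    obtain ⟨hu0, hu1⟩ := hu
    obtain ⟨hv0, hv1⟩ := hv
    by_cases h1 : v ≤ D / 2
    · have h2 : u ≤ D / 2 := huv.trans h1
      simp only [h1, h2, if_true]
      exact ha u ⟨hu0, h2⟩ v ⟨hv0, h1⟩
    · by_cases h2 : u ≤ D / 2
      · simp only [h1, h2, if_true, if_false]
        push Not at h1
        have hw : v - D / 2 ∈ Set.Icc 0 (D / 2) := ⟨by linarith, by linarith⟩
        have e1 : dist (a u) m = D / 2 - u := by
          rw [← ha1, ha u ⟨hu0, h2⟩ (D / 2) ⟨by linarith, le_refl _⟩, abs_of_nonpos (by linarith)]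
          ring
        have e2 : dist m (b (v - D / 2)) = v - D / 2 := by
          rw [← hb0, hb 0 ⟨le_refl _, by linarith⟩ (v - D / 2) hw, abs_of_nonpos (by linarith)]
          ring
        have e3 : dist x (a u) = u := by
          rw [← ha0, ha 0 ⟨le_refl _, by linarith⟩ u ⟨hu0, h2⟩, abs_of_nonpos (by linarith)]
          ring
        have e4 : dist (b (v - D / 2)) y = D - v := by
          rw [← hb1, hb (v - D / 2) hw (D / 2) ⟨by linarith, le_refl _⟩,
            abs_of_nonpos (by linarith)]
          ring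
        have t1 := dist_triangle (a u) m (b (v - D / 2))
        have t2 := dist_triangle x (a u) y
        have t3 := dist_triangle (a u) (b (v - D / 2)) y
        rw [abs_of_nonpos (by linarith)]
        rw [← hDdef] at t2
        linarith
      · simp only [h1, h2, if_false]
        push Not at h1 h2
        rw [hb (u - D / 2) ⟨by linarith, by linarith⟩ (v - D / 2) ⟨by linarith, by linarith⟩]
        congr 1
        ring
  refine ⟨fun t => if t ≤ D / 2 then a t else b (t - D / 2), ?_, ?_, ?_, ?_⟩
  · have : (0 : ℝ) ≤ D / 2 := by linarith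
    simp only [this, if_true]
    exact ha0
  · by_cases h : D ≤ D / 2
    · have h0 : D = 0 := by linarith
      simp only [h, if_true]
      have e : D = D / 2 := by linarith
      rw [e, ha1]
      have : dist m y = 0 := by rw [hm2, h0]; norm_num
      exact dist_eq_zero.1 this
    · simp only [h, if_false]
      rw [← hb1]
      congr 1
      ring
  · simp only [le_refl, if_true]
    exact ha1
  · intro u hu v hv
    rcases le_total u v with h | h
    · exact key u hu v hv h
    · rw [dist_comm, abs_sub_comm]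
      exact key v hv u hu h

private theorem e2a_geod {Y : Type*} [MetricSpace Y] (L : ℝ) (c : ℝ → Y)
    (h : ∀ u ∈ Set.Icc 0 L, ∀ v ∈ Set.Icc 0 L, dist (c u) (c v) = |u - v|) :
    IsGeod (fun x y : Y => dist x y) L c :=
  fun _ _ => ⟨1, one_pos, fun u hu v hv _ _ => h u hu v hv⟩

/-- Row E2. In a geodesic space without conjugate points midpoints exist and are unique (the
concatenation of minimizing geodesics `x → m`, `m → y` is a minimizing geodesic of length
`dist x y`; two of them coincide by `NoConj`). In a proper space the midpoint map of a continuous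
map without fixed points is continuous . -/
theorem mid_facts {Y : Type*} [MetricSpace Y] (hg : Geo Y)
    (hnc : NoConj (fun x y : Y => dist x y)) (x y : Y) (hxy : x ≠ y) : ∃! m, IsMid x y m := by
  have hD : 0 < dist x y := dist_pos.2 hxy
  refine existsUnique_of_exists_of_unique ?_ ?_
  · obtain ⟨c, h0, h1, h⟩ := hg x y
    refine ⟨c (dist x y / 2), ?_, ?_⟩
    · have e := h 0 ⟨le_refl _, hD.le⟩ (dist x y / 2) ⟨by linarith, by linarith⟩
      rw [h0, abs_of_nonpos (by linarith)] at e
      rw [e]
      ring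
    · have e := h (dist x y / 2) ⟨by linarith, by linarith⟩ (dist x y) ⟨hD.le, le_refl _⟩
      rw [h1, abs_of_nonpos (by linarith)] at e
      rw [e]
      ring
  · intro m m' hm hm'
    obtain ⟨c, h0, h1, h2, h⟩ := e2a_conc hg x y m hm
    obtain ⟨c', h0', h1', h2', h'⟩ := e2a_conc hg x y m' hm'
    have key := hnc (dist x y) (dist x y) c c' hD hD (e2a_geod _ c h) (e2a_geod _ c' h')
      (h0.trans h0'.symm) (h1.trans h1'.symm) (by rw [h0, h1]; exact hxy)
    rw [← h2, ← h2']
    exact key.2 _ ⟨by linarith, by linarith⟩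

end LibNC38
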