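import Pool.Agent.LibNC38.E2

set_option autoImplicit false

open Topology Filter

namespace LibNC38

/-- the periodic extension -/
private noncomputable def E3c {Y : Type*} (α : Y → Y) (γ : ℝ → Y) (D t : ℝ) : Y :=
  α^[⌊t / D⌋₊] (γ (t - D * ⌊t / D⌋₊))

private theorem E3c_add {Y : Type*} (α : Y → Y) (γ : ℝ → Y) (D : ℝ) (hD : 0 < D) (t : ℝ)
    (ht : 0 ≤ t) : E3c α γ D (t + D) = α (E3c α γ D t) := by
  unfold E3c
  have h1 : ⌊(t + D) / D⌋₊ = ⌊t / D⌋₊ + 1 := by
    rw [add_div, div_self hD.ne', Nat.floor_add_one (by positivity)]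
  rw [h1, Function.iterate_succ_apply']
  congr 2
  push_cast
  ring_nf

private theorem E3c_nat {Y : Type*} (α : Y → Y) (γ : ℝ → Y) (D : ℝ) (hD : 0 < D) (k : ℕ) :
    E3c α γ D (k * D) = α^[k] (γ 0) := by
  unfold E3c
  rw [mul_div_assoc, div_self hD.ne', mul_one, Nat.floor_natCast]
  congr 2
  ring

private theorem E3c_small {Y : Type*} (α : Y → Y) (γ : ℝ → Y) (D : ℝ) (hD : 0 < D)
    (hγ : γ D = α (γ 0)) (t : ℝ) (ht : t ∈ Set.Icc 0 D) : E3c α γ D t = γ t := by
  rcases eq_or_lt_of_le ht.2 with h | h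
  · have := E3c_nat α γ D hD 1
    rw [Nat.cast_one, one_mul] at this
    rw [h, this, hγ]
    rfl
  · unfold E3c
    have h1 : ⌊t / D⌋₊ = 0 := by
      rw [Nat.floor_eq_zero, div_lt_one hD]
      exact h
    rw [h1]
    simp

/-- Row E3. If the displacement at the midpoint `m` of `x, α x` is as large as the displacement
`D = dist x (α x)` at `x`, then `x` has minimal displacement. Let `γ : [0, D] → Y` be a minimizing
geodesic from `x` to `α x`; `γ (D / 2) = m` by uniqueness (E2). Put
`c t = α^[⌊t / D⌋₊] (γ (t - D * ⌊t / D⌋₊))`. On `[k D, (k + 1) D]` it is isometric. Since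
`dist m (α m) = D = dist m (α x) + dist (α x) (α m)`, the concatenation at `α x` is isometric on
`[D / 2, 3 D / 2]` (if `dist a b + dist b e = dist a e`, `p` on a minimizing geodesic `a → b`, `q`
on one `b → e`, then `dist p q = dist p b + dist b q`), hence `c` is isometric on
`[k D + D / 2, (k + 1) D + D / 2]` and `IsGeod dist (k D) c` for every `k ≥ 1`. It joins `x` to
`α^[k] x`, which is different from `x` (`hk`), as does the minimizing geodesic, so by `NoConj`
`dist x (α^[k] x) = k D`. For another point `x'`: `k D ≤ 2 dist x x' + k dist x' (α x')` for all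
`k`, so `D ≤ dist x' (α x')`. -/
theorem min_of_eq {Y : Type*} [MetricSpace Y] (hg : Geo Y)
    (hnc : NoConj (fun x y : Y => dist x y)) (α : Y → Y) (hα : Isometry α)
    (x m : Y) (hk : ∀ k : ℕ, 0 < k → α^[k] x ≠ x) (hm : IsMid x (α x) m)
    (h : dist x (α x) ≤ dist m (α m)) (x' : Y) : dist x (α x) ≤ dist x' (α x') := by
  have hx1 : x ≠ α x := fun e => hk 1 one_pos e.symm
  obtain ⟨D, hDdef⟩ : ∃ D, D = dist x (α x) := ⟨_, rfl⟩
  have hD : 0 < D := by rw [hDdef]; exact dist_pos.2 hx1
  obtain ⟨γ, hγ0, hγD, hγ⟩ := hg x (α x)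
  rw [← hDdef] at hγD hγ
  -- the midpoint
  have hmid : γ (D / 2) = m := by
    obtain ⟨m', -, hu⟩ := mid_facts hg hnc x (α x) hx1
    have e1 : IsMid x (α x) (γ (D / 2)) := by
      constructor
      · rw [← hDdef, ← hγ0, hγ 0 ⟨le_rfl, hD.le⟩ (D / 2) ⟨by linarith, by linarith⟩]
        rw [zero_sub, abs_neg, abs_of_pos (by linarith)]
      · rw [← hDdef, ← hγD, hγ (D / 2) ⟨by linarith, by linarith⟩ D ⟨hD.le, le_rfl⟩]
        rw [abs_of_neg (by linarith)]
        ring
    rw [hu _ e1, hu _ hm]
  obtain ⟨c, hc⟩ : ∃ c, c = E3c α γ D := ⟨_, rfl⟩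
  have hγD' : γ D = α (γ 0) := by rw [hγD, hγ0]
  have hadd : ∀ t, 0 ≤ t → c (t + D) = α (c t) := by
    intro t ht; rw [hc]; exact E3c_add α γ D hD t ht
  have hsmall : ∀ t ∈ Set.Icc 0 D, c t = γ t := by
    intro t ht; rw [hc]; exact E3c_small α γ D hD hγD' t ht
  have hnat : ∀ k : ℕ, c (k * D) = α^[k] x := by
    intro k; rw [hc, E3c_nat α γ D hD k, hγ0]
  -- isometric on `[0, D]`
  have hiso0 : ∀ u ∈ Set.Icc 0 D, ∀ v ∈ Set.Icc 0 D, dist (c u) (c v) = |u - v| := by
    intro u hu v hv
    rw [hsmall u hu, hsmall v hv, hγ u hu v hv]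
  -- isometric on `[D, 2 D]`
  have hiso2 : ∀ u ∈ Set.Icc D (2 * D), ∀ v ∈ Set.Icc D (2 * D), dist (c u) (c v) = |u - v| := by
    intro u hu v hv
    have e1 := hadd (u - D) (by linarith [hu.1])
    have e2 := hadd (v - D) (by linarith [hv.1])
    rw [sub_add_cancel] at e1 e2
    rw [e1, e2, hα.dist_eq, hiso0 (u - D) ⟨by linarith [hu.1], by linarith [hu.2]⟩ (v - D)
      ⟨by linarith [hv.1], by linarith [hv.2]⟩]
    congr 1
    ring
  -- isometric on `[D / 2, 3 D / 2]`
  have hcm : c (D / 2) = m := by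
    rw [hsmall _ ⟨by linarith, by linarith⟩, hmid]
  have hcm2 : c (3 * D / 2) = α m := by
    have := hadd (D / 2) (by linarith)
    rw [hcm] at this
    rw [← this]
    congr 1
    ring
  have hcross : ∀ u ∈ Set.Icc (D / 2) D, ∀ v ∈ Set.Icc D (3 * D / 2), dist (c u) (c v) = v - u := by
    intro u hu v hv
    apply le_antisymm
    · have e1 := dist_triangle (c u) (c D) (c v)
      have e2 := hiso0 u ⟨by linarith [hu.1], hu.2⟩ D ⟨hD.le, le_rfl⟩
      have e3 := hiso2 D ⟨le_rfl, by linarith⟩ v ⟨hv.1, by linarith [hv.2]⟩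
      rw [abs_of_nonpos (by linarith [hu.2])] at e2
      rw [abs_of_nonpos (by linarith [hv.1])] at e3
      linarith
    · have e1 := dist_triangle4 (c (D / 2)) (c u) (c v) (c (3 * D / 2))
      have e2 := hiso0 (D / 2) ⟨by linarith, by linarith⟩ u ⟨by linarith [hu.1], hu.2⟩
      have e3 := hiso2 v ⟨hv.1, by linarith [hv.2]⟩ (3 * D / 2) ⟨by linarith, by linarith⟩
      rw [abs_of_nonpos (by linarith [hu.1])] at e2
      rw [abs_of_nonpos (by linarith [hv.2])] at e3
      rw [hcm, hcm2] at e1
      rw [hcm] at e2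
      rw [hcm2] at e3
      rw [← hDdef] at h
      linarith
  have hiso1 : ∀ u ∈ Set.Icc (D / 2) (3 * D / 2), ∀ v ∈ Set.Icc (D / 2) (3 * D / 2),
      dist (c u) (c v) = |u - v| := by
    intro u hu v hv
    rcases le_total u D with h1 | h1
    · rcases le_total v D with h2 | h2
      · exact hiso0 u ⟨by linarith [hu.1], h1⟩ v ⟨by linarith [hv.1], h2⟩
      · rw [hcross u ⟨hu.1, h1⟩ v ⟨h2, hv.2⟩, abs_of_nonpos (by linarith)]
        ring
    · rcases le_total v D with h2 | h2
      · rw [dist_comm, hcross v ⟨hv.1, h2⟩ u ⟨h1, hu.2⟩, abs_of_nonneg (by linarith)]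
      · exact hiso2 u ⟨h1, by linarith [hu.2]⟩ v ⟨h2, by linarith [hv.2]⟩
  -- isometric on `[i D / 2, i D / 2 + D]`
  have hiso : ∀ i : ℕ, ∀ u ∈ Set.Icc (i * D / 2) (i * D / 2 + D),
      ∀ v ∈ Set.Icc (i * D / 2) (i * D / 2 + D), dist (c u) (c v) = |u - v| := by
    intro i
    induction i using Nat.strong_induction_on with
    | _ i ih =>
      intro u hu v hv
      rcases i with _ | _ | i
      · apply hiso0 u _ v _
        · have := hu.1; have := hu.2; push_cast at *; constructor <;> linarith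
        · have := hv.1; have := hv.2; push_cast at *; constructor <;> linarith
      · apply hiso1 u _ v _
        · have := hu.1; have := hu.2; push_cast at *; constructor <;> linarith
        · have := hv.1; have := hv.2; push_cast at *; constructor <;> linarith
      · have hi0 : (0 : ℝ) ≤ i * D := by positivity
        have hu1 := hu.1
        have hu2 := hu.2
        have hv1 := hv.1
        have hv2 := hv.2
        push_cast at hu1 hu2 hv1 hv2
        have e1 := hadd (u - D) (by linarith)
        have e2 := hadd (v - D) (by linarith)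
        rw [sub_add_cancel] at e1 e2
        rw [e1, e2, hα.dist_eq, ih i (by omega) (u - D) ⟨by linarith, by linarith⟩ (v - D)
          ⟨by linarith, by linarith⟩]
        congr 1
        ring
  -- local geodesic
  have hgeo : ∀ L : ℝ, IsGeod (fun x y : Y => dist x y) L c := by
    intro L t ht
    refine ⟨D / 4, by linarith, ?_⟩
    intro u hu v hv hut hvt
    rw [abs_lt] at hut hvt
    obtain ⟨i, hi⟩ : ∃ i : ℕ, i = ⌊(t - D / 4) / (D / 2)⌋₊ := ⟨_, rfl⟩
    have hlo : (t - D / 4) / (D / 2) < i + 1 := by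
      rw [hi]; exact Nat.lt_floor_add_one _
    rw [div_lt_iff₀ (by linarith)] at hlo
    have hup : (i : ℝ) * D / 2 ≤ t - D / 4 ∨ i = 0 := by
      rcases le_total 0 (t - D / 4) with h1 | h1
      · left
        have := Nat.floor_le (a := (t - D / 4) / (D / 2)) (by positivity)
        rw [← hi, le_div_iff₀ (by linarith)] at this
        linarith
      · right
        rw [hi, Nat.floor_eq_zero]
        have : (t - D / 4) / (D / 2) ≤ 0 := div_nonpos_of_nonpos_of_nonneg h1 (by linarith)
        linarith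
    have hlow : ∀ w, 0 ≤ w → -(D / 4) < w - t → (i : ℝ) * D / 2 ≤ w := by
      intro w hw hwt
      rcases hup with h1 | h1
      · linarith
      · rw [h1]; push_cast; linarith
    exact hiso i u ⟨hlow u hu.1 hut.1, by nlinarith⟩ v ⟨hlow v hv.1 hvt.1, by nlinarith⟩
  -- distances along the orbit
  have hdist : ∀ k : ℕ, 0 < k → dist x (α^[k] x) = k * D := by
    intro k hk0
    have hne := hk k hk0
    have hpos : 0 < dist x (α^[k] x) := dist_pos.2 (Ne.symm hne)
    obtain ⟨c', h0', h1', hi'⟩ := hg x (α^[k] x)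
    have hk0' : (0 : ℝ) < k := by exact_mod_cast hk0
    have hg' : IsGeod (fun x y : Y => dist x y) (dist x (α^[k] x)) c' := by
      intro t ht
      exact ⟨1, one_pos, fun u hu v hv _ _ => hi' u hu v hv⟩
    have hc0 : c 0 = x := by
      have := hnat 0
      rw [Nat.cast_zero, zero_mul] at this
      exact this
    have := (hnc (k * D) (dist x (α^[k] x)) c c' (by positivity) hpos (hgeo _) hg'
      (by rw [hc0, h0']) (by rw [hnat k, h1']) (by rw [hc0, hnat k]; exact Ne.symm hne)).1
    exact this.symm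
  -- comparison
  by_contra hcon
  push Not at hcon
  rw [← hDdef] at hcon
  have hiter : ∀ k : ℕ, dist x' (α^[k] x') ≤ k * dist x' (α x') := by
    intro k
    induction k with
    | zero => simp
    | succ k ih =>
      rw [Function.iterate_succ_apply']
      have e1 := dist_triangle x' (α x') (α (α^[k] x'))
      rw [hα.dist_eq] at e1
      push_cast
      linarith
  have hiso' : ∀ k : ℕ, dist (α^[k] x') (α^[k] x) = dist x' x := by
    intro k
    induction k with
    | zero => rfl
    | succ k ih => rw [Function.iterate_succ_apply', Function.iterate_succ_apply', hα.dist_eq, ih]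
  have hall : ∀ k : ℕ, 0 < k → k * (D - dist x' (α x')) ≤ 2 * dist x x' := by
    intro k hk0
    have e1 := dist_triangle4 x x' (α^[k] x') (α^[k] x)
    have e2 : dist (α^[k] x') (α^[k] x) = dist x' x := hiso' k
    rw [hdist k hk0, e2, dist_comm x' x] at e1
    have e3 := hiter k
    nlinarith
  obtain ⟨k, hk1⟩ := exists_nat_gt (2 * dist x x' / (D - dist x' (α x')))
  rw [div_lt_iff₀ (by linarith)] at hk1
  have hk0 : 0 < k := by
    rcases Nat.eq_zero_or_pos k with h1 | h1
    · rw [h1, Nat.cast_zero, zero_mul] at hk1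
      have := dist_nonneg (x := x) (y := x')
      linarith
    · exact h1
  have := hall k hk0
  linarith

end LibNC38
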