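import Pool.Agent.LibNC38.E2
import Pool.Agent.LibNC38.E3

set_option autoImplicit false

open Topology Filter

namespace LibNC38

private theorem ne_of_P {Y V : Type*} [NormedAddCommGroup V] (α : Y → Y) (P : Y → V) (lam : V)
    (hlam : lam ≠ 0) (hPα : ∀ x, P (α x) = P x + lam) (x : Y) : x ≠ α x := by
  intro h
  have h1 := hPα x
  rw [← h] at h1
  exact hlam (by simpa using h1.symm)

private theorem P_iter {Y V : Type*} [NormedAddCommGroup V] (α : Y → Y) (P : Y → V) (lam : V)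
    (hPα : ∀ x, P (α x) = P x + lam) (x : Y) (k : ℕ) : P (α^[k] x) = P x + k • lam := by
  induction k with
  | zero => simp
  | succ k ih => rw [Function.iterate_succ_apply', hPα, ih, add_assoc, succ_nsmul]

private theorem iter_ne {Y V : Type*} [NormedAddCommGroup V] [NormedSpace ℝ V] (α : Y → Y)
    (P : Y → V) (lam : V) (hlam : lam ≠ 0) (hPα : ∀ x, P (α x) = P x + lam) (x : Y) (k : ℕ)
    (hk : 0 < k) : α^[k] x ≠ x := by
  intro h
  have h1 := P_iter α P lam hPα x k
  rw [h] at h1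
  have h2 : k • lam = 0 := by simpa using h1.symm
  rw [← Nat.cast_smul_eq_nsmul ℝ, smul_eq_zero] at h2
  rcases h2 with h2 | h2
  · have : (k : ℝ) ≠ 0 := by exact_mod_cast hk.ne'
    exact this h2
  · exact hlam h2

/-- Row E4a. Uniform decrease of the displacement `D x = dist x (α x)` under the midpoint map.
`D` is continuous and invariant under the `T i` (they commute with `α`), `T i (Φ x) = Φ (T i x)` by
uniqueness of midpoints (E2a; `x ≠ α x` because `P (α x) = P x + lam`). For `D x ≤ C0` there is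
`i` with `‖P (T i x)‖ ≤ R`, so modulo `T` everything happens in the compact set
`K = {‖P x‖ ≤ R', D x ≤ R'}`, `R' = max R C0`; so `D` attains its minimum `μ`.
`D (Φ x) ≤ dist (Φ x) (α x) + dist (α x) (α (Φ x)) = D x`; by E3 equality implies that `D x` is
minimal (`P (α^[k] x) = P x + k • lam`). On `K ∩ {D ≥ μ + ε}` the continuous (E2) positive function
`D - D ∘ Φ` has a positive minimum `η`; if `D (Φ^[k] x) ≥ μ + ε` then `D` decreased by `η` at each of
the first `k` steps, `k η ≤ C0`. -/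
theorem decr {Y V : Type*} [MetricSpace Y] [ProperSpace Y] [Nonempty Y] [NormedAddCommGroup V]
    [NormedSpace ℝ V] [FiniteDimensional ℝ V] (hg : Geo Y)
    (hnc : NoConj (fun x y : Y => dist x y)) (α : Y → Y) (hα : Isometry α)
    (P : Y → V) (hP : Continuous P) (lam : V) (hlam : lam ≠ 0) (hPα : ∀ x, P (α x) = P x + lam)
    {I : Type*} (T : I → Y → Y) (z : I → V) (hT : ∀ i, Isometry (T i))
    (hTα : ∀ i x, T i (α x) = α (T i x)) (hPT : ∀ i x, P (T i x) = P x + z i)
    (R : ℝ) (hR : ∀ v, ∃ i, ‖v + z i‖ ≤ R)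
    (hcpt : ∀ C, IsCompact {x | ‖P x‖ ≤ C ∧ dist x (α x) ≤ C})
    (Φ : Y → Y) (hΦ : ∀ x, IsMid x (α x) (Φ x)) :
    (∀ i x, T i (Φ x) = Φ (T i x)) ∧ (∀ x, dist (Φ x) (α (Φ x)) ≤ dist x (α x)) ∧
    ∃ x0, (∀ x, dist x0 (α x0) ≤ dist x (α x)) ∧ ∀ C0 ε : ℝ, 0 < ε → ∃ k0 : ℕ, ∀ k ≥ k0, ∀ x,
      dist x (α x) ≤ C0 → dist (Φ^[k] x) (α (Φ^[k] x)) < dist x0 (α x0) + ε := by
  have hne : ∀ x, x ≠ α x := ne_of_P α P lam hlam hPα
  have hαc : Continuous α := hα.continuous
  have hDc : Continuous fun x => dist x (α x) := continuous_id.dist hαc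
  have hΦc : Continuous Φ := mid_cont hg hnc α Φ hαc hne hΦ
  have hDT : ∀ i x, dist (T i x) (α (T i x)) = dist x (α x) := by
    intro i x
    rw [← hTα, (hT i).dist_eq]
  have h1 : ∀ i x, T i (Φ x) = Φ (T i x) := by
    intro i x
    refine (mid_facts hg hnc (T i x) (α (T i x)) (hne _)).unique ⟨?_, ?_⟩ (hΦ (T i x))
    · rw [(hT i).dist_eq, hDT]
      exact (hΦ x).1
    · rw [hDT, ← hTα, (hT i).dist_eq]
      exact (hΦ x).2
  have h2 : ∀ x, dist (Φ x) (α (Φ x)) ≤ dist x (α x) := by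
    intro x
    have h3 := dist_triangle (Φ x) (α x) (α (Φ x))
    rw [hα.dist_eq, (hΦ x).1, (hΦ x).2] at h3
    linarith
  refine ⟨h1, h2, ?_⟩
  -- translation into the compact set
  have htr : ∀ (C : ℝ) (x : Y), dist x (α x) ≤ C →
      ∃ i, ‖P (T i x)‖ ≤ max R C ∧ dist (T i x) (α (T i x)) ≤ max R C := by
    intro C x hx
    obtain ⟨i, hi⟩ := hR (P x)
    refine ⟨i, ?_, ?_⟩
    · rw [hPT]
      exact hi.trans (le_max_left _ _)
    · rw [hDT]
      exact hx.trans (le_max_right _ _)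
  -- the minimum
  obtain ⟨y0⟩ := ‹Nonempty Y›
  obtain ⟨i0, hi0⟩ := htr (dist y0 (α y0)) y0 le_rfl
  obtain ⟨x0, -, hx0⟩ := (hcpt (max R (dist y0 (α y0)))).exists_isMinOn ⟨T i0 y0, hi0⟩
    hDc.continuousOn
  have hmin : ∀ x, dist x0 (α x0) ≤ dist x (α x) := by
    intro x
    rcases le_total (dist x (α x)) (dist y0 (α y0)) with h | h
    · obtain ⟨i, hi⟩ := htr _ x h
      have h3 : dist x0 (α x0) ≤ dist (T i x) (α (T i x)) := hx0 hi
      rwa [hDT] at h3
    · have h3 : dist x0 (α x0) ≤ dist (T i0 y0) (α (T i0 y0)) := hx0 hi0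
      rw [hDT] at h3
      exact h3.trans h
  refine ⟨x0, hmin, ?_⟩
  intro C0 ε hε
  -- uniform decrease
  have hη : ∃ η : ℝ, 0 < η ∧ ∀ y, dist y (α y) ≤ C0 → dist x0 (α x0) + ε ≤ dist y (α y) →
      dist (Φ y) (α (Φ y)) ≤ dist y (α y) - η := by
    have hclosed : IsClosed {x : Y | dist x0 (α x0) + ε ≤ dist x (α x)} :=
      isClosed_le continuous_const hDc
    have hA : IsCompact ({x | ‖P x‖ ≤ max R C0 ∧ dist x (α x) ≤ max R C0} ∩
        {x : Y | dist x0 (α x0) + ε ≤ dist x (α x)}) := (hcpt _).inter_right hclosed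
    have hgc : Continuous fun x => dist x (α x) - dist (Φ x) (α (Φ x)) :=
      hDc.sub (hDc.comp hΦc)
    rcases Set.eq_empty_or_nonempty ({x | ‖P x‖ ≤ max R C0 ∧ dist x (α x) ≤ max R C0} ∩
        {x : Y | dist x0 (α x0) + ε ≤ dist x (α x)}) with hemp | hnon
    · refine ⟨1, one_pos, fun y hy hy' => ?_⟩
      obtain ⟨i, hi⟩ := htr _ y hy
      exfalso
      have h3 : T i y ∈ ({x | ‖P x‖ ≤ max R C0 ∧ dist x (α x) ≤ max R C0} ∩
        {x : Y | dist x0 (α x0) + ε ≤ dist x (α x)}) :=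
        ⟨hi, by
          show dist x0 (α x0) + ε ≤ dist (T i y) (α (T i y))
          rw [hDT]; exact hy'⟩
      rw [hemp] at h3
      exact h3
    · obtain ⟨a, ha, hamin⟩ := hA.exists_isMinOn hnon hgc.continuousOn
      refine ⟨dist a (α a) - dist (Φ a) (α (Φ a)), ?_, fun y hy hy' => ?_⟩
      · by_contra hcon
        push Not at hcon
        have h4 : dist a (α a) ≤ dist (Φ a) (α (Φ a)) := by linarith
        have h5 := min_of_eq hg hnc α hα a (Φ a)
          (fun k hk => iter_ne α P lam hlam hPα a k hk) (hΦ a) h4 x0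
        have h6 : dist x0 (α x0) + ε ≤ dist a (α a) := ha.2
        linarith
      · obtain ⟨i, hi⟩ := htr _ y hy
        have h3 : T i y ∈ ({x | ‖P x‖ ≤ max R C0 ∧ dist x (α x) ≤ max R C0} ∩
          {x : Y | dist x0 (α x0) + ε ≤ dist x (α x)}) :=
          ⟨hi, by
            show dist x0 (α x0) + ε ≤ dist (T i y) (α (T i y))
            rw [hDT]; exact hy'⟩
        have h4 : dist a (α a) - dist (Φ a) (α (Φ a)) ≤
            dist (T i y) (α (T i y)) - dist (Φ (T i y)) (α (Φ (T i y))) := hamin h3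
        rw [← h1, hDT, hDT] at h4
        linarith
  obtain ⟨η, hη0, hη⟩ := hη
  obtain ⟨k0, hk0⟩ := exists_nat_gt ((C0 - dist x0 (α x0)) / η)
  refine ⟨k0, fun k hk x hx => ?_⟩
  by_contra hcon
  push Not at hcon
  have hanti : Antitone fun j => dist (Φ^[j] x) (α (Φ^[j] x)) := by
    refine antitone_nat_of_succ_le fun j => ?_
    simp only [Function.iterate_succ_apply']
    exact h2 _
  have hall : ∀ j ≤ k, dist x0 (α x0) + ε ≤ dist (Φ^[j] x) (α (Φ^[j] x)) := fun j hj =>
    hcon.trans (hanti hj)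
  have hle : ∀ j, dist (Φ^[j] x) (α (Φ^[j] x)) ≤ C0 := fun j => by
    have := hanti (Nat.zero_le j)
    simp only [Function.iterate_zero, id] at this
    exact this.trans hx
  have hdec : ∀ j ≤ k, dist (Φ^[j] x) (α (Φ^[j] x)) ≤ C0 - j * η := by
    intro j
    induction j with
    | zero => intro _; simpa using hx
    | succ j ih =>
      intro hj
      have h3 := hη (Φ^[j] x) (hle j) (hall j (by omega))
      have h4 := ih (by omega)
      rw [Function.iterate_succ_apply']
      push_cast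
      linarith
  have h5 := hdec k le_rfl
  have h6 := hall k le_rfl
  have h7 : (C0 - dist x0 (α x0)) / η < k := hk0.trans_le (by exact_mod_cast hk)
  rw [div_lt_iff₀ hη0] at h7
  linarith

end LibNC38
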