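import Pool.Agent.LibNC38.E1
import Pool.Agent.LibNC38.E4a
import Pool.Agent.LibNC38.E3

set_option autoImplicit false

open Topology Filter

namespace LibNC38

private theorem E4_iter {Y : Type*} (Φ t : Y → Y) (h : ∀ x, t (Φ x) = Φ (t x)) (k : ℕ) (x : Y) :
    Φ^[k] (t x) = t (Φ^[k] x) := by
  induction k generalizing x with
  | zero => rfl
  | succ k ih => rw [Function.iterate_succ_apply, Function.iterate_succ_apply, ← h, ih]

private theorem E4_mono {Y : Type*} (Φ : Y → Y) (D : Y → ℝ) (h : ∀ x, D (Φ x) ≤ D x) (k : ℕ) (x : Y) :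
    D (Φ^[k] x) ≤ D x := by
  induction k with
  | zero => exact le_rfl
  | succ k ih =>
    rw [Function.iterate_succ_apply']
    exact (h _).trans ih

/-- Row E4 (PROP A). `Φ` the midpoint map (E2a), continuous (E2), with the properties of E4a.
`D (σ v)` is bounded by some `C0` (invariance under the `T i`, compactness of the closed ball of
radius `R` in `V`). `v ↦ P (Φ^[k] (σ v))` is continuous and at bounded distance from the identity
(equivariance: `P (Φ^[k] (σ (v + z i))) = P (Φ^[k] (σ v)) + z i`, compactness), so by E1 it takes the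
value `y` at some `v k`. The points `x k = Φ^[k] (σ (v k))` lie in the compact set
`{‖P x‖ ≤ C, D x ≤ C}` (`P (x k) = y`, `D (x k) ≤ C0`), a limit point `x` has `P x = y` and by E4a
`D x ≤ D x0 + ε` for all `ε > 0`. -/
theorem propA {Y V : Type*} [MetricSpace Y] [ProperSpace Y] [NormedAddCommGroup V]
    [NormedSpace ℝ V] [FiniteDimensional ℝ V] (hg : Geo Y)
    (hnc : NoConj (fun x y : Y => dist x y)) (α : Y → Y) (hα : Isometry α)
    (P : Y → V) (hP : Continuous P) (lam : V) (hlam : lam ≠ 0) (hPα : ∀ x, P (α x) = P x + lam)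
    (σ : V → Y) (hσ : Continuous σ) (hPσ : ∀ v, P (σ v) = v)
    {I : Type*} (T : I → Y → Y) (z : I → V) (hT : ∀ i, Isometry (T i))
    (hTα : ∀ i x, T i (α x) = α (T i x)) (hPT : ∀ i x, P (T i x) = P x + z i)
    (hTσ : ∀ i v, T i (σ v) = σ (v + z i)) (R : ℝ) (hR : ∀ v, ∃ i, ‖v + z i‖ ≤ R)
    (hcpt : ∀ C, IsCompact {x | ‖P x‖ ≤ C ∧ dist x (α x) ≤ C}) (y : V) :
    ∃ x, P x = y ∧ ∀ x', dist x (α x) ≤ dist x' (α x') := by
  have : ProperSpace V := FiniteDimensional.proper ℝ V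
  have hne : ∀ x, x ≠ α x := by
    intro x h
    apply hlam
    have h1 := hPα x
    rw [← h] at h1
    exact (add_eq_left.1 h1.symm)
  choose Φ hΦ using fun x => (mid_facts hg hnc x (α x) (hne x)).exists
  have hΦc : Continuous Φ := mid_cont hg hnc α Φ hα.continuous hne hΦ
  have hYne : Nonempty Y := ⟨σ 0⟩
  obtain ⟨hTΦ, hdec, x0, hx0, hunif⟩ :=
    decr hg hnc α hα P hP lam hlam hPα T z hT hTα hPT R hR hcpt Φ hΦ
  have hDc : Continuous fun x => dist x (α x) := continuous_id.dist hα.continuous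
  have hball : IsCompact (Metric.closedBall (0 : V) R) := isCompact_closedBall 0 R
  -- the displacement on the section
  obtain ⟨C0, hC0⟩ : ∃ C0 : ℝ, ∀ v, dist (σ v) (α (σ v)) ≤ C0 := by
    obtain ⟨C0, hC0⟩ := hball.bddAbove_image (f := fun v => dist (σ v) (α (σ v))) (hDc.comp hσ).continuousOn
    refine ⟨C0, fun v => ?_⟩
    obtain ⟨i, hi⟩ := hR v
    have h1 : dist (σ v) (α (σ v)) = dist (σ (v + z i)) (α (σ (v + z i))) := by
      rw [← hTσ i v, ← hTα, (hT i).dist_eq]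
    rw [h1]
    exact hC0 ⟨v + z i, by rw [mem_closedBall_zero_iff]; exact hi, rfl⟩
  have hit : ∀ (i : I) (k : ℕ) (x : Y), Φ^[k] (T i x) = T i (Φ^[k] x) := fun i k x =>
    E4_iter Φ (T i) (hTΦ i) k x
  -- the value is taken
  have hval : ∀ k : ℕ, ∃ v, P (Φ^[k] (σ v)) = y := by
    intro k
    have hFc : Continuous fun v => P (Φ^[k] (σ v)) := hP.comp ((hΦc.iterate k).comp hσ)
    obtain ⟨C, hC⟩ := hball.bddAbove_image (f := fun v => ‖P (Φ^[k] (σ v)) - v‖)
      ((hFc.sub continuous_id).norm).continuousOn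
    refine surj_bdd (fun v => P (Φ^[k] (σ v))) hFc C (fun v => ?_) y
    obtain ⟨i, hi⟩ := hR v
    have h1 : P (Φ^[k] (σ (v + z i))) = P (Φ^[k] (σ v)) + z i := by
      rw [← hTσ i v, hit, hPT]
    have h2 : P (Φ^[k] (σ v)) - v = P (Φ^[k] (σ (v + z i))) - (v + z i) := by
      rw [h1]
      abel
    show ‖P (Φ^[k] (σ v)) - v‖ ≤ C
    rw [h2]
    exact hC ⟨v + z i, by rw [mem_closedBall_zero_iff]; exact hi, rfl⟩
  choose v hv using hval
  obtain ⟨xs, hxs⟩ : ∃ xs : ℕ → Y, ∀ k, xs k = Φ^[k] (σ (v k)) := ⟨_, fun _ => rfl⟩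
  have hP' : ∀ k, P (xs k) = y := fun k => by rw [hxs, hv]
  have hD' : ∀ k, dist (xs k) (α (xs k)) ≤ C0 := fun k => by
    rw [hxs]
    exact (E4_mono Φ (fun x => dist x (α x)) hdec k (σ (v k))).trans (hC0 _)
  obtain ⟨x, -, φ, hφ, hlim⟩ := (hcpt (max ‖y‖ C0)).tendsto_subseq (x := xs) (fun k =>
    ⟨by rw [hP']; exact le_max_left _ _, (hD' k).trans (le_max_right _ _)⟩)
  refine ⟨x, ?_, fun x' => ?_⟩
  · have h1 : Tendsto (fun k => P (xs (φ k))) atTop (𝓝 (P x)) := (hP.tendsto x).comp hlim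
    have h2 : Tendsto (fun k => P (xs (φ k))) atTop (𝓝 y) := by
      simp only [hP']
      exact tendsto_const_nhds
    exact tendsto_nhds_unique h1 h2
  · refine le_trans ?_ (hx0 x')
    refine le_of_forall_pos_le_add fun ε hε => ?_
    obtain ⟨k0, hk0⟩ := hunif C0 ε hε
    have h1 : Tendsto (fun k => dist (xs (φ k)) (α (xs (φ k)))) atTop (𝓝 (dist x (α x))) :=
      (hDc.tendsto x).comp hlim
    refine le_of_tendsto h1 ?_
    filter_upwards [eventually_ge_atTop k0] with k hk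
    rw [hxs]
    exact (hk0 (φ k) (hk.trans (hφ.id_le k)) (σ (v (φ k))) (hC0 _)).le

end LibNC38
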