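import Pool.Agent.LibNC38.F1a

set_option autoImplicit false

open Matrix MeasureTheory Topology Filter Finset

namespace LibNC38

/-- Row F1. Lower bound for the displacement `μ = dr ρ x (act α x)` from F1a:
`2 ‖z‖ = 2 ‖Pr (act α x) - Pr x‖ ≤ dg x (act α x) ≤ ∑ dg (q j) (q (j+1)) ≤ (μ/N) ∑ 1 / m j`,
`m j = 1 + t j`, `t j = δ (ψ j - E)`, `|t j| ≤ δ (1 + E) ≤ 1/2` (`0 ≤ E` as `ε ≥ 0`: take `x' = x`
in `hε`), and `1 / (1 + t) ≤ 1 - t + 2 t²` for `|t| ≤ 1/2`. -/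
theorem lower_bd {n : ℕ} (ρ : PD n → ℝ) (c2 : ℝ) (h : Gd ρ 1 c2) (α : SL n) (z : V0 n)
    (hz : IsLog α z) (hρα : ∀ x, ρ (act α x) = ρ x) (ψ : PD n → ℝ) (h0 : ∀ x, 0 ≤ ψ x)
    (h1 : ∀ x, ψ x ≤ 1) (C : ℝ) (hC : 0 ≤ C) (hψ : ∀ x x', ψ x - ψ x' ≤ C * dg x x') (δ : ℝ)
    (hδ : 0 < δ) (hρψ : ∀ x, 1 + δ * ψ x ≤ ρ x) (x : PD n) (N : ℕ) (hN : 0 < N) (ε : ℝ)
    (hε : ∀ x', dg x' (act α x') ≤ dr ρ x (act α x) → dg x' (sg (Pr x')) ≤ ε) (E : ℝ)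
    (hE : E = C * (ε + √ (dr ρ x (act α x) ^ 2 / 4 - ‖z‖ ^ 2) + dr ρ x (act α x) / N))
    (hδE : δ * (1 + E) ≤ 1 / 2) :
    2 * ‖z‖ ≤ dr ρ x (act α x) * (1 - δ * ((∑ j ∈ range N,
      ψ (sg (Pr x + ((j : ℝ) / N) • z))) / N - E) + 2 * δ ^ 2 * (1 + E) ^ 2) := by
  have hμ0 : 0 ≤ dr ρ x (act α x) := (dr_facts ρ 1 c2 h).2.1 _ _
  obtain ⟨d0, dself, dsymm, dtri⟩ := dg_facts (n := n)
  have hcomp := (dr_comp ρ 1 c2 h).1
  have hε0 : 0 ≤ ε := (d0 _ _).trans (hε x (by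
    have h2 := hcomp x (act α x)
    rwa [one_mul] at h2))
  have hN' : (0 : ℝ) < N := by exact_mod_cast hN
  have hE0 : 0 ≤ E := by
    rw [hE]
    exact mul_nonneg hC (add_nonneg (add_nonneg hε0 (Real.sqrt_nonneg _)) (div_nonneg hμ0 hN'.le))
  have ht : ∀ j : ℕ, |δ * (ψ (sg (Pr x + ((j : ℝ) / N) • z)) - E)| ≤ δ * (1 + E) := by
    intro j
    rw [abs_mul, abs_of_pos hδ]
    refine mul_le_mul_of_nonneg_left ?_ hδ.le
    rw [abs_le]
    constructor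
    · linarith [h0 (sg (Pr x + ((j : ℝ) / N) • z))]
    · linarith [h1 (sg (Pr x + ((j : ℝ) / N) • z))]
  obtain ⟨q, hq0, hqN, hq⟩ := chain_facts ρ c2 h α z hz hρα ψ C hC hψ δ hδ hρψ x N hN ε hε E hE
    (by
      intro j _
      have h2 := (abs_le.1 (ht j)).1
      linarith)
  have htri : ∀ m : ℕ, dg (q 0) (q m) ≤ ∑ j ∈ range m, dg (q j) (q (j + 1)) := by
    intro m
    induction m with
    | zero => rw [dself, Finset.sum_range_zero]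
    | succ m ih =>
      rw [Finset.sum_range_succ]
      exact (dtri _ (q m) _).trans (by linarith)
  have hstep : ∀ j ∈ range N, dg (q j) (q (j + 1)) ≤ dr ρ x (act α x) / N *
      (1 - δ * (ψ (sg (Pr x + ((j : ℝ) / N) • z)) - E) + 2 * (δ * (1 + E)) ^ 2) := by
    intro j hj
    have hj' := hq j (Finset.mem_range.1 hj)
    have hD := d0 (q j) (q (j + 1))
    have ht' := ht j
    obtain ⟨t, htt⟩ : ∃ t, t = δ * (ψ (sg (Pr x + ((j : ℝ) / N) • z)) - E) := ⟨_, rfl⟩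
    rw [← htt] at hj' ht' ⊢
    have hM : 0 ≤ dr ρ x (act α x) / N := div_nonneg hμ0 hN'.le
    generalize dr ρ x (act α x) / N = M at *
    generalize dg (q j) (q (j + 1)) = D at *
    have ht2 : -(1 / 2) ≤ t := by linarith [(abs_le.1 ht').1]
    have ht3 : t ^ 2 ≤ (δ * (1 + E)) ^ 2 := by
      rw [← sq_abs t]
      exact pow_le_pow_left₀ (abs_nonneg t) ht' 2
    have e1 : 1 ≤ (1 + t) * (1 - t + 2 * t ^ 2) := by
      have e2 : (1 + t) * (1 - t + 2 * t ^ 2) = 1 + t ^ 2 * (1 + 2 * t) := by ring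
      have e3 : 0 ≤ t ^ 2 * (1 + 2 * t) := mul_nonneg (sq_nonneg t) (by linarith)
      linarith
    have e4 : 0 ≤ 1 - t + 2 * t ^ 2 := by nlinarith [sq_nonneg (4 * t - 1)]
    calc D = D * 1 := (mul_one D).symm
      _ ≤ D * ((1 + t) * (1 - t + 2 * t ^ 2)) := mul_le_mul_of_nonneg_left e1 hD
      _ = ((1 + t) * D) * (1 - t + 2 * t ^ 2) := by ring
      _ ≤ M * (1 - t + 2 * t ^ 2) := mul_le_mul_of_nonneg_right hj' e4
      _ ≤ M * (1 - t + 2 * (δ * (1 + E)) ^ 2) := mul_le_mul_of_nonneg_left (by linarith) hM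
  have hz2 : 2 * ‖z‖ ≤ dg x (act α x) := by
    have h2 := Pr_lip_dg x (act α x)
    rw [Pr_facts.2.2.2.2 α z hz x, add_sub_cancel_left] at h2
    exact h2
  have h3 := htri N
  rw [hq0, hqN] at h3
  refine hz2.trans (h3.trans ((Finset.sum_le_sum hstep).trans (le_of_eq ?_)))
  rw [← Finset.mul_sum, Finset.sum_add_distrib, Finset.sum_sub_distrib, ← Finset.mul_sum,
    Finset.sum_sub_distrib, Finset.sum_const, Finset.sum_const, Finset.sum_const, Finset.card_range,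
    nsmul_eq_mul, nsmul_eq_mul, nsmul_eq_mul]
  field_simp

end LibNC38
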