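import Pool.Agent.LibNC38.C4
import Pool.Agent.LibNC38.C6

set_option autoImplicit false

open Matrix MeasureTheory Topology Filter Finset

namespace LibNC38

private theorem act_one_aux {n : ℕ} (p : PD n) : act (1 : SL n) p = p := by
  apply Subtype.ext
  simp [act]

private theorem flat_aux {n : ℕ} (y w : V0 n) : dg (sg y) (sg w) = 2 * ‖y - w‖ := by
  have h := dg_flat (1 : SL n) y w
  rwa [act_one_aux, act_one_aux] at h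

private theorem stewart {F : Type*} [NormedAddCommGroup F] [InnerProductSpace ℝ F] (a z : F)
    (τ μ : ℝ) (h0 : 0 ≤ τ) (h1 : τ ≤ 1)
    (ha : 2 * ‖a‖ ≤ τ * μ) (hb : 2 * ‖a - z‖ ≤ (1 - τ) * μ) :
    2 * ‖a - τ • z‖ ≤ √ (μ ^ 2 / 4 - ‖z‖ ^ 2) := by
  have e1 : ‖a - τ • z‖ ^ 2 = ‖a‖ ^ 2 - 2 * (τ * inner ℝ a z) + τ ^ 2 * ‖z‖ ^ 2 := by
    rw [norm_sub_sq_real, real_inner_smul_right, norm_smul, mul_pow, Real.norm_eq_abs, sq_abs]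
  have e2 : ‖a - z‖ ^ 2 = ‖a‖ ^ 2 - 2 * inner ℝ a z + ‖z‖ ^ 2 := norm_sub_sq_real a z
  have e3 : ‖a - τ • z‖ ^ 2 = (1 - τ) * ‖a‖ ^ 2 + τ * ‖a - z‖ ^ 2 - τ * (1 - τ) * ‖z‖ ^ 2 := by
    rw [e1, e2]; ring
  have hA : ‖a‖ ^ 2 ≤ (τ * μ / 2) ^ 2 := by
    apply pow_le_pow_left₀ (norm_nonneg a)
    linarith
  have hB : ‖a - z‖ ^ 2 ≤ ((1 - τ) * μ / 2) ^ 2 := by
    apply pow_le_pow_left₀ (norm_nonneg _)
    linarith
  have hz : ‖z‖ ≤ μ / 2 := by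
    have : z = a - (a - z) := by abel
    have h2 : ‖z‖ ≤ ‖a‖ + ‖a - z‖ := by
      calc ‖z‖ = ‖a - (a - z)‖ := by rw [← this]
        _ ≤ _ := norm_sub_le _ _
    linarith
  have hnn : 0 ≤ μ ^ 2 / 4 - ‖z‖ ^ 2 := by nlinarith [norm_nonneg z]
  have h5 : ‖a - τ • z‖ ^ 2 ≤ τ * (1 - τ) * (μ ^ 2 / 4 - ‖z‖ ^ 2) := by
    rw [e3]
    have h6 := mul_le_mul_of_nonneg_left hA (sub_nonneg.2 h1)
    have h7 := mul_le_mul_of_nonneg_left hB h0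
    nlinarith
  have h8 : τ * (1 - τ) ≤ 1 / 4 := by nlinarith [sq_nonneg (τ - 1 / 2)]
  have h9 : (2 * ‖a - τ • z‖) ^ 2 ≤ μ ^ 2 / 4 - ‖z‖ ^ 2 := by
    have := mul_le_mul_of_nonneg_right h8 hnn
    nlinarith
  exact Real.le_sqrt_of_sq_le h9

/-- Row F1a. The chain. `μ = dr ρ x (act α x)`, `c` a minimizing geodesic from `x` to `act α x`
(C6), `q j = c (j μ / N)`. `dg ≤ dr ρ` (C2, `c1 = 1`).
(a) `dr ρ (q j) (act α (q j)) ≤ dr ρ (q j) (act α x) + dr ρ x (q j) = μ` (C1 dr_act), so by `hε`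
`dg (q j) (sg (Pr (q j))) ≤ ε`. (b) `2 ‖Pr (q j) - Pr x‖ ≤ (j/N) μ`,
`2 ‖Pr x + z - Pr (q j)‖ ≤ (1 - j/N) μ` (Pr_lip_dg, B2) give (Stewart identity
`‖u - τ z‖² = (1-τ) ‖u‖² + τ ‖u - z‖² - τ (1-τ) ‖z‖²`)
`4 ‖Pr (q j) - Pr x - (j/N) z‖² ≤ μ²/4 - ‖z‖²`.
(c) so `dg (q j) (sg (Pr x + (j/N) z)) ≤ ε + √(μ²/4 - ‖z‖²)` (dg_flat with `g = 1`), and on the
`dg`-ball of radius `μ/N` around `q j`: `ψ ≥ ψ (sg (Pr x + (j/N) z)) - E`, so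
`ρ ≥ 1 + δ (ψ j - E) =: m j > 0`, and C4 gives `m j * dg (q j) (q (j+1)) ≤ μ/N`. -/
theorem chain_facts {n : ℕ} (ρ : PD n → ℝ) (c2 : ℝ) (h : Gd ρ 1 c2) (α : SL n) (z : V0 n)
    (hz : IsLog α z) (hρα : ∀ x, ρ (act α x) = ρ x) (ψ : PD n → ℝ)
    (C : ℝ) (hC : 0 ≤ C) (hψ : ∀ x x', ψ x - ψ x' ≤ C * dg x x') (δ : ℝ)
    (hδ : 0 < δ) (hρψ : ∀ x, 1 + δ * ψ x ≤ ρ x) (x : PD n) (N : ℕ) (hN : 0 < N) (ε : ℝ)
    (hε : ∀ x', dg x' (act α x') ≤ dr ρ x (act α x) → dg x' (sg (Pr x')) ≤ ε) (E : ℝ)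
    (hE : E = C * (ε + √ (dr ρ x (act α x) ^ 2 / 4 - ‖z‖ ^ 2) + dr ρ x (act α x) / N))
    (hm : ∀ j < N, 0 ≤ 1 + δ * (ψ (sg (Pr x + ((j : ℝ) / N) • z)) - E)) :
    ∃ q : ℕ → PD n, q 0 = x ∧ q N = act α x ∧ ∀ j < N,
      (1 + δ * (ψ (sg (Pr x + ((j : ℝ) / N) • z)) - E)) * dg (q j) (q (j + 1)) ≤
        dr ρ x (act α x) / N := by
  obtain ⟨-, hnn, -, hsymm, htri, -, -⟩ := dr_facts ρ 1 c2 h
  obtain ⟨-, -, gsymm, gtri⟩ := @dg_facts n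
  obtain ⟨hlow, -, -⟩ := dr_comp ρ 1 c2 h
  have hlow' : ∀ p q, dg p q ≤ dr ρ p q := fun p q => by simpa using hlow p q
  obtain ⟨c, hc0, hc1, hc⟩ := dr_geod ρ 1 c2 h x (act α x)
  generalize hμ : dr ρ x (act α x) = μ at *
  have hμ0 : 0 ≤ μ := by rw [← hμ]; exact hnn _ _
  have hN' : (0 : ℝ) < N := by exact_mod_cast hN
  have hNμ : (N : ℝ) * (μ / N) = μ := by field_simp
  have hmemj : ∀ j : ℕ, j ≤ N → (j : ℝ) * (μ / N) ∈ Set.Icc 0 μ := by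
    intro j hj
    refine ⟨by positivity, ?_⟩
    have h1 : (j : ℝ) ≤ N := by exact_mod_cast hj
    calc (j : ℝ) * (μ / N) ≤ N * (μ / N) := mul_le_mul_of_nonneg_right h1 (by positivity)
      _ = μ := hNμ
  have h0mem : (0 : ℝ) ∈ Set.Icc 0 μ := ⟨le_rfl, hμ0⟩
  have hμmem : μ ∈ Set.Icc 0 μ := ⟨hμ0, le_rfl⟩
  refine ⟨fun j => c (j * (μ / N)), by simp [hc0], by simp only [hNμ, hc1], fun j hj => ?_⟩
  show (1 + δ * (ψ (sg (Pr x + ((j : ℝ) / N) • z)) - E)) *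
    dg (c (j * (μ / N))) (c (((j + 1 : ℕ) : ℝ) * (μ / N))) ≤ μ / N
  have hjm := hmemj j hj.le
  have hjm1 := hmemj (j + 1) hj
  -- distances along the geodesic
  have d0 : dr ρ x (c (j * (μ / N))) = j * (μ / N) := by
    have := hc 0 h0mem _ hjm
    rwa [hc0, zero_sub, abs_neg, abs_of_nonneg hjm.1] at this
  have d1 : dr ρ (c (j * (μ / N))) (act α x) = μ - j * (μ / N) := by
    have := hc _ hjm μ hμmem
    rwa [hc1, abs_sub_comm, abs_of_nonneg (sub_nonneg.2 hjm.2)] at this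
  have d2 : dr ρ (c (j * (μ / N))) (c (((j + 1 : ℕ) : ℝ) * (μ / N))) = μ / N := by
    rw [hc _ hjm _ hjm1]
    have : (j : ℝ) * (μ / N) - ((j + 1 : ℕ) : ℝ) * (μ / N) = - (μ / N) := by push_cast; ring
    rw [this, abs_neg, abs_of_nonneg (by positivity)]
  generalize hq : c (j * (μ / N)) = q at *
  generalize hq' : c (((j + 1 : ℕ) : ℝ) * (μ / N)) = q' at *
  -- (a)
  have ha1 : dr ρ q (act α q) ≤ μ := by
    have h1 := htri q (act α x) (act α q)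
    rw [dr_act ρ ρ 1 c2 h α hρα, d1, d0] at h1
    linarith
  have ha2 : dg q (sg (Pr q)) ≤ ε := hε q ((hlow' _ _).trans ha1)
  -- (b)
  have hτ0 : 0 ≤ (j : ℝ) / N := by positivity
  have hτ1 : (j : ℝ) / N ≤ 1 := by
    rw [div_le_one hN']
    exact_mod_cast hj.le
  have hPα : Pr (act α x) = Pr x + z := Pr_facts.2.2.2.2 α z hz x
  have e4 : (j : ℝ) * (μ / N) = (j : ℝ) / N * μ := by ring
  have hb1 : 2 * ‖Pr q - Pr x‖ ≤ (j : ℝ) / N * μ := by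
    have h1 := Pr_lip_dg x q
    have h2 := hlow' x q
    rw [d0, e4] at h2
    exact h1.trans h2
  have hb2 : 2 * ‖(Pr q - Pr x) - z‖ ≤ (1 - (j : ℝ) / N) * μ := by
    have h1 := Pr_lip_dg q (act α x)
    have h2 := hlow' q (act α x)
    rw [d1, e4] at h2
    have h3 : ‖(Pr q - Pr x) - z‖ = ‖Pr (act α x) - Pr q‖ := by
      rw [hPα, ← norm_neg]
      congr 1
      abel
    rw [h3]
    linarith
  have hb3 : 2 * ‖Pr q - Pr x - ((j : ℝ) / N) • z‖ ≤ √ (μ ^ 2 / 4 - ‖z‖ ^ 2) :=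
    stewart (Pr q - Pr x) z ((j : ℝ) / N) μ hτ0 hτ1 hb1 hb2
  -- (c)
  have hc3 : dg q (sg (Pr x + ((j : ℝ) / N) • z)) ≤ ε + √ (μ ^ 2 / 4 - ‖z‖ ^ 2) := by
    have h1 := gtri q (sg (Pr q)) (sg (Pr x + ((j : ℝ) / N) • z))
    rw [flat_aux] at h1
    have h2 : Pr q - (Pr x + ((j : ℝ) / N) • z) = Pr q - Pr x - ((j : ℝ) / N) • z := by abel
    rw [h2] at h1
    linarith
  have hR : ∀ x', dg q x' ≤ μ / N →
      1 + δ * (ψ (sg (Pr x + ((j : ℝ) / N) • z)) - E) ≤ ρ x' := by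
    intro x' hx'
    refine le_trans ?_ (hρψ x')
    have h1 := hψ (sg (Pr x + ((j : ℝ) / N) • z)) x'
    have h2 := gtri (sg (Pr x + ((j : ℝ) / N) • z)) q x'
    rw [gsymm (sg (Pr x + ((j : ℝ) / N) • z)) q] at h2
    have h3 : C * dg (sg (Pr x + ((j : ℝ) / N) • z)) x' ≤ E := by
      rw [hE]
      apply mul_le_mul_of_nonneg_left _ hC
      linarith
    have h4 : ψ (sg (Pr x + ((j : ℝ) / N) • z)) - E ≤ ψ x' := by linarith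
    have h5 := mul_le_mul_of_nonneg_left h4 hδ.le
    linarith
  have h6 := loc_low ρ 1 c2 h q q' (μ / N) _ (hm j hj) hR ((hlow' q q').trans d2.le)
  rw [d2] at h6
  exact h6

end LibNC38
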