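import Pool.Agent.LibNC38.F2b
import Pool.Agent.LibNC38.B1

set_option autoImplicit false

open Matrix MeasureTheory Topology Filter Finset

namespace LibNC38

private theorem riemann (f : ℝ → ℝ) (hf : Continuous f) :
    Tendsto (fun N : ℕ => (∑ j ∈ range N, f ((j : ℝ) / N)) / N) atTop
      (𝓝 (∫ s in (0 : ℝ)..1, f s)) := by
  have huc := isCompact_Icc (a := (0 : ℝ)) (b := 1) |>.uniformContinuousOn_of_continuous
    hf.continuousOn
  rw [Metric.uniformContinuousOn_iff] at huc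
  rw [Metric.tendsto_atTop]
  intro ε hε
  obtain ⟨δ, hδ, h⟩ := huc (ε / 2) (by positivity)
  obtain ⟨M, hM⟩ := exists_nat_gt (1 / δ)
  refine ⟨M + 1, fun N hN => ?_⟩
  have hN0 : (0 : ℝ) < N := by
    have : (0 : ℕ) < N := by omega
    exact_mod_cast this
  have hNδ : 1 / (N : ℝ) < δ := by
    have h1 : (M : ℝ) ≤ N := by
      have : M ≤ N := by omega
      exact_mod_cast this
    have h2 : 1 / δ < N := lt_of_lt_of_le hM h1
    rw [div_lt_iff₀ hδ] at h2
    rw [div_lt_iff₀ hN0]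
    linarith
  have hint : ∀ a b : ℝ, IntervalIntegrable f volume a b := fun a b => hf.intervalIntegrable a b
  have hsum : (∫ s in (0 : ℝ)..1, f s) =
      ∑ j ∈ range N, ∫ s in ((j : ℝ) / N)..(((j + 1 : ℕ) : ℝ) / N), f s := by
    have := intervalIntegral.sum_integral_adjacent_intervals (μ := volume) (f := f)
      (a := fun j : ℕ => (j : ℝ) / N) (n := N) (fun k _ => hint _ _)
    rw [this]
    simp only [Nat.cast_zero, zero_div]
    rw [div_self hN0.ne']
  have hsum2 : (∑ j ∈ range N, f ((j : ℝ) / N)) / N =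
      ∑ j ∈ range N, ∫ s in ((j : ℝ) / N)..(((j + 1 : ℕ) : ℝ) / N), f ((j : ℝ) / N) := by
    rw [Finset.sum_div]
    refine Finset.sum_congr rfl fun j _ => ?_
    rw [intervalIntegral.integral_const, smul_eq_mul]
    push_cast
    field_simp
    ring
  rw [Real.dist_eq, hsum, hsum2, ← Finset.sum_sub_distrib]
  refine lt_of_le_of_lt (Finset.abs_sum_le_sum_abs _ _) ?_
  have hb : ∀ j ∈ range N, |(∫ s in ((j : ℝ) / N)..(((j + 1 : ℕ) : ℝ) / N), f ((j : ℝ) / N)) -
      ∫ s in ((j : ℝ) / N)..(((j + 1 : ℕ) : ℝ) / N), f s| ≤ ε / 2 * (1 / N) := by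
    intro j hj
    rw [Finset.mem_range] at hj
    rw [← intervalIntegral.integral_sub intervalIntegrable_const (hint _ _)]
    have hle : ((j : ℝ) / N) ≤ (((j + 1 : ℕ) : ℝ) / N) := by
      push_cast
      gcongr
      linarith
    have hwid : (((j + 1 : ℕ) : ℝ) / N) - ((j : ℝ) / N) = 1 / N := by
      push_cast
      ring
    have hj1 : (((j + 1 : ℕ) : ℝ) / N) ≤ 1 := by
      rw [div_le_one hN0]
      exact_mod_cast hj
    have hj0 : (0 : ℝ) ≤ (j : ℝ) / N := by positivity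
    have := intervalIntegral.norm_integral_le_of_norm_le_const (a := (j : ℝ) / N)
      (b := ((j + 1 : ℕ) : ℝ) / N) (f := fun s => f ((j : ℝ) / N) - f s) (C := ε / 2) (by
        intro s hs
        rw [Set.uIoc_of_le hle] at hs
        have hs0 : (j : ℝ) / N ≤ s := hs.1.le
        have hs1 : s ≤ ((j + 1 : ℕ) : ℝ) / N := hs.2
        have := h ((j : ℝ) / N) ⟨hj0, by linarith⟩ s ⟨by linarith, by linarith⟩ (by
          rw [Real.dist_eq, abs_lt]
          constructor <;> linarith)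
        rw [Real.dist_eq] at this
        rw [Real.norm_eq_abs]
        exact this.le)
    rw [Real.norm_eq_abs, hwid, abs_of_pos (by positivity : (0 : ℝ) < 1 / N)] at this
    exact this
  refine lt_of_le_of_lt (Finset.sum_le_sum hb) ?_
  rw [Finset.sum_const, Finset.card_range, nsmul_eq_mul]
  have : (N : ℝ) * (ε / 2 * (1 / N)) = ε / 2 := by field_simp
  rw [this]
  linarith

/-- Row F2c. The integral over the lines in the direction `z` is constant: Riemann sums
(`φ'` is Lipschitz: the sum differs from the integral by at most `2 C ‖z‖ / N`) and `avg_le` for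
`(y, y')` and `(y', y)`, `N → ∞`. -/
theorem xray_const {n : ℕ} (hn : 2 ≤ n) (Γ : Subgroup (SL n)) (C : ℝ) (φ : ℕ → PD n → ℝ)
    (φ' : PD n → ℝ) (δ : ℕ → ℝ) (h : Blow Γ C φ φ' δ) (α : SL n) (hα : α ∈ Γ) (z : V0 n)
    (hz : IsLog α z) (hr : Reg α) (R : ℝ)
    (hR : ∀ v : V0 n, ∃ γ ∈ Γ, ∃ w, IsLog γ w ∧ ‖v + w‖ ≤ R) :
    ∃ c, ∀ y : V0 n, ∫ s in (0 : ℝ)..1, φ' (sg (y + s • z)) = c := by
  obtain ⟨-, hc, -⟩ := blow_facts Γ C φ φ' δ h
  obtain ⟨-, -, -, -, -, -, -, -, hsg, -⟩ := @flat_facts n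
  have key : ∀ y y' : V0 n, ∫ s in (0 : ℝ)..1, φ' (sg (y + s • z)) ≤
      ∫ s in (0 : ℝ)..1, φ' (sg (y' + s • z)) := by
    intro y y'
    have h1 := riemann (fun s => φ' (sg (y + s • z)))
      (hc.comp (hsg.comp (continuous_const.add (continuous_id.smul continuous_const))))
    have h2 : Tendsto (fun N : ℕ => (∫ s in (0 : ℝ)..1, φ' (sg (y' + s • z))) +
        2 * C * ‖z‖ / N) atTop (𝓝 ((∫ s in (0 : ℝ)..1, φ' (sg (y' + s • z))) + 0)) :=
      tendsto_const_nhds.add (tendsto_const_div_atTop_nhds_zero_nat _)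
    rw [add_zero] at h2
    refine le_of_tendsto_of_tendsto h1 h2 ?_
    filter_upwards [eventually_gt_atTop 0] with N hN
    exact avg_le hn Γ C φ φ' δ h α hα z hz hr R hR y y' N hN
  exact ⟨∫ s in (0 : ℝ)..1, φ' (sg ((0 : V0 n) + s • z)), fun y => le_antisymm (key _ _) (key _ _)⟩

end LibNC38
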