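import Pool.Agent.LibNC38.C3

set_option autoImplicit false

open Matrix MeasureTheory Topology Filter Finset

namespace LibNC38

/-- data of a blow up sequence: `φ k → φ'` uniformly, all invariant under `Γ`, values in `[0,1]`,
`C`-Lipschitz, `δ k → 0`, and the metrics `exp (2 δ k φ k) g` have no conjugate points -/
structure Blow {n : ℕ} (Γ : Subgroup (SL n)) (C : ℝ) (φ : ℕ → PD n → ℝ) (φ' : PD n → ℝ)
    (δ : ℕ → ℝ) : Prop where
  C0 : 0 ≤ C
  pos : ∀ k, 0 < δ k
  lim : Tendsto δ atTop (𝓝 0)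
  nonneg : ∀ k x, 0 ≤ φ k x
  le_one : ∀ k x, φ k x ≤ 1
  lip : ∀ k x x', φ k x - φ k x' ≤ C * dg x x'
  inv : ∀ k, ∀ γ ∈ Γ, ∀ x, φ k (act γ x) = φ k x
  unif : ∀ ε > 0, ∀ᶠ k in atTop, ∀ x, |φ k x - φ' x| ≤ ε
  nc : ∀ k, NoConj (dr fun x => Real.exp (δ k * φ k x))

private theorem cont_of_lip {n : ℕ} (C : ℝ) (hC : 0 ≤ C) (f : PD n → ℝ)
    (h : ∀ x x', f x - f x' ≤ C * dg x x') : Continuous f := by
  obtain ⟨h0, h1, h2, h3⟩ := @dg_facts n
  rw [continuous_iff_continuousAt]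
  intro p
  rw [ContinuousAt, Metric.tendsto_nhds]
  intro ε hε
  have hC1 : 0 < C + 1 := by linarith
  filter_upwards [(dg_nhds p).2 (ε / (C + 1)) (by positivity)] with q hq
  rw [Real.dist_eq, abs_lt]
  have h4 : C * dg p q < ε := by
    calc C * dg p q ≤ (C + 1) * dg p q := by nlinarith [h0 p q]
      _ < (C + 1) * (ε / (C + 1)) := mul_lt_mul_of_pos_left hq hC1
      _ = ε := by field_simp
  have h5 := h p q
  have h6 := h q p
  rw [h2 q p] at h6
  constructor <;> linarith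

/-- Row F2a. Continuity and bounds: `φ k` and the limit are continuous (Lipschitz, dg_nhds), the
limit has the same properties, the conformal factor `exp (δ k φ k)` is admissible with bounds
`1`, `exp (δ k)` and is at least `1 + δ k φ k`. -/
theorem blow_facts {n : ℕ} (Γ : Subgroup (SL n)) (C : ℝ) (φ : ℕ → PD n → ℝ) (φ' : PD n → ℝ)
    (δ : ℕ → ℝ) (h : Blow Γ C φ φ' δ) :
    (∀ k, Continuous (φ k)) ∧ Continuous φ' ∧ (∀ x, 0 ≤ φ' x) ∧ (∀ x, φ' x ≤ 1) ∧
    (∀ x x', φ' x - φ' x' ≤ C * dg x x') ∧ (∀ γ ∈ Γ, ∀ x, φ' (act γ x) = φ' x) ∧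
    (∀ k, Gd (fun x => Real.exp (δ k * φ k x)) 1 (Real.exp (δ k))) ∧
    (∀ k x, 1 + δ k * φ k x ≤ Real.exp (δ k * φ k x)) := by
  have ht : ∀ x, Tendsto (fun k => φ k x) atTop (𝓝 (φ' x)) := by
    intro x
    rw [Metric.tendsto_nhds]
    intro ε hε
    filter_upwards [h.unif (ε / 2) (by positivity)] with k hk
    rw [Real.dist_eq]
    have := hk x
    linarith
  have hc : ∀ k, Continuous (φ k) := fun k => cont_of_lip C h.C0 (φ k) (h.lip k)
  have hl : ∀ x x', φ' x - φ' x' ≤ C * dg x x' := fun x x' =>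
    le_of_tendsto ((ht x).sub (ht x')) (Eventually.of_forall fun k => h.lip k x x')
  refine ⟨hc, cont_of_lip C h.C0 φ' hl, ?_, ?_, hl, ?_, ?_, ?_⟩
  · exact fun x => ge_of_tendsto (ht x) (Eventually.of_forall fun k => h.nonneg k x)
  · exact fun x => le_of_tendsto (ht x) (Eventually.of_forall fun k => h.le_one k x)
  · intro γ hγ x
    refine tendsto_nhds_unique (ht (act γ x)) ?_
    have h1 : (fun k => φ k (act γ x)) = fun k => φ k x := funext fun k => h.inv k γ hγ x
    rw [h1]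
    exact ht x
  · intro k
    refine ⟨?_, one_pos, ?_, ?_⟩
    · exact Real.continuous_exp.comp (continuous_const.mul (hc k))
    · intro x
      exact Real.one_le_exp (mul_nonneg (h.pos k).le (h.nonneg k x))
    · intro x
      apply Real.exp_le_exp.2
      have h1 := mul_le_mul_of_nonneg_left (h.le_one k x) (h.pos k).le
      linarith
  · intro k x
    have h1 := Real.add_one_le_exp (δ k * φ k x)
    linarith

end LibNC38
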