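import Mathlib

set_option autoImplicit false

open Topology Filter

namespace LibNC38

private theorem F2l_key (δ μ A X : ℕ → ℝ) (M C A' X' : ℝ) (N : ℕ) (hM : 0 < M)
    (hδ0 : ∀ k, 0 < δ k) (hδ : Tendsto δ atTop (𝓝 0)) (hA : Tendsto A atTop (𝓝 A'))
    (hX : Tendsto X atTop (𝓝 X')) (h1 : ∀ k, 2 * M ≤ μ k)
    (h2 : ∀ᶠ k in atTop, μ k ≤ 2 * M * (1 + δ k * X k + δ k ^ 2)) (ε : ℝ)
    (h3 : ∀ᶠ k in atTop, ∀ E : ℝ, E = C * (ε + √ (μ k ^ 2 / 4 - M ^ 2) + μ k / N) →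
      δ k * (1 + E) ≤ 1 / 2 →
      2 * M ≤ μ k * (1 - δ k * (A k - E) + 2 * δ k ^ 2 * (1 + E) ^ 2)) :
    A' ≤ X' + C * (ε + 2 * M / N) := by
  have hup : Tendsto (fun k => 2 * M * (1 + δ k * X k + δ k ^ 2)) atTop
      (𝓝 (2 * M * (1 + 0 * X' + 0 ^ 2))) :=
    ((tendsto_const_nhds.add (hδ.mul hX)).add (hδ.pow 2)).const_mul _
  have hup' : Tendsto (fun k => 2 * M * (1 + δ k * X k + δ k ^ 2)) atTop (𝓝 (2 * M)) := by
    have e : 2 * M * (1 + 0 * X' + 0 ^ 2) = 2 * M := by ring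
    rw [e] at hup
    exact hup
  have hμ : Tendsto μ atTop (𝓝 (2 * M)) :=
    tendsto_of_tendsto_of_tendsto_of_le_of_le' tendsto_const_nhds hup'
      (Eventually.of_forall h1) h2
  have hs : Tendsto (fun k => √ (μ k ^ 2 / 4 - M ^ 2)) atTop (𝓝 0) := by
    have h4 : Tendsto (fun k => μ k ^ 2 / 4 - M ^ 2) atTop (𝓝 ((2 * M) ^ 2 / 4 - M ^ 2)) :=
      ((hμ.pow 2).div_const 4).sub tendsto_const_nhds
    have h5 := (Real.continuous_sqrt.tendsto _).comp h4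
    have e : (2 * M) ^ 2 / 4 - M ^ 2 = 0 := by ring
    rw [e, Real.sqrt_zero] at h5
    exact h5
  have hE : Tendsto (fun k => C * (ε + √ (μ k ^ 2 / 4 - M ^ 2) + μ k / N)) atTop
      (𝓝 (C * (ε + 2 * M / N))) := by
    have h4 : Tendsto (fun k => C * (ε + √ (μ k ^ 2 / 4 - M ^ 2) + μ k / N)) atTop
        (𝓝 (C * (ε + 0 + 2 * M / N))) :=
      ((tendsto_const_nhds.add hs).add (hμ.div_const _)).const_mul _
    rw [add_zero] at h4
    exact h4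
  set E : ℕ → ℝ := fun k => C * (ε + √ (μ k ^ 2 / 4 - M ^ 2) + μ k / N) with hEdef
  set E0 : ℝ := C * (ε + 2 * M / N) with hE0
  have hsm : Tendsto (fun k => δ k * (1 + E k)) atTop (𝓝 0) := by
    have h4 : Tendsto (fun k => δ k * (1 + E k)) atTop (𝓝 (0 * (1 + E0))) :=
      hδ.mul (tendsto_const_nhds.add hE)
    rw [zero_mul] at h4
    exact h4
  have hev : ∀ᶠ k in atTop, δ k * (1 + E k) ≤ 1 / 2 :=
    (hsm.eventually (gt_mem_nhds (show (0 : ℝ) < 1 / 2 by norm_num))).mono fun k hk => hk.le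
  -- the bracket
  have hb : Tendsto (fun k => -(A k - E k) + 2 * δ k * (1 + E k) ^ 2) atTop (𝓝 (-(A' - E0))) := by
    have h4 : Tendsto (fun k => -(A k - E k) + 2 * δ k * (1 + E k) ^ 2) atTop
        (𝓝 (-(A' - E0) + 2 * 0 * (1 + E0) ^ 2)) :=
      (hA.sub hE).neg.add ((hδ.const_mul 2).mul ((tendsto_const_nhds.add hE).pow 2))
    have e : -(A' - E0) + 2 * 0 * (1 + E0) ^ 2 = -(A' - E0) := by ring
    rw [e] at h4
    exact h4
  have hx : Tendsto (fun k => X k + δ k) atTop (𝓝 X') := by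
    have h4 := hX.add hδ
    rw [add_zero] at h4
    exact h4
  have hB : Tendsto (fun k => 1 + δ k * (-(A k - E k) + 2 * δ k * (1 + E k) ^ 2)) atTop (𝓝 1) := by
    have h4 : Tendsto (fun k => 1 + δ k * (-(A k - E k) + 2 * δ k * (1 + E k) ^ 2)) atTop
        (𝓝 (1 + 0 * (-(A' - E0)))) := tendsto_const_nhds.add (hδ.mul hb)
    rw [zero_mul, add_zero] at h4
    exact h4
  have hBpos : ∀ᶠ k in atTop, 0 < 1 + δ k * (-(A k - E k) + 2 * δ k * (1 + E k) ^ 2) :=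
    hB.eventually (lt_mem_nhds (show (0 : ℝ) < 1 by norm_num))
  have hlim : Tendsto (fun k => (X k + δ k) + (-(A k - E k) + 2 * δ k * (1 + E k) ^ 2) +
      δ k * ((X k + δ k) * (-(A k - E k) + 2 * δ k * (1 + E k) ^ 2))) atTop
      (𝓝 (X' + -(A' - E0))) := by
    have h4 : Tendsto (fun k => (X k + δ k) + (-(A k - E k) + 2 * δ k * (1 + E k) ^ 2) +
        δ k * ((X k + δ k) * (-(A k - E k) + 2 * δ k * (1 + E k) ^ 2))) atTop
        (𝓝 (X' + -(A' - E0) + 0 * (X' * (-(A' - E0))))) :=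
      (hx.add hb).add (hδ.mul (hx.mul hb))
    rw [zero_mul, add_zero] at h4
    exact h4
  have hfin : ∀ᶠ k in atTop, 0 ≤ (X k + δ k) + (-(A k - E k) + 2 * δ k * (1 + E k) ^ 2) +
      δ k * ((X k + δ k) * (-(A k - E k) + 2 * δ k * (1 + E k) ^ 2)) := by
    filter_upwards [h2, h3, hev, hBpos] with k k2 k3 k4 k5
    have k6 := k3 (E k) rfl k4
    have k7 : 1 - δ k * (A k - E k) + 2 * δ k ^ 2 * (1 + E k) ^ 2 =
        1 + δ k * (-(A k - E k) + 2 * δ k * (1 + E k) ^ 2) := by ring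
    rw [k7] at k6
    set b := -(A k - E k) + 2 * δ k * (1 + E k) ^ 2 with hbdef
    have k8 : μ k * (1 + δ k * b) ≤ 2 * M * (1 + δ k * X k + δ k ^ 2) * (1 + δ k * b) :=
      mul_le_mul_of_nonneg_right k2 k5.le
    have k9 : 2 * M * 1 ≤ 2 * M * ((1 + δ k * (X k + δ k)) * (1 + δ k * b)) := by
      have e : 2 * M * ((1 + δ k * (X k + δ k)) * (1 + δ k * b)) =
          2 * M * (1 + δ k * X k + δ k ^ 2) * (1 + δ k * b) := by ring
      rw [e]
      linarith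
    have k10 : 1 ≤ (1 + δ k * (X k + δ k)) * (1 + δ k * b) :=
      le_of_mul_le_mul_left k9 (by linarith)
    have k11 : 0 ≤ δ k * ((X k + δ k) + b + δ k * ((X k + δ k) * b)) := by
      have e : δ k * ((X k + δ k) + b + δ k * ((X k + δ k) * b)) =
          (1 + δ k * (X k + δ k)) * (1 + δ k * b) - 1 := by ring
      rw [e]
      linarith
    exact nonneg_of_mul_nonneg_right k11 (hδ0 k)
  have := ge_of_tendsto hlim hfin
  linarith

/-- Row F2l. Real analysis. `μ → 2 M` by `h1, h2`; so for fixed `ε` the number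
`E k = C (ε + √(μ²/4 - M²) + μ/N)` tends to `C (ε + 2 M / N)`, is bounded, and eventually
`δ (1 + E) ≤ 1/2`. Insert `h2` in `h3` (the bracket is positive for large `k`), divide by `2 M`:
`1 ≤ (1 + δ X + δ²) (1 - δ (A - E) + 2 δ² (1 + E)²)`, so `A - E ≤ X + O(δ)`; `k → ∞` gives
`A' ≤ X' + C (ε + 2 M / N)`, then `ε → 0`. -/
theorem lim_lemma (δ μ A X : ℕ → ℝ) (M C A' X' : ℝ) (N : ℕ) (hM : 0 < M) (hC : 0 ≤ C)
    (hN : 0 < N) (hδ0 : ∀ k, 0 < δ k) (hδ : Tendsto δ atTop (𝓝 0)) (hA : Tendsto A atTop (𝓝 A'))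
    (hX : Tendsto X atTop (𝓝 X')) (h1 : ∀ k, 2 * M ≤ μ k)
    (h2 : ∀ᶠ k in atTop, μ k ≤ 2 * M * (1 + δ k * X k + δ k ^ 2))
    (h3 : ∀ ε > 0, ∀ᶠ k in atTop, ∀ E : ℝ, E = C * (ε + √ (μ k ^ 2 / 4 - M ^ 2) + μ k / N) →
      δ k * (1 + E) ≤ 1 / 2 →
      2 * M ≤ μ k * (1 - δ k * (A k - E) + 2 * δ k ^ 2 * (1 + E) ^ 2)) :
    A' ≤ X' + 2 * C * M / N := by
  apply le_of_forall_pos_le_add
  intro ε hε
  have hC1 : 0 < C + 1 := by linarith
  have hε' : 0 < ε / (C + 1) := div_pos hε hC1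
  have hk := F2l_key δ μ A X M C A' X' N hM hδ0 hδ hA hX h1 h2 (ε / (C + 1)) (h3 _ hε')
  have e1 : C * (ε / (C + 1)) ≤ ε := by
    rw [← mul_div_assoc, div_le_iff₀ hC1]
    nlinarith
  have e2 : C * (ε / (C + 1) + 2 * M / N) = C * (ε / (C + 1)) + 2 * C * M / N := by ring
  rw [e2] at hk
  linarith

end LibNC38
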