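import Pool.Agent.LibNC38.C2

set_option autoImplicit false

open Matrix MeasureTheory Topology Filter

namespace LibNC38

/-- Row F2u. Upper bound: `dr_comp` (third part) and `exp t ≤ 1 + t + t²` for `0 ≤ t ≤ 1`. -/
theorem upper_bd {n : ℕ} (φ : PD n → ℝ) (hφ : Continuous φ) (h0 : ∀ x, 0 ≤ φ x)
    (h1 : ∀ x, φ x ≤ 1) (δ : ℝ) (hδ : 0 < δ) (hδ1 : δ ≤ 1) (y z : V0 n) :
    dr (fun x => Real.exp (δ * φ x)) (sg y) (sg (y + z)) ≤
      2 * ‖z‖ * (1 + δ * (∫ s in (0 : ℝ)..1, φ (sg (y + s • z))) + δ ^ 2) := by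
  have hρ : Continuous fun x : PD n => Real.exp (δ * φ x) :=
    Real.continuous_exp.comp (continuous_const.mul hφ)
  have hgd : Gd (fun x : PD n => Real.exp (δ * φ x)) 1 (Real.exp δ) := by
    refine ⟨hρ, one_pos, fun x => ?_, fun x => ?_⟩
    · exact Real.one_le_exp (mul_nonneg hδ.le (h0 x))
    · refine Real.exp_le_exp.2 ?_
      have := mul_le_mul_of_nonneg_left (h1 x) hδ.le
      linarith
  have hsg : Continuous (sg : V0 n → PD n) := (flat_facts (n := n)).2.2.2.2.2.2.2.2.1
  have hline : Continuous fun s : ℝ => sg (y + s • z) :=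
    hsg.comp (continuous_const.add (continuous_id.smul continuous_const))
  have hc1 : Continuous fun s : ℝ => Real.exp (δ * φ (sg (y + s • z))) := hρ.comp hline
  have hc2 : Continuous fun s : ℝ => φ (sg (y + s • z)) := hφ.comp hline
  have hc3 : Continuous fun s : ℝ => 1 + δ * φ (sg (y + s • z)) + δ ^ 2 :=
    (continuous_const.add (continuous_const.mul hc2)).add continuous_const
  refine ((dr_comp _ 1 (Real.exp δ) hgd).2.2 y z).trans ?_
  refine mul_le_mul_of_nonneg_left ?_ (by positivity)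
  have hpt : ∀ s : ℝ, Real.exp (δ * φ (sg (y + s • z))) ≤
      1 + δ * φ (sg (y + s • z)) + δ ^ 2 := by
    intro s
    have ht0 : 0 ≤ δ * φ (sg (y + s • z)) := mul_nonneg hδ.le (h0 _)
    have ht1 : δ * φ (sg (y + s • z)) ≤ δ := by
      have := mul_le_mul_of_nonneg_left (h1 (sg (y + s • z))) hδ.le
      linarith
    have hab : |δ * φ (sg (y + s • z))| ≤ 1 := by
      rw [abs_of_nonneg ht0]
      linarith
    have h2 := Real.abs_exp_sub_one_sub_id_le hab
    have h3 := (abs_le.1 h2).2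
    have h4 : (δ * φ (sg (y + s • z))) ^ 2 ≤ δ ^ 2 := pow_le_pow_left₀ ht0 ht1 2
    linarith
  have hmono := intervalIntegral.integral_mono (μ := volume) (a := 0) (b := 1) zero_le_one
    (hc1.intervalIntegrable 0 1) (hc3.intervalIntegrable 0 1) hpt
  refine hmono.trans (le_of_eq ?_)
  have e1 : ∫ u in (0 : ℝ)..1, (1 + δ * φ (sg (y + u • z)) + δ ^ 2) =
      (∫ u in (0 : ℝ)..1, (1 + δ * φ (sg (y + u • z)))) + ∫ u in (0 : ℝ)..1, δ ^ 2 :=
    intervalIntegral.integral_add ((continuous_const.add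
      (continuous_const.mul hc2)).intervalIntegrable 0 1) (continuous_const.intervalIntegrable 0 1)
  have e2 : ∫ u in (0 : ℝ)..1, (1 + δ * φ (sg (y + u • z))) =
      (∫ u in (0 : ℝ)..1, (1 : ℝ)) + ∫ u in (0 : ℝ)..1, δ * φ (sg (y + u • z)) :=
    intervalIntegral.integral_add (continuous_const.intervalIntegrable 0 1)
      ((continuous_const.mul hc2).intervalIntegrable 0 1)
  rw [e1, e2, intervalIntegral.integral_const_mul, intervalIntegral.integral_const,
    intervalIntegral.integral_const]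
  simp

end LibNC38
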