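import Pool.Agent.LibNC38.F0
import Pool.Agent.LibNC38.F2a
import Pool.Agent.LibNC38.F2l
import Pool.Agent.LibNC38.F2u
import Pool.Agent.LibNC38.F1
import Pool.Agent.LibNC38.D4

set_option autoImplicit false

open Matrix MeasureTheory Topology Filter Finset

namespace LibNC38

private theorem F2b_pos {n : ℕ} (hn : 2 ≤ n) (α : SL n) (z : V0 n) (hz : IsLog α z) (hr : Reg α) :
    0 < ‖z‖ := by
  rw [norm_pos_iff]
  intro h0
  have hdiag : α.1 = Matrix.diagonal fun i => α.1 i i := by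
    ext i j
    by_cases hij : i = j
    · subst hij
      simp
    · rw [Matrix.diagonal_apply_ne _ hij]
      exact hz.1 i j hij
  have hdet : ∏ i, α.1 i i = 1 := by
    have h1 := α.2
    rw [hdiag, Matrix.det_diagonal] at h1
    exact h1
  have hne : ∀ i, α.1 i i ≠ 0 := by
    intro i hi
    have h1 : ∏ i, α.1 i i = 0 := Finset.prod_eq_zero (Finset.mem_univ i) hi
    exact zero_ne_one (h1.symm.trans hdet)
  have habs : ∀ i, |α.1 i i| = 1 := by
    intro i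
    have h1 := hz.2 i
    rw [h0] at h1
    have h2 : Real.log |α.1 i i| = 0 := by
      rw [← h1]
      rfl
    have h3 : 0 < |α.1 i i| := abs_pos.mpr (hne i)
    exact Real.eq_one_of_pos_of_log_eq_zero h3 h2
  have h01 : (⟨0, by omega⟩ : Fin n) ≠ ⟨1, by omega⟩ := by
    intro h
    have := congrArg Fin.val h
    simp at this
  exact hr _ _ h01 ((habs _).trans (habs _).symm)

private theorem F2b_line {n : ℕ} (ψ : PD n → ℝ) (hψ : Continuous ψ) (y z : V0 n) :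
    Continuous fun s : ℝ => ψ (sg (y + s • z)) := by
  obtain ⟨-, -, -, -, -, -, -, -, hsg, -⟩ := flat_facts (n := n)
  exact hψ.comp (hsg.comp (continuous_const.add (continuous_id.smul continuous_const)))

/-- Row F2b. For fixed `N` the average over `N` points on the line through `y` is at most the
integral over the line through `y'` plus `2 C ‖z‖ / N`. For every `k` let `x k` be the point of
F0 with `Pr (x k) = y`, minimal displacement `μ k`. `2 ‖z‖ ≤ μ k` (dg_flat..: `2 ‖z‖ =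
2 ‖Pr (act α x) - Pr x‖ ≤ dg ≤ dr ρ`) and (C2, `sg (y' + z) = act α (sg y')`)
`μ k ≤ 2 ‖z‖ ∫ exp (δ k φ k (sg (y' + s z)))) ≤ 2 ‖z‖ (1 + δ k X k + δ k ^ 2)` for `δ k ≤ 1`,
`X k = ∫ φ k (sg (y' + s z))`. In particular `μ k → 2 ‖z‖`. For `ε > 0` D4b gives `η`, and for
large `k` `μ k ≤ 2 ‖z‖ + η`, so the hypothesis `hε` of F1 holds with this `ε`. F1 with
`ψ = φ k`, `δ = δ k`: combining, dividing by `δ k` and letting `k → ∞`, then `ε → 0`. -/
theorem avg_le {n : ℕ} (hn : 2 ≤ n) (Γ : Subgroup (SL n)) (C : ℝ) (φ : ℕ → PD n → ℝ)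
    (φ' : PD n → ℝ) (δ : ℕ → ℝ) (h : Blow Γ C φ φ' δ) (α : SL n) (hα : α ∈ Γ) (z : V0 n)
    (hz : IsLog α z) (hr : Reg α) (R : ℝ)
    (hR : ∀ v : V0 n, ∃ γ ∈ Γ, ∃ w, IsLog γ w ∧ ‖v + w‖ ≤ R) (y y' : V0 n) (N : ℕ) (hN : 0 < N) :
    (∑ j ∈ range N, φ' (sg (y + ((j : ℝ) / N) • z))) / N ≤
      (∫ s in (0 : ℝ)..1, φ' (sg (y' + s • z))) + 2 * C * ‖z‖ / N := by
  have hM : 0 < ‖z‖ := F2b_pos hn α z hz hr
  obtain ⟨hφc, hφ'c, -, -, -, -, hGd, hexp⟩ := blow_facts Γ C φ φ' δ h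
  -- points of minimal displacement
  have hinv : ∀ k, ∀ γ ∈ Γ, ∀ x, Real.exp (δ k * φ k (act γ x)) = Real.exp (δ k * φ k x) := by
    intro k γ hγ x
    rw [h.inv k γ hγ x]
  have hpt : ∀ k, ∃ x, Pr x = y ∧ ∀ x', dr (fun x => Real.exp (δ k * φ k x)) x (act α x) ≤
      dr (fun x => Real.exp (δ k * φ k x)) x' (act α x') := fun k =>
    propA_dr hn (fun x => Real.exp (δ k * φ k x)) 1 (Real.exp (δ k)) (hGd k) (h.nc k) Γ
      (hinv k) α hα z hz hr R hR y
  choose x hxy hmin using hpt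
  obtain ⟨μ, hμ⟩ : ∃ μ : ℕ → ℝ, ∀ k, μ k = dr (fun x => Real.exp (δ k * φ k x)) (x k) (act α (x k)) :=
    ⟨_, fun _ => rfl⟩
  have hpw : ∀ p, Tendsto (fun k => φ k p) atTop (𝓝 (φ' p)) := by
    intro p
    rw [Metric.tendsto_nhds]
    intro ε hε
    filter_upwards [h.unif (ε / 2) (half_pos hε)] with k hk
    rw [Real.dist_eq]
    exact lt_of_le_of_lt (hk p) (half_lt_self hε)
  -- the averages
  have hA : Tendsto (fun k => (∑ j ∈ range N, φ k (sg (y + ((j : ℝ) / N) • z))) / N) atTop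
      (𝓝 ((∑ j ∈ range N, φ' (sg (y + ((j : ℝ) / N) • z))) / N)) :=
    (tendsto_finsetSum _ fun j _ => hpw _).div_const _
  have hint : ∀ ψ : PD n → ℝ, Continuous ψ →
      IntervalIntegrable (fun s : ℝ => ψ (sg (y' + s • z))) volume 0 1 := fun ψ hψ =>
    (F2b_line ψ hψ y' z).intervalIntegrable _ _
  have hX : Tendsto (fun k => ∫ s in (0 : ℝ)..1, φ k (sg (y' + s • z))) atTop
      (𝓝 (∫ s in (0 : ℝ)..1, φ' (sg (y' + s • z)))) := by
    rw [Metric.tendsto_nhds]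
    intro ε hε
    filter_upwards [h.unif (ε / 2) (half_pos hε)] with k hk
    rw [Real.dist_eq, ← intervalIntegral.integral_sub (hint _ (hφc k)) (hint _ hφ'c)]
    have h1 : ‖∫ s in (0 : ℝ)..1, (φ k (sg (y' + s • z)) - φ' (sg (y' + s • z)))‖ ≤
        ε / 2 * |(1 : ℝ) - 0| :=
      intervalIntegral.norm_integral_le_of_norm_le_const fun s _ => hk _
    rw [Real.norm_eq_abs] at h1
    rw [sub_zero, abs_one, mul_one] at h1
    linarith
  have hX01 : ∀ k, 0 ≤ (∫ s in (0 : ℝ)..1, φ k (sg (y' + s • z))) ∧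
      (∫ s in (0 : ℝ)..1, φ k (sg (y' + s • z))) ≤ 1 := by
    intro k
    refine ⟨intervalIntegral.integral_nonneg zero_le_one fun s _ => h.nonneg k _, ?_⟩
    have h1 : (∫ s in (0 : ℝ)..1, φ k (sg (y' + s • z))) ≤ ∫ _ in (0 : ℝ)..1, (1 : ℝ) :=
      intervalIntegral.integral_mono_on zero_le_one (hint _ (hφc k))
        (by simp) fun s _ => h.le_one k _
    simpa using h1
  obtain ⟨-, -, -, -, hPract⟩ := Pr_facts (n := n)
  obtain ⟨-, -, -, hactsg, -⟩ := flat_facts (n := n)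
  have hlow : ∀ k, 2 * ‖z‖ ≤ μ k := by
    intro k
    have h1 := Pr_lip_dg (x k) (act α (x k))
    rw [hPract α z hz, add_sub_cancel_left] at h1
    have h2 := (dr_comp _ _ _ (hGd k)).1 (x k) (act α (x k))
    rw [one_mul] at h2
    rw [hμ]
    exact h1.trans h2
  have hup : ∀ᶠ k in atTop, μ k ≤
      2 * ‖z‖ * (1 + δ k * (∫ s in (0 : ℝ)..1, φ k (sg (y' + s • z))) + δ k ^ 2) := by
    filter_upwards [h.lim.eventually_le_const one_pos] with k hk
    have h1 := hmin k (sg y')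
    rw [hactsg α z y' hz] at h1
    rw [hμ]
    exact h1.trans (upper_bd (φ k) (hφc k) (h.nonneg k) (h.le_one k) (δ k) (h.pos k) hk y' z)
  refine lim_lemma δ μ _ _ ‖z‖ C _ _ N hM h.C0 hN h.pos h.lim hA hX hlow hup ?_
  intro ε hε
  obtain ⟨η, hη, hnear⟩ := near_flat α z hz hr ε hε
  have hlim0 : Tendsto (fun k => 2 * ‖z‖ * (1 + δ k + δ k ^ 2)) atTop
      (𝓝 (2 * ‖z‖ * (1 + 0 + 0 ^ 2))) :=
    ((tendsto_const_nhds.add h.lim).add (h.lim.pow 2)).const_mul _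
  have hlt : 2 * ‖z‖ * (1 + 0 + 0 ^ 2) < 2 * ‖z‖ + η := by
    have : 2 * ‖z‖ * (1 + 0 + 0 ^ 2) = 2 * ‖z‖ := by ring
    linarith
  filter_upwards [hup, hlim0.eventually_lt_const hlt] with k hk1 hk2 E hE hδE
  have hμη : μ k ≤ 2 * ‖z‖ + η := by
    have h1 : δ k * (∫ s in (0 : ℝ)..1, φ k (sg (y' + s • z))) ≤ δ k := by
      have := mul_le_mul_of_nonneg_left (hX01 k).2 (h.pos k).le
      linarith
    have h2 : 2 * ‖z‖ * (1 + δ k * (∫ s in (0 : ℝ)..1, φ k (sg (y' + s • z))) + δ k ^ 2) ≤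
        2 * ‖z‖ * (1 + δ k + δ k ^ 2) := by
      apply mul_le_mul_of_nonneg_left _ (by positivity)
      linarith
    linarith
  have hεk : ∀ x', dg x' (act α x') ≤ dr (fun x => Real.exp (δ k * φ k x)) (x k) (act α (x k)) →
      dg x' (sg (Pr x')) ≤ ε := by
    intro x' hx'
    rw [← hμ] at hx'
    exact hnear x' (hx'.trans hμη)
  have hmain := lower_bd (fun x => Real.exp (δ k * φ k x)) (Real.exp (δ k)) (hGd k) α z hz
    (hinv k α hα) (φ k) (h.nonneg k) (h.le_one k) C h.C0 (h.lip k) (δ k) (h.pos k) (hexp k)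
    (x k) N hN ε hεk E (by rw [← hμ]; exact hE) hδE
  rw [← hμ, hxy] at hmain
  exact hmain

end LibNC38
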