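import Pool.Agent.LibNC38.G1a

set_option autoImplicit false

open Matrix MeasureTheory Topology Filter

namespace LibNC38

/-- Row G1b. A measure on `SL n` (Haar measure for the Borel structure, G1a): left invariant,
multiplied by a constant under right multiplication by `a`, positive on open sets, finite on
compact sets. (`MeasureTheory.Measure.haar`, `modularCharacter` or uniqueness of Haar measure.) -/
theorem SL_haar {n : ℕ} : ∃ ν : @Measure (SL n) (borel (SL n)),
    (∀ (g : SL n) (S : Set (SL n)), MeasurableSet[borel (SL n)] S → ν ((fun x => g * x) '' S) = ν S) ∧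
    (∀ a : SL n, ∃ c : ENNReal, c ≠ 0 ∧ c ≠ ⊤ ∧ ∀ S : Set (SL n), MeasurableSet[borel (SL n)] S →
      ν ((fun x => x * a) '' S) = c * ν S) ∧
    (∀ U : Set (SL n), IsOpen U → U.Nonempty → 0 < ν U) ∧
    (∀ K : Set (SL n), IsCompact K → ν K < ⊤) := by
  obtain ⟨hT, hL, hS, hG, -⟩ := SL_top (n := n)
  letI : MeasurableSpace (SL n) := borel (SL n)
  haveI : BorelSpace (SL n) := ⟨rfl⟩
  refine ⟨Measure.haar, ?_, ?_, ?_, ?_⟩
  · intro g S _
    rw [Set.image_mul_left, measure_preimage_mul]
  · intro a
    refine ⟨(Measure.modularCharacterFun a⁻¹ : NNReal), ?_, ENNReal.coe_ne_top, ?_⟩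
    · exact ENNReal.coe_ne_zero.2 (Measure.modularCharacterFun_pos a⁻¹).ne'
    · intro S hSm
      have h := Measure.map_right_mul_eq_modularCharacterFun_smul
        (Measure.haar : Measure (SL n)) a⁻¹
      have h2 := congrArg (fun m : Measure (SL n) => m S) h
      rw [Measure.map_apply (measurable_mul_const a⁻¹) hSm] at h2
      rw [Set.image_mul_right, h2]
      rfl
  · intro U hU hne
    exact hU.measure_pos _ hne
  · intro K hK
    exact hK.measure_lt_top

end LibNC38
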