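import Pool.Agent.LibNC38.G1a

set_option autoImplicit false

open Matrix MeasureTheory Topology Filter

namespace LibNC38

/-- Row G2a (pigeonhole). If the statement fails the sets `γ⁻¹ S j ∩ Q` (`γ ∈ Γ`, `j < N`) are
pairwise disjoint subsets of `Q`; `Γ` is countable (G1a); for fixed `j` the sum over `γ` of
`ν (γ⁻¹ S j ∩ Q) = ν (S j ∩ γ Q)` is at least `ν (S j) ≥ c` because `G = ⋃ γ Q`; so
`N c ≤ ν Q`. -/
theorem pigeon {n : ℕ} (Γ : Subgroup (SL n)) (hd : Disc Γ) (ν : @Measure (SL n) (borel (SL n)))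
    (hl : ∀ (g : SL n) (S : Set (SL n)), MeasurableSet[borel (SL n)] S →
      ν ((fun x => g * x) '' S) = ν S) (Q : Set (SL n)) (hQc : IsCompact Q) (hQν : ν Q < ⊤)
    (hQ : ∀ g : SL n, ∃ γ ∈ Γ, γ * g ∈ Q) (N : ℕ) (S : Fin N → Set (SL n))
    (hS : ∀ j, IsOpen (S j)) (c : ENNReal) (hc : ∀ j, c ≤ ν (S j)) (hN : ν Q < N * c) :
    ∃ (j j' : Fin N) (γ γ' : SL n), γ ∈ Γ ∧ γ' ∈ Γ ∧ (j ≠ j' ∨ γ ≠ γ') ∧
      ∃ s ∈ S j, ∃ s' ∈ S j', γ⁻¹ * s = γ'⁻¹ * s' := by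
  obtain ⟨hT2, -, -, hTG, hcount⟩ := @SL_top n
  let _ : MeasurableSpace (SL n) := borel (SL n)
  have _ : BorelSpace (SL n) := ⟨rfl⟩
  by_contra hcon
  have hinj : ∀ (j j' : Fin N) (γ γ' : SL n), γ ∈ Γ → γ' ∈ Γ → (j ≠ j' ∨ γ ≠ γ') →
      ∀ s ∈ S j, ∀ s' ∈ S j', γ⁻¹ * s ≠ γ'⁻¹ * s' := by
    intro j j' γ γ' h1 h2 h3 s hs s' hs' h4
    exact hcon ⟨j, j', γ, γ', h1, h2, h3, s, hs, s', hs', h4⟩
  have _ : Countable Γ := (hcount Γ hd).to_subtype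
  have hQm : MeasurableSet Q := hQc.isClosed.measurableSet
  let A : Fin N × Γ → Set (SL n) := fun x => (fun y => (x.2 : SL n)⁻¹ * y) '' S x.1 ∩ Q
  have hAm : ∀ x, MeasurableSet (A x) := fun x =>
    (((Homeomorph.mulLeft ((x.2 : SL n)⁻¹)).isOpenMap _ (hS x.1)).measurableSet).inter hQm
  have hdis : Pairwise (Function.onFun Disjoint A) := by
    rintro ⟨j, γ⟩ ⟨j', γ'⟩ hne
    rw [Function.onFun, Set.disjoint_left]
    rintro x ⟨⟨s, hs, h1⟩, -⟩ ⟨⟨s', hs', h2⟩, -⟩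
    refine hinj j j' γ γ' γ.2 γ'.2 ?_ s hs s' hs' ?_
    · by_contra hh
      push Not at hh
      exact hne (Prod.ext hh.1 (Subtype.ext hh.2))
    · exact h1.trans h2.symm
  have h1 : ∑' x, ν (A x) ≤ ν Q := by
    rw [← measure_iUnion hdis hAm]
    exact measure_mono (Set.iUnion_subset fun x => Set.inter_subset_right)
  have h2 : ∀ j, c ≤ ∑' γ : Γ, ν (A (j, γ)) := by
    intro j
    refine (hc j).trans ?_
    have hsub : S j ⊆ ⋃ γ : Γ, (fun y => (γ : SL n) * y) '' A (j, γ) := by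
      intro x hx
      obtain ⟨γ, hγ, hγx⟩ := hQ x
      rw [Set.mem_iUnion]
      refine ⟨⟨γ⁻¹, Γ.inv_mem hγ⟩, γ * x, ⟨⟨x, hx, ?_⟩, hγx⟩, ?_⟩
      · simp
      · simp
    refine (measure_mono hsub).trans ((measure_iUnion_le _).trans ?_)
    exact ENNReal.tsum_le_tsum fun γ => (hl γ _ (hAm (j, γ))).le
  have h3 : (N : ENNReal) * c ≤ ∑' x, ν (A x) := by
    rw [ENNReal.tsum_prod', tsum_fintype]
    calc (N : ENNReal) * c = ∑ j : Fin N, c := by simp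
      _ ≤ _ := Finset.sum_le_sum fun j _ => h2 j
  exact absurd (hN.trans_le (h3.trans h1)) (lt_irrefl _)

end LibNC38
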