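import Pool.Agent.LibNC38.G1
import Pool.Agent.LibNC38.G2a

set_option autoImplicit false

open Matrix MeasureTheory Topology Filter

namespace LibNC38

private theorem G2_meas {n : ℕ} {S : Set (SL n)} (hS : IsOpen S) : MeasurableSet[borel (SL n)] S :=
  MeasurableSpace.measurableSet_generateFrom hS

private theorem G2_nhd {G : Type*} [Group G] [TopologicalSpace G] [IsTopologicalGroup G] (g0 : G) {W U : Set G}
    (hW : W ∈ 𝓝 (1 : G)) (hU : U ∈ 𝓝 (1 : G)) :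
    ∃ V : Set G, IsOpen V ∧ (1 : G) ∈ V ∧ V ⊆ U ∧ ∀ v ∈ V, ∀ v' ∈ V, g0 * v * v'⁻¹ * g0⁻¹ ∈ W := by
  have hf : Continuous fun p : G × G => g0 * p.1 * p.2⁻¹ * g0⁻¹ :=
    ((continuous_const.mul continuous_fst).mul continuous_snd.inv).mul continuous_const
  have h1 : Tendsto (fun p : G × G => g0 * p.1 * p.2⁻¹ * g0⁻¹) (𝓝 ((1 : G), (1 : G)))
      (𝓝 (g0 * 1 * 1⁻¹ * g0⁻¹)) := hf.tendsto ((1 : G), (1 : G))
  rw [mul_one, inv_one, mul_one, mul_inv_cancel, nhds_prod_eq] at h1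
  obtain ⟨V1, hV1, hV2⟩ := Filter.mem_prod_self_iff.1 (h1 hW)
  obtain ⟨V, hV, hVo, hV1'⟩ := mem_nhds_iff.1 (Filter.inter_mem hV1 hU)
  refine ⟨V, hVo, hV1', fun x hx => (hV hx).2, fun v hv v' hv' => ?_⟩
  exact hV2 (Set.mk_mem_prod (hV hv).1 (hV hv').1)

private theorem G2_as {G : Type*} [Group G] (x y z w : G) : x⁻¹ * (y * z * w) = x⁻¹ * (y * z) * w :=
  (mul_assoc x⁻¹ (y * z) w).symm

private theorem G2_no {G : Type*} [Group G] {g0 γ γ' v v' t : G} (h : γ⁻¹ * (g0 * v * t) = γ'⁻¹ * (g0 * v' * t)) :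
    γ * γ'⁻¹ = g0 * v * v'⁻¹ * g0⁻¹ := by
  rw [G2_as, G2_as] at h
  have h1 : γ⁻¹ * (g0 * v) = γ'⁻¹ * (g0 * v') := mul_right_cancel h
  have h3 : g0 * v = γ * (γ'⁻¹ * (g0 * v')) := by rw [← h1, mul_inv_cancel_left]
  rw [h3]
  group

private theorem G2_fin {G : Type*} [Group G] {g0 γ γ' v v' b : G} {d : ℕ}
    (h : γ⁻¹ * (g0 * v) = γ'⁻¹ * (g0 * v') * b ^ d) : γ' * γ⁻¹ * g0 * v = g0 * v' * b ^ d := by
  have h1 : γ' * γ⁻¹ * g0 * v = γ' * (γ⁻¹ * (g0 * v)) := by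
    simp only [mul_assoc]
  rw [h1, h]
  simp only [mul_assoc, mul_inv_cancel_left]

private theorem G2_pow {n : ℕ} [IsTopologicalGroup (SL n)] (ν : @Measure (SL n) (borel (SL n))) (b : SL n)
    (c : ENNReal) (hb : ∀ S : Set (SL n), MeasurableSet[borel (SL n)] S → ν ((fun x => x * b) '' S) = c * ν S)
    (j : ℕ) (S : Set (SL n)) (hS : IsOpen S) : ν ((fun x => x * b ^ j) '' S) = c ^ j * ν S := by
  induction j with
  | zero => simp
  | succ j ih =>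
    have h1 : (fun x => x * b ^ (j + 1)) '' S = (fun x => x * b) '' ((fun x => x * b ^ j) '' S) := by
      rw [Set.image_image]
      congr 1
      funext x
      rw [pow_succ, mul_assoc]
    rw [h1, hb _ (G2_meas (isOpenMap_mul_right (b ^ j) S hS)), ih, pow_succ, ← mul_assoc, mul_comm c]

private theorem G2_ex {G : Type*} [Group G] {b X Y : G} {p q : ℕ} (h : X * b ^ p = Y * b ^ q) (hpq : p < q) :
    X = Y * b ^ (q - p) := by
  have h1 : b ^ q = b ^ (q - p) * b ^ p := by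
    rw [← pow_add, Nat.sub_add_cancel hpq.le]
  rw [h1, ← mul_assoc] at h
  exact mul_right_cancel h

private theorem G2_ex' {G : Type*} [Group G] {b X Y : G} {p q : ℕ} (h : X * (b ^ p)⁻¹ = Y * (b ^ q)⁻¹)
    (hpq : p < q) : Y = X * b ^ (q - p) := by
  have h1 : b ^ q = b ^ (q - p) * b ^ p := by
    rw [← pow_add, Nat.sub_add_cancel hpq.le]
  have h2 : X * (b ^ p)⁻¹ * b ^ q = Y := by
    rw [h, inv_mul_cancel_right]
  have h3 : Commute (b ^ p)⁻¹ (b ^ (q - p)) := ((Commute.refl b).pow_pow p (q - p)).inv_left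
  rw [← h2, h1, ← mul_assoc, mul_assoc X, h3.eq, ← mul_assoc, inv_mul_cancel_right]

private theorem G2_end {n : ℕ} {Γ : Subgroup (SL n)} {a g0 : SL n} {U : Set (SL n)} {m0 : ℕ} {γ γ' v v' : SL n}
    (hγ : γ ∈ Γ) (hγ' : γ' ∈ Γ) (hv : v ∈ U) (hv' : v' ∈ U) {d : ℕ} (hd : 1 ≤ d)
    (h : γ⁻¹ * (g0 * v) = γ'⁻¹ * (g0 * v') * (a ^ max m0 1) ^ d) :
    ∃ m ≥ m0, ∃ v ∈ U, ∃ v' ∈ U, ∃ γ ∈ Γ, γ * g0 * v = g0 * v' * a ^ m := by
  refine ⟨max m0 1 * d, ?_, v, hv, v', hv', γ' * γ⁻¹, Γ.mul_mem hγ' (Γ.inv_mem hγ), ?_⟩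
  · exact (le_max_left m0 1).trans (Nat.le_mul_of_pos_right _ hd)
  · rw [pow_mul]
    exact G2_fin h

/-- Row G2 (recurrence in `Γ \ G`). `ν` from G1. Shrink `U` to an open neighbourhood `V` of `1`
with: `γ ∈ Γ`, `γ = g0 v v'⁻¹ g0⁻¹`, `v, v' ∈ V` implies `γ = 1` (`Disc`). Let `b = a ^ max m0 1`
and `c` the factor of right multiplication by `b` (G1). Case `1 ≤ c`: the open sets
`S j = g0 V b ^ j` have `ν (S j) ≥ ν V`; case `c ≤ 1`: `S j = g0 V b ^ (-j)`, same (multiply back by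
`b ^ j`). G2a with `N` large (`0 < ν V`, `ν Q < ⊤`): `(γ, j) ≠ (γ', j')` and `γ⁻¹ s = γ'⁻¹ s'`;
`j = j'` is impossible by the choice of `V`. With `j < j'` (symmetry): `γ⁻¹ g0 v b^j =
γ'⁻¹ g0 v' b^j'` gives `(γ' γ⁻¹) g0 v = g0 v' b^(j' - j)`; in the second case
`γ⁻¹ g0 v b^(-j) = γ'⁻¹ g0 v' b^(-j')` gives `(γ γ'⁻¹) g0 v' = g0 v b^(j' - j)`. -/
theorem recur {n : ℕ} (Γ : Subgroup (SL n)) (hd : Disc Γ) (hc : Coc Γ) (a g0 : SL n)
    (U : Set (SL n)) (hU : U ∈ 𝓝 (1 : SL n)) (m0 : ℕ) :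
    ∃ m ≥ m0, ∃ v ∈ U, ∃ v' ∈ U, ∃ γ ∈ Γ, γ * g0 * v = g0 * v' * a ^ m := by
  obtain ⟨-, -, -, hT, -⟩ := SL_top (n := n)
  obtain ⟨ν, hl, hr, hpos, hfin⟩ := SL_haar (n := n)
  obtain ⟨W, hW, hWΓ⟩ := id hd
  obtain ⟨Q, hQc, hQ⟩ := hc
  have _ := hT
  obtain ⟨V, hVo, hV1, hVU, hVW⟩ := G2_nhd g0 hW hU
  obtain ⟨c, -, -, hcb⟩ := hr (a ^ max m0 1)
  have hVpos : 0 < ν V := hpos V hVo ⟨1, hV1⟩
  obtain ⟨N, hN⟩ := ENNReal.exists_nat_mul_gt hVpos.ne' (hfin Q hQc).ne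
  have hgo : IsOpen ((fun x => g0 * x) '' V) := isOpenMap_mul_left g0 V hVo
  have hgν : ν ((fun x => g0 * x) '' V) = ν V := hl g0 V (G2_meas hVo)
  have hno : ∀ γ γ' v v' t : SL n, γ ∈ Γ → γ' ∈ Γ → v ∈ V → v' ∈ V →
      γ⁻¹ * (g0 * v * t) = γ'⁻¹ * (g0 * v' * t) → γ = γ' := by
    intro γ γ' v v' t hγ hγ' hv hv' h
    have h2 : γ * γ'⁻¹ = g0 * v * v'⁻¹ * g0⁻¹ := G2_no h
    have h3 := hWΓ (γ * γ'⁻¹) (Γ.mul_mem hγ (Γ.inv_mem hγ')) (by rw [h2]; exact hVW v hv v' hv')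
    exact mul_inv_eq_one.1 h3
  rcases le_total 1 c with h1c | hc1
  · obtain ⟨j, j', γ, γ', hγ, hγ', hne, s, ⟨s0, ⟨v, hv, hs0⟩, hs⟩, s', ⟨s0', ⟨v', hv', hs0'⟩, hs'⟩, hss⟩ :=
      pigeon Γ hd ν hl Q hQc (hfin Q hQc) hQ N
        (fun j => (fun x => x * (a ^ max m0 1) ^ (j : ℕ)) '' ((fun x => g0 * x) '' V))
        (fun j => isOpenMap_mul_right _ _ hgo) (ν V) (fun j => by
          rw [G2_pow ν _ c hcb j _ hgo, hgν]
          exact le_mul_of_one_le_left zero_le (one_le_pow₀ h1c)) hN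
    subst hs0 hs hs0' hs'
    have hss' : γ⁻¹ * (g0 * v * (a ^ max m0 1) ^ (j : ℕ)) = γ'⁻¹ * (g0 * v' * (a ^ max m0 1) ^ (j' : ℕ)) := hss
    rcases lt_trichotomy (j : ℕ) (j' : ℕ) with hlt | heq | hgt
    · rw [G2_as, G2_as] at hss'
      exact G2_end hγ hγ' (hVU hv) (hVU hv') (by omega) (G2_ex hss' hlt)
    · exfalso
      rw [← heq] at hss'
      rcases hne with h | h
      · exact h (Fin.ext heq)
      · exact h (hno γ γ' v v' _ hγ hγ' hv hv' hss')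
    · rw [G2_as, G2_as] at hss'
      exact G2_end hγ' hγ (hVU hv') (hVU hv) (by omega) (G2_ex hss'.symm hgt)
  · obtain ⟨j, j', γ, γ', hγ, hγ', hne, s, ⟨s0, ⟨v, hv, hs0⟩, hs⟩, s', ⟨s0', ⟨v', hv', hs0'⟩, hs'⟩, hss⟩ :=
      pigeon Γ hd ν hl Q hQc (hfin Q hQc) hQ N
        (fun j => (fun x => x * ((a ^ max m0 1) ^ (j : ℕ))⁻¹) '' ((fun x => g0 * x) '' V))
        (fun j => isOpenMap_mul_right _ _ hgo) (ν V) (fun j => by
          have h1 := G2_pow ν _ c hcb j _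
            (isOpenMap_mul_right ((a ^ max m0 1) ^ (j : ℕ))⁻¹ _ hgo)
          have h2 : (fun x => x * (a ^ max m0 1) ^ (j : ℕ)) ''
              ((fun x => x * ((a ^ max m0 1) ^ (j : ℕ))⁻¹) '' ((fun x => g0 * x) '' V)) =
              (fun x => g0 * x) '' V := by
            rw [Set.image_image]
            have h3 : (fun x : SL n => x * ((a ^ max m0 1) ^ (j : ℕ))⁻¹ * (a ^ max m0 1) ^ (j : ℕ)) =
                fun x => x := by
              funext x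
              exact inv_mul_cancel_right _ _
            rw [h3, Set.image_id']
          rw [h2, hgν] at h1
          rw [h1]
          exact mul_le_of_le_one_left zero_le (pow_le_one₀ zero_le hc1)) hN
    subst hs0 hs hs0' hs'
    have hss' : γ⁻¹ * (g0 * v * ((a ^ max m0 1) ^ (j : ℕ))⁻¹) =
        γ'⁻¹ * (g0 * v' * ((a ^ max m0 1) ^ (j' : ℕ))⁻¹) := hss
    rcases lt_trichotomy (j : ℕ) (j' : ℕ) with hlt | heq | hgt
    · rw [G2_as, G2_as] at hss'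
      exact G2_end hγ' hγ (hVU hv') (hVU hv) (by omega) (G2_ex' hss' hlt)
    · exfalso
      rw [← heq] at hss'
      rcases hne with h | h
      · exact h (Fin.ext heq)
      · exact h (hno γ γ' v v' _ hγ hγ' hv hv' hss')
    · rw [G2_as, G2_as] at hss'
      exact G2_end hγ hγ' (hVU hv) (hVU hv') (by omega) (G2_ex' hss'.symm hgt)

end LibNC38
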