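import Pool.Agent.LibNC38.Defs

set_option autoImplicit false

open Matrix MeasureTheory Topology Filter

namespace LibNC38

/-- the sum bound for the perturbation -/
private theorem eb {n : ℕ} (ω : ℝ) (hω : 0 ≤ ω) (E : Matrix (Fin n) (Fin n) ℝ) (hE : ∀ i j, |E i j| ≤ ω)
    (x : Fin n → ℝ) (b : ℝ) (hb : ∀ j, |x j| ≤ b) (j : Fin n) : |(E *ᵥ x) j| ≤ n * ω * b := by
  have h1 : |(E *ᵥ x) j| ≤ ∑ k, |E j k * x k| := by
    unfold Matrix.mulVec dotProduct
    exact Finset.abs_sum_le_sum_abs _ _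
  have h2 : ∑ k, |E j k * x k| ≤ ∑ _k : Fin n, ω * b := by
    refine Finset.sum_le_sum (fun k _ => ?_)
    rw [abs_mul]
    exact mul_le_mul (hE j k) (hb k) (abs_nonneg _) hω
  rw [Finset.sum_const, Finset.card_univ, Fintype.card_fin, nsmul_eq_mul] at h2
  nlinarith [h1, h2]

/-- the map -/
private noncomputable def FF {n : ℕ} (E : Matrix (Fin n) (Fin n) ℝ) (d : Fin n → ℝ) (i : Fin n)
    (x : Fin n → ℝ) (j : Fin n) : ℝ :=
  if j = i then 1 else if j < i then (d i / d j) * ((x j + (E *ᵥ x) j) / (1 + (E *ᵥ x) i))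
  else - (E *ᵥ x) j + (d j / d i) * ((1 + (E *ᵥ x) i) * x j)

/-- Row G3a. One eigenvector. Wanted `d j * x j = μ (x j + (E x) j)`. Put `μ = d i / (1 + (E x) i)`
and consider, on the box `B = {x | x i = 1, |x j| ≤ ε' for j ≠ i}` (`ε' = min ε (1/2)`), the map
`F x j = (d i / d j) (x j + (E x) j) / (1 + (E x) i)` for `j < i`,
`F x j = - (E x) j + (d j / d i) (1 + (E x) i) x j` for `j > i`, `F x i = 1`. As `|E i j| ≤ ω` and
the ratios are at most `κ`, for `ω, κ` small (depending on `n, ε`) it maps the compact box to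
itself and is a contraction for the sup norm (`ContractingWith` on a complete subset), the fixed
point is the eigenvector (order on `Fin n`: `hd` for `i < j`). -/
theorem eigv {n : ℕ} (ε : ℝ) (hε : 0 < ε) : ∃ ω > 0, ∃ κ > 0,
    ∀ E : Matrix (Fin n) (Fin n) ℝ, (∀ i j, |E i j| ≤ ω) → ∀ d : Fin n → ℝ, (∀ i, 0 < d i) →
      (∀ i j, i < j → d j ≤ κ * d i) → ∀ i : Fin n, ∃ (x : Fin n → ℝ) (μ : ℝ), x i = 1 ∧
        (∀ j, j ≠ i → |x j| ≤ ε) ∧ d i / 2 ≤ μ ∧ μ ≤ 2 * d i ∧
        ∀ j, d j * x j = μ * (x j + (E *ᵥ x) j) := by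
  obtain ⟨e, he0, he1, he2⟩ : ∃ e : ℝ, 0 < e ∧ e ≤ ε ∧ e ≤ 1 / 2 :=
    ⟨min ε (1 / 2), lt_min hε (by norm_num), min_le_left _ _, min_le_right _ _⟩
  have hn : (0 : ℝ) < 4 * (n + 1) := by positivity
  refine ⟨e / (4 * (n + 1)), by positivity, e / 16, by positivity, ?_⟩
  intro E hE d hd hdd i
  have hs : (n : ℝ) * (e / (4 * (n + 1))) ≤ e / 4 := by
    rw [mul_div_assoc', div_le_div_iff₀ hn (by norm_num)]
    nlinarith
  have hω : 0 ≤ e / (4 * ((n : ℝ) + 1)) := by positivity
  -- bounds on the box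
  have hbox : ∀ (x : Fin n → ℝ) (b : ℝ), 0 ≤ b → (∀ j, |x j| ≤ b) → ∀ j, |(E *ᵥ x) j| ≤ e / 4 * b := by
    intro x b hb hx j
    exact (eb _ hω E hE x b hx j).trans (mul_le_mul_of_nonneg_right hs hb)
  set B : Set (Fin n → ℝ) := {x | x i = 1 ∧ ∀ j, j ≠ i → |x j| ≤ e} with hB
  have hle1 : ∀ x ∈ B, ∀ j, |x j| ≤ 1 := by
    intro x hx j
    by_cases h : j = i
    · rw [h, hx.1]; norm_num
    · exact (hx.2 j h).trans (by linarith)
  have hE1 : ∀ x ∈ B, ∀ j, |(E *ᵥ x) j| ≤ e / 4 := by
    intro x hx j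
    have := hbox x 1 (by norm_num) (hle1 x hx) j
    rwa [mul_one] at this
  have hv : ∀ x ∈ B, 7 / 8 ≤ 1 + (E *ᵥ x) i ∧ 1 + (E *ᵥ x) i ≤ 9 / 8 := by
    intro x hx
    have := abs_le.1 (hE1 x hx i)
    constructor <;> linarith [this.1, this.2]
  have hr1 : ∀ j, j < i → 0 < d i / d j ∧ d i / d j ≤ e / 16 := by
    intro j hj
    refine ⟨div_pos (hd i) (hd j), ?_⟩
    rw [div_le_iff₀ (hd j)]
    exact hdd j i hj
  have hr2 : ∀ j, i < j → 0 < d j / d i ∧ d j / d i ≤ e / 16 := by
    intro j hj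
    refine ⟨div_pos (hd j) (hd i), ?_⟩
    rw [div_le_iff₀ (hd i)]
    exact hdd i j hj
  have hclosed : IsClosed B := by
    have h1 : B = {x | x i = 1} ∩ ⋂ j : Fin n, {x : Fin n → ℝ | j ≠ i → |x j| ≤ e} := by
      ext x
      simp [hB]
    rw [h1]
    refine IsClosed.inter (isClosed_eq (continuous_apply i) continuous_const) (isClosed_iInter (fun j => ?_))
    by_cases h : j = i
    · have : {x : Fin n → ℝ | j ≠ i → |x j| ≤ e} = Set.univ := by
        ext x
        simp [h]
      rw [this]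
      exact isClosed_univ
    · have : {x : Fin n → ℝ | j ≠ i → |x j| ≤ e} = {x | |x j| ≤ e} := by
        ext x
        simp [h]
      rw [this]
      exact isClosed_le (continuous_abs.comp (continuous_apply j)) continuous_const
  have hmaps : Set.MapsTo (FF E d i) B B := by
    intro x hx
    refine ⟨by simp [FF], ?_⟩
    intro j hj
    have hEj := hE1 x hx j
    have hxj := hx.2 j hj
    obtain ⟨hv1, hv2⟩ := hv x hx
    unfold FF
    rw [if_neg hj]
    by_cases hlt : j < i
    · rw [if_pos hlt]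
      obtain ⟨hr0, hr⟩ := hr1 j hlt
      have h1 : |(x j + (E *ᵥ x) j) / (1 + (E *ᵥ x) i)| ≤ 1 := by
        rw [abs_div, abs_of_pos (show 0 < 1 + (E *ᵥ x) i by linarith), div_le_one (by linarith)]
        refine (abs_add_le _ _).trans ?_
        linarith
      rw [abs_mul, abs_of_pos hr0]
      calc d i / d j * |(x j + (E *ᵥ x) j) / (1 + (E *ᵥ x) i)| ≤ e / 16 * 1 :=
            mul_le_mul hr h1 (abs_nonneg _) (by positivity)
        _ ≤ e := by linarith
    · rw [if_neg hlt]
      obtain ⟨hr0, hr⟩ := hr2 j (lt_of_le_of_ne (not_lt.1 hlt) (Ne.symm hj))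
      have h1 : |(1 + (E *ᵥ x) i) * x j| ≤ 1 := by
        rw [abs_mul, abs_of_pos (show 0 < 1 + (E *ᵥ x) i by linarith)]
        nlinarith [abs_nonneg (x j)]
      refine (abs_add_le _ _).trans ?_
      rw [abs_neg, abs_mul, abs_of_pos hr0]
      have h2 : d j / d i * |(1 + (E *ᵥ x) i) * x j| ≤ e / 16 * 1 :=
        mul_le_mul hr h1 (abs_nonneg _) (by positivity)
      linarith
  have hlip : ∀ x ∈ B, ∀ y ∈ B, dist (FF E d i x) (FF E d i y) ≤ 1 / 2 * dist x y := by
    intro x hx y hy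
    have hD0 : 0 ≤ dist x y := dist_nonneg
    have hD : ∀ j, |x j - y j| ≤ dist x y := by
      intro j
      rw [← Real.dist_eq]
      exact dist_le_pi_dist x y j
    have hED : ∀ j, |(E *ᵥ x) j - (E *ᵥ y) j| ≤ e / 4 * dist x y := by
      intro j
      have := hbox (x - y) (dist x y) hD0 (fun k => by simpa using hD k) j
      rwa [Matrix.mulVec_sub, Pi.sub_apply] at this
    rw [dist_pi_le_iff (by positivity)]
    intro j
    rw [Real.dist_eq]
    by_cases hj : j = i
    · simp [FF, hj]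
    obtain ⟨hv1, hv2⟩ := hv x hx
    obtain ⟨hw1, hw2⟩ := hv y hy
    have hyj := hy.2 j hj
    have hEyj := hE1 y hy j
    have hDj := hD j
    have hEDj := hED j
    have hEDi := hED i
    unfold FF
    rw [if_neg hj, if_neg hj]
    set D := dist x y with hDdef
    set a := (E *ᵥ x) j
    set a' := (E *ᵥ y) j
    set b := (E *ᵥ x) i
    set b' := (E *ᵥ y) i
    have he3 : e / 4 * D ≤ 1 / 8 * D := by nlinarith
    by_cases hlt : j < i
    · rw [if_pos hlt, if_pos hlt]
      obtain ⟨hr0, hr⟩ := hr1 j hlt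
      rw [← mul_sub, abs_mul, abs_of_pos hr0]
      have hv0 : 0 < 1 + b := by linarith
      have hw0 : 0 < 1 + b' := by linarith
      have h1 : (x j + a) / (1 + b) - (y j + a') / (1 + b') =
          ((x j - y j) + (a - a')) / (1 + b) - (y j + a') / (1 + b') * ((b - b') / (1 + b)) := by
        field_simp
        ring
      have h2 : |((x j - y j) + (a - a')) / (1 + b)| ≤ 2 * D := by
        rw [abs_div, abs_of_pos hv0, div_le_iff₀ hv0]
        refine (abs_add_le _ _).trans ?_
        nlinarith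
      have h3 : |(y j + a') / (1 + b')| ≤ 1 := by
        rw [abs_div, abs_of_pos hw0, div_le_one hw0]
        refine (abs_add_le _ _).trans ?_
        linarith
      have h4 : |(b - b') / (1 + b)| ≤ D := by
        rw [abs_div, abs_of_pos hv0, div_le_iff₀ hv0]
        nlinarith
      have h5 : |(x j + a) / (1 + b) - (y j + a') / (1 + b')| ≤ 3 * D := by
        rw [h1]
        refine (abs_sub _ _).trans ?_
        rw [abs_mul]
        have : |(y j + a') / (1 + b')| * |(b - b') / (1 + b)| ≤ 1 * D :=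
          mul_le_mul h3 h4 (abs_nonneg _) (by norm_num)
        linarith
      calc d i / d j * |(x j + a) / (1 + b) - (y j + a') / (1 + b')| ≤ e / 16 * (3 * D) :=
            mul_le_mul hr h5 (abs_nonneg _) (by positivity)
        _ ≤ 1 / 2 * D := by nlinarith
    · rw [if_neg hlt, if_neg hlt]
      obtain ⟨hr0, hr⟩ := hr2 j (lt_of_le_of_ne (not_lt.1 hlt) (Ne.symm hj))
      have h1 : -a + d j / d i * ((1 + b) * x j) - (-a' + d j / d i * ((1 + b') * y j)) =
          -(a - a') + d j / d i * ((1 + b) * (x j - y j) + (b - b') * y j) := by ring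
      rw [h1]
      refine (abs_add_le _ _).trans ?_
      rw [abs_neg, abs_mul, abs_of_pos hr0]
      have h2 : |(1 + b) * (x j - y j) + (b - b') * y j| ≤ 2 * D := by
        refine (abs_add_le _ _).trans ?_
        rw [abs_mul, abs_mul, abs_of_pos (show 0 < 1 + b by linarith)]
        have h3 : (1 + b) * |x j - y j| ≤ 9 / 8 * D := mul_le_mul hv2 hDj (abs_nonneg _) (by norm_num)
        have h4 : |b - b'| * |y j| ≤ (1 / 8 * D) * (1 / 2) :=
          mul_le_mul (hEDi.trans he3) (hyj.trans he2) (abs_nonneg _) (by positivity)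
        linarith
      have h5 : d j / d i * |(1 + b) * (x j - y j) + (b - b') * y j| ≤ e / 16 * (2 * D) :=
        mul_le_mul hr h2 (abs_nonneg _) (by positivity)
      have h6 : e / 16 * (2 * D) ≤ 1 / 16 * D := by nlinarith
      linarith
  have hcontr : ContractingWith (1 / 2 : NNReal) (hmaps.restrict (FF E d i) B B) := by
    refine ⟨by
      rw [← NNReal.coe_lt_coe]
      push_cast
      norm_num, ?_⟩
    refine LipschitzWith.of_dist_le_mul (fun x y => ?_)
    have := hlip x.1 x.2 y.1 y.2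
    simpa [Subtype.dist_eq] using this
  have hne : (Pi.single i 1 : Fin n → ℝ) ∈ B := by
    refine ⟨by simp, fun j hj => ?_⟩
    rw [Pi.single_eq_of_ne hj, abs_zero]
    exact he0.le
  obtain ⟨x, hxB, hfix, -⟩ := hcontr.exists_fixedPoint' hclosed.isComplete hmaps hne (edist_ne_top _ _)
  obtain ⟨hv1, hv2⟩ := hv x hxB
  have hv0 : 0 < 1 + (E *ᵥ x) i := by linarith
  refine ⟨x, d i / (1 + (E *ᵥ x) i), hxB.1, fun j hj => (hxB.2 j hj).trans he1, ?_, ?_, ?_⟩
  · rw [le_div_iff₀ hv0]
    nlinarith [hd i]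
  · rw [div_le_iff₀ hv0]
    nlinarith [hd i]
  · intro j
    have hj := congrFun hfix j
    by_cases h : j = i
    · subst h
      rw [hxB.1]
      field_simp
    · unfold FF at hj
      rw [if_neg h] at hj
      by_cases hlt : j < i
      · rw [if_pos hlt] at hj
        have hdj := (hd j).ne'
        nth_rewrite 1 [← hj]
        field_simp
      · rw [if_neg hlt] at hj
        have hdi := (hd i).ne'
        have h1 : x j + (E *ᵥ x) j = d j / d i * ((1 + (E *ᵥ x) i) * x j) := by linarith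
        rw [h1]
        field_simp

end LibNC38
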