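import Pool.Agent.LibNC38.H1

set_option autoImplicit false

open MeasureTheory Topology Filter Complex

namespace LibNC38

/-- periodic functions depend only on the classes modulo one -/
private theorem per_lift {r : ℕ} (G : (Fin r → ℝ) → ℂ)
    (hG : ∀ (x : Fin r → ℝ) (k : Fin r → ℤ), G (x + fun i => (k i : ℝ)) = G x) (x : Fin r → ℝ) :
    G (fun i => ((AddCircle.equivIoc (1 : ℝ) 0 ((x i : ℝ) : AddCircle (1 : ℝ))) : ℝ)) = G x := by
  have h1 : ∀ i, ∃ m : ℤ, ((AddCircle.equivIoc (1 : ℝ) 0 ((x i : ℝ) : AddCircle (1 : ℝ))) : ℝ) = x i + m := by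
    intro i
    have h2 : ((((AddCircle.equivIoc (1 : ℝ) 0 ((x i : ℝ) : AddCircle (1 : ℝ))) : ℝ)) : AddCircle (1 : ℝ)) =
        ((x i : ℝ) : AddCircle (1 : ℝ)) := AddCircle.coe_equivIoc
    have h3 : ((((AddCircle.equivIoc (1 : ℝ) 0 ((x i : ℝ) : AddCircle (1 : ℝ))) : ℝ) - x i : ℝ) :
        AddCircle (1 : ℝ)) = 0 := by
      rw [AddCircle.coe_sub, h2, sub_self]
    obtain ⟨n, hn⟩ := (AddCircle.coe_eq_zero_iff (1 : ℝ)).1 h3
    refine ⟨n, ?_⟩
    rw [zsmul_eq_mul, mul_one] at hn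
    linarith
  choose m hm using h1
  have h3 : (fun i => ((AddCircle.equivIoc (1 : ℝ) 0 ((x i : ℝ) : AddCircle (1 : ℝ))) : ℝ)) =
      x + fun i => (m i : ℝ) := by
    funext i
    exact hm i
  rw [h3, hG]

/-- integrals of periodic functions over translated unit cubes -/
private theorem cube_shift {r : ℕ} (G : (Fin r → ℝ) → ℂ)
    (hG : ∀ (x : Fin r → ℝ) (k : Fin r → ℤ), G (x + fun i => (k i : ℝ)) = G x) (w : Fin r → ℝ) :
    ∫ x in Set.Icc (0 : Fin r → ℝ) 1, G (x + w) = ∫ x in Set.Icc (0 : Fin r → ℝ) 1, G x := by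
  set F : UnitAddTorus (Fin r) → ℂ := fun t => G fun i => ((AddCircle.equivIoc (1 : ℝ) 0 (t i)) : ℝ) with hF
  have hFx : ∀ x : Fin r → ℝ, F (fun i => ((x i : ℝ) : UnitAddCircle)) = G x := fun x => per_lift G hG x
  have hset : {x : Fin r → ℝ | ∀ i, x i ∈ Set.Ioc ((0 : Fin r → ℝ) i) ((0 : Fin r → ℝ) i + 1)} =ᵐ[volume]
      Set.Icc (0 : Fin r → ℝ) 1 := by
    have h := Measure.univ_pi_Ioc_ae_eq_Icc (μ := fun _ : Fin r => (volume : Measure ℝ))
      (f := (0 : Fin r → ℝ)) (g := 1)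
    have e : {x : Fin r → ℝ | ∀ i, x i ∈ Set.Ioc ((0 : Fin r → ℝ) i) ((0 : Fin r → ℝ) i + 1)} =
        Set.pi Set.univ fun i => Set.Ioc ((0 : Fin r → ℝ) i) ((1 : Fin r → ℝ) i) := by
      ext x
      simp [Set.mem_pi]
    rw [e]
    exact h
  have h1 := UnitAddTorus.integral_preimage F (0 : Fin r → ℝ)
  have h2 := UnitAddTorus.integral_preimage (fun t => F (t + fun i => ((w i : ℝ) : UnitAddCircle)))
    (0 : Fin r → ℝ)
  have h3 : ∫ t : UnitAddTorus (Fin r), F (t + fun i => ((w i : ℝ) : UnitAddCircle))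
        ∂(Measure.pi fun _ : Fin r => (AddCircle.haarAddCircle : Measure UnitAddCircle)) =
      ∫ t, F t ∂(Measure.pi fun _ : Fin r => (AddCircle.haarAddCircle : Measure UnitAddCircle)) :=
    integral_add_right_eq_self F _
  rw [setIntegral_congr_set hset] at h1 h2
  have h4 : ∀ x : Fin r → ℝ, F ((fun i => ((x i : ℝ) : UnitAddCircle)) + fun i => ((w i : ℝ) : UnitAddCircle)) =
      G (x + w) := by
    intro x
    rw [← hFx]
    congr 1
  simp only [hFx] at h1
  simp only [h4] at h2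
  rw [← h1, ← h2]
  exact h3

private theorem cexp_per {r : ℕ} (k m : Fin r → ℤ) (x : Fin r → ℝ) :
    Complex.exp (-(2 * Real.pi * (∑ i, (k i : ℝ) * (x i + (m i : ℝ))) : ℝ) * I) =
      Complex.exp (-(2 * Real.pi * (∑ i, (k i : ℝ) * x i) : ℝ) * I) := by
  rw [Complex.exp_eq_exp_iff_exists_int]
  refine ⟨-∑ i, k i * m i, ?_⟩
  have h : ∑ i, (k i : ℝ) * (x i + (m i : ℝ)) = ∑ i, (k i : ℝ) * x i + ((∑ i, k i * m i : ℤ) : ℝ) := by
    push_cast
    rw [← Finset.sum_add_distrib]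
    exact Finset.sum_congr rfl fun i _ => by ring
  rw [h]
  push_cast
  ring

/-- Row H2. Fourier coefficient of a translate: the integral of a continuous periodic function over
a translated unit cube is the integral over the unit cube (one coordinate at a time,
`Function.Periodic.intervalIntegral_add_eq`, or fundamental domains of `ℤ^r`). -/
theorem fc_shift {r : ℕ} (f : (Fin r → ℝ) → ℝ) (hf : Per f) (w : Fin r → ℝ) (k : Fin r → ℤ) :
    fc (fun x => f (x + w)) k =
      Complex.exp ((2 * Real.pi * (∑ i, (k i : ℝ) * w i) : ℝ) * I) * fc f k := by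
  have h := cube_shift (fun x => (f x : ℂ) * Complex.exp (-(2 * Real.pi * (∑ i, (k i : ℝ) * x i) : ℝ) * I))
    (fun x m => by
      simp only [hf.2 x m, Pi.add_apply]
      rw [cexp_per]) w
  unfold fc
  rw [← h, ← integral_const_mul]
  refine setIntegral_congr_fun measurableSet_Icc fun x _ => ?_
  have e : Complex.exp (-(2 * Real.pi * (∑ i, (k i : ℝ) * x i) : ℝ) * I) =
      Complex.exp ((2 * Real.pi * (∑ i, (k i : ℝ) * w i) : ℝ) * I) *
        Complex.exp (-(2 * Real.pi * (∑ i, (k i : ℝ) * (x + w) i) : ℝ) * I) := by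
    rw [← Complex.exp_add]
    congr 1
    have h2 : ∑ i, (k i : ℝ) * (x + w) i = ∑ i, (k i : ℝ) * x i + ∑ i, (k i : ℝ) * w i := by
      rw [← Finset.sum_add_distrib]
      exact Finset.sum_congr rfl fun i _ => by simp only [Pi.add_apply]; ring
    rw [h2]
    push_cast
    ring
  change (f (x + w) : ℂ) * _ = _ * ((f (x + w) : ℂ) * _)
  rw [e]
  ring

private theorem fc_int {r : ℕ} (f : (Fin r → ℝ) → ℝ) (hf : Continuous f) (k : Fin r → ℤ) :
    IntegrableOn (fun x : Fin r → ℝ =>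
      (f x : ℂ) * Complex.exp (-(2 * Real.pi * (∑ i, (k i : ℝ) * x i) : ℝ) * I)) (Set.Icc (0 : Fin r → ℝ) 1) := by
  refine ContinuousOn.integrableOn_compact isCompact_Icc (Continuous.continuousOn ?_)
  fun_prop

/-- Row H2, linearity and constants. -/
theorem fc_sub {r : ℕ} (f g : (Fin r → ℝ) → ℝ) (hf : Per f) (hg : Per g) (k : Fin r → ℤ) :
    fc (fun x => f x - g x) k = fc f k - fc g k := by
  unfold fc
  rw [← integral_sub (fc_int f hf.1 k) (fc_int g hg.1 k)]
  refine integral_congr_ae (Filter.Eventually.of_forall fun x => ?_)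
  push_cast
  ring

theorem fc_const {r : ℕ} (c : ℝ) (k : Fin r → ℤ) (hk : k ≠ 0) :
    fc (fun _ : Fin r → ℝ => c) k = 0 := by
  obtain ⟨j, hj⟩ := Function.ne_iff.1 hk
  have hj' : (k j : ℝ) ≠ 0 := by exact_mod_cast hj
  have h := fc_shift (fun _ : Fin r → ℝ => c) ⟨continuous_const, fun _ _ => rfl⟩
    (Pi.single j (1 / (2 * (k j : ℝ)))) k
  have h2 : ∑ i, (k i : ℝ) * (Pi.single j (1 / (2 * (k j : ℝ))) : Fin r → ℝ) i = 1 / 2 := by
    rw [Finset.sum_eq_single j]
    · rw [Pi.single_eq_same]; field_simp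
    · intro b _ hb
      rw [Pi.single_eq_of_ne hb, mul_zero]
    · intro h; exact absurd (Finset.mem_univ _) h
  rw [h2] at h
  have h3 : Complex.exp ((2 * Real.pi * (1 / 2) : ℝ) * I) = -1 := by
    have : ((2 * Real.pi * (1 / 2) : ℝ) : ℂ) * I = Real.pi * I := by push_cast; ring
    rw [this, Complex.exp_pi_mul_I]
  rw [h3] at h
  have h4 : fc (fun _ : Fin r → ℝ => c) k = -fc (fun _ : Fin r → ℝ => c) k := by
    simpa using h
  exact self_eq_neg.1 h4

end LibNC38
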