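import Pool.Agent.LibNC38.H2

set_option autoImplicit false

open MeasureTheory Topology Filter Complex

namespace LibNC38

/-- Row H3. If the integrals of `f` over the segments `[y, y + l]` are constant and
`∑ k i * l i = 0`, `k ≠ 0`, then the `k`-th Fourier coefficient vanishes: by Fubini and H2
`0 = fc (const) k = fc (fun y => ∫ s in 0..1, f (y + s • l)) k
= ∫ s in 0..1, exp (2 π i s ∑ k l) * fc f k = fc f k`. -/
theorem fc_xray {r : ℕ} (f : (Fin r → ℝ) → ℝ) (hf : Per f) (l : Fin r → ℝ) (k : Fin r → ℤ)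
    (hk : k ≠ 0) (hkl : ∑ i, (k i : ℝ) * l i = 0) (c : ℝ)
    (h : ∀ y, ∫ s in (0 : ℝ)..1, f (y + s • l) = c) : fc f k = 0 := by
  have h0 := fc_const (r := r) c k hk
  have hs : ∀ s : ℝ, fc (fun x => f (x + s • l)) k = fc f k := by
    intro s
    rw [fc_shift f hf (s • l) k]
    have e : ∑ i, (k i : ℝ) * (s • l) i = 0 := by
      have e1 : ∑ i, (k i : ℝ) * (s • l) i = s * ∑ i, (k i : ℝ) * l i := by
        rw [Finset.mul_sum]
        exact Finset.sum_congr rfl fun i _ => by simp only [Pi.smul_apply, smul_eq_mul]; ring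
      rw [e1, hkl, mul_zero]
    rw [e]
    simp
  set E : (Fin r → ℝ) → ℂ := fun x => Complex.exp (-(2 * Real.pi * (∑ i, (k i : ℝ) * x i) : ℝ) * I) with hE
  have hEc : Continuous E := by rw [hE]; fun_prop
  have h1 : fc (fun _ : Fin r → ℝ => c) k =
      ∫ x in Set.Icc (0 : Fin r → ℝ) 1, ∫ s in Set.Ioc (0 : ℝ) 1, ((f (x + s • l) : ℝ) : ℂ) * E x := by
    unfold fc
    refine setIntegral_congr_fun measurableSet_Icc fun x _ => ?_
    change (c : ℂ) * E x = ∫ s in Set.Ioc (0 : ℝ) 1, ((f (x + s • l) : ℝ) : ℂ) * E x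
    rw [integral_mul_const, ← h x, intervalIntegral.integral_of_le zero_le_one]
    congr 1
    exact (integral_ofReal).symm
  have hint : Integrable (Function.uncurry fun (x : Fin r → ℝ) (s : ℝ) => ((f (x + s • l) : ℝ) : ℂ) * E x)
      ((volume.restrict (Set.Icc (0 : Fin r → ℝ) 1)).prod (volume.restrict (Set.Ioc (0 : ℝ) 1))) := by
    rw [Measure.prod_restrict]
    have hc : Continuous (Function.uncurry fun (x : Fin r → ℝ) (s : ℝ) => ((f (x + s • l) : ℝ) : ℂ) * E x) := by
      have hf' := hf.1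
      refine Continuous.mul ?_ (hEc.comp continuous_fst)
      exact Complex.continuous_ofReal.comp (hf'.comp (continuous_fst.add (continuous_snd.smul continuous_const)))
    exact (hc.continuousOn.integrableOn_compact (isCompact_Icc.prod (isCompact_Icc (a := (0 : ℝ)) (b := 1)))).mono_set
      (Set.prod_mono le_rfl Set.Ioc_subset_Icc_self)
  have h2 := integral_integral_swap hint
  have h3 : ∫ s in Set.Ioc (0 : ℝ) 1, ∫ x in Set.Icc (0 : Fin r → ℝ) 1, ((f (x + s • l) : ℝ) : ℂ) * E x =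
      fc f k := by
    have h4 : ∀ s : ℝ, ∫ x in Set.Icc (0 : Fin r → ℝ) 1, ((f (x + s • l) : ℝ) : ℂ) * E x = fc f k := fun s => hs s
    simp only [h4]
    simp
  rw [← h3, ← h2, ← h1, h0]

end LibNC38
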