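import Mathlib

set_option autoImplicit false

open Finset

namespace LibNC38

private theorem H4_one {r : ℕ} (k : Fin r → ℤ) (β : (Fin r → ℝ) →ₗ[ℝ] ℝ)
    (hβ : ¬ ∃ c : ℝ, ∀ x, β x = c * ∑ i, (k i : ℝ) * x i) :
    ∃ u : Fin r → ℤ, ∑ i, (k i : ℝ) * (u i : ℝ) = 0 ∧ β (fun i => (u i : ℝ)) ≠ 0 := by
  classical
  by_contra hcon
  push Not at hcon
  apply hβ
  have hx : ∀ x : Fin r → ℝ, β x = ∑ i, x i * β (Pi.single i 1) := by
    intro x
    have h : x = ∑ i, x i • (Pi.single i (1 : ℝ) : Fin r → ℝ) := by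
      ext a
      simp [Finset.sum_apply, Pi.single_apply]
    conv_lhs => rw [h]
    simp [map_sum, map_smul]
  by_cases hk : ∃ a, k a ≠ 0
  · obtain ⟨a, ha⟩ := hk
    have ha' : (k a : ℝ) ≠ 0 := by exact_mod_cast ha
    refine ⟨β (Pi.single a 1) / k a, fun x => ?_⟩
    have hb : ∀ b, β (Pi.single b 1) = β (Pi.single a 1) / k a * k b := by
      intro b
      have h1 := hcon (fun i => k a * (if i = b then 1 else 0) - k b * (if i = a then 1 else 0)) (by
        simp only [Int.cast_sub, Int.cast_ite, Int.cast_zero, mul_sub,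
          Finset.sum_sub_distrib, mul_ite, mul_one, mul_zero, Finset.sum_ite_eq', Finset.mem_univ,
          if_true]
        ring)
      have h2 : (fun i => ((k a * (if i = b then 1 else 0) - k b * (if i = a then 1 else 0) : ℤ) : ℝ))
          = (k a : ℝ) • (Pi.single b (1 : ℝ) : Fin r → ℝ) - (k b : ℝ) • (Pi.single a (1 : ℝ)) := by
        ext i
        simp [Pi.single_apply]
      rw [h2, map_sub, map_smul, map_smul, smul_eq_mul, smul_eq_mul] at h1
      field_simp
      linarith
    rw [hx x, Finset.mul_sum]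
    refine Finset.sum_congr rfl fun i _ => ?_
    rw [hb i]; ring
  · push Not at hk
    refine ⟨0, fun x => ?_⟩
    rw [hx x, zero_mul]
    refine Finset.sum_eq_zero fun i _ => ?_
    have h1 := hcon (fun j => if j = i then 1 else 0) (by simp [hk])
    have h2 : (fun j => (((if j = i then 1 else 0 : ℤ)) : ℝ)) = (Pi.single i (1 : ℝ) : Fin r → ℝ) := by
      ext j
      simp [Pi.single_apply]
    rw [h2] at h1
    rw [h1, mul_zero]

/-- Row H4. If no `β j` is a multiple of the linear form `k` there is an integer vector `l` with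
`k · l = 0` and `β j l ≠ 0` for all `j`. For one `j`: the integer vectors `k a e_b - k b e_a` span
the kernel of `k`; if `β j` vanished on all of them it would be a multiple of `k` (if `k a ≠ 0`
then `β j e_b = (β j e_a / k a) k b` for all `b`; if `k = 0` use the unit vectors). Given `u j`
with `k · u j = 0`, `β j (u j) ≠ 0` take `l = ∑ j, t ^ (j+1) • u j` for an integer `t` outside the
roots of the nonzero polynomials `∑ j, β i (u j) X ^ (j+1)`. -/
theorem exists_l {r m : ℕ} (k : Fin r → ℤ) (β : Fin m → ((Fin r → ℝ) →ₗ[ℝ] ℝ))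
    (hβ : ∀ j, ¬ ∃ c : ℝ, ∀ x, β j x = c * ∑ i, (k i : ℝ) * x i) :
    ∃ l : Fin r → ℤ, ∑ i, (k i : ℝ) * (l i : ℝ) = 0 ∧ ∀ j, β j (fun i => (l i : ℝ)) ≠ 0 := by
  classical
  choose u hu1 hu2 using fun j => H4_one k (β j) (hβ j)
  let P : Fin m → Polynomial ℝ := fun i =>
    ∑ j : Fin m, Polynomial.C (β i (fun a => (u j a : ℝ))) * Polynomial.X ^ (j.1 + 1)
  have hP : ∀ i, P i ≠ 0 := by
    intro i h0
    have h1 : (P i).coeff (i.1 + 1) = β i (fun a => (u i a : ℝ)) := by
      simp only [P, Polynomial.finsetSum_coeff, Polynomial.coeff_C_mul, Polynomial.coeff_X_pow]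
      rw [Finset.sum_eq_single i]
      · simp
      · intro j _ hj
        have : ¬ (i.1 = j.1) := fun h => hj (Fin.ext h.symm)
        simp [this]
      · simp
    rw [h0, Polynomial.coeff_zero] at h1
    exact hu2 i h1.symm
  have hQ : (∏ i, P i) ≠ 0 := Finset.prod_ne_zero_iff.2 fun i _ => hP i
  obtain ⟨t, ht⟩ : ∃ t : ℕ, (∏ i, P i).eval (t : ℝ) ≠ 0 := by
    by_contra hcon
    push Not at hcon
    refine hQ (Polynomial.eq_zero_of_infinite_isRoot _ ?_)
    refine Set.Infinite.mono (s := Set.range fun t : ℕ => (t : ℝ)) ?_ ?_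
    · rintro _ ⟨t, rfl⟩
      exact hcon t
    · exact Set.infinite_range_of_injective Nat.cast_injective
  refine ⟨fun a => ∑ j : Fin m, (t : ℤ) ^ (j.1 + 1) * u j a, ?_, fun i => ?_⟩
  · have : ∀ a, (k a : ℝ) * ((∑ j : Fin m, (t : ℤ) ^ (j.1 + 1) * u j a : ℤ) : ℝ)
        = ∑ j : Fin m, (t : ℝ) ^ (j.1 + 1) * ((k a : ℝ) * (u j a : ℝ)) := by
      intro a
      push_cast
      rw [Finset.mul_sum]
      refine Finset.sum_congr rfl fun j _ => ?_
      ring
    rw [Finset.sum_congr rfl fun a _ => this a, Finset.sum_comm]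
    refine Finset.sum_eq_zero fun j _ => ?_
    rw [← Finset.mul_sum, hu1 j, mul_zero]
  · have h1 : (fun a => ((∑ j : Fin m, (t : ℤ) ^ (j.1 + 1) * u j a : ℤ) : ℝ))
        = ∑ j : Fin m, ((t : ℝ) ^ (j.1 + 1)) • (fun a => (u j a : ℝ)) := by
      ext a
      simp [Finset.sum_apply]
    rw [h1, map_sum]
    simp only [map_smul, smul_eq_mul]
    rw [Polynomial.eval_prod] at ht
    have h2 := Finset.prod_ne_zero_iff.1 ht i (Finset.mem_univ i)
    have h3 : (P i).eval (t : ℝ) = ∑ j : Fin m, (t : ℝ) ^ (j.1 + 1) * β i (fun a => (u j a : ℝ)) := by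
      simp only [P, Polynomial.eval_finsetSum, Polynomial.eval_mul, Polynomial.eval_C,
        Polynomial.eval_pow, Polynomial.eval_X]
      exact Finset.sum_congr rfl fun j _ => mul_comm _ _
    rw [h3] at h2
    exact h2

end LibNC38
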