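import Pool.Agent.LibNC38.H3
import Pool.Agent.LibNC38.H4

set_option autoImplicit false

open MeasureTheory Topology Filter Complex

namespace LibNC38

/-- iterated differences -/
def dl {V : Type*} [Add V] : List V → (V → ℝ) → V → ℝ
  | [], F => F
  | w :: L, F => fun y => dl L F (y + w) - dl L F y

private theorem H5_per {r : ℕ} (f : (Fin r → ℝ) → ℝ) (hf : Per f) (L : List (Fin r → ℝ)) :
    Per (dl L f) := by
  induction L with
  | nil => exact hf
  | cons w L ih =>
    refine ⟨?_, fun x k => ?_⟩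
    · exact (ih.1.comp (continuous_id.add continuous_const)).sub ih.1
    · change dl L f (x + _ + w) - dl L f (x + _) = dl L f (x + w) - dl L f x
      rw [ih.2, add_right_comm, ih.2]

private theorem H5_shift {r : ℕ} (f : (Fin r → ℝ) → ℝ) (hf : Per f) (w : Fin r → ℝ) :
    Per (fun x => f (x + w)) := by
  refine ⟨hf.1.comp (continuous_id.add continuous_const), fun x k => ?_⟩
  change f (x + _ + w) = f (x + w)
  rw [add_right_comm, hf.2]

private theorem H5_fc {r : ℕ} (f : (Fin r → ℝ) → ℝ) (hf : Per f) (k : Fin r → ℤ)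
    (L : List (Fin r → ℝ)) :
    fc (dl L f) k = (L.map fun w =>
      Complex.exp ((2 * Real.pi * (∑ i, (k i : ℝ) * w i) : ℝ) * I) - 1).prod * fc f k := by
  induction L with
  | nil => simp [dl]
  | cons w L ih =>
    have h1 : dl (w :: L) f = fun x => (fun x => dl L f (x + w)) x - dl L f x := rfl
    rw [h1, fc_sub _ _ (H5_shift _ (H5_per f hf L) w) (H5_per f hf L),
      fc_shift _ (H5_per f hf L), ih, List.map_cons, List.prod_cons]
    ring

/-- Row H5. `dl L f` is continuous and periodic with Fourier coefficient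
`∏ (exp (2 π i k · w) - 1) * fc f k` (H2). It vanishes for all `k`: for `k = 0` (as `0 < m`); if some
`β j` is a multiple `c k` of `k` then `c ≠ 0` and `k · w j = 0`; otherwise `fc f k = 0` by H4 and
H3. Conclude with H1. -/
theorem dl_zero {r m : ℕ} (hm : 0 < m) (f : (Fin r → ℝ) → ℝ) (hf : Per f)
    (β : Fin m → ((Fin r → ℝ) →ₗ[ℝ] ℝ)) (w : Fin m → (Fin r → ℝ)) (hw : ∀ j, β j (w j) = 0)
    (hβ : ∀ j, β j ≠ 0)
    (hx : ∀ l : Fin r → ℤ, (∀ j, β j (fun i => (l i : ℝ)) ≠ 0) →
      ∃ c, ∀ y, ∫ s in (0 : ℝ)..1, f (y + s • fun i => (l i : ℝ)) = c) :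
    ∀ y, dl (List.ofFn w) f y = 0 := by
  refine four_zero _ (H5_per f hf _) fun k => ?_
  rw [H5_fc f hf k, List.map_ofFn, List.prod_ofFn]
  have key : ∀ j, (∑ i, (k i : ℝ) * w j i) = 0 →
      (∏ j, ((fun w => Complex.exp ((2 * Real.pi * (∑ i, (k i : ℝ) * w i) : ℝ) * I) - 1) ∘ w) j)
        = 0 := by
    intro j hj
    refine Finset.prod_eq_zero (Finset.mem_univ j) ?_
    simp only [Function.comp_apply]
    rw [hj]
    simp
  by_cases hk : k = 0
  · rw [key ⟨0, hm⟩ (by simp [hk]), zero_mul]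
  by_cases hc : ∃ j, ∃ c : ℝ, ∀ x, β j x = c * ∑ i, (k i : ℝ) * x i
  · obtain ⟨j, c, hc⟩ := hc
    have hc0 : c ≠ 0 := by
      rintro rfl
      apply hβ j
      ext x
      simp [hc]
    have h2 := hc (w j)
    rw [hw j] at h2
    have h3 : (∑ i, (k i : ℝ) * w j i) = 0 := by
      rcases mul_eq_zero.1 h2.symm with h | h
      · exact absurd h hc0
      · exact h
    rw [key j h3, zero_mul]
  · push Not at hc
    obtain ⟨l, hl, hl2⟩ := exists_l k β (fun j => by
      rintro ⟨c, h⟩
      obtain ⟨x, hx⟩ := hc j c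
      exact hx (h x))
    obtain ⟨c, h⟩ := hx l hl2
    rw [fc_xray f hf (fun i => (l i : ℝ)) k hk hl c h, mul_zero]

end LibNC38
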