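import Pool.Agent.LibNC38.J2a

set_option autoImplicit false

open Matrix MeasureTheory Topology Filter

namespace LibNC38

theorem tv_comm {n : ℕ} (i j k : Fin n) (hij : i ≠ j) (hik : i ≠ k) (hkj : k ≠ j) (c : ℝ) :
    tv i k hik c * tv k j hkj 1 = tv i j hij c * (tv k j hkj 1 * tv i k hik c) := by
  apply Subtype.ext
  show Matrix.transvection i k c * Matrix.transvection k j (1 : ℝ) =
    Matrix.transvection i j c * (Matrix.transvection k j (1 : ℝ) * Matrix.transvection i k c)
  have h1 : Matrix.single i k c * Matrix.single k j (1 : ℝ) = Matrix.single i j c := by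
    rw [Matrix.single_mul_single_same, mul_one]
  have h2 : Matrix.single k j (1 : ℝ) * Matrix.single i k c = 0 :=
    Matrix.single_mul_single_of_ne _ _ _ _ (Ne.symm hij) _
  have h3 : Matrix.single i j c * Matrix.single k j (1 : ℝ) = 0 :=
    Matrix.single_mul_single_of_ne _ _ _ _ (Ne.symm hkj) _
  have h4 : Matrix.single i j c * Matrix.single i k c = 0 :=
    Matrix.single_mul_single_of_ne _ _ _ _ (Ne.symm hij) _
  unfold Matrix.transvection
  simp only [Matrix.add_mul, Matrix.mul_add, Matrix.one_mul, Matrix.mul_one, h1, h2, h3, h4,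
    add_zero]
  abel

/-- Row J2b. All root groups, if `w ≠ 0`: if `w i = w j` there is `k` with `w k ≠ w i` (the sum of
`w` is zero), and `tv i j c` is the commutator of `tv i k c` and `tv k j 1`. -/
theorem mautner_all {n : ℕ} (Γ : Subgroup (SL n)) (hc : Coc Γ) (F : SL n → ℝ) (hF : Continuous F)
    (hinv : ∀ γ ∈ Γ, ∀ g, F (γ * g) = F g) (w : V0 n) (hw : ∀ g, F (g * dgm w) = F g)
    (hw0 : w ≠ 0) (i j : Fin n) (hij : i ≠ j) (c : ℝ) (g : SL n) :
    F (g * tv i j hij c) = F g := by
  by_cases hne : w.1 i = w.1 j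
  · have hex : ∃ k, w.1 k ≠ w.1 i := by
      by_contra hall
      push Not at hall
      apply hw0
      have hs := sum_V0 w
      have h1 : ∑ k, w.1 k = (n : ℝ) * w.1 i := by
        rw [Finset.sum_congr rfl fun k _ => hall k]
        simp
      rw [h1] at hs
      have hn : (n : ℝ) ≠ 0 := by
        have : 0 < n := Nat.pos_of_ne_zero (by rintro rfl; exact i.elim0)
        positivity
      have h0 : w.1 i = 0 := by
        rcases mul_eq_zero.1 hs with h | h
        · exact absurd h hn
        · exact h
      apply Subtype.ext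
      ext k
      rw [hall k, h0]
      rfl
    obtain ⟨k, hk⟩ := hex
    have hik : i ≠ k := by rintro rfl; exact hk rfl
    have hkj : k ≠ j := by rintro rfl; exact hk hne.symm
    have hA : ∀ (c : ℝ) (g : SL n), F (g * tv i k hik c) = F g :=
      fun c g => mautner Γ hc F hF hinv w hw i k hik (Ne.symm hk) c g
    have hB : ∀ (c : ℝ) (g : SL n), F (g * tv k j hkj c) = F g :=
      fun c g => mautner Γ hc F hF hinv w hw k j hkj (by rw [← hne]; exact hk) c g
    have h1 : F (g * tv i j hij c * (tv k j hkj 1 * tv i k hik c)) = F (g * tv i j hij c) := by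
      rw [← mul_assoc, hA, hB]
    have h2 : F (g * tv i j hij c * (tv k j hkj 1 * tv i k hik c)) = F g := by
      rw [mul_assoc, ← tv_comm, ← mul_assoc, hB, hA]
    rw [← h1, h2]
  · exact mautner Γ hc F hF hinv w hw i j hij hne c g

end LibNC38
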