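import Pool.Agent.LibNC38.J1

set_option autoImplicit false

open Matrix MeasureTheory Topology Filter

namespace LibNC38

/-- transvection `1 + c e_ij` -/
def tv {n : ℕ} (i j : Fin n) (h : i ≠ j) (c : ℝ) : SL n :=
  ⟨Matrix.transvection i j c, Matrix.det_transvection_of_ne i j h c⟩

/-- conjugation of a transvection by a diagonal matrix -/
theorem tv_conj {n : ℕ} (i j : Fin n) (hij : i ≠ j) (c : ℝ) (y : V0 n) :
    tv i j hij c * dgm y = dgm y * tv i j hij (c * Real.exp (y.1 j - y.1 i)) := by
  apply Subtype.ext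
  show Matrix.transvection i j c * Matrix.diagonal (fun a => Real.exp (y.1 a)) =
    Matrix.diagonal (fun a => Real.exp (y.1 a)) *
      Matrix.transvection i j (c * Real.exp (y.1 j - y.1 i))
  ext a b
  rw [Matrix.mul_diagonal, Matrix.diagonal_mul]
  unfold Matrix.transvection
  rw [Matrix.add_apply, Matrix.add_apply, Matrix.single_apply, Matrix.single_apply]
  by_cases hab : a = b
  · subst hab
    have h1 : ¬ (i = a ∧ j = a) := fun h => hij (h.1.trans h.2.symm)
    rw [if_neg h1, if_neg h1, add_zero]
    simp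
  · rw [Matrix.one_apply_ne hab]
    by_cases h : i = a ∧ j = b
    · obtain ⟨rfl, rfl⟩ := h
      simp only [and_self, if_true, zero_add]
      rw [Real.exp_sub]
      field_simp
    · rw [if_neg h, if_neg h]
      simp

theorem tv_zero {n : ℕ} (i j : Fin n) (hij : i ≠ j) : tv i j hij 0 = 1 := by
  apply Subtype.ext
  show Matrix.transvection i j (0 : ℝ) = 1
  exact Matrix.transvection_zero i j

theorem tv_cont {n : ℕ} (i j : Fin n) (hij : i ≠ j) : Continuous fun c : ℝ => tv i j hij c := by
  refine Continuous.subtype_mk ?_ _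
  refine continuous_matrix fun a b => ?_
  unfold Matrix.transvection
  simp only [Matrix.add_apply, Matrix.single_apply]
  by_cases h : i = a ∧ j = b
  · simp only [h, and_self, if_true]; exact continuous_const.add continuous_id
  · simp only [h, if_false]; exact continuous_const

/-- Row J2 (sup norm Mautner phenomenon). `F` invariant under `e^w` on the right is invariant under
the root groups `U_ij` with `w i ≠ w j`: `e^(-m w) tv c e^(m w) = tv (c exp (m (w j - w i)))`, tends
to `1` for `m → ∞` or `m → -∞` (`m ∈ ℤ`), and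
`F (g u) - F g = F (g u e^(m w)) - F (g e^(m w)) = F ((g e^(m w)) (e^(-m w) u e^(m w))) - F (g e^(m w))`
is small by J1. -/
theorem mautner {n : ℕ} (Γ : Subgroup (SL n)) (hc : Coc Γ) (F : SL n → ℝ) (hF : Continuous F)
    (hinv : ∀ γ ∈ Γ, ∀ g, F (γ * g) = F g) (w : V0 n) (hw : ∀ g, F (g * dgm w) = F g)
    (i j : Fin n) (hij : i ≠ j) (hne : w.1 i ≠ w.1 j) (c : ℝ) (g : SL n) :
    F (g * tv i j hij c) = F g := by
  -- invariance under the multiples of `w`
  obtain ⟨-, hadd, -, -, -, -, -, -, -, -, -, hz⟩ := @flat_facts n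
  have hnat : ∀ (m : ℕ) (g : SL n), F (g * dgm (m • w)) = F g := by
    intro m
    induction m with
    | zero => intro g; rw [zero_smul, hz, mul_one]
    | succ m ih => intro g; rw [succ_nsmul, hadd, ← mul_assoc, hw, ih]
  have hneg : ∀ (m : ℕ) (g : SL n), F (g * dgm (m • (-w))) = F g := by
    intro m g
    have h1 : dgm (m • (-w)) * dgm (m • w) = 1 := by
      rw [← hadd, smul_neg, neg_add_cancel, hz]
    rw [← hnat m (g * dgm (m • (-w))), mul_assoc, h1, mul_one]
  -- general step
  have main : ∀ z : V0 n, (∀ (m : ℕ) (g : SL n), F (g * dgm (m • z)) = F g) → z.1 j < z.1 i →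
      F (g * tv i j hij c) = F g := by
    intro z hzinv hlt
    by_contra hcon
    have hpos : 0 < |F (g * tv i j hij c) - F g| := abs_pos.2 (sub_ne_zero.2 hcon)
    obtain ⟨U, hU, hUe⟩ := (unif Γ hc F hF hinv).2 (|F (g * tv i j hij c) - F g| / 2) (by linarith)
    have hlim : Tendsto (fun m : ℕ => tv i j hij (c * Real.exp ((m • z).1 j - (m • z).1 i)))
        atTop (𝓝 (1 : SL n)) := by
      rw [← tv_zero i j hij]
      refine (tv_cont i j hij).continuousAt.tendsto.comp ?_
      have h2 : Tendsto (fun m : ℕ => c * Real.exp (-((z.1 i - z.1 j) * m))) atTop (𝓝 (c * 0)) := by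
        refine Tendsto.const_mul c ?_
        refine Real.tendsto_exp_neg_atTop_nhds_zero.comp ?_
        exact tendsto_natCast_atTop_atTop.const_mul_atTop (by linarith)
      rw [mul_zero] at h2
      refine h2.congr fun m => ?_
      congr 2
      have e1 : (m • z).1 j = (m : ℝ) * z.1 j := by
        simp [nsmul_eq_mul]
      have e2 : (m • z).1 i = (m : ℝ) * z.1 i := by
        simp [nsmul_eq_mul]
      rw [e1, e2]; ring
    obtain ⟨m, hm⟩ := (hlim.eventually_mem hU).exists
    have h3 := hUe (g * dgm (m • z)) _ hm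
    rw [mul_assoc, ← tv_conj, ← mul_assoc, hzinv, hzinv] at h3
    linarith
  rcases lt_or_gt_of_ne hne with h | h
  · refine main (-w) hneg ?_
    show -(w.1 j) < -(w.1 i)
    linarith
  · exact main w hnat h

end LibNC38
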