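import Pool.Agent.LibNC38.J3

set_option autoImplicit false

open Matrix MeasureTheory Topology Filter

namespace LibNC38

/-- iterated differences along the flow of the flats -/
noncomputable def gdl {n : ℕ} : List (V0 n) → (SL n → ℝ) → SL n → ℝ
  | [], F => F
  | w :: L, F => fun g => gdl L F (g * dgm w) - gdl L F g

private theorem J4_cont {n : ℕ} (F : SL n → ℝ) (hF : Continuous F) (L : List (V0 n)) :
    Continuous (gdl L F) := by
  induction L with
  | nil => exact hF
  | cons w L ih =>
    have h1 : Continuous fun g : SL n => g * dgm w := continuous_id.mul continuous_const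
    exact (ih.comp h1).sub ih

private theorem J4_inv {n : ℕ} (Γ : Subgroup (SL n)) (F : SL n → ℝ)
    (hinv : ∀ γ ∈ Γ, ∀ g, F (γ * g) = F g) (L : List (V0 n)) (γ : SL n) (hγ : γ ∈ Γ) (g : SL n) :
    gdl L F (γ * g) = gdl L F g := by
  induction L generalizing g with
  | nil => exact hinv γ hγ g
  | cons w L ih =>
    change gdl L F (γ * g * dgm w) - gdl L F (γ * g) = gdl L F (g * dgm w) - gdl L F g
    rw [mul_assoc, ih, ih]

private theorem J4_pow {n : ℕ} (H : SL n → ℝ) (u : SL n) (c : ℝ) (h : ∀ g, H (g * u) = H g + c)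
    (m : ℕ) : H (u ^ m) = H 1 + m * c := by
  induction m with
  | zero => simp
  | succ m ih =>
    rw [pow_succ, h, ih]
    push_cast
    ring

private theorem J4_zero {c B : ℝ} (h : ∀ m : ℕ, |(m : ℝ) * c| ≤ B) : c = 0 := by
  by_contra hc
  have hc' : 0 < |c| := abs_pos.2 hc
  obtain ⟨m, hm⟩ := exists_nat_gt (B / |c|)
  have h1 := h m
  rw [abs_mul, Nat.abs_cast] at h1
  rw [div_lt_iff₀ hc'] at hm
  linarith

/-- Row J4a. A function right invariant under `e^w`, `w ≠ 0`, is constant (J2b, J3:
`Subgroup.closure_induction`). -/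
theorem const_of_inv {n : ℕ} (Γ : Subgroup (SL n)) (hc : Coc Γ) (F : SL n → ℝ) (hF : Continuous F)
    (hinv : ∀ γ ∈ Γ, ∀ g, F (γ * g) = F g) (w : V0 n) (hw : ∀ g, F (g * dgm w) = F g)
    (hw0 : w ≠ 0) (g : SL n) : F g = F 1 := by
  let S : Subgroup (SL n) :=
    { carrier := {h | ∀ g, F (g * h) = F g}
      one_mem' := fun g => by rw [mul_one]
      mul_mem' := fun {a b} ha hb g => by
        rw [← mul_assoc]
        exact (hb (g * a)).trans (ha g)
      inv_mem' := fun {a} ha g => by
        have h1 := ha (g * a⁻¹)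
        rw [inv_mul_cancel_right] at h1
        exact h1.symm }
  have h1 : Subgroup.closure {g : SL n | ∃ (i j : Fin n) (h : i ≠ j) (c : ℝ), g = tv i j h c} ≤ S := by
    rw [Subgroup.closure_le]
    rintro _ ⟨i, j, hij, c, rfl⟩
    intro g
    exact mautner_all Γ hc F hF hinv w hw hw0 i j hij c g
  rw [gen_tv] at h1
  have h2 : g ∈ S := h1 (Subgroup.mem_top g)
  have h3 := h2 1
  rwa [one_mul] at h3

/-- Row J4b (peeling). If `gdl L F` is constant then `F` is constant, by induction on `L`
generalizing nothing but the constant: `gdl (w :: L) F = c` means `H (g e^w) = H g + c` for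
`H = gdl L F`, which is continuous, left invariant and bounded (J1), so `c = 0`
(`H (g e^(m w)) = H g + m c`), `H` is constant by J4a, and the induction hypothesis applies. -/
theorem peel {n : ℕ} (Γ : Subgroup (SL n)) (hc : Coc Γ) (F : SL n → ℝ) (hF : Continuous F)
    (hinv : ∀ γ ∈ Γ, ∀ g, F (γ * g) = F g) (L : List (V0 n)) (hL : ∀ w ∈ L, w ≠ 0) (c : ℝ)
    (h : ∀ g, gdl L F g = c) (g : SL n) : F g = F 1 := by
  induction L generalizing c with
  | nil =>
    have h1 : F g = c := h g
    have h2 : F 1 = c := h 1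
    rw [h1, h2]
  | cons w L ih =>
    have hcont := J4_cont F hF L
    have hGi := J4_inv Γ F hinv L
    obtain ⟨⟨B, hB⟩, -⟩ := unif Γ hc (gdl L F) hcont hGi
    have hs : ∀ g, gdl L F (g * dgm w) = gdl L F g + c := by
      intro g
      have h1 : gdl L F (g * dgm w) - gdl L F g = c := h g
      linarith
    have hc0 : c = 0 := by
      apply J4_zero (B := B + B)
      intro m
      have h1 := J4_pow (gdl L F) (dgm w) c hs m
      have h2 : (m : ℝ) * c = gdl L F (dgm w ^ m) - gdl L F 1 := by linarith
      rw [h2]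
      exact (abs_sub _ _).trans (add_le_add (hB _) (hB _))
    have hs' : ∀ g, gdl L F (g * dgm w) = gdl L F g := by
      intro g
      rw [hs g, hc0, add_zero]
    have hconst := const_of_inv Γ hc (gdl L F) hcont hGi w hs' (hL w List.mem_cons_self)
    exact ih (fun v hv => hL v (List.mem_cons_of_mem w hv)) (gdl L F 1) hconst

end LibNC38
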