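import Pool.Agent.LibNC38.C3

set_option autoImplicit false

open Matrix MeasureTheory Topology Filter

namespace LibNC38

/-- Row K1 (Arzelà-Ascoli). `Γ`-invariant `C`-Lipschitz functions with values in `[0, 1]`, taking the
values `0` and `1`. With `Q` compact from `Coc Γ` every point is `act γ⁻¹ (act q (o n))`, `q ∈ Q`
(write the point as `act g (o n)`, B3), so everything is determined on the compact set
`K = {act q (o n)}`; move the points `p k, q k` into `K`. Arzelà-Ascoli on `K`
(`BoundedContinuousFunction.arzela_ascoli` or a diagonal argument on a countable dense set), the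
limit extends by invariance. -/
theorem arz {n : ℕ} (Γ : Subgroup (SL n)) (hc : Coc Γ) (C : ℝ) (hC : 0 ≤ C)
    (φ : ℕ → PD n → ℝ) (h0 : ∀ k x, 0 ≤ φ k x) (h1 : ∀ k x, φ k x ≤ 1)
    (hL : ∀ k x x', φ k x - φ k x' ≤ C * dg x x')
    (hi : ∀ k, ∀ γ ∈ Γ, ∀ x, φ k (act γ x) = φ k x)
    (hp : ∀ k, ∃ p q, φ k p = 1 ∧ φ k q = 0) :
    ∃ (s : ℕ → ℕ) (φ' : PD n → ℝ), StrictMono s ∧
      (∀ ε > 0, ∀ᶠ k in atTop, ∀ x, |φ (s k) x - φ' x| ≤ ε) ∧ ∃ p q, φ' p = 1 ∧ φ' q = 0 := by
  classical
  obtain ⟨Q, hQ, hQc⟩ := hc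
  obtain ⟨hact1, hact2, hact3⟩ := @act_facts n
  -- the compact set
  have hcont : Continuous fun q : SL n => act q (o n) :=
    hact3.comp (continuous_id.prodMk continuous_const)
  set K : Set (PD n) := (fun q : SL n => act q (o n)) '' Q with hK
  have hKc : IsCompact K := hQ.image hcont
  have : CompactSpace K := isCompact_iff_compactSpace.mp hKc
  have hmove : ∀ x : PD n, ∃ γ ∈ Γ, act γ x ∈ K := by
    intro x
    obtain ⟨t, -, -, ht⟩ := chol x
    obtain ⟨γ, hγ, hq⟩ := hQc t
    refine ⟨γ, hγ, γ * t, hq, ?_⟩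
    rw [ht]
    exact hact2 γ t (o n)
  choose γ hγ hγK using hmove
  -- Lipschitz in both directions
  have hsym : ∀ p q : PD n, dg p q = dg q p := (@dg_facts n).2.2.1
  have hL' : ∀ k x x', |φ k x - φ k x'| ≤ C * dg x x' := by
    intro k x x'
    rw [abs_le]
    constructor
    · have := hL k x' x
      rw [hsym x' x] at this
      linarith
    · exact hL k x x'
  have hnear : ∀ (x : PD n) (ε : ℝ), 0 < ε → ∀ᶠ y in 𝓝 x, ∀ k, |φ k x - φ k y| < ε := by
    intro x ε hε
    have hC1 : 0 < C + 1 := by linarith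
    filter_upwards [(dg_nhds x).2 (ε / (C + 1)) (by positivity)] with y hy k
    have hd0 : 0 ≤ dg x y := (@dg_facts n).1 x y
    calc |φ k x - φ k y| ≤ C * dg x y := hL' k x y
      _ ≤ (C + 1) * dg x y := by nlinarith
      _ < (C + 1) * (ε / (C + 1)) := by
        exact mul_lt_mul_of_pos_left hy hC1
      _ = ε := by field_simp
  have hφc : ∀ k, Continuous (φ k) := by
    intro k
    rw [Metric.continuous_iff']
    intro x ε hε
    filter_upwards [hnear x ε hε] with y hy
    rw [Real.dist_eq, abs_sub_comm]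
    exact hy k
  -- restrictions to `K`
  let f : ℕ → BoundedContinuousFunction K ℝ := fun k =>
    BoundedContinuousFunction.mkOfCompact ⟨fun x : K => φ k x.1, (hφc k).comp continuous_subtype_val⟩
  have hf : ∀ k (x : K), f k x = φ k x.1 := fun k x => rfl
  have hcomp : IsCompact (closure (Set.range f)) := by
    refine BoundedContinuousFunction.arzela_ascoli (Set.Icc (0 : ℝ) 1) isCompact_Icc (Set.range f)
      ?_ ?_
    · rintro g x ⟨k, rfl⟩
      rw [hf]
      exact ⟨h0 k _, h1 k _⟩
    · intro x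
      rw [Metric.equicontinuousAt_iff_right]
      intro ε hε
      have h := (continuous_subtype_val.tendsto x).eventually (hnear x.1 ε hε)
      filter_upwards [h] with y hy i
      obtain ⟨g, k, rfl⟩ := i
      rw [Real.dist_eq]
      exact hy k
  obtain ⟨f', -, s, hs, hlim⟩ := hcomp.tendsto_subseq (x := f)
    (fun k => subset_closure (Set.mem_range_self k))
  -- the limit function
  refine ⟨s, fun x => f' ⟨act (γ x) x, hγK x⟩, hs, ?_, ?_⟩
  · intro ε hε
    have h2 := (Metric.tendsto_nhds.1 hlim) ε hε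
    filter_upwards [h2] with k hk x
    have h3 : φ (s k) x = f (s k) ⟨act (γ x) x, hγK x⟩ := by
      rw [hf]
      exact (hi (s k) (γ x) (hγ x) x).symm
    rw [h3, ← Real.dist_eq]
    exact (BoundedContinuousFunction.dist_coe_le_dist _).trans hk.le
  · -- values on `K`
    have hev : ∀ x : K, Tendsto (fun k => f (s k) x) atTop (𝓝 (f' x)) := fun x =>
      ((continuous_eval_const (F := BoundedContinuousFunction K ℝ) x).tendsto f').comp hlim
    have hval : ∀ x : K, f' ⟨act (γ x.1) x.1, hγK x.1⟩ = f' x := by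
      intro x
      have e1 := hev ⟨act (γ x.1) x.1, hγK x.1⟩
      have e2 := hev x
      have e3 : (fun k => f (s k) ⟨act (γ x.1) x.1, hγK x.1⟩) = fun k => f (s k) x := by
        funext k
        rw [hf, hf]
        exact hi (s k) (γ x.1) (hγ x.1) x.1
      rw [e3] at e1
      exact tendsto_nhds_unique e1 e2
    have hne : Nonempty K := by
      obtain ⟨p, q, -, -⟩ := hp 0
      exact ⟨⟨act (γ p) p, hγK p⟩⟩
    have hle1 : ∀ x : K, f' x ≤ 1 := by
      intro x
      exact le_of_tendsto' (hev x) fun k => h1 (s k) x.1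
    have hge0 : ∀ x : K, 0 ≤ f' x := by
      intro x
      exact ge_of_tendsto' (hev x) fun k => h0 (s k) x.1
    obtain ⟨x1, -, hx1⟩ := isCompact_univ.exists_isMaxOn (Set.univ_nonempty (α := K))
      f'.continuous.continuousOn
    obtain ⟨x0, -, hx0⟩ := isCompact_univ.exists_isMinOn (Set.univ_nonempty (α := K))
      f'.continuous.continuousOn
    refine ⟨x1.1, x0.1, ?_, ?_⟩
    · show f' ⟨act (γ x1.1) x1.1, hγK x1.1⟩ = 1
      rw [hval x1]
      refine le_antisymm (hle1 x1) ?_
      by_contra hlt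
      push Not at hlt
      have hε : 0 < 1 - f' x1 := by linarith
      obtain ⟨k, hk⟩ := ((Metric.tendsto_nhds.1 hlim) (1 - f' x1) hε).exists
      obtain ⟨p, q, hp1, -⟩ := hp (s k)
      have h4 : f (s k) ⟨act (γ p) p, hγK p⟩ = 1 := by
        rw [hf]
        exact (hi (s k) (γ p) (hγ p) p).trans hp1
      have h5 := (BoundedContinuousFunction.dist_coe_le_dist (f := f (s k)) (g := f')
        (⟨act (γ p) p, hγK p⟩ : K)).trans_lt hk
      rw [Real.dist_eq, h4] at h5
      have h6 : f' ⟨act (γ p) p, hγK p⟩ ≤ f' x1 := hx1 (Set.mem_univ _)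
      have h7 := (abs_lt.1 h5).2
      linarith
    · show f' ⟨act (γ x0.1) x0.1, hγK x0.1⟩ = 0
      rw [hval x0]
      refine le_antisymm ?_ (hge0 x0)
      by_contra hlt
      push Not at hlt
      obtain ⟨k, hk⟩ := ((Metric.tendsto_nhds.1 hlim) (f' x0) hlt).exists
      obtain ⟨p, q, -, hq0⟩ := hp (s k)
      have h4 : f (s k) ⟨act (γ q) q, hγK q⟩ = 0 := by
        rw [hf]
        exact (hi (s k) (γ q) (hγ q) q).trans hq0
      have h5 := (BoundedContinuousFunction.dist_coe_le_dist (f := f (s k)) (g := f')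
        (⟨act (γ q) q, hγK q⟩ : K)).trans_lt hk
      rw [Real.dist_eq, h4] at h5
      have h6 : f' x0 ≤ f' ⟨act (γ q) q, hγK q⟩ := hx0 (Set.mem_univ _)
      have h7 := (abs_lt.1 h5).1
      linarith

end LibNC38
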