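import Pool.Agent.LibNC38.C1

set_option autoImplicit false

open Matrix MeasureTheory Topology Filter

namespace LibNC38

private theorem K2_geod {Y : Type*} (d d' : Y → Y → ℝ) (r : ℝ) (hr : 0 < r)
    (hd : ∀ p q, d' p q = r * d p q) (L : ℝ) (c : ℝ → Y) (h : IsGeod d' L c) :
    IsGeod d (L / r) (fun s => c (r * s)) := by
  intro t ht
  have hrt : r * t ∈ Set.Icc 0 L := by
    refine ⟨mul_nonneg hr.le ht.1, ?_⟩
    have := mul_le_mul_of_nonneg_left ht.2 hr.le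
    rwa [mul_div_cancel₀ _ hr.ne'] at this
  obtain ⟨ε, hε, H⟩ := h (r * t) hrt
  refine ⟨ε / r, div_pos hε hr, fun u hu v hv hut hvt => ?_⟩
  have hmem : ∀ w, w ∈ Set.Icc 0 (L / r) → r * w ∈ Set.Icc 0 L := by
    intro w hw
    refine ⟨mul_nonneg hr.le hw.1, ?_⟩
    have := mul_le_mul_of_nonneg_left hw.2 hr.le
    rwa [mul_div_cancel₀ _ hr.ne'] at this
  have habs : ∀ a b : ℝ, |r * a - r * b| = r * |a - b| := by
    intro a b
    rw [← mul_sub, abs_mul, abs_of_pos hr]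
  have h1 : |r * u - r * t| < ε := by
    rw [habs]
    rw [lt_div_iff₀ hr] at hut
    linarith
  have h2 : |r * v - r * t| < ε := by
    rw [habs]
    rw [lt_div_iff₀ hr] at hvt
    linarith
  have h3 := H (r * u) (hmem u hu) (r * v) (hmem v hv) h1 h2
  rw [hd, habs] at h3
  exact mul_left_cancel₀ hr.ne' h3

/-- Row K2a. Conjugate points do not depend on the scale: `dr (r ρ) = r dr ρ` (C1), a geodesic `c` on
`[0, L]` for one corresponds to `t ↦ c (t / r)` on `[0, r L]` for the other. -/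
theorem nc_smul {n : ℕ} (ρ : PD n → ℝ) (c1 c2 : ℝ) (h : Gd ρ c1 c2) (r : ℝ) (hr : 0 < r)
    (hnc : NoConj (dr ρ)) : NoConj (dr fun x => r * ρ x) := by
  intro L L' c c' hL hL' hc hc' h0 h1 hne
  have hd : ∀ p q, dr (fun x => r * ρ x) p q = r * dr ρ p q := dr_smul ρ c1 c2 h r hr
  have g1 := K2_geod (dr ρ) _ r hr hd L c hc
  have g2 := K2_geod (dr ρ) _ r hr hd L' c' hc'
  have hrL : ∀ M : ℝ, r * (M / r) = M := fun M => mul_div_cancel₀ _ hr.ne'
  obtain ⟨e1, e2⟩ := hnc (L / r) (L' / r) _ _ (div_pos hL hr) (div_pos hL' hr) g1 g2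
    (by simpa using h0) (by simpa only [hrL] using h1)
    (by
      intro h
      apply hne
      simpa only [hrL, mul_zero] using h)
  refine ⟨?_, fun t ht => ?_⟩
  · have := congrArg (fun x => r * x) e1
    simpa only [hrL] using this
  · have h3 := e2 (t / r) ⟨div_nonneg ht.1 hr.le, div_le_div_of_nonneg_right ht.2 hr.le⟩
    simpa only [hrL] using h3

private theorem K2_cont {n : ℕ} (h : SL n) : Continuous (act h) := by
  refine Continuous.subtype_mk ?_ _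
  exact (continuous_const.matrix_mul continuous_subtype_val).matrix_mul continuous_const

private theorem K2_inj {n : ℕ} (h : SL n) (p q : PD n) (e : act h p = act h q) : p = q := by
  have e1 : h.1 * p.1 * h.1ᵀ = h.1 * q.1 * h.1ᵀ := congrArg Subtype.val e
  have hdet : IsUnit h.1.det := by rw [h.2]; exact isUnit_one
  have hdetT : IsUnit h.1ᵀ.det := by rw [Matrix.det_transpose, h.2]; exact isUnit_one
  apply Subtype.ext
  have e2 : h.1⁻¹ * (h.1 * p.1 * h.1ᵀ) * h.1ᵀ⁻¹ = h.1⁻¹ * (h.1 * q.1 * h.1ᵀ) * h.1ᵀ⁻¹ := by rw [e1]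
  have aux : ∀ m : Matrix (Fin n) (Fin n) ℝ, h.1⁻¹ * (h.1 * m * h.1ᵀ) * h.1ᵀ⁻¹ = m := by
    intro m
    calc h.1⁻¹ * (h.1 * m * h.1ᵀ) * h.1ᵀ⁻¹ = (h.1⁻¹ * h.1) * m * (h.1ᵀ * h.1ᵀ⁻¹) := by
          simp only [Matrix.mul_assoc]
      _ = m := by
          rw [Matrix.nonsing_inv_mul _ hdet, Matrix.mul_nonsing_inv _ hdetT, Matrix.one_mul,
            Matrix.mul_one]
  rwa [aux, aux] at e2

/-- Row K2b. Nor on the choice of the base point: `act h` is an isometry from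
`dr (ρ ∘ act h)` to `dr ρ` (C1 dr_act). -/
theorem nc_act {n : ℕ} (ρ : PD n → ℝ) (c1 c2 : ℝ) (hG : Gd ρ c1 c2) (h : SL n)
    (hnc : NoConj (dr ρ)) : NoConj (dr fun x => ρ (act h x)) := by
  have hG' : Gd (fun x => ρ (act h x)) c1 c2 :=
    ⟨hG.cont.comp (K2_cont h), hG.pos, fun x => hG.lo _, fun x => hG.hi _⟩
  have hd : ∀ p q, dr ρ (act h p) (act h q) = dr (fun x => ρ (act h x)) p q :=
    fun p q => dr_act (fun x => ρ (act h x)) ρ c1 c2 hG' h (fun x => rfl) p q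
  have hgeo : ∀ (L : ℝ) (c : ℝ → PD n), IsGeod (dr fun x => ρ (act h x)) L c →
      IsGeod (dr ρ) L (fun t => act h (c t)) := by
    intro L c hc t ht
    obtain ⟨ε, hε, H⟩ := hc t ht
    refine ⟨ε, hε, fun u hu v hv h1 h2 => ?_⟩
    rw [hd]
    exact H u hu v hv h1 h2
  intro L L' c c' hL hL' hc hc' h0 h1 hne
  obtain ⟨e1, e2⟩ := hnc L L' _ _ hL hL' (hgeo L c hc) (hgeo L' c' hc')
    (by simp only [h0]) (by simp only [h1]) (fun e => hne (K2_inj h _ _ e))
  exact ⟨e1, fun t ht => K2_inj h _ _ (e2 t ht)⟩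

end LibNC38
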