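import Pool.Agent.LibNC38.B1

set_option autoImplicit false

open Matrix MeasureTheory Topology Filter

namespace LibNC38

/-- the conjugate subgroup `h⁻¹ Γ h` -/
def cj {n : ℕ} (h : SL n) (Γ : Subgroup (SL n)) : Subgroup (SL n) :=
  Γ.comap (MulAut.conj h).toMonoidHom

theorem mem_cj {n : ℕ} (h γ : SL n) (Γ : Subgroup (SL n)) : γ ∈ cj h Γ ↔ h * γ * h⁻¹ ∈ Γ :=
  Iff.rfl

/-- Row K3. It is discrete and cocompact with `Γ`. -/
theorem cj_facts {n : ℕ} (h : SL n) (Γ : Subgroup (SL n)) (hd : Disc Γ) (hc : Coc Γ) :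
    Disc (cj h Γ) ∧ Coc (cj h Γ) := by
  constructor
  · obtain ⟨U, hU, hUd⟩ := hd
    have hcont : Continuous fun g : SL n => h * g * h⁻¹ := by fun_prop
    refine ⟨(fun g : SL n => h * g * h⁻¹) ⁻¹' U, ?_, ?_⟩
    · apply hcont.continuousAt.preimage_mem_nhds
      simpa using hU
    · intro γ hγ hγU
      have h1 : h * γ * h⁻¹ = 1 := hUd _ ((mem_cj h γ Γ).1 hγ) hγU
      have h2 : h * γ = h := by
        rw [mul_inv_eq_one] at h1
        exact h1
      simpa using h2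
  · obtain ⟨Q, hQ, hQc⟩ := hc
    refine ⟨(fun g : SL n => h⁻¹ * g) '' Q, hQ.image (by fun_prop), ?_⟩
    intro g
    obtain ⟨γ, hγ, hγQ⟩ := hQc (h * g)
    refine ⟨h⁻¹ * γ * h, ?_, γ * (h * g), hγQ, ?_⟩
    · rw [mem_cj]
      have : h * (h⁻¹ * γ * h) * h⁻¹ = γ := by group
      rw [this]
      exact hγ
    · simp only [mul_assoc]

end LibNC38
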