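import Pool.Agent.LibNC38.F2
import Pool.Agent.LibNC38.K2
import Pool.Agent.LibNC38.K3

set_option autoImplicit false

open Matrix MeasureTheory Topology Filter

namespace LibNC38

/-- Row K4a. A blow up sequence seen from another base point (`dg_act`, K2b; `φ k (act h (act γ x))
= φ k (act (h γ h⁻¹) (act h x))`). -/
theorem blow_cj {n : ℕ} (Γ : Subgroup (SL n)) (C : ℝ) (φ : ℕ → PD n → ℝ) (φ' : PD n → ℝ)
    (δ : ℕ → ℝ) (h : Blow Γ C φ φ' δ) (g : SL n) :
    Blow (cj g Γ) C (fun k x => φ k (act g x)) (fun x => φ' (act g x)) δ := by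
  obtain ⟨-, -, -, -, -, -, hGd, -⟩ := blow_facts Γ C φ φ' δ h
  have key : ∀ (γ : SL n) (x : PD n), act g (act γ x) = act (g * γ * g⁻¹) (act g x) := by
    intro γ x
    apply Subtype.ext
    have e1 : ((g * γ * g⁻¹ : SL n) * g : SL n) = g * γ := by group
    have e2 : ((g * γ * g⁻¹ : SL n)).1 * g.1 = g.1 * γ.1 := by
      rw [← Matrix.SpecialLinearGroup.coe_mul, e1, Matrix.SpecialLinearGroup.coe_mul]
    change g.1 * (γ.1 * x.1 * γ.1ᵀ) * g.1ᵀ =
      (g * γ * g⁻¹ : SL n).1 * (g.1 * x.1 * g.1ᵀ) * ((g * γ * g⁻¹ : SL n).1)ᵀ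
    have e3 : (g * γ * g⁻¹ : SL n).1 * (g.1 * x.1 * g.1ᵀ) * ((g * γ * g⁻¹ : SL n).1)ᵀ =
        ((g * γ * g⁻¹ : SL n).1 * g.1) * x.1 * ((g * γ * g⁻¹ : SL n).1 * g.1)ᵀ := by
      rw [Matrix.transpose_mul]
      simp only [Matrix.mul_assoc]
    rw [e3, e2, Matrix.transpose_mul]
    simp only [Matrix.mul_assoc]
  refine ⟨h.C0, h.pos, h.lim, fun k x => h.nonneg k _, fun k x => h.le_one k _, ?_, ?_, ?_, ?_⟩
  · intro k x x'
    have := h.lip k (act g x) (act g x')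
    rwa [dg_act] at this
  · intro k γ hγ x
    rw [mem_cj] at hγ
    change φ k (act g (act γ x)) = φ k (act g x)
    rw [key]
    exact h.inv k _ hγ _
  · intro ε hε
    filter_upwards [h.unif ε hε] with k hk x
    exact hk _
  · intro k
    exact nc_act (fun x => Real.exp (δ k * φ k x)) 1 (Real.exp (δ k)) (hGd k) g (h.nc k)

end LibNC38
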