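import Pool.Agent.LibNC38.K4
import Pool.Agent.LibNC38.G6
import Pool.Agent.LibNC38.G6a
import Pool.Agent.LibNC38.G7
import Pool.Agent.LibNC38.H1

set_option autoImplicit false

open Matrix MeasureTheory Topology Filter

namespace LibNC38

/-- Row K5b. The limit function on a closed regular flat through `h`. `Γ' = cj h Γ` is discrete and
cocompact (K3) and contains the regular diagonal `α`; G6 gives `R`, G6a finiteness, G7 the
coordinates `e`. `f x = φ' (act h (sg (e x)))` is periodic: `φ' ∘ act h` is `Γ'`-invariant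
(blow_facts of K4a) and `act γ (sg y) = sg (y + w)` for `IsLog γ w` (B1). If `z = e l` has distinct
coordinates and `IsLog γ z`, `γ ∈ Γ'`, then `Reg γ`, and F2 (`xray_const`) for `Γ'` and the blow up
of K4a gives the constant. -/
theorem flat_fn {n : ℕ} (hn : 2 ≤ n) (Γ : Subgroup (SL n)) (hd : Disc Γ) (hc : Coc Γ) (C : ℝ)
    (φ : ℕ → PD n → ℝ) (φ' : PD n → ℝ) (δ : ℕ → ℝ) (hB : Blow Γ C φ φ' δ) (h α : SL n)
    (hα : IsDiag α) (hr : Reg α) (hαΓ : h * α * h⁻¹ ∈ Γ) :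
    ∃ e : (Fin (n - 1) → ℝ) ≃L[ℝ] V0 n, Per (fun x => φ' (act h (sg (e x)))) ∧
      ∀ l : Fin (n - 1) → ℤ, (∀ i i', i ≠ i' → (e fun i => (l i : ℝ)).1 i ≠ (e fun i => (l i : ℝ)).1 i') →
        ∃ c, ∀ y, ∫ s in (0 : ℝ)..1, φ' (act h (sg (e (y + s • fun i => (l i : ℝ))))) = c := by
  have hαΓ' : α ∈ cj h Γ := (mem_cj h α Γ).2 hαΓ
  obtain ⟨hd', hc'⟩ := cj_facts h Γ hd hc
  obtain ⟨R, hR⟩ := selberg (cj h Γ) hd' hc' α hα hr hαΓ'
  obtain ⟨e, he⟩ := lat_basis (by omega) (cj h Γ) (fun R => log_disc (cj h Γ) hd' R) R hR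
  have hB' := blow_cj Γ C φ φ' δ hB h
  have hf := blow_facts (cj h Γ) C _ _ δ hB'
  have hinv := hf.2.2.2.2.2.1
  have hflat := (flat_facts (n := n)).2.2.2.1
  have hsg : Continuous (sg : V0 n → PD n) := (flat_facts (n := n)).2.2.2.2.2.2.2.2.1
  refine ⟨e, ⟨?_, ?_⟩, ?_⟩
  · exact hf.2.1.comp (hsg.comp e.continuous)
  · intro x k
    obtain ⟨γ, hγ, hlog⟩ := (he (e fun i => (k i : ℝ))).2 ⟨k, rfl⟩
    have h1 : sg (e (x + fun i => (k i : ℝ))) = act γ (sg (e x)) := by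
      rw [map_add, hflat γ _ (e x) hlog]
    change φ' (act h (sg (e (x + fun i => (k i : ℝ))))) = φ' (act h (sg (e x)))
    rw [h1]
    exact hinv γ hγ (sg (e x))
  · intro l hl
    obtain ⟨γ, hγ, hlog⟩ := (he (e fun i => (l i : ℝ))).2 ⟨l, rfl⟩
    have hreg : Reg γ := by
      intro i j hij heq
      apply hl i j hij
      rw [hlog.2 i, hlog.2 j, heq]
    obtain ⟨c, hc2⟩ := xray_const hn (cj h Γ) C _ _ δ hB' γ hγ _ hlog hreg R hR
    refine ⟨c, fun y => ?_⟩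
    rw [← hc2 (e y)]
    congr 1
    funext s
    rw [map_add, map_smul]

end LibNC38
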