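import Pool.Agent.LibNC38.K5a
import Pool.Agent.LibNC38.K5b

set_option autoImplicit false

open Matrix MeasureTheory Topology Filter

namespace LibNC38

/-- Row K5. On a closed regular flat through `h` the iterated difference vanishes. K5b gives `e` and
`f x = φ' (act h (sg (e x)))`; `β j x = (e x) (a j) - (e x) (b j)` is linear, nonzero because
`a j ≠ b j` and `e` is onto, and vanishes at `e.symm (w j)`. If `β j l ≠ 0` for all `j` then by
`hall` `e l` has distinct coordinates, so H5 (`dl_zero`) applies: `dl (ofFn (e.symm ∘ w)) f = 0`.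
Then `dl_map` (K5a) for `e` and `gdl_dl` at `y = 0` (`sg (0 + ..)`, `act (h * dgm y) (o n)
= act h (sg y)`). -/
theorem gdl_zero_at {n : ℕ} (hn : 2 ≤ n) (Γ : Subgroup (SL n)) (hd : Disc Γ) (hc : Coc Γ) (C : ℝ)
    (φ : ℕ → PD n → ℝ) (φ' : PD n → ℝ) (δ : ℕ → ℝ) (hB : Blow Γ C φ φ' δ) (h α : SL n)
    (hα : IsDiag α) (hr : Reg α) (hαΓ : h * α * h⁻¹ ∈ Γ) {m : ℕ} (hm : 0 < m)
    (a b : Fin m → Fin n) (hab : ∀ j, a j ≠ b j)
    (hall : ∀ i i' : Fin n, i ≠ i' → ∃ j, (a j = i ∧ b j = i') ∨ (a j = i' ∧ b j = i))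
    (w : Fin m → V0 n) (hw : ∀ j, (w j).1 (a j) = (w j).1 (b j)) :
    gdl (List.ofFn w) (fun g => φ' (act g (o n))) h = 0 := by
  classical
  obtain ⟨e, hper, hx⟩ := flat_fn hn Γ hd hc C φ φ' δ hB h α hα hr hαΓ
  obtain ⟨ha1, ha2, -⟩ := act_facts (n := n)
  have hdg0 : dgm (0 : V0 n) = 1 := flat_facts.2.2.2.2.2.2.2.2.2.2.2
  let β : Fin m → ((Fin (n - 1) → ℝ) →ₗ[ℝ] ℝ) := fun j =>
    { toFun := fun x => (e x).1 (a j) - (e x).1 (b j)
      map_add' := by
        intro x y
        rw [map_add]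
        simp only [Submodule.coe_add, PiLp.add_apply]
        ring
      map_smul' := by
        intro c x
        rw [map_smul]
        simp only [Submodule.coe_smul, PiLp.smul_apply, smul_eq_mul, RingHom.id_apply]
        ring }
  have hβv : ∀ j x, β j x = (e x).1 (a j) - (e x).1 (b j) := fun j x => rfl
  have hw' : ∀ j, β j (e.symm (w j)) = 0 := by
    intro j
    rw [hβv, ContinuousLinearEquiv.apply_symm_apply, hw j, sub_self]
  have hβ0 : ∀ j, β j ≠ 0 := by
    intro j h0
    let y : V0 n := ⟨WithLp.toLp 2 (fun i => (if i = a j then (1 : ℝ) else 0) -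
      (if i = b j then (1 : ℝ) else 0)), by
        change ∑ i, _ = (0 : ℝ)
        simp [Finset.sum_sub_distrib]⟩
    have h1 : β j (e.symm y) = 2 := by
      rw [hβv, ContinuousLinearEquiv.apply_symm_apply]
      change ((if a j = a j then (1 : ℝ) else 0) - (if a j = b j then (1 : ℝ) else 0)) -
        ((if b j = a j then (1 : ℝ) else 0) - (if b j = b j then (1 : ℝ) else 0)) = 2
      rw [if_pos rfl, if_neg (hab j), if_neg (fun h => hab j h.symm), if_pos rfl]
      norm_num
    rw [h0] at h1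
    simp at h1
  have hx' : ∀ l : Fin (n - 1) → ℤ, (∀ j, β j (fun i => (l i : ℝ)) ≠ 0) →
      ∃ c, ∀ y, ∫ s in (0 : ℝ)..1,
        (fun x => φ' (act h (sg (e x)))) (y + s • fun i => (l i : ℝ)) = c := by
    intro l hl
    apply hx l
    intro i i' hii
    obtain ⟨j, hj | hj⟩ := hall i i' hii
    · have := hl j
      rw [hβv, hj.1, hj.2] at this
      exact sub_ne_zero.1 this
    · have := hl j
      rw [hβv, hj.1, hj.2] at this
      exact (sub_ne_zero.1 this).symm
  have hz := dl_zero hm (fun x => φ' (act h (sg (e x)))) hper β (fun j => e.symm (w j)) hw' hβ0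
    hx' 0
  have h1 := gdl_dl (List.ofFn w) (fun g => φ' (act g (o n))) h 0
  rw [hdg0, mul_one] at h1
  rw [h1]
  have h2 : (fun y : V0 n => φ' (act (h * dgm y) (o n))) = fun y => φ' (act h (sg y)) := by
    funext y
    rw [ha2]
    rfl
  have h3 := dl_map (e.toLinearEquiv.toLinearMap.toAddMonoidHom : (Fin (n - 1) → ℝ) →+ V0 n)
    (List.ofFn fun j => e.symm (w j)) (fun y => φ' (act h (sg y))) 0
  have h4 : (List.ofFn fun j => e.symm (w j)).map
      (e.toLinearEquiv.toLinearMap.toAddMonoidHom : (Fin (n - 1) → ℝ) →+ V0 n) = List.ofFn w := by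
    rw [List.map_ofFn]
    congr 1
    funext j
    exact e.apply_symm_apply (w j)
  rw [h4, map_zero] at h3
  rw [h2, ← h3]
  exact hz

end LibNC38
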