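import Pool.Agent.LibNC38.B1
import Pool.Agent.LibNC38.H5
import Pool.Agent.LibNC38.J4

set_option autoImplicit false

open Matrix MeasureTheory Topology Filter

namespace LibNC38

/-- Row K5a. Restriction of the iterated differences to a flat (`dgm_add`, B1). -/
theorem gdl_dl {n : ℕ} (L : List (V0 n)) (F : SL n → ℝ) (h : SL n) (y : V0 n) :
    gdl L F (h * dgm y) = dl L (fun y => F (h * dgm y)) y := by
  induction L generalizing y with
  | nil => rfl
  | cons w L ih =>
    change gdl L F (h * dgm y * dgm w) - gdl L F (h * dgm y) =
      dl L (fun y => F (h * dgm y)) (y + w) - dl L (fun y => F (h * dgm y)) y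
    rw [← ih (y + w), ← ih y, flat_facts.2.1 y w, mul_assoc]

/-- Row K5a. Iterated differences and a linear change of coordinates. -/
theorem dl_map {V W : Type*} [AddCommGroup V] [AddCommGroup W] (e : W →+ V) (L : List W)
    (F : V → ℝ) (x : W) : dl L (fun x => F (e x)) x = dl (L.map e) F (e x) := by
  induction L generalizing x with
  | nil => rfl
  | cons w L ih =>
    change dl L (fun x => F (e x)) (x + w) - dl L (fun x => F (e x)) x =
      dl (L.map e) F (e x + e w) - dl (L.map e) F (e x)
    rw [ih (x + w), ih x, map_add]

end LibNC38
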