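import Pool.Agent.LibNC38.Main

set_option autoImplicit false

open Matrix MeasureTheory Topology Filter

namespace LibNC38

/-- Row M1. A `Γ`-invariant Lipschitz function attains its bounds (cocompactness). -/
theorem exists_osc {n : ℕ} (Γ : Subgroup (SL n)) (hc : Coc Γ) (f : PD n → ℝ) (K : ℝ)
    (hL : ∀ p q, f p - f q ≤ K * dg p q) (hinv : ∀ γ ∈ Γ, ∀ x, f (act γ x) = f x) :
    ∃ a b, (∀ x, f x ≤ f a) ∧ ∀ x, f b ≤ f x := by
  obtain ⟨d0, d1, d2, d3⟩ := @dg_facts n
  have fcont : Continuous f := by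
    rw [continuous_iff_continuousAt]
    intro x
    rw [ContinuousAt, Metric.tendsto_nhds]
    intro ε hε
    have hpos : 0 < ε / (|K| + 1) := by positivity
    filter_upwards [(dg_nhds x).2 _ hpos] with y hy
    have h1 := hL x y
    have h2 := hL y x
    rw [d2 y x] at h2
    have h3 : (|K| + 1) * dg x y < ε := by
      rw [lt_div_iff₀ (by positivity)] at hy
      linarith
    have h4 := d0 x y
    have h5 : K * dg x y ≤ |K| * dg x y := mul_le_mul_of_nonneg_right (le_abs_self K) h4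
    rw [Real.dist_eq, abs_lt]
    constructor <;> linarith
  obtain ⟨Q, hQ, hQ2⟩ := hc
  have hcomp : Continuous fun g : SL n => f (act g (o n)) :=
    fcont.comp ((@act_facts n).2.2.comp (continuous_id.prodMk continuous_const))
  have hQne : Q.Nonempty := by
    obtain ⟨γ, -, hγ⟩ := hQ2 1
    exact ⟨_, hγ⟩
  obtain ⟨a, haQ, ha⟩ := hQ.exists_isMaxOn hQne hcomp.continuousOn
  obtain ⟨b, hbQ, hb⟩ := hQ.exists_isMinOn hQne hcomp.continuousOn
  have key : ∀ x : PD n, ∃ g ∈ Q, f x = f (act g (o n)) := by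
    intro x
    obtain ⟨g, z, hx, -⟩ := two_pts x x
    obtain ⟨γ, hγ, hγQ⟩ := hQ2 g
    refine ⟨γ * g, hγQ, ?_⟩
    rw [(@act_facts n).2.1, ← hx, hinv γ hγ]
  refine ⟨act a (o n), act b (o n), fun x => ?_, fun x => ?_⟩
  · obtain ⟨g, hg, hx⟩ := key x
    rw [hx]
    exact ha hg
  · obtain ⟨g, hg, hx⟩ := key x
    rw [hx]
    exact hb hg

end LibNC38
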