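import Pool.Agent.LibNC38.K6
import Pool.Agent.LibNC38.K1

set_option autoImplicit false

open Matrix MeasureTheory Topology Filter

namespace LibNC38

/-- The main theorem. -/
theorem local_conformal_rigidity {n : ℕ} (hn : 3 ≤ n) (Γ : Subgroup (SL n)) (hd : Disc Γ)
    (hc : Coc Γ) (C : ℝ) :
    ∃ ε > 0, ∀ f : PD n → ℝ, (∀ γ ∈ Γ, ∀ x, f (act γ x) = f x) →
      ∀ δ : ℝ, 0 < δ → δ ≤ ε → (∀ p q, f p - f q ≤ δ) → (∃ p q, f p - f q = δ) →
        (∀ p q, f p - f q ≤ C * δ * dg p q) →
          ¬ NoConj (dr fun x => Real.exp (f x)) := by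
  by_contra hcon
  push Not at hcon
  have hex : ∀ k : ℕ, ∃ (f : PD n → ℝ) (δ : ℝ) (p q : PD n), (∀ γ ∈ Γ, ∀ x, f (act γ x) = f x) ∧
      0 < δ ∧ δ ≤ 1 / ((k : ℝ) + 1) ∧ (∀ p q, f p - f q ≤ δ) ∧ f p - f q = δ ∧
      (∀ p q, f p - f q ≤ C * δ * dg p q) ∧ NoConj (dr fun x => Real.exp (f x)) := by
    intro k
    obtain ⟨f, h1, δ, h2, h3, h4, ⟨p, q, h5⟩, h6, h7⟩ := hcon (1 / ((k : ℝ) + 1)) (by positivity)
    exact ⟨f, δ, p, q, h1, h2, h3, h4, h5, h6, h7⟩
  choose f δ p q hinv hδ0 hδ hosc hpq hlip hnc using hex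
  obtain ⟨d0, d1, d2, d3⟩ := @dg_facts n
  -- the constant may be assumed nonnegative
  have hC : 0 ≤ C := by
    have h := hlip 0 (p 0) (q 0)
    rw [hpq 0] at h
    by_contra hC
    push Not at hC
    have : C * δ 0 * dg (p 0) (q 0) ≤ 0 :=
      mul_nonpos_of_nonpos_of_nonneg (mul_nonpos_of_nonpos_of_nonneg hC.le (hδ0 0).le) (d0 _ _)
    linarith [hδ0 0]
  let φ : ℕ → PD n → ℝ := fun k x => (f k x - f k (q k)) / δ k
  have φ0 : ∀ k x, 0 ≤ φ k x := by
    intro k x
    have h1 := hosc k (p k) x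
    have h2 := hpq k
    exact div_nonneg (by linarith) (hδ0 k).le
  have φ1 : ∀ k x, φ k x ≤ 1 := by
    intro k x
    have h1 := hosc k x (q k)
    exact (div_le_one (hδ0 k)).2 h1
  have φL : ∀ k x x', φ k x - φ k x' ≤ C * dg x x' := by
    intro k x x'
    have h1 := hlip k x x'
    have : φ k x - φ k x' = (f k x - f k x') / δ k := by
      simp only [φ]; ring
    rw [this, div_le_iff₀ (hδ0 k)]
    linarith
  have φi : ∀ k, ∀ γ ∈ Γ, ∀ x, φ k (act γ x) = φ k x := by
    intro k γ hγ x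
    simp only [φ, hinv k γ hγ x]
  have φp : ∀ k, ∃ p q, φ k p = 1 ∧ φ k q = 0 := by
    intro k
    refine ⟨p k, q k, ?_, ?_⟩
    · simp only [φ, hpq k]
      exact div_self (hδ0 k).ne'
    · simp [φ]
  obtain ⟨s, φ', hs, hu, a, b, ha, hb⟩ := arz Γ hc C hC φ φ0 φ1 φL φi φp
  have hδlim : Tendsto δ atTop (𝓝 0) :=
    squeeze_zero (fun k => (hδ0 k).le) hδ tendsto_one_div_add_atTop_nhds_zero_nat
  -- continuity of the functions
  have fcont : ∀ k, Continuous (f k) := by
    intro k
    rw [continuous_iff_continuousAt]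
    intro x
    rw [ContinuousAt, Metric.tendsto_nhds]
    intro ε hε
    have hpos : 0 < ε / (C * δ k + 1) := by
      have : 0 ≤ C * δ k := mul_nonneg hC (hδ0 k).le
      positivity
    filter_upwards [(dg_nhds x).2 _ hpos] with y hy
    have hCd : 0 ≤ C * δ k := mul_nonneg hC (hδ0 k).le
    have h1 := hlip k x y
    have h2 := hlip k y x
    rw [d2 y x] at h2
    have h3 : (C * δ k + 1) * dg x y < ε := by
      rw [lt_div_iff₀ (by positivity)] at hy
      linarith
    have h4 := d0 x y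
    rw [Real.dist_eq, abs_lt]
    constructor <;> nlinarith
  have hB : Blow Γ C (fun k => φ (s k)) φ' (fun k => δ (s k)) := by
    refine ⟨hC, fun k => hδ0 _, hδlim.comp hs.tendsto_atTop, fun k => φ0 _, fun k => φ1 _,
      fun k => φL _, fun k => φi _, hu, fun k => ?_⟩
    have hG : Gd (fun x => Real.exp (f (s k) x))
        (Real.exp (f (s k) (q (s k)))) (Real.exp (f (s k) (p (s k)))) := by
      refine ⟨(Real.continuous_exp.comp (fcont _)), Real.exp_pos _, fun x => ?_, fun x => ?_⟩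
      · apply Real.exp_le_exp.2
        have h1 := hosc (s k) (p (s k)) x
        have h2 := hpq (s k)
        linarith
      · apply Real.exp_le_exp.2
        have h1 := hosc (s k) x (q (s k))
        have h2 := hpq (s k)
        linarith
    have h1 := nc_smul _ _ _ hG (Real.exp (-(f (s k) (q (s k))))) (Real.exp_pos _) (hnc (s k))
    have h2 : (fun x => Real.exp (-(f (s k) (q (s k)))) * Real.exp (f (s k) x)) =
        fun x => Real.exp (δ (s k) * φ (s k) x) := by
      funext x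
      rw [← Real.exp_add]
      congr 1
      simp only [φ]
      have := (hδ0 (s k)).ne'
      field_simp
      ring
    rw [h2] at h1
    exact h1
  have := blow_const hn Γ hd hc C _ φ' _ hB a b
  rw [ha, hb] at this
  exact one_ne_zero this

end LibNC38
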