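import Pool.Agent.LibNC38.D3

set_option autoImplicit false

open Matrix MeasureTheory Topology Filter

namespace LibNC38

/-- strict convexity of the euclidean norm -/
private theorem N1_convex {n : ℕ} (a z : V0 n) (t : ℝ) (ht0 : 0 ≤ t) (ht1 : t ≤ 1)
    (h1 : ‖a‖ ≤ t * ‖z‖) (h2 : ‖z - a‖ ≤ (1 - t) * ‖z‖) : a = t • z := by
  have e1 : ‖a - t • z‖ ^ 2 = ‖a‖ ^ 2 - 2 * (t * inner ℝ a z) + t ^ 2 * ‖z‖ ^ 2 := by
    have hin : inner ℝ a (t • z) = t * inner ℝ a z := real_inner_smul_right a z t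
    rw [norm_sub_sq_real, norm_smul, hin, Real.norm_eq_abs, mul_pow, sq_abs]
  have e2 : ‖z - a‖ ^ 2 = ‖z‖ ^ 2 - 2 * inner ℝ a z + ‖a‖ ^ 2 := by
    rw [norm_sub_sq_real, real_inner_comm]
  have f1 : ‖a‖ ^ 2 ≤ t ^ 2 * ‖z‖ ^ 2 := by
    have := pow_le_pow_left₀ (norm_nonneg a) h1 2
    rwa [mul_pow] at this
  have f2 : ‖z - a‖ ^ 2 ≤ (1 - t) ^ 2 * ‖z‖ ^ 2 := by
    have := pow_le_pow_left₀ (norm_nonneg _) h2 2
    rwa [mul_pow] at this
  have f3 : ‖a - t • z‖ ^ 2 ≤ 0 := by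
    rw [e1]
    rw [e2] at f2
    have g1 : t * (‖z‖ ^ 2 + ‖a‖ ^ 2 - (1 - t) ^ 2 * ‖z‖ ^ 2) ≤ t * (2 * inner ℝ a z) :=
      mul_le_mul_of_nonneg_left (by linarith) ht0
    have g2 : 0 ≤ (1 - t) * (t ^ 2 * ‖z‖ ^ 2 - ‖a‖ ^ 2) :=
      mul_nonneg (by linarith) (by linarith)
    nlinarith [g1, g2]
  have f4 : ‖a - t • z‖ = 0 := by
    have := sq_nonneg ‖a - t • z‖
    exact pow_eq_zero_iff (two_ne_zero) |>.1 (le_antisymm f3 this)
  exact sub_eq_zero.1 (norm_eq_zero.1 f4)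

private theorem N1_len {n : ℕ} (p q : PD n) (g : SL n) (z : V0 n) (hp : p = act g (o n))
    (hq : q = act g (sg z)) : dg p q = 2 * ‖z‖ := by
  have h0 : sg (0 : V0 n) = o n := flat_facts.2.2.2.2.2.2.2.2.2.2.1
  rw [hp, hq, ← h0, dg_flat, zero_sub, norm_neg]

/-- Row N1a. Minimizing geodesics of the symmetric metric with given endpoints are unique:
position `p = act g (o n)`, `q = act g (sg z)` (B7 two_pts), `L = dg p q = 2 ‖z‖`. If
`c : [0, L] → PD n` is isometric with `c 0 = p`, `c L = q`, put `m = act g⁻¹ (c u)`: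
`2 ‖Pr m‖ ≤ dg (o n) m = u`, `2 ‖z - Pr m‖ ≤ L - u` (Pr_lip_dg, dg_act), so by strict convexity
`Pr m = (u / L) • z` and `dg (o n) m ≤ 2 ‖Pr m‖`, so `m = sg ((u / L) • z)` by D3. -/
theorem seg_unique {n : ℕ} (p q : PD n) (g : SL n) (z : V0 n) (hp : p = act g (o n))
    (hq : q = act g (sg z)) (hpq : p ≠ q) (c : ℝ → PD n) (h0 : c 0 = p) (hL : c (dg p q) = q)
    (hc : ∀ u ∈ Set.Icc 0 (dg p q), ∀ v ∈ Set.Icc 0 (dg p q), dg (c u) (c v) = |u - v|) :
    ∀ u ∈ Set.Icc 0 (dg p q), c u = act g (sg ((u / dg p q) • z)) := by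
  have h0' : sg (0 : V0 n) = o n := flat_facts.2.2.2.2.2.2.2.2.2.2.1
  have hlen : dg p q = 2 * ‖z‖ := N1_len p q g z hp hq
  have hz : z ≠ 0 := by
    rintro rfl
    apply hpq
    rw [hp, hq, h0']
  have hzn : 0 < ‖z‖ := norm_pos_iff.2 hz
  set L := dg p q with hLdef
  have hLpos : 0 < L := by rw [hlen]; positivity
  intro u hu
  have hact : ∀ x : PD n, act g (act g⁻¹ x) = x := by
    intro x
    rw [← act_facts.2.1, mul_inv_cancel, act_facts.1]
  set m : PD n := act g⁻¹ (c u) with hm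
  have hgm : act g m = c u := hact (c u)
  have d1 : dg (o n) m = u := by
    rw [← dg_act g (o n) m, hgm, ← hp, ← h0, hc 0 ⟨le_rfl, hLpos.le⟩ u hu, zero_sub, abs_neg,
      abs_of_nonneg hu.1]
  have d2 : dg m (sg z) = L - u := by
    rw [← dg_act g m (sg z), hgm, ← hq, ← hL, hc u hu L ⟨hLpos.le, le_rfl⟩, abs_sub_comm,
      abs_of_nonneg (by linarith [hu.2])]
  have hPrsg : ∀ y : V0 n, Pr (sg y) = y := Pr_facts.2.2.2.1
  have hPro : Pr (o n) = 0 := by rw [← h0']; exact hPrsg 0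
  have k1 : 2 * ‖Pr m‖ ≤ u := by
    have := Pr_lip_dg (o n) m
    rwa [hPro, sub_zero, d1] at this
  have k2 : 2 * ‖z - Pr m‖ ≤ L - u := by
    have := Pr_lip_dg m (sg z)
    rwa [hPrsg, d2] at this
  have hLz : L = 2 * ‖z‖ := hlen
  have htz : u / L * ‖z‖ = u / 2 := by
    rw [hLz]; field_simp
  have hPm : Pr m = (u / L) • z := by
    apply N1_convex
    · exact div_nonneg hu.1 hLpos.le
    · rw [div_le_one hLpos]; exact hu.2
    · rw [htz]; linarith
    · rw [sub_mul, htz, one_mul]; linarith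
  have hnorm : 2 * ‖Pr m‖ = u := by
    rw [hPm, norm_smul, Real.norm_eq_abs, abs_of_nonneg (div_nonneg hu.1 hLpos.le), htz]; ring
  have hflat : m = sg (Pr m) := eq_flat m (by rw [d1, hnorm])
  rw [← hgm, hflat, hPm]

/-- Row N1b. A map that is isometric on `[a, b]`, `a < b`, is there a line
`u ↦ act g (sg (u • z))`, `2 ‖z‖ = 1` (N1a for `u ↦ c (a + u)`; replace `g` by
`g * dgm (-(a • z))`). -/
theorem seg_line {n : ℕ} (c : ℝ → PD n) (a b : ℝ) (hab : a < b)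
    (hc : ∀ u ∈ Set.Icc a b, ∀ v ∈ Set.Icc a b, dg (c u) (c v) = |u - v|) :
    ∃ (g : SL n) (z : V0 n), 2 * ‖z‖ = 1 ∧ ∀ u ∈ Set.Icc a b, c u = act g (sg (u • z)) := by
  have hLd : dg (c a) (c b) = b - a := by
    rw [hc a ⟨le_rfl, hab.le⟩ b ⟨hab.le, le_rfl⟩, abs_sub_comm, abs_of_nonneg (by linarith)]
  have hLpos : 0 < b - a := by linarith
  obtain ⟨g₀, z₀, hg1, hg2⟩ := two_pts (c a) (c b)
  have hne : c a ≠ c b := by
    intro h
    rw [h, dg_facts.2.1] at hLd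
    linarith
  have hlen := N1_len (c a) (c b) g₀ z₀ hg1 hg2
  have key := seg_unique (c a) (c b) g₀ z₀ hg1 hg2 hne (fun u => c (a + u)) (by simp)
    (by rw [hLd]; simp)
    (by
      intro u hu v hv
      rw [hLd] at hu hv
      have := hc (a + u) ⟨by linarith [hu.1], by linarith [hu.2]⟩ (a + v)
        ⟨by linarith [hv.1], by linarith [hv.2]⟩
      rw [this]
      congr 1
      ring)
  rw [hLd] at key hlen
  set z : V0 n := (1 / (b - a)) • z₀ with hz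
  refine ⟨g₀ * dgm (-(a • z)), z, ?_, ?_⟩
  · rw [hz, norm_smul, Real.norm_eq_abs, abs_of_pos (by positivity)]
    have : ‖z₀‖ = (b - a) / 2 := by linarith
    rw [this]
    field_simp
  · intro u hu
    have h1 := key (u - a) ⟨by linarith [hu.1], by linarith [hu.2]⟩
    have h2 : c u = act g₀ (sg (((u - a) / (b - a)) • z₀)) := by
      have h3 : a + (u - a) = u := by ring
      simp only [h3] at h1
      exact h1
    rw [act_facts.2.1, flat_facts.2.2.2.1 (dgm (-(a • z))) (-(a • z)) (u • z)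
      (flat_facts.2.2.1 _), h2]
    congr 2
    rw [hz, ← sub_eq_add_neg, ← sub_smul, smul_smul]
    congr 1
    ring

end LibNC38
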