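import Pool.Agent.LibNC38.B1

set_option autoImplicit false

open Matrix MeasureTheory Topology Filter

namespace LibNC38

private noncomputable def entF {n : ℕ} (g : SL n) (z : V0 n) (i j : Fin n) (u : ℝ) : ℝ :=
  ∑ k, g.1 i k * (Real.exp (u * z.1 k) * Real.exp (u * z.1 k)) * g.1 j k

private theorem entF_eq {n : ℕ} (g : SL n) (z : V0 n) (i j : Fin n) (u : ℝ) :
    (act g (sg (u • z))).1 i j = entF g z i j u := by
  have hd : (sg (u • z)).1 = Matrix.diagonal fun k => Real.exp (u * z.1 k) * Real.exp (u * z.1 k) := by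
    show (dgm (u • z)).1 * (1 : Matrix (Fin n) (Fin n) ℝ) * (dgm (u • z)).1ᵀ = _
    rw [mul_one]
    show Matrix.diagonal _ * (Matrix.diagonal _)ᵀ = _
    rw [Matrix.diagonal_transpose, Matrix.diagonal_mul_diagonal]
    rfl
  show (g.1 * (sg (u • z)).1 * g.1ᵀ) i j = _
  rw [hd, Matrix.mul_apply]
  unfold entF
  refine Finset.sum_congr rfl fun k _ => ?_
  rw [Matrix.mul_diagonal, Matrix.transpose_apply]

private theorem entF_an {n : ℕ} (g : SL n) (z : V0 n) (i j : Fin n) :
    AnalyticOnNhd ℝ (entF g z i j) Set.univ := by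
  intro x _
  unfold entF
  have h : ∀ k, AnalyticAt ℝ (fun u : ℝ => Real.exp (u * z.1 k)) x := fun k =>
    (analyticAt_id.mul analyticAt_const).rexp
  exact Finset.univ.analyticAt_fun_sum fun k _ =>
    ((analyticAt_const.mul ((h k).mul (h k))).mul analyticAt_const)

/-- Row N2. Two lines that agree on an interval agree everywhere: the entries of
`act g (sg (u • z))` are finite sums of exponentials `exp (2 u z k)`, analytic in `u`
(`AnalyticOnNhd.eqOn_of_preconnected_of_eventuallyEq` at an interior point of the interval). -/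
theorem line_ext {n : ℕ} (g g' : SL n) (z z' : V0 n) (a b : ℝ) (hab : a < b)
    (h : ∀ u ∈ Set.Icc a b, act g (sg (u • z)) = act g' (sg (u • z'))) (u : ℝ) :
    act g (sg (u • z)) = act g' (sg (u • z')) := by
  apply Subtype.ext
  ext i j
  rw [entF_eq, entF_eq]
  refine (entF_an g z i j).eqOn_of_preconnected_of_eventuallyEq (entF_an g' z' i j)
    isPreconnected_univ (Set.mem_univ ((a + b) / 2)) ?_ (Set.mem_univ u)
  filter_upwards [Icc_mem_nhds (by linarith : a < (a + b) / 2) (by linarith : (a + b) / 2 < b)]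
    with v hv
  rw [← entF_eq, ← entF_eq, h v hv]

end LibNC38
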