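import Pool.Agent.LibNC38.N1
import Pool.Agent.LibNC38.N2

set_option autoImplicit false

open Matrix MeasureTheory Topology Filter

namespace LibNC38

/-- Row N3a. A local geodesic of the symmetric metric on `[0, L]` is a line: by compactness of
`[0, L]` (Lebesgue number) it is isometric on every subinterval of length `δ`; N1b on
`[j δ / 2, (j + 2) δ / 2]`, N2 on the overlaps. (Or continuous induction: the supremum of all `t`
such that `c` is a line on `[0, t]`.) -/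
theorem geod_line {n : ℕ} (L : ℝ) (hL : 0 < L) (c : ℝ → PD n)
    (h : IsGeod (dg : PD n → PD n → ℝ) L c) :
    ∃ (g : SL n) (z : V0 n), 2 * ‖z‖ = 1 ∧ ∀ u ∈ Set.Icc 0 L, c u = act g (sg (u • z)) := by
  have hloc : ∀ t ∈ Set.Icc 0 L, ∃ ε > 0, ∀ a b, a < b → 0 ≤ a → b ≤ L → t - ε < a → b < t + ε →
      ∃ (g : SL n) (z : V0 n), 2 * ‖z‖ = 1 ∧ ∀ u ∈ Set.Icc a b, c u = act g (sg (u • z)) := by
    intro t ht
    obtain ⟨ε, hε, h1⟩ := h t ht
    refine ⟨ε, hε, fun a b hab ha hb h2 h3 => seg_line c a b hab ?_⟩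
    intro u hu v hv
    exact h1 u ⟨ha.trans hu.1, hu.2.trans hb⟩ v ⟨ha.trans hv.1, hv.2.trans hb⟩
      (abs_lt.2 ⟨by linarith [hu.1], by linarith [hu.2]⟩)
      (abs_lt.2 ⟨by linarith [hv.1], by linarith [hv.2]⟩)
  let S : Set ℝ := {T | 0 < T ∧ T ≤ L ∧ ∃ (g : SL n) (z : V0 n), 2 * ‖z‖ = 1 ∧
    ∀ u ∈ Set.Icc 0 T, c u = act g (sg (u • z))}
  have hne : S.Nonempty := by
    obtain ⟨ε, hε, h1⟩ := hloc 0 ⟨le_rfl, hL.le⟩
    have hm : 0 < min (ε / 2) L := lt_min (by positivity) hL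
    refine ⟨min (ε / 2) L, hm, min_le_right _ _, h1 0 _ hm le_rfl (min_le_right _ _)
      (by linarith) ?_⟩
    have := min_le_left (ε / 2) L
    linarith
  have hbd : BddAbove S := ⟨L, fun T hT => hT.2.1⟩
  obtain ⟨T, hTdef⟩ : ∃ T, T = sSup S := ⟨_, rfl⟩
  have hT0 : 0 < T := by
    obtain ⟨x, hx⟩ := hne
    rw [hTdef]
    exact lt_of_lt_of_le hx.1 (le_csSup hbd hx)
  have hTL : T ≤ L := by
    rw [hTdef]
    exact csSup_le hne fun T hT => hT.2.1
  obtain ⟨ε, hε, h1⟩ := hloc T ⟨hT0.le, hTL⟩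
  have ha : max (T - ε / 2) 0 < T := max_lt (by linarith) hT0
  obtain ⟨T', hT'S, hT'⟩ := exists_lt_of_lt_csSup hne (hTdef ▸ ha)
  have hT'T : T' ≤ T := by
    rw [hTdef]
    exact le_csSup hbd hT'S
  rw [← hTdef] at hT'
  have hTb : T ≤ min (T + ε / 2) L := le_min (by linarith) hTL
  obtain ⟨g', z', hz', h2⟩ := h1 (max (T - ε / 2) 0) (min (T + ε / 2) L) (ha.trans_le hTb)
    (le_max_right _ _) (min_le_right _ _)
    (by have := le_max_left (T - ε / 2) 0; linarith)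
    (by have := min_le_left (T + ε / 2) L; linarith)
  obtain ⟨hT'0, hT'L, g, z, hz, h3⟩ := hT'S
  have h4 := line_ext g g' z z' (max (T - ε / 2) 0) T' hT' (fun u hu => by
    rw [← h3 u ⟨(le_max_right _ _).trans hu.1, hu.2⟩,
      ← h2 u ⟨hu.1, hu.2.trans (hT'T.trans hTb)⟩])
  have h5 : ∀ u ∈ Set.Icc 0 (min (T + ε / 2) L), c u = act g (sg (u • z)) := by
    intro u hu
    rcases le_total u T' with h | h
    · exact h3 u ⟨hu.1, h⟩
    · rw [h4 u]
      exact h2 u ⟨hT'.le.trans h, hu.2⟩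
  have h6 : min (T + ε / 2) L ≤ T := by
    have : min (T + ε / 2) L ∈ S := ⟨hT0.trans_le hTb, min_le_right _ _, g, z, hz, h5⟩
    have h7 := le_csSup hbd this
    rw [← hTdef] at h7
    exact h7
  have h7 : L ≤ T := by
    rcases min_le_iff.1 h6 with h | h
    · linarith
    · exact h
  have h8 : min (T + ε / 2) L = L := min_eq_right (by linarith)
  rw [h8] at h5
  exact ⟨g, z, hz, h5⟩

private theorem N3_iso {n : ℕ} (g : SL n) (z : V0 n) (hz : 2 * ‖z‖ = 1) (u v : ℝ) :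
    dg (act g (sg (u • z))) (act g (sg (v • z))) = |u - v| := by
  rw [dg_flat, ← sub_smul, norm_smul, Real.norm_eq_abs]
  calc 2 * (|u - v| * ‖z‖) = |u - v| * (2 * ‖z‖) := by ring
    _ = |u - v| := by rw [hz, mul_one]

/-- Row N3b. The symmetric metric has no conjugate points: two local geodesics `c, c'` are lines
(N3a), so isometric (dg_flat), `L = dg (c 0) (c L) = L'`, and they coincide by N1a. -/
theorem noConj_dg {n : ℕ} : NoConj (dr fun _ : PD n => (1 : ℝ)) := by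
  intro L L' c c' hL hL' hc hc' h0 hLL hne
  obtain ⟨g, z, hz, h1⟩ := geod_line L hL c hc
  obtain ⟨g', z', hz', h2⟩ := geod_line L' hL' c' hc'
  have iso1 : ∀ u ∈ Set.Icc 0 L, ∀ v ∈ Set.Icc 0 L, dg (c u) (c v) = |u - v| := by
    intro u hu v hv
    rw [h1 u hu, h1 v hv, N3_iso g z hz]
  have iso2 : ∀ u ∈ Set.Icc 0 L', ∀ v ∈ Set.Icc 0 L', dg (c' u) (c' v) = |u - v| := by
    intro u hu v hv
    rw [h2 u hu, h2 v hv, N3_iso g' z' hz']
  have d1 : dg (c 0) (c L) = L := by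
    rw [iso1 0 ⟨le_rfl, hL.le⟩ L ⟨hL.le, le_rfl⟩, zero_sub, abs_neg, abs_of_pos hL]
  have d2 : dg (c' 0) (c' L') = L' := by
    rw [iso2 0 ⟨le_rfl, hL'.le⟩ L' ⟨hL'.le, le_rfl⟩, zero_sub, abs_neg, abs_of_pos hL']
  have hLL' : L = L' := by
    rw [← d1, ← d2, h0, hLL]
  subst hLL'
  have hp : c 0 = act g (o n) := by
    rw [h1 0 ⟨le_rfl, hL.le⟩, zero_smul]
    rw [(@flat_facts n).2.2.2.2.2.2.2.2.2.2.1]
  have hq : c L = act g (sg (L • z)) := h1 L ⟨hL.le, le_rfl⟩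
  refine ⟨rfl, fun t ht => ?_⟩
  have e1 := seg_unique (c 0) (c L) g (L • z) hp hq hne c rfl (by rw [d1])
    (by rw [d1]; exact iso1) t (by rw [d1]; exact ht)
  have e2 := seg_unique (c 0) (c L) g (L • z) hp hq hne c' h0.symm (by rw [d1]; exact hLL.symm)
    (by rw [d1]; exact iso2) t (by rw [d1]; exact ht)
  rw [e1, e2]

end LibNC38
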